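import Mathlib

/-!
# Definitions: projective tensor square, spectral sets, amenability

All algebras are complex, commutative and unital here.
-/

set_option autoImplicit false

namespace Pool.Agent.H181Z.HT

open scoped TensorProduct

section Tensor

variable (A : Type) [NormedCommRing A] [NormedAlgebra ℂ A]

/-- The algebraic tensor square `A ⊗ A`, to be given the projective norm. -/
def TSq : Type := A ⊗[ℂ] A

/-- The ring structure of the algebraic tensor product. -/
noncomputable def tsqRing : CommRing (TSq A) :=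
  Algebra.TensorProduct.instCommRing (R := ℂ) (A := A) (B := A)

noncomputable instance : CommRing (TSq A) := tsqRing A

/-- The algebra structure of the algebraic tensor product. -/
noncomputable def tsqAlgebra : Algebra ℂ (TSq A) :=
  Algebra.TensorProduct.instAlgebra (R := ℂ) (A := A) (B := A)

noncomputable instance : Algebra ℂ (TSq A) := tsqAlgebra A

variable {A}

/-- The elementary tensor `a ⊗ b`. -/
noncomputable def tm0 (a b : A) : TSq A := a ⊗ₜ[ℂ] b

/-- The numbers `∑ ‖aᵢ‖ ‖bᵢ‖` over all finite representations `t = ∑ aᵢ ⊗ bᵢ`. -/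
def costs (t : TSq A) : Set ℝ :=
  {r | ∃ l : List (A × A), (l.map fun p => tm0 p.1 p.2).sum = t ∧
    (l.map fun p => ‖p.1‖ * ‖p.2‖).sum = r}

/-- The projective tensor norm. -/
noncomputable def projNorm (t : TSq A) : ℝ := sInf (costs t)

lemma costs_nonempty (t : TSq A) : (costs t).Nonempty := by
  have : ∀ s : A ⊗[ℂ] A, ∃ l : List (A × A), (l.map fun p => tm0 p.1 p.2).sum = s := by
    intro s
    induction s using TensorProduct.induction_on with
    | zero => exact ⟨[], rfl⟩
    | tmul a b => exact ⟨[(a, b)], by rw [List.map_singleton, List.sum_singleton]; rfl⟩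
    | add x y hx hy =>
      obtain ⟨l, hl⟩ := hx
      obtain ⟨m, hm⟩ := hy
      exact ⟨l ++ m, by rw [List.map_append, List.sum_append, hl, hm]; rfl⟩
  obtain ⟨l, hl⟩ := this t
  exact ⟨_, l, hl, rfl⟩

lemma costs_nonneg {t : TSq A} {r : ℝ} (h : r ∈ costs t) : 0 ≤ r := by
  obtain ⟨l, -, rfl⟩ := h
  refine List.sum_nonneg fun x hx => ?_
  obtain ⟨p, -, rfl⟩ := List.mem_map.1 hx
  positivity

lemma projNorm_le {t : TSq A} {r : ℝ} (h : r ∈ costs t) : projNorm t ≤ r :=
  csInf_le ⟨0, fun _ hs => costs_nonneg hs⟩ h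

lemma projNorm_nonneg (t : TSq A) : 0 ≤ projNorm t :=
  le_csInf (costs_nonempty t) fun _ hs => costs_nonneg hs

/-- A subadditive function that vanishes at `0` and is bounded by `C ‖a‖ ‖b‖` on elementary
tensors is bounded by `C` times the projective norm. -/
lemma le_mul_projNorm (q : TSq A → ℝ) (C : ℝ) (hC : 0 ≤ C) (h0 : q 0 ≤ 0)
    (hadd : ∀ s t, q (s + t) ≤ q s + q t) (h : ∀ a b, q (tm0 a b) ≤ C * (‖a‖ * ‖b‖))
    (t : TSq A) : q t ≤ C * projNorm t := by
  have key : ∀ l : List (A × A), q (l.map fun p => tm0 p.1 p.2).sum ≤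
      C * (l.map fun p => ‖p.1‖ * ‖p.2‖).sum := by
    intro l
    induction l with
    | nil => simpa using h0
    | cons p l ih =>
      simp only [List.map_cons, List.sum_cons, mul_add]
      exact (hadd _ _).trans (add_le_add (h _ _) ih)
  rcases hC.eq_or_lt with rfl | hC'
  · obtain ⟨r, l, hl, -⟩ := costs_nonempty t
    have := key l
    rw [hl] at this
    simpa using this
  · rw [← inv_mul_le_iff₀ hC']
    refine le_csInf (costs_nonempty t) ?_
    rintro r ⟨l, rfl, rfl⟩
    rw [inv_mul_le_iff₀ hC']
    exact key l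

lemma projNorm_tm0 (a b : A) : projNorm (tm0 a b) ≤ ‖a‖ * ‖b‖ :=
  projNorm_le ⟨[(a, b)], by simp, by simp⟩

lemma projNorm_zero : projNorm (0 : TSq A) = 0 :=
  le_antisymm (projNorm_le ⟨[], rfl, rfl⟩) (projNorm_nonneg _)

lemma projNorm_add (s t : TSq A) : projNorm (s + t) ≤ projNorm s + projNorm t := by
  have h1 : ∀ r ∈ costs s, ∀ r' ∈ costs t, projNorm (s + t) ≤ r + r' := by
    rintro r ⟨l, rfl, rfl⟩ r' ⟨m, rfl, rfl⟩
    exact projNorm_le ⟨l ++ m, by simp, by simp⟩
  have h2 : ∀ r ∈ costs s, projNorm (s + t) - r ≤ projNorm t := fun r hr =>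
    le_csInf (costs_nonempty t) fun r' hr' => by linarith [h1 r hr r' hr']
  have h3 : projNorm (s + t) - projNorm t ≤ projNorm s :=
    le_csInf (costs_nonempty s) fun r hr => by linarith [h2 r hr]
  linarith

lemma tm0_mul (a b c d : A) : tm0 a b * tm0 c d = tm0 (a * c) (b * d) :=
  Algebra.TensorProduct.tmul_mul_tmul a c b d

lemma projNorm_mul (s t : TSq A) : projNorm (s * t) ≤ projNorm s * projNorm t := by
  have h1 : ∀ a b : A, projNorm (tm0 a b * t) ≤ projNorm t * (‖a‖ * ‖b‖) := by
    intro a b
    rw [mul_comm (projNorm t)]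
    refine le_mul_projNorm (fun u => projNorm (tm0 a b * u)) _ (by positivity)
      (by simp [projNorm_zero]) (fun u w => by rw [mul_add]; exact projNorm_add _ _) ?_ t
    intro c d
    rw [tm0_mul]
    refine (projNorm_tm0 _ _).trans ?_
    calc ‖a * c‖ * ‖b * d‖ ≤ (‖a‖ * ‖c‖) * (‖b‖ * ‖d‖) :=
          mul_le_mul (norm_mul_le _ _) (norm_mul_le _ _) (norm_nonneg _) (by positivity)
      _ = _ := by ring
  rw [mul_comm (projNorm s)]
  exact le_mul_projNorm (fun u => projNorm (u * t)) _ (projNorm_nonneg t)
    (by simp [projNorm_zero]) (fun u w => by rw [add_mul]; exact projNorm_add _ _) h1 s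

lemma projNorm_smul (c : ℂ) (t : TSq A) : projNorm (c • t) ≤ ‖c‖ * projNorm t := by
  refine le_mul_projNorm (fun u => projNorm (c • u)) _ (norm_nonneg c)
    (by simp [projNorm_zero]) (fun u w => by rw [smul_add]; exact projNorm_add _ _) ?_ t
  intro a b
  have : c • tm0 a b = tm0 (c • a) b := rfl
  rw [this]
  refine (projNorm_tm0 _ _).trans ?_
  rw [norm_smul, mul_assoc]

lemma projNorm_neg (t : TSq A) : projNorm (-t) = projNorm t := by
  have h : ∀ u : TSq A, projNorm (-u) ≤ projNorm u := fun u => by
    have h := projNorm_smul (-1) u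
    rwa [show (-1 : ℂ) • u = -u from neg_one_smul ℂ u, norm_neg, norm_one, one_mul] at h
  exact le_antisymm (h t) (by simpa using h (-t))

variable (A)

/-- The projective norm as a ring seminorm. -/
noncomputable def projRingSeminorm : RingSeminorm (TSq A) where
  toFun := projNorm
  map_zero' := projNorm_zero
  add_le' := projNorm_add
  neg' := projNorm_neg
  mul_le' := projNorm_mul

noncomputable instance : SeminormedCommRing (TSq A) :=
  { (projRingSeminorm A).toSeminormedRing, (inferInstance : CommRing (TSq A)) with }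

noncomputable instance : NormedAlgebra ℂ (TSq A) where
  norm_smul_le := projNorm_smul

/-- The projective tensor product `A ⊗̂ A`: the completion of `A ⊗ A` in the projective norm. -/
abbrev PT : Type := UniformSpace.Completion (TSq A)

variable {A}

/-- The elementary tensor `a ⊗ b` in the projective tensor product. -/
noncomputable def tm (a b : A) : PT A := (tm0 a b : TSq A)

end Tensor

section Synthesis

variable (B : Type) [NormedCommRing B] [NormedAlgebra ℂ B]

/-- The Gelfand spectrum, with the weak-star topology. -/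
abbrev Spec : Type := WeakDual.characterSpace ℂ B

/-- The Jacobson radical is zero. -/
def Semisimple : Prop := (⊥ : Ideal B).jacobson = ⊥

/-- `B` is regular on its spectrum. -/
def Regular : Prop :=
  ∀ F : Set (Spec B), IsClosed F → ∀ φ : Spec B, φ ∉ F → ∃ b : B, φ b = 1 ∧ ∀ ψ ∈ F, ψ b = 0

variable {B}

/-- `I(E)`: the elements whose Gelfand transform vanishes on `E`. -/
def IE (E : Set (Spec B)) : Set B := {u | ∀ φ ∈ E, φ u = 0}

/-- `I⁰(E)`: the elements whose Gelfand transform has (closed) support disjoint from `E`. -/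
def I0 (E : Set (Spec B)) : Set B := {u | Disjoint (tsupport fun φ : Spec B => φ u) E}

/-- `E` is a spectral set. -/
def Spectral (E : Set (Spec B)) : Prop := closure (I0 E) = IE E

end Synthesis

section Main

variable (A : Type) [NormedCommRing A] [NormedAlgebra ℂ A]

/-- The diagonal `{(x, x)}` in the spectrum of `A ⊗̂ A`. -/
def diagonal : Set (Spec (PT A)) := {χ | ∃ φ : Spec A, ∀ a b : A, χ (tm a b) = φ a * φ b}

/-- `A` is hyper-Tauberian: the diagonal is spectral for `A ⊗̂ A`. -/
def HyperTauberian : Prop := Spectral (diagonal A)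

/-- `l a x = a · x` and `r a x = x · a` make `X` a Banach `A`-bimodule (not assumed unital). -/
structure IsBimodule (X : Type*) [NormedAddCommGroup X] [NormedSpace ℂ X] (l r : A → X → X) :
    Prop where
  bdd_l : IsBoundedBilinearMap ℂ fun p : A × X => l p.1 p.2
  bdd_r : IsBoundedBilinearMap ℂ fun p : A × X => r p.1 p.2
  l_mul : ∀ a b x, l (a * b) x = l a (l b x)
  r_mul : ∀ a b x, r (a * b) x = r b (r a x)
  comm : ∀ a b x, l a (r b x) = r b (l a x)

/-- `D a x = D(a)(x)` is a bounded derivation `A → X*` into the dual bimodule, in which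
`(a · f) x = f (x · a)` and `(f · a) x = f (a · x)`. -/
structure IsDualDerivation (X : Type*) [NormedAddCommGroup X] [NormedSpace ℂ X] (l r : A → X → X)
    (D : A → X → ℂ) : Prop where
  bdd : IsBoundedBilinearMap ℂ fun p : A × X => D p.1 p.2
  leibniz : ∀ a b x, D (a * b) x = D b (r a x) + D a (l b x)

/-- `A` is amenable: for every Banach `A`-bimodule `X`, every bounded derivation `D : A → X*` is
inner: `D a = a · f - f · a` for some `f` in `X*`. -/
def Amenable.{u} : Prop :=
  ∀ (X : Type u) [NormedAddCommGroup X] [NormedSpace ℂ X] [CompleteSpace X] (l r : A → X → X),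
    IsBimodule A X l r → ∀ D : A → X → ℂ, IsDualDerivation A X l r D →
      ∃ f : X → ℂ, IsBoundedLinearMap ℂ f ∧ ∀ a x, D a x = f (r a x) - f (l a x)

end Main

end Pool.Agent.H181Z.HT
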