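import Mathlib
import Pool.Agent.H181Z.HTDefs

/-!
# Tools for the projective tensor square; amenability from an approximate diagonal
-/

set_option autoImplicit false

namespace Pool.Agent.H181Z.HT

open scoped TensorProduct
open Filter Topology

variable {A : Type} [NormedCommRing A] [NormedAlgebra ℂ A]

lemma norm_tsq (t : TSq A) : ‖t‖ = projNorm t := by
  rfl

lemma norm_tm0_le (a b : A) : ‖tm0 a b‖ ≤ ‖a‖ * ‖b‖ := projNorm_tm0 a b

lemma tsq_induction {P : TSq A → Prop} (t : TSq A) (zero : P 0) (tmul : ∀ a b, P (tm0 a b))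
    (add : ∀ s t, P s → P t → P (s + t)) : P t :=
  TensorProduct.induction_on (motive := P) t zero tmul add

lemma tm0_add_left (a a' b : A) : tm0 (a + a') b = tm0 a b + tm0 a' b :=
  TensorProduct.add_tmul a a' b

lemma tm0_add_right (a b b' : A) : tm0 a (b + b') = tm0 a b + tm0 a b' :=
  TensorProduct.tmul_add a b b'

lemma tm0_smul_left (c : ℂ) (a b : A) : tm0 (c • a) b = c • tm0 a b := rfl

lemma tm0_smul_right (c : ℂ) (a b : A) : tm0 a (c • b) = c • tm0 a b :=
  TensorProduct.tmul_smul c a b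

lemma tm0_one : tm0 (1 : A) 1 = 1 := rfl

/-- `tm0` as a bilinear map -/
noncomputable def tmB : A →ₗ[ℂ] A →ₗ[ℂ] TSq A :=
  LinearMap.mk₂ ℂ tm0 tm0_add_left tm0_smul_left tm0_add_right tm0_smul_right

@[simp] lemma tmB_apply (a b : A) : tmB a b = tm0 a b := rfl

lemma tm0_sub_left (a a' b : A) : tm0 (a - a') b = tm0 a b - tm0 a' b := by
  have := map_sub (tmB (A := A)) a a'
  exact congrArg (fun f : A →ₗ[ℂ] TSq A => f b) this

lemma tm0_sub_right (a b b' : A) : tm0 a (b - b') = tm0 a b - tm0 a b' :=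
  map_sub (tmB (A := A) a) b b'

section Lift

variable {E : Type*} [SeminormedAddCommGroup E] [NormedSpace ℂ E]

/-- linear extension of a bilinear map -/
noncomputable def lft (β : A →ₗ[ℂ] A →ₗ[ℂ] E) : TSq A →ₗ[ℂ] E := TensorProduct.lift β

@[simp] lemma lft_tm0 (β : A →ₗ[ℂ] A →ₗ[ℂ] E) (a b : A) : lft β (tm0 a b) = β a b :=
  TensorProduct.lift.tmul a b

lemma norm_lft_le (β : A →ₗ[ℂ] A →ₗ[ℂ] E) (C : ℝ) (hC : 0 ≤ C)
    (h : ∀ a b, ‖β a b‖ ≤ C * (‖a‖ * ‖b‖)) (t : TSq A) : ‖lft β t‖ ≤ C * ‖t‖ :=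
  le_mul_projNorm (fun u => ‖lft β u‖) C hC (by simp)
    (fun u w => by rw [map_add]; exact norm_add_le _ _) (fun a b => by simpa using h a b) t

end Lift

section Ext

variable {E : Type*} [NormedAddCommGroup E] [NormedSpace ℂ E] [CompleteSpace E]

/-- continuous extension of a bounded bilinear map to the projective tensor product -/
noncomputable def ext (β : A →ₗ[ℂ] A →ₗ[ℂ] E) (C : ℝ) (hC : 0 ≤ C)
    (h : ∀ a b, ‖β a b‖ ≤ C * (‖a‖ * ‖b‖)) : PT A →L[ℂ] E :=
  ((lft β).mkContinuous C (norm_lft_le β C hC h)).fromCompletion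

lemma ext_coe (β : A →ₗ[ℂ] A →ₗ[ℂ] E) (C : ℝ) (hC : 0 ≤ C)
    (h : ∀ a b, ‖β a b‖ ≤ C * (‖a‖ * ‖b‖)) (t : TSq A) : ext β C hC h (t : PT A) = lft β t := by
  rw [ext, ContinuousLinearMap.fromCompletion_apply_coe]
  rfl

lemma ext_tm (β : A →ₗ[ℂ] A →ₗ[ℂ] E) (C : ℝ) (hC : 0 ≤ C)
    (h : ∀ a b, ‖β a b‖ ≤ C * (‖a‖ * ‖b‖)) (a b : A) : ext β C hC h (tm a b) = β a b := by
  rw [tm, ext_coe, lft_tm0]

lemma norm_ext_le (β : A →ₗ[ℂ] A →ₗ[ℂ] E) (C : ℝ) (hC : 0 ≤ C)
    (h : ∀ a b, ‖β a b‖ ≤ C * (‖a‖ * ‖b‖)) (t : PT A) : ‖ext β C hC h t‖ ≤ C * ‖t‖ := by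
  induction t using UniformSpace.Completion.induction_on with
  | hp => exact isClosed_le (by fun_prop) (by fun_prop)
  | ih t =>
    rw [ext_coe, UniformSpace.Completion.norm_coe]
    exact norm_lft_le β C hC h t

end Ext

/-- Induction principle for closed properties of the projective tensor product. -/
lemma pt_induction {P : PT A → Prop} (hP : IsClosed {t | P t}) (zero : P 0)
    (tmul : ∀ a b, P (tm a b)) (add : ∀ s t, P s → P t → P (s + t)) (t : PT A) : P t := by
  induction t using UniformSpace.Completion.induction_on with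
  | hp => exact hP
  | ih t =>
    refine tsq_induction (P := fun u : TSq A => P (u : PT A)) t ?_ tmul ?_
    · show P ((0 : TSq A) : PT A)
      rw [UniformSpace.Completion.coe_zero]
      exact zero
    · intro s t hs ht
      rw [UniformSpace.Completion.coe_add]
      exact add _ _ hs ht

lemma tm_mul (a b c d : A) : tm a b * tm c d = tm (a * c) (b * d) := by
  rw [tm, tm, tm, ← UniformSpace.Completion.coe_mul, tm0_mul]

lemma tm_one : tm (1 : A) 1 = 1 := by
  rw [tm, tm0_one, UniformSpace.Completion.coe_one]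

lemma norm_tm_le (a b : A) : ‖tm a b‖ ≤ ‖a‖ * ‖b‖ := by
  rw [tm, UniformSpace.Completion.norm_coe]
  exact norm_tm0_le a b

/-- `tm` as a bilinear map -/
noncomputable def tmP : A →ₗ[ℂ] A →ₗ[ℂ] PT A :=
  LinearMap.mk₂ ℂ tm
    (fun a a' b => by rw [tm, tm, tm, tm0_add_left, UniformSpace.Completion.coe_add])
    (fun c a b => by rw [tm, tm, tm0_smul_left, UniformSpace.Completion.coe_smul])
    (fun a b b' => by rw [tm, tm, tm, tm0_add_right, UniformSpace.Completion.coe_add])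
    (fun c a b => by rw [tm, tm, tm0_smul_right, UniformSpace.Completion.coe_smul])

@[simp] lemma tmP_apply (a b : A) : tmP a b = tm a b := rfl

section Mult

variable {E : Type} [NormedCommRing E] [NormedAlgebra ℂ E] [CompleteSpace E]

lemma ext_mul (β : A →ₗ[ℂ] A →ₗ[ℂ] E) (C : ℝ) (hC : 0 ≤ C)
    (h : ∀ a b, ‖β a b‖ ≤ C * (‖a‖ * ‖b‖))
    (hm : ∀ a b c d, β (a * c) (b * d) = β a b * β c d) (s t : PT A) :
    ext β C hC h (s * t) = ext β C hC h s * ext β C hC h t := by
  have h1 : ∀ a b, ext β C hC h (tm a b * t) = ext β C hC h (tm a b) * ext β C hC h t := by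
    intro a b
    refine pt_induction
      (P := fun t => ext β C hC h (tm a b * t) = ext β C hC h (tm a b) * ext β C hC h t)
      (isClosed_eq (by fun_prop) (by fun_prop)) (by simp) ?_ ?_ t
    · intro c d
      rw [tm_mul, ext_tm, ext_tm, ext_tm, hm]
    · intro s t hs ht
      rw [mul_add, map_add, map_add, hs, ht, mul_add]
  refine pt_induction
    (P := fun s => ext β C hC h (s * t) = ext β C hC h s * ext β C hC h t)
    (isClosed_eq (by fun_prop) (by fun_prop)) (by simp) h1 ?_ s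
  intro s u hs hu
  rw [add_mul, map_add, map_add, hs, hu, add_mul]

end Mult

/-- A continuous unital multiplicative functional is a point of the spectrum. -/
noncomputable def mkSpec {B : Type} [NormedCommRing B] [NormedAlgebra ℂ B] (f : B →L[ℂ] ℂ)
    (h1 : f 1 = 1) (hm : ∀ a b, f (a * b) = f a * f b) : Spec B :=
  ⟨StrongDual.toWeakDual f, by
    rw [WeakDual.CharacterSpace.eq_set_map_one_map_mul]
    exact ⟨h1, hm⟩⟩

@[simp] lemma mkSpec_apply {B : Type} [NormedCommRing B] [NormedAlgebra ℂ B] (f : B →L[ℂ] ℂ)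
    (h1 : f 1 = 1) (hm : ∀ a b, f (a * b) = f a * f b) (b : B) : mkSpec f h1 hm b = f b := rfl

/-- Amenability from a bounded approximate diagonal. -/
theorem amenable_of_diag.{u} (M : ℕ → TSq A) (K : ℝ) (hK : ∀ n, ‖M n‖ ≤ K)
    (hπ : ∀ n, lft (LinearMap.mul ℂ A) (M n) = 1)
    (hc : ∀ a : A, Tendsto (fun n => ‖tm0 a 1 * M n - tm0 1 a * M n‖) atTop (𝓝 0)) :
    Amenable.{u} A := by
  intro X _ _ _ l0 r0 hB D0 hD0
  let l : A →L[ℂ] X →L[ℂ] X := hB.bdd_l.toContinuousLinearMap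
  let r : A →L[ℂ] X →L[ℂ] X := hB.bdd_r.toContinuousLinearMap
  let D : A →L[ℂ] X →L[ℂ] ℂ := hD0.bdd.toContinuousLinearMap
  have hl : ∀ a b x, l (a * b) x = l a (l b x) := hB.l_mul
  have hr : ∀ a b x, r (a * b) x = r b (r a x) := hB.r_mul
  have hlr : ∀ a b x, l a (r b x) = r b (l a x) := hB.comm
  have hD : ∀ a b x, D (a * b) x = D b (r a x) + D a (l b x) := hD0.leibniz
  suffices h : ∃ f : X →L[ℂ] ℂ, ∀ a x, D a x = f (r a x) - f (l a x) by
    obtain ⟨f, hf⟩ := h
    exact ⟨f, f.isBoundedLinearMap, hf⟩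
  clear_value l r D
  let β : A →ₗ[ℂ] A →ₗ[ℂ] (X →L[ℂ] ℂ) :=
    LinearMap.mk₂ ℂ (fun a b => (D b).comp (r a))
      (fun a a' b => by ext x; simp) (fun c a b => by ext x; simp)
      (fun a b b' => by ext x; simp) (fun c a b => by ext x; simp)
  have hβ : ∀ a b, ‖β a b‖ ≤ (‖D‖ * ‖r‖) * (‖a‖ * ‖b‖) := by
    intro a b
    calc ‖β a b‖ ≤ ‖D b‖ * ‖r a‖ := ContinuousLinearMap.opNorm_comp_le _ _
      _ ≤ (‖D‖ * ‖b‖) * (‖r‖ * ‖a‖) :=
          mul_le_mul (D.le_opNorm b) (r.le_opNorm a) (norm_nonneg _) (by positivity)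
      _ = _ := by ring
  have hC : 0 ≤ ‖D‖ * ‖r‖ := by positivity
  have hid : ∀ (a : A) (x : X) (t : TSq A), lft β (tm0 a 1 * t - tm0 1 a * t) x =
      lft β t (r a x) - lft β t (l a x) - D a (r (lft (LinearMap.mul ℂ A) t) x) := by
    intro a x t
    refine tsq_induction (P := fun t => lft β (tm0 a 1 * t - tm0 1 a * t) x =
      lft β t (r a x) - lft β t (l a x) - D a (r (lft (LinearMap.mul ℂ A) t) x)) t (by simp) ?_ ?_
    · intro c b
      rw [tm0_mul, tm0_mul, map_sub, lft_tm0, lft_tm0, lft_tm0, lft_tm0]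
      simp only [β, LinearMap.mk₂_apply, sub_apply,
        ContinuousLinearMap.comp_apply, one_mul, LinearMap.mul_apply']
      rw [mul_comm a b, hD, hr a c, hr c b, hlr]
      ring
    · intro s t hs ht
      have e : tm0 a 1 * (s + t) - tm0 1 a * (s + t) =
          (tm0 a 1 * s - tm0 1 a * s) + (tm0 a 1 * t - tm0 1 a * t) := by ring
      rw [e, map_add, add_apply, hs, ht]
      simp only [map_add, add_apply]
      ring
  let f : ℕ → WeakDual ℂ X := fun n => StrongDual.toWeakDual (lft β (M n))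
  have hf : ∀ n, f n ∈ WeakDual.toStrongDual ⁻¹' Metric.closedBall (0 : StrongDual ℂ X)
      (‖D‖ * ‖r‖ * K) := by
    intro n
    simp only [Set.mem_preimage, mem_closedBall_zero_iff]
    exact (norm_lft_le β _ hC hβ (M n)).trans (mul_le_mul_of_nonneg_left (hK n) hC)
  obtain ⟨g, -, hg⟩ := (WeakDual.isCompact_closedBall (0 : StrongDual ℂ X)
    (‖D‖ * ‖r‖ * K)).ultrafilter_le_nhds ((Filter.hyperfilter ℕ).map f)
      (by
        rw [Ultrafilter.coe_map, Filter.le_principal_iff, Filter.mem_map]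
        exact Filter.univ_mem' hf)
  have hg' : Tendsto f (Filter.hyperfilter ℕ) (𝓝 g) := hg
  have hev : ∀ x : X, Tendsto (fun n => lft β (M n) x) (Filter.hyperfilter ℕ) (𝓝 (g x)) :=
    fun x => ((WeakDual.eval_continuous x).tendsto g).comp hg'
  have hmain : ∀ a x, g (r a x) - g (l a x) = D a (r 1 x) := by
    intro a x
    have h1 : Tendsto (fun n => lft β (tm0 a 1 * M n - tm0 1 a * M n) x)
        (Filter.hyperfilter ℕ) (𝓝 (g (r a x) - g (l a x) - D a (r 1 x))) := by
      simp only [hid, hπ]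
      exact ((hev _).sub (hev _)).sub tendsto_const_nhds
    have h2 : Tendsto (fun n => lft β (tm0 a 1 * M n - tm0 1 a * M n) x) atTop (𝓝 0) := by
      rw [tendsto_zero_iff_norm_tendsto_zero]
      have h3 := ((hc a).const_mul (‖D‖ * ‖r‖)).mul_const ‖x‖
      simp only [mul_zero, zero_mul] at h3
      refine squeeze_zero (fun n => norm_nonneg _) (fun n => ?_) h3
      exact (ContinuousLinearMap.le_opNorm _ _).trans
        (mul_le_mul_of_nonneg_right (norm_lft_le β _ hC hβ _) (norm_nonneg _))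
    have h4 := h2.mono_left (Nat.hyperfilter_le_atTop)
    exact sub_eq_zero.1 (tendsto_nhds_unique h1 h4)
  refine ⟨WeakDual.toStrongDual g - (D 1).comp (l 1), fun a x => ?_⟩
  have e1 : D a x = D a (r 1 x) + D 1 (l a x) := by
    have := hD 1 a x
    rwa [one_mul] at this
  have e2 : D 1 (l 1 (r a x)) = 0 := by
    have := hD 1 1 (r a x)
    rw [one_mul, ← hr a 1, mul_one] at this
    linear_combination -this
  have e3 : l 1 (l a x) = l a x := by rw [← hl, one_mul]
  have e4 := hmain a x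
  simp only [sub_apply, ContinuousLinearMap.comp_apply, e2, e3]
  have e5 : ∀ y, (WeakDual.toStrongDual g) y = g y := fun y => rfl
  rw [e5, e5]
  linear_combination e1 - e4

end Pool.Agent.H181Z.HT
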