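import Mathlib
import Pool.Agent.H181Z.HTTensor

/-!
# Sequence algebras with one point at infinity: regularity, semisimplicity, non-synthesis
-/

set_option autoImplicit false

namespace Pool.Agent.H181Z.HT

open Filter Topology

variable {A : Type} [NormedCommRing A] [NormedAlgebra ℂ A] [CompleteSpace A]

lemma spec_norm_le (φ : Spec A) (a : A) : ‖φ a‖ ≤ ‖(1 : A)‖ * ‖a‖ := by
  have h := WeakDual.CharacterSpace.norm_le_norm_one φ
  have h2 := (WeakDual.toStrongDual (φ : WeakDual ℂ A)).le_opNorm a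
  exact h2.trans (mul_le_mul_of_nonneg_right h (norm_nonneg _))

omit [CompleteSpace A] in
lemma spec_eval_continuous (a : A) : Continuous fun φ : Spec A => φ a :=
  (WeakDual.eval_continuous a).comp continuous_subtype_val

omit [CompleteSpace A] in
lemma semisimple_of_sep (h : ∀ a : A, (∀ φ : Spec A, φ a = 0) → a = 0) : Semisimple A := by
  refine le_antisymm (fun a ha => ?_) bot_le
  rw [Ideal.mem_bot]
  refine h a fun φ => ?_
  have := Ideal.mem_sInf.1 ha (I := RingHom.ker φ) ⟨bot_le, inferInstance⟩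
  exact this

/-- The data of a sequence algebra with one point at infinity. -/
structure SeqData (A : Type) [NormedCommRing A] [NormedAlgebra ℂ A] (P : Type) where
  χ : P → Spec A
  ω : Spec A
  δ : P → A
  χδ : ∀ p, χ p (δ p) = 1
  χδ' : ∀ p q, q ≠ p → χ q (δ p) = 0
  ωδ : ∀ p, ω (δ p) = 0
  all : ∀ φ : Spec A, φ = ω ∨ ∃ p, φ = χ p
  sep : ∀ a : A, (∀ p, χ p a = 0) → a = 0

namespace SeqData

variable {P : Type} (S : SeqData A P)

include S

omit [CompleteSpace A] in
lemma semisimple : Semisimple A := semisimple_of_sep fun a h => S.sep a fun p => h _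

omit [CompleteSpace A] in
lemma apply_δ {φ : Spec A} {p : P} (h : φ ≠ S.χ p) : φ (S.δ p) = 0 := by
  rcases S.all φ with rfl | ⟨q, rfl⟩
  · exact S.ωδ p
  · refine S.χδ' p q ?_
    rintro rfl
    exact h rfl

lemma finite_of_closed {F : Set (Spec A)} (hF : IsClosed F) (hω : S.ω ∉ F) :
    ∃ T : Finset P, ∀ φ ∈ F, ∃ p ∈ T, φ = S.χ p := by
  have hc : IsCompact F := hF.isCompact
  obtain ⟨T, hT⟩ := hc.elim_finite_subcover (fun p : P => {φ : Spec A | φ (S.δ p) ≠ 0})
    (fun p => isOpen_ne_fun (spec_eval_continuous _) continuous_const) (by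
      intro φ hφ
      rcases S.all φ with rfl | ⟨p, rfl⟩
      · exact absurd hφ hω
      · exact Set.mem_iUnion.2 ⟨p, by simp [S.χδ]⟩)
  refine ⟨T, fun φ hφ => ?_⟩
  obtain ⟨p, hp, h⟩ := Set.mem_iUnion₂.1 (hT hφ)
  refine ⟨p, hp, ?_⟩
  by_contra hne
  exact h (S.apply_δ hne)

lemma regular : Regular A := by
  classical
  intro F hF φ hφ
  rcases S.all φ with rfl | ⟨p, rfl⟩
  · obtain ⟨T, hT⟩ := S.finite_of_closed hF hφ
    refine ⟨1 - ∑ p ∈ T, S.δ p, by simp [S.ωδ], fun ψ hψ => ?_⟩
    obtain ⟨p, hp, rfl⟩ := hT ψ hψ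
    rw [map_sub, map_one, map_sum, Finset.sum_eq_single p, S.χδ, sub_self]
    · intro q _ hq
      exact S.χδ' q p hq.symm
    · intro h
      exact absurd hp h
  · refine ⟨S.δ p, S.χδ p, fun ψ hψ => S.apply_δ ?_⟩
    rintro rfl
    exact hφ hψ

end SeqData

/-- the character `φ ⊗ ψ` of the projective tensor product -/
noncomputable def prodChar (φ ψ : Spec A) : Spec (PT A) :=
  mkSpec (ext (LinearMap.mk₂ ℂ (fun a b => φ a * ψ b) (fun a a' b => by rw [map_add, add_mul])
      (fun c a b => by rw [map_smul, smul_mul_assoc]) (fun a b b' => by rw [map_add, mul_add])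
      (fun c a b => by rw [map_smul, mul_smul_comm])) (‖(1 : A)‖ * ‖(1 : A)‖) (by positivity)
      (fun a b => by
        rw [LinearMap.mk₂_apply, norm_mul]
        calc ‖φ a‖ * ‖ψ b‖ ≤ (‖(1 : A)‖ * ‖a‖) * (‖(1 : A)‖ * ‖b‖) :=
              mul_le_mul (spec_norm_le φ a) (spec_norm_le ψ b) (norm_nonneg _) (by positivity)
          _ = _ := by ring))
    (by rw [← tm_one, ext_tm]; simp)
    (ext_mul _ _ _ _ fun a b c d => by simp only [LinearMap.mk₂_apply, map_mul]; ring)

lemma prodChar_tm (φ ψ : Spec A) (a b : A) : prodChar φ ψ (tm a b) = φ a * ψ b := by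
  rw [prodChar, mkSpec_apply, ext_tm]
  rfl

/-- Semisimplicity of the projective tensor square from a bounded approximation of the identity
by finite combinations of characters. -/
theorem semisimple_pt (T : ℕ → A →ₗ[ℂ] A) (C : ℝ) (hC : 0 ≤ C) (hT : ∀ n a, ‖T n a‖ ≤ C * ‖a‖)
    (hlim : ∀ a, Tendsto (fun n => T n a) atTop (𝓝 a))
    (hfin : ∀ n, ∃ (ι : Type) (_ : Fintype ι) (φ : ι → Spec A) (b : ι → A),
      ∀ a, T n a = ∑ i, φ i a • b i) : Semisimple (PT A) := by
  let β : ℕ → A →ₗ[ℂ] A →ₗ[ℂ] PT A := fun n => (tmP.comp (T n)).compl₂ (T n)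
  have hβ : ∀ n a b, ‖β n a b‖ ≤ (C * C) * (‖a‖ * ‖b‖) := by
    intro n a b
    calc ‖β n a b‖ ≤ ‖T n a‖ * ‖T n b‖ := norm_tm_le _ _
      _ ≤ (C * ‖a‖) * (C * ‖b‖) := mul_le_mul (hT n a) (hT n b) (norm_nonneg _) (by positivity)
      _ = _ := by ring
  have hCC : 0 ≤ C * C := by positivity
  let U : ℕ → PT A →L[ℂ] PT A := fun n => ext (β n) (C * C) hCC (hβ n)
  have hU : ∀ n t, ‖U n t‖ ≤ (C * C) * ‖t‖ := fun n t => norm_ext_le _ _ _ _ t
  have hUt : ∀ n a b, U n (tm a b) = tm (T n a) (T n b) := fun n a b => ext_tm _ _ _ _ a b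
  have hconv : ∀ t, Tendsto (fun n => U n t) atTop (𝓝 t) := by
    intro t
    refine pt_induction (P := fun t => Tendsto (fun n => U n t) atTop (𝓝 t)) ?_ (by simp) ?_ ?_ t
    · refine isClosed_of_closure_subset fun t ht => ?_
      rw [Set.mem_setOf_eq, Metric.tendsto_atTop]
      intro ε hε
      have hε' : 0 < ε / (C * C + 2) := by positivity
      obtain ⟨s, hs, hst⟩ := Metric.mem_closure_iff.1 ht _ hε'
      obtain ⟨N, hN⟩ := Metric.tendsto_atTop.1 hs _ hε'
      refine ⟨N, fun n hn => ?_⟩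
      have h1 := hN n hn
      rw [dist_eq_norm] at h1 hst ⊢
      have h2 := hU n (t - s)
      have e : U n t - t = U n (t - s) + (U n s - s) - (t - s) := by rw [map_sub]; abel
      have h3 : ‖U n t - t‖ ≤ ‖U n (t - s)‖ + ‖U n s - s‖ + ‖t - s‖ := by
        rw [e]
        exact (norm_sub_le _ _).trans (add_le_add_left (norm_add_le _ _) _)
      have h4 : (C * C) * ‖t - s‖ ≤ (C * C) * (ε / (C * C + 2)) :=
        mul_le_mul_of_nonneg_left hst.le hCC
      have h5 : (C * C + 2) * (ε / (C * C + 2)) = ε := by field_simp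
      nlinarith
    · intro a b
      simp only [hUt]
      rw [tendsto_iff_norm_sub_tendsto_zero]
      have h1 := (tendsto_iff_norm_sub_tendsto_zero.1 (hlim a)).mul_const (C * ‖b‖)
      have h2 := (tendsto_iff_norm_sub_tendsto_zero.1 (hlim b)).const_mul ‖a‖
      have h3 := h1.add h2
      simp only [zero_mul, mul_zero, add_zero] at h3
      refine squeeze_zero (fun n => norm_nonneg _) (fun n => ?_) h3
      have e : tm (T n a) (T n b) - tm a b = tm (T n a - a) (T n b) + tm a (T n b - b) := by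
        simp only [← tmP_apply, map_sub, LinearMap.sub_apply]
        abel
      rw [e]
      refine (norm_add_le _ _).trans (add_le_add ?_ (norm_tm_le _ _))
      exact (norm_tm_le _ _).trans (mul_le_mul_of_nonneg_left (hT n b) (norm_nonneg _))
    · intro s t hs ht
      simp only [map_add]
      exact hs.add ht
  refine semisimple_of_sep fun t ht => ?_
  have hz : ∀ n, U n t = 0 := by
    intro n
    obtain ⟨ι, _, φ, b, hb⟩ := hfin n
    have key : ∀ s, U n s = ∑ i, ∑ j, prodChar (φ i) (φ j) s • tm (b i) (b j) := by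
      intro s
      refine pt_induction
        (P := fun s => U n s = ∑ i, ∑ j, prodChar (φ i) (φ j) s • tm (b i) (b j))
        (isClosed_eq (by fun_prop) ?_) (by simp) ?_ ?_ s
      · refine continuous_finset_sum _ fun i _ => continuous_finset_sum _ fun j _ => ?_
        exact (map_continuous (prodChar (φ i) (φ j))).smul continuous_const
      · intro a c
        rw [hUt, hb, hb]
        simp only [← tmP_apply, map_sum, map_smul, LinearMap.sum_apply, LinearMap.smul_apply,
          Finset.smul_sum]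
        rw [Finset.sum_comm]
        refine Finset.sum_congr rfl fun i _ => Finset.sum_congr rfl fun j _ => ?_
        rw [tmP_apply, tmP_apply, prodChar_tm, smul_smul, mul_comm]
      · intro s t hs ht
        simp only [map_add, hs, ht, add_smul, Finset.sum_add_distrib]
    rw [key]
    simp [ht]
  have := hconv t
  simp only [hz] at this
  exact tendsto_nhds_unique this tendsto_const_nhds

/-- the slice map `id ⊗ ω` -/
noncomputable def slice (ω : Spec A) : PT A →L[ℂ] A :=
  ext (LinearMap.mk₂ ℂ (fun a b => ω b • a) (fun a a' b => by rw [smul_add])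
      (fun c a b => by rw [smul_comm]) (fun a b b' => by rw [map_add, add_smul])
      (fun c a b => by rw [map_smul, smul_assoc])) ‖(1 : A)‖ (by positivity)
      (fun a b => by
        rw [LinearMap.mk₂_apply, norm_smul]
        calc ‖ω b‖ * ‖a‖ ≤ (‖(1 : A)‖ * ‖b‖) * ‖a‖ :=
              mul_le_mul_of_nonneg_right (spec_norm_le ω b) (norm_nonneg _)
          _ = _ := by ring)

lemma slice_tm (ω : Spec A) (a b : A) : slice ω (tm a b) = ω b • a := ext_tm _ _ _ _ a b

lemma slice_mul (ω : Spec A) (s t : PT A) : slice ω (s * t) = slice ω s * slice ω t :=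
  ext_mul _ _ _ _ (fun a b c d => by
    simp only [LinearMap.mk₂_apply, map_mul, smul_mul_smul_comm]) s t

lemma slice_one (ω : Spec A) : slice ω 1 = 1 := by
  rw [← tm_one, slice_tm]
  simp

/-- `φ ↦ φ ⊗ ω` -/
noncomputable def sliceChar (ω φ : Spec A) : Spec (PT A) :=
  mkSpec ((WeakDual.CharacterSpace.toCLM φ).comp (slice ω)) (by simp [slice_one])
    (fun a b => by simp [slice_mul])

lemma sliceChar_apply (ω φ : Spec A) (t : PT A) : sliceChar ω φ t = φ (slice ω t) := rfl

lemma sliceChar_continuous (ω : Spec A) : Continuous (sliceChar ω) := by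
  refine Continuous.subtype_mk (WeakDual.continuous_of_continuous_eval fun t => ?_) _
  exact spec_eval_continuous (slice ω t)

theorem SeqData.not_hyperTauberian {P : Type} (S : SeqData A P) (y : A) (hy : S.ω y = 0) (c : ℝ)
    (hc : 0 < c) (hfar : ∀ (a : A) (T : Finset P), (∀ p ∉ T, S.χ p a = 0) → c ≤ ‖y - a‖) :
    ¬ HyperTauberian A := by
  intro h
  have ht : tm y 1 - tm 1 y ∈ IE (diagonal A) := by
    rintro χ ⟨φ, hφ⟩
    rw [map_sub, hφ, hφ]
    simp
  rw [HyperTauberian, Spectral] at h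
  rw [← h] at ht
  have hmem : slice S.ω (tm y 1 - tm 1 y) ∈ closure (slice S.ω '' I0 (diagonal A)) :=
    map_mem_closure (slice S.ω).continuous ht fun u hu => Set.mem_image_of_mem _ hu
  have e : slice S.ω (tm y 1 - tm 1 y) = y := by
    rw [map_sub, slice_tm, slice_tm, hy]
    simp
  rw [e] at hmem
  obtain ⟨_, ⟨u, hu, rfl⟩, hd⟩ := Metric.mem_closure_iff.1 hmem c hc
  have hω : sliceChar S.ω S.ω ∈ diagonal A :=
    ⟨S.ω, fun a b => by rw [sliceChar_apply, slice_tm, map_smul, smul_eq_mul, mul_comm]⟩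
  have hF : IsClosed (sliceChar S.ω ⁻¹' tsupport fun φ : Spec (PT A) => φ u) :=
    (isClosed_tsupport _).preimage (sliceChar_continuous _)
  obtain ⟨T, hT⟩ := S.finite_of_closed hF fun hm => Set.disjoint_left.1 hu hm hω
  have := hfar (slice S.ω u) T fun p hp => by
    by_contra hne
    obtain ⟨q, hq, hpq⟩ := hT (S.χ p) (subset_tsupport _ hne)
    have h1 := S.χδ p
    rw [hpq, S.χδ' p q (by rintro rfl; exact hp hq)] at h1
    exact zero_ne_one h1
  rw [dist_eq_norm] at hd
  linarith

end Pool.Agent.H181Z.HT
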