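import Mathlib
import Pool.Agent.H181Z.HTCrit

/-!
# The sequence algebra attached to a tower of finite-dimensional algebras: threads
-/

set_option autoImplicit false

namespace Pool.Agent.H181Z.HT

open Filter Topology
open scoped ENNReal

/-- A tower of finite-dimensional semisimple normed algebras. -/
structure Sys where
  D : ℕ → Type
  [ring : ∀ n, NormedCommRing (D n)]
  [alg : ∀ n, NormedAlgebra ℂ (D n)]
  [one : ∀ n, NormOneClass (D n)]
  [comp : ∀ n, CompleteSpace (D n)]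
  X : ℕ → Type
  [fin : ∀ n, Fintype (X n)]
  [dec : ∀ n, DecidableEq (X n)]
  [ne : ∀ n, Nonempty (X n)]
  ev : ∀ n, D n ≃ₐ[ℂ] (X n → ℂ)
  ι : ∀ n, D n →ₐ[ℂ] D (n + 1)
  hι : ∀ n d, ‖ι n d‖ = ‖d‖
  e : ∀ n, D (n + 1)
  he : ∀ n, ‖e n‖ ≤ 1
  he0 : 3 / 4 ≤ ‖e 0‖
  hδ : ∀ n, ‖ι (n + 1) (e n) * (1 - e (n + 1))‖ ≤ (1 / 2) ^ (n + 3)
  hsmall : ∀ n x, ‖ev (n + 1) (e n) x‖ ≤ (1 / 2) ^ n
  Γ : ℕ → Type
  [grp : ∀ n, CommGroup (Γ n)]
  [gfin : ∀ n, Fintype (Γ n)]
  u : ∀ n, Γ n →* D n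
  hu : ∀ n g, ‖u n g‖ ≤ 1
  hsep : ∀ n (x y : X n), x ≠ y → ∃ g, ev n (u n g) x ≠ ev n (u n g) y
  hsign : ∀ n (x : X n), ∃ g, ev n (u n g) x ≠ 1

attribute [instance] Sys.ring Sys.alg Sys.one Sys.comp Sys.fin Sys.dec Sys.ne Sys.grp Sys.gfin

namespace Sys

variable (S : Sys)

/-- keep the coordinates up to `M` and continue them as a thread -/
noncomputable def thr (M : ℕ) (a : ∀ n, S.D n) : ∀ n, S.D n
  | 0 => a 0
  | n + 1 => if n + 1 ≤ M then a (n + 1) else S.ι n (thr M a n) * S.e n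

variable {S}

lemma thr_of_le {M n : ℕ} (h : n ≤ M) (a : ∀ n, S.D n) : S.thr M a n = a n := by
  cases n with
  | zero => rfl
  | succ n => simp [thr, h]

lemma thr_succ {M n : ℕ} (h : M ≤ n) (a : ∀ n, S.D n) :
    S.thr M a (n + 1) = S.ι n (S.thr M a n) * S.e n := by
  have : ¬ n + 1 ≤ M := by omega
  simp [thr, this]

lemma thr_add (M : ℕ) (a b : ∀ n, S.D n) (n : ℕ) :
    S.thr M (a + b) n = S.thr M a n + S.thr M b n := by
  induction n with
  | zero => rfl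
  | succ n ih =>
    by_cases h : n + 1 ≤ M
    · simp [thr_of_le h]
    · rw [thr_succ (by omega), thr_succ (by omega), thr_succ (by omega), ih, map_add, add_mul]

lemma thr_smul (M : ℕ) (c : ℂ) (a : ∀ n, S.D n) (n : ℕ) :
    S.thr M (c • a) n = c • S.thr M a n := by
  induction n with
  | zero => rfl
  | succ n ih =>
    by_cases h : n + 1 ≤ M
    · simp [thr_of_le h]
    · rw [thr_succ (by omega), thr_succ (by omega), ih, map_smul, smul_mul_assoc]

lemma norm_step (n : ℕ) (d : S.D n) : ‖S.ι n d * S.e n‖ ≤ ‖d‖ := by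
  refine (norm_mul_le _ _).trans ?_
  rw [S.hι]
  exact mul_le_of_le_one_right (norm_nonneg _) (S.he n)

lemma norm_thr_le {M : ℕ} {a : ∀ n, S.D n} {K : ℝ} (h : ∀ n ≤ M, ‖a n‖ ≤ K) (n : ℕ) :
    ‖S.thr M a n‖ ≤ K := by
  induction n with
  | zero => exact h 0 (Nat.zero_le _)
  | succ n ih =>
    by_cases hn : n + 1 ≤ M
    · rw [thr_of_le hn]
      exact h _ hn
    · rw [thr_succ (by omega)]
      exact (norm_step _ _).trans ih

lemma thr_congr {M : ℕ} {a b : ∀ n, S.D n} (h : ∀ n ≤ M, a n = b n) (n : ℕ) :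
    S.thr M a n = S.thr M b n := by
  induction n with
  | zero => exact h 0 (Nat.zero_le _)
  | succ n ih =>
    by_cases hn : n + 1 ≤ M
    · rw [thr_of_le hn, thr_of_le hn]
      exact h _ hn
    · rw [thr_succ (by omega), thr_succ (by omega), ih]

lemma thr_thr {M M' : ℕ} (h : M' ≤ M) (a : ∀ n, S.D n) (n : ℕ) :
    S.thr M (S.thr M' a) n = S.thr M' a n := by
  induction n with
  | zero => rfl
  | succ n ih =>
    by_cases hn : n + 1 ≤ M
    · rw [thr_of_le hn]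
    · rw [thr_succ (by omega), ih, thr_succ (by omega)]

lemma norm_old (n : ℕ) (d : S.D n) :
    ‖S.ι (n + 1) (S.ι n d * S.e n) * (1 - S.e (n + 1))‖ ≤ ‖d‖ * (1 / 2) ^ (n + 3) := by
  rw [map_mul, mul_assoc]
  refine (norm_mul_le _ _).trans ?_
  rw [S.hι, S.hι]
  exact mul_le_mul_of_nonneg_left (S.hδ n) (norm_nonneg _)

lemma thr_mul_approx (m : ℕ) {a b : ∀ n, S.D n} {Ka Kb : ℝ} (ha : ∀ n, ‖a n‖ ≤ Ka)
    (hb : ∀ n, ‖b n‖ ≤ Kb) (n : ℕ) :
    ‖S.thr m a n * S.thr (m + 1) b n - S.thr (m + 1) (S.thr m a * b) n‖ ≤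
      Ka * Kb * (1 / 2) ^ (m + 2) := by
  have hKa : 0 ≤ Ka := (norm_nonneg _).trans (ha 0)
  have hKb : 0 ≤ Kb := (norm_nonneg _).trans (hb 0)
  have key : ∀ k, ‖S.thr m a (m + k + 1) * S.thr (m + 1) b (m + k + 1) -
      S.thr (m + 1) (S.thr m a * b) (m + k + 1)‖ ≤
      Ka * Kb * ((1 / 2) ^ (m + 2) - (1 / 2) ^ (m + k + 2)) := by
    intro k
    induction k with
    | zero =>
      rw [thr_of_le (M := m + 1) le_rfl, thr_of_le (M := m + 1) le_rfl]
      simp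
    | succ k ih =>
      have e1 : S.thr m a (m + k + 1 + 1) = S.ι _ (S.thr m a (m + k + 1)) * S.e _ :=
        thr_succ (by omega) a
      have e2 : S.thr (m + 1) b (m + k + 1 + 1) = S.ι _ (S.thr (m + 1) b (m + k + 1)) * S.e _ :=
        thr_succ (by omega) b
      have e3 : S.thr (m + 1) (S.thr m a * b) (m + k + 1 + 1) =
          S.ι _ (S.thr (m + 1) (S.thr m a * b) (m + k + 1)) * S.e _ := thr_succ (by omega) _
      have e4 : S.thr m a (m + k + 1) = S.ι _ (S.thr m a (m + k)) * S.e _ :=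
        thr_succ (by omega) a
      show ‖S.thr m a (m + k + 1 + 1) * S.thr (m + 1) b (m + k + 1 + 1) -
        S.thr (m + 1) (S.thr m a * b) (m + k + 1 + 1)‖ ≤ _
      rw [e1, e2, e3]
      set p := S.thr m a (m + k + 1) with hp
      set q := S.thr (m + 1) b (m + k + 1)
      set r := S.thr (m + 1) (S.thr m a * b) (m + k + 1)
      have e5 : S.ι _ p * S.e _ * (S.ι _ q * S.e _) - S.ι _ r * S.e _ =
          S.ι _ (p * q - r) * S.e _ -
            (S.ι _ p * (1 - S.e (m + k + 1))) * (S.ι _ q * S.e (m + k + 1)) := by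
        rw [map_sub, map_mul]
        ring
      rw [e5]
      have h1 : ‖S.ι _ p * (1 - S.e (m + k + 1))‖ ≤ Ka * (1 / 2) ^ (m + k + 3) := by
        rw [e4]
        exact (norm_old _ _).trans
          (mul_le_mul_of_nonneg_right (norm_thr_le (fun n _ => ha n) _) (by positivity))
      have h2 : ‖S.ι _ q * S.e (m + k + 1)‖ ≤ Kb :=
        (norm_step _ _).trans (norm_thr_le (fun n _ => hb n) _)
      have h3 := (norm_step _ (p * q - r)).trans ih
      refine (norm_sub_le _ _).trans ?_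
      have h4 := (norm_mul_le _ _).trans (mul_le_mul h1 h2 (norm_nonneg _) (by positivity))
      refine (add_le_add h3 h4).trans (le_of_eq ?_)
      ring
  by_cases hn : n ≤ m + 1
  · rw [thr_of_le hn, thr_of_le hn]
    simp only [Pi.mul_apply, sub_self, norm_zero]
    positivity
  · obtain ⟨k, rfl⟩ : ∃ k, n = m + k + 1 := ⟨n - m - 1, by omega⟩
    refine (key k).trans (mul_le_mul_of_nonneg_left ?_ (by positivity))
    have : (0 : ℝ) ≤ (1 / 2) ^ (m + k + 2) := by positivity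
    linarith

lemma half_le_norm_thr (n : ℕ) : 1 / 2 ≤ ‖S.thr 0 1 (n + 1)‖ := by
  have key : ∀ n, 1 / 2 + (1 / 2) ^ (n + 2) ≤ ‖S.thr 0 1 (n + 1)‖ := by
    intro n
    induction n with
    | zero =>
      rw [thr_succ le_rfl, thr_of_le le_rfl]
      have := S.he0
      simp only [Pi.one_apply, map_one, one_mul]
      linarith
    | succ n ih =>
      rw [thr_succ (Nat.zero_le _)]
      have e4 : S.thr 0 1 (n + 1) = S.ι _ (S.thr 0 1 n) * S.e _ := thr_succ (Nat.zero_le _) _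
      have h1 : ‖S.ι _ (S.thr 0 1 (n + 1)) * (1 - S.e (n + 1))‖ ≤ (1 / 2) ^ (n + 3) := by
        rw [e4]
        refine (norm_old _ _).trans (mul_le_of_le_one_left (by positivity) ?_)
        exact norm_thr_le (fun n _ => by simp) _
      have e : S.ι _ (S.thr 0 1 (n + 1)) = S.ι _ (S.thr 0 1 (n + 1)) * S.e (n + 1) +
        S.ι _ (S.thr 0 1 (n + 1)) * (1 - S.e (n + 1)) := by ring
      have h2 := norm_add_le (S.ι _ (S.thr 0 1 (n + 1)) * S.e (n + 1))
        (S.ι _ (S.thr 0 1 (n + 1)) * (1 - S.e (n + 1)))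
      rw [← e, S.hι] at h2
      have e2 : (1 / 2 : ℝ) ^ (n + 2) = 2 * (1 / 2) ^ (n + 3) := by ring
      have e3 : n + 1 + 2 = n + 3 := rfl
      rw [e3]
      linarith
  have := key n
  have h : (0 : ℝ) ≤ (1 / 2) ^ (n + 2) := by positivity
  linarith

variable (S)

/-- the bounded sequences -/
abbrev L : Type := lp S.D ∞

lemma norm_app_le (a : S.L) (n : ℕ) : ‖a n‖ ≤ ‖a‖ := lp.norm_apply_le_norm ENNReal.top_ne_zero a n

/-- the thread operator on bounded sequences -/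
noncomputable def T (M : ℕ) : S.L →ₗ[ℂ] S.L where
  toFun a := ⟨S.thr M a, memℓp_infty ⟨‖a‖, by
    rintro _ ⟨n, rfl⟩
    exact norm_thr_le (fun n _ => S.norm_app_le a n) n⟩⟩
  map_add' a b := lp.ext (funext fun n => thr_add M a b n)
  map_smul' c a := lp.ext (funext fun n => thr_smul M c a n)

variable {S}

lemma T_apply (M : ℕ) (a : S.L) (n : ℕ) : S.T M a n = S.thr M a n := rfl

lemma norm_T_le (M : ℕ) (a : S.L) : ‖S.T M a‖ ≤ ‖a‖ :=
  lp.norm_le_of_forall_le (norm_nonneg _) fun n => norm_thr_le (fun n _ => S.norm_app_le a n) n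

lemma T_T {M M' : ℕ} (h : M' ≤ M) (a : S.L) : S.T M (S.T M' a) = S.T M' a :=
  lp.ext (funext fun n => thr_thr h a n)

lemma T_congr {M : ℕ} {a b : S.L} (h : ∀ n ≤ M, a n = b n) : S.T M a = S.T M b :=
  lp.ext (funext fun n => thr_congr h n)

lemma T_mul_approx (m : ℕ) (a b : S.L) :
    ‖S.T m a * S.T (m + 1) b - S.T (m + 1) (S.T m a * b)‖ ≤ ‖a‖ * ‖b‖ * (1 / 2) ^ (m + 2) :=
  lp.norm_le_of_forall_le (by positivity) fun n =>
    thr_mul_approx m (S.norm_app_le a) (S.norm_app_le b) n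

lemma mul_T_approx (m : ℕ) (a b : S.L) :
    ‖a * S.T (m + 1) b - S.T (m + 1) (a * b)‖ ≤
      (2 * ‖a - S.T m a‖ + ‖a‖ * (1 / 2) ^ (m + 2)) * ‖b‖ := by
  have e : a * S.T (m + 1) b - S.T (m + 1) (a * b) =
      (a - S.T m a) * S.T (m + 1) b + (S.T m a * S.T (m + 1) b - S.T (m + 1) (S.T m a * b)) -
        S.T (m + 1) ((a - S.T m a) * b) := by
    rw [sub_mul a (S.T m a) b, map_sub]
    ring
  rw [e]
  have h1 : ‖(a - S.T m a) * S.T (m + 1) b‖ ≤ ‖a - S.T m a‖ * ‖b‖ :=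
    (norm_mul_le _ _).trans (mul_le_mul_of_nonneg_left (norm_T_le _ _) (norm_nonneg _))
  have h2 := T_mul_approx m a b
  have h3 : ‖S.T (m + 1) ((a - S.T m a) * b)‖ ≤ ‖a - S.T m a‖ * ‖b‖ :=
    (norm_T_le _ _).trans (norm_mul_le _ _)
  refine (norm_sub_le _ _).trans ?_
  have h4 := norm_add_le ((a - S.T m a) * S.T (m + 1) b)
    (S.T m a * S.T (m + 1) b - S.T (m + 1) (S.T m a * b))
  nlinarith

variable (S)

/-- the sequences that are asymptotically threads -/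
def A0 : Submodule ℂ S.L where
  carrier := {r | Tendsto (fun M => ‖r - S.T M r‖) atTop (𝓝 0)}
  zero_mem' := by simp
  add_mem' := by
    intro a b ha hb
    have h := Tendsto.add ha hb
    rw [add_zero] at h
    refine squeeze_zero (fun n => norm_nonneg _) (fun n => ?_) h
    rw [map_add, add_sub_add_comm]
    exact norm_add_le _ _
  smul_mem' := by
    intro c a ha
    have h := Tendsto.const_mul ‖c‖ ha
    rw [mul_zero] at h
    refine squeeze_zero (fun n => norm_nonneg _) (fun n => ?_) h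
    rw [map_smul, ← smul_sub, norm_smul]

variable {S}

lemma mem_A0 {r : S.L} : r ∈ S.A0 ↔ Tendsto (fun M => ‖r - S.T M r‖) atTop (𝓝 0) := Iff.rfl

lemma T_mem (M : ℕ) (a : S.L) : S.T M a ∈ S.A0 := by
  rw [mem_A0]
  refine tendsto_const_nhds.congr' ?_
  filter_upwards [eventually_ge_atTop M] with n hn
  rw [T_T hn, sub_self, norm_zero]

lemma err_tendsto {a : S.L} (ha : a ∈ S.A0) :
    Tendsto (fun m => 2 * ‖a - S.T m a‖ + ‖a‖ * (1 / 2) ^ (m + 2)) atTop (𝓝 0) := by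
  have h1 := (mem_A0.1 ha).const_mul 2
  have h2 : Tendsto (fun m : ℕ => ‖a‖ * (1 / 2 : ℝ) ^ (m + 2)) atTop (𝓝 (‖a‖ * 0)) :=
    ((tendsto_pow_atTop_nhds_zero_of_lt_one (by norm_num) (by norm_num)).comp
      (tendsto_add_atTop_nat 2)).const_mul _
  simpa using h1.add h2

lemma mul_mem_A0 {a b : S.L} (ha : a ∈ S.A0) (hb : b ∈ S.A0) : a * b ∈ S.A0 := by
  rw [mem_A0, ← tendsto_add_atTop_iff_nat 1]
  have h1 := ((tendsto_add_atTop_iff_nat 1).2 (mem_A0.1 hb)).const_mul ‖a‖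
  have h2 := (err_tendsto ha).mul_const ‖b‖
  have h3 := h1.add h2
  simp only [mul_zero, zero_mul, add_zero] at h3
  refine squeeze_zero (fun n => norm_nonneg _) (fun m => ?_) h3
  have e : a * b - S.T (m + 1) (a * b) =
      a * (b - S.T (m + 1) b) + (a * S.T (m + 1) b - S.T (m + 1) (a * b)) := by ring
  rw [e]
  exact (norm_add_le _ _).trans (add_le_add (norm_mul_le _ _) (mul_T_approx m a b))

lemma isClosed_A0 : IsClosed (S.A0 : Set S.L) := by
  refine isClosed_of_closure_subset fun t ht => ?_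
  rw [SetLike.mem_coe, mem_A0, Metric.tendsto_atTop]
  intro ε hε
  have hε' : 0 < ε / 3 := by positivity
  obtain ⟨s, hs, hst⟩ := Metric.mem_closure_iff.1 ht _ hε'
  obtain ⟨N, hN⟩ := Metric.tendsto_atTop.1 (mem_A0.1 hs) _ hε'
  refine ⟨N, fun n hn => ?_⟩
  have h1 := hN n hn
  rw [Real.dist_eq, sub_zero, abs_of_nonneg (norm_nonneg _)] at h1 ⊢
  rw [dist_eq_norm] at hst
  have e : t - S.T n t = (t - s) + (s - S.T n s) - S.T n (t - s) := by
    rw [map_sub]
    abel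
  have h2 := norm_T_le n (t - s)
  have h3 := norm_add_le (t - s) (s - S.T n s)
  rw [e]
  refine (norm_sub_le _ _).trans_lt ?_
  linarith

lemma norm_ev_le (n : ℕ) (d : S.D n) (x : S.X n) : ‖S.ev n d x‖ ≤ ‖d‖ :=
  AlgHom.norm_apply_le_self ((Pi.evalAlgHom ℂ (fun _ : S.X n => ℂ) x).comp (S.ev n).toAlgHom) d

lemma norm_ev_A0 (r : S.L) (n : ℕ) (x : S.X (n + 1)) :
    ‖S.ev (n + 1) (r (n + 1)) x‖ ≤ ‖r - S.T n r‖ + ‖r‖ * (1 / 2) ^ n := by
  have e : r (n + 1) = (r - S.T n r) (n + 1) + S.ι n (r n) * S.e n := by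
    rw [lp.coeFn_sub, Pi.sub_apply, T_apply, thr_succ le_rfl, thr_of_le le_rfl]
    ring
  rw [e, map_add, map_mul, Pi.add_apply, Pi.mul_apply]
  refine (norm_add_le _ _).trans (add_le_add ((norm_ev_le _ _ _).trans (S.norm_app_le _ _)) ?_)
  rw [norm_mul]
  refine mul_le_mul ((norm_ev_le _ _ _).trans ?_) (S.hsmall n x) (norm_nonneg _) (norm_nonneg _)
  rw [S.hι]
  exact S.norm_app_le _ _

lemma norm_coef_le {a : S.L} {c : ℂ} (h : a - c • (1 : S.L) ∈ S.A0) : ‖c‖ ≤ ‖a‖ := by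
  set r := a - c • (1 : S.L) with hr
  have h1 : Tendsto (fun n : ℕ => ‖a‖ + (‖r - S.T n r‖ + ‖r‖ * (1 / 2 : ℝ) ^ n)) atTop
      (𝓝 (‖a‖ + (0 + ‖r‖ * 0))) :=
    tendsto_const_nhds.add ((mem_A0.1 h).add
      ((tendsto_pow_atTop_nhds_zero_of_lt_one (by norm_num) (by norm_num)).const_mul _))
  simp only [mul_zero, add_zero] at h1
  refine ge_of_tendsto' h1 fun n => ?_
  obtain ⟨x⟩ := S.ne (n + 1)
  have e : c = S.ev (n + 1) (a (n + 1)) x - S.ev (n + 1) (r (n + 1)) x := by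
    rw [hr, lp.coeFn_sub, lp.coeFn_smul]
    simp
  calc ‖c‖ = ‖S.ev (n + 1) (a (n + 1)) x - S.ev (n + 1) (r (n + 1)) x‖ := by rw [← e]
    _ ≤ _ := (norm_sub_le _ _).trans (add_le_add ((norm_ev_le _ _ _).trans (S.norm_app_le _ _))
      (norm_ev_A0 r n x))

end Sys

end Pool.Agent.H181Z.HT
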