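import Mathlib
import Pool.Agent.H181Z.HTSys

/-!
# The sequence algebra attached to a tower: spectrum and approximation property
-/

set_option autoImplicit false

namespace Pool.Agent.H181Z.HT

open Filter Topology
open scoped ENNReal

namespace Sys

variable (S : Sys)

/-- the unital sequence algebra -/
def Alg : Subalgebra ℂ S.L where
  carrier := {a | ∃ c : ℂ, a - c • (1 : S.L) ∈ S.A0}
  mul_mem' := by
    rintro a b ⟨c, hc⟩ ⟨d, hd⟩
    refine ⟨c * d, ?_⟩
    have e : a * b - (c * d) • (1 : S.L) = (a - c • (1 : S.L)) * (b - d • (1 : S.L)) +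
        c • (b - d • (1 : S.L)) + d • (a - c • (1 : S.L)) := by
      simp only [Algebra.smul_def, map_mul]
      ring
    rw [e]
    exact add_mem (add_mem (mul_mem_A0 hc hd) (S.A0.smul_mem _ hd)) (S.A0.smul_mem _ hc)
  add_mem' := by
    rintro a b ⟨c, hc⟩ ⟨d, hd⟩
    refine ⟨c + d, ?_⟩
    rw [add_smul, add_sub_add_comm]
    exact add_mem hc hd
  algebraMap_mem' := fun c => ⟨c, by rw [Algebra.algebraMap_eq_smul_one, sub_self]; exact zero_mem _⟩

lemma isClosed_Alg : IsClosed (S.Alg : Set S.L) := by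
  have h := Submodule.isClosed_sup_finiteDimensional S.A0 (ℂ ∙ (1 : S.L)) isClosed_A0
  convert h using 1
  ext a
  simp only [SetLike.mem_coe, Submodule.mem_sup, Submodule.mem_span_singleton]
  constructor
  · rintro ⟨c, hc⟩
    exact ⟨_, hc, _, ⟨c, rfl⟩, by abel⟩
  · rintro ⟨y, hy, _, ⟨c, rfl⟩, rfl⟩
    exact ⟨c, by simpa using hy⟩

/-- the Banach algebra -/
abbrev A : Type := S.Alg

instance : CompleteSpace S.A := S.isClosed_Alg.completeSpace_coe

variable {S}

lemma norm_A (a : S.A) : ‖a‖ = ‖(a : S.L)‖ := rfl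

lemma norm_one_A : ‖(1 : S.A)‖ = 1 := by
  rw [norm_A]
  simp

/-- the value at infinity -/
noncomputable def coef (a : S.A) : ℂ := a.2.choose

lemma coef_spec (a : S.A) : (a : S.L) - coef a • (1 : S.L) ∈ S.A0 := a.2.choose_spec

lemma coef_unique {a : S.A} {c : ℂ} (h : (a : S.L) - c • (1 : S.L) ∈ S.A0) : coef a = c := by
  have h1 := sub_mem h (coef_spec a)
  have e : (a : S.L) - c • (1 : S.L) - ((a : S.L) - coef a • (1 : S.L)) =
      0 - (c - coef a) • (1 : S.L) := by
    rw [sub_smul]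
    abel
  rw [e] at h1
  have h2 := norm_coef_le h1
  rw [norm_zero, norm_le_zero_iff, sub_eq_zero] at h2
  exact h2.symm

variable (S)

/-- the value at infinity is multiplicative -/
noncomputable def coefHom : S.A →ₐ[ℂ] ℂ where
  toFun := coef
  map_one' := coef_unique (by simp)
  map_zero' := coef_unique (by simp)
  map_add' a b := coef_unique (by
    rw [Subalgebra.coe_add, add_smul, add_sub_add_comm]
    exact add_mem (coef_spec a) (coef_spec b))
  map_mul' a b := coef_unique (by
    have e : ((a * b : S.A) : S.L) - (coef a * coef b) • (1 : S.L) =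
        ((a : S.L) - coef a • (1 : S.L)) * ((b : S.L) - coef b • (1 : S.L)) +
        coef a • ((b : S.L) - coef b • (1 : S.L)) + coef b • ((a : S.L) - coef a • (1 : S.L)) := by
      simp only [Subalgebra.coe_mul, Algebra.smul_def, map_mul]
      ring
    rw [e]
    exact add_mem (add_mem (mul_mem_A0 (coef_spec a) (coef_spec b))
      (S.A0.smul_mem _ (coef_spec b))) (S.A0.smul_mem _ (coef_spec a)))
  commutes' c := coef_unique (by
    rw [Subalgebra.coe_algebraMap, Algebra.algebraMap_eq_smul_one]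
    simp)

/-- the point at infinity -/
noncomputable def ω : Spec S.A := WeakDual.CharacterSpace.equivAlgHom.symm S.coefHom

variable {S}

lemma ω_apply (a : S.A) : S.ω a = coef a := rfl

lemma ω_A0 {a : S.A} (h : (a : S.L) ∈ S.A0) : S.ω a = 0 := coef_unique (by simpa using h)

variable (S)

/-- the isolated points -/
abbrev P : Type := Σ n, S.X n

variable {S}

/-- evaluation on bounded sequences -/
noncomputable def χL (p : S.P) : S.L →ₐ[ℂ] ℂ where
  toFun a := S.ev p.1 (a p.1) p.2
  map_one' := by simp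
  map_zero' := by simp
  map_add' a b := by simp
  map_mul' a b := by simp [lp.infty_coeFn_mul]
  commutes' c := by
    rw [Algebra.algebraMap_eq_smul_one, lp.coeFn_smul]
    simp

lemma χL_apply (p : S.P) (a : S.L) : χL p a = S.ev p.1 (a p.1) p.2 := rfl

/-- evaluation at an isolated point -/
noncomputable def χ (p : S.P) : Spec S.A :=
  WeakDual.CharacterSpace.equivAlgHom.symm ((χL p).comp S.Alg.val)

lemma χ_apply (p : S.P) (a : S.A) : χ p a = χL p (a : S.L) := rfl

/-- the minimal idempotents of `D n` -/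
noncomputable def δD (n : ℕ) (x : S.X n) : S.D n := (S.ev n).symm (Pi.single x 1)

lemma D_expand (n : ℕ) (d : S.D n) : d = ∑ x, S.ev n d x • δD n x := by
  apply (S.ev n).injective
  simp only [map_sum, map_smul, δD, AlgEquiv.apply_symm_apply]
  ext y
  simp [Finset.sum_apply, Pi.single_apply]

/-- the minimal idempotents as bounded sequences -/
noncomputable def δL (p : S.P) : S.L := lp.single ∞ p.1 (δD p.1 p.2)

lemma mem_A0_of_fin {a : S.L} {N : ℕ} (h : ∀ n, N < n → a n = 0) : a ∈ S.A0 := by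
  rw [mem_A0]
  refine tendsto_const_nhds.congr' ?_
  filter_upwards [eventually_gt_atTop N] with M hM
  have : S.T M a = a := by
    refine lp.ext (funext fun n => ?_)
    rw [T_apply]
    induction n with
    | zero => rfl
    | succ n ih =>
      by_cases hn : n + 1 ≤ M
      · exact thr_of_le hn _
      · rw [thr_succ (by omega), ih, h n (by omega), h (n + 1) (by omega)]
        simp
  rw [this, sub_self, norm_zero]

lemma δL_mem (p : S.P) : δL p ∈ S.A0 :=
  mem_A0_of_fin (N := p.1) fun n hn => lp.single_apply_ne _ _ _ hn.ne'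

lemma mem_Alg {a : S.L} (h : a ∈ S.A0) : a ∈ S.Alg := ⟨0, by simpa using h⟩

/-- the minimal idempotents -/
noncomputable def δ (p : S.P) : S.A := ⟨δL p, mem_Alg (δL_mem p)⟩

lemma χL_δL_self (p : S.P) : χL p (δL p) = 1 := by
  rw [χL_apply, δL, lp.single_apply_self]
  simp [δD]

lemma χL_δL_ne {p q : S.P} (h : q ≠ p) : χL q (δL p) = 0 := by
  obtain ⟨n, x⟩ := p
  obtain ⟨m, y⟩ := q
  rw [χL_apply, δL]
  by_cases hn : m = n
  · subst hn
    have : y ≠ x := by
      rintro rfl
      exact h rfl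
    rw [lp.single_apply_self]
    simp [δD, this]
  · rw [lp.single_apply_ne _ _ _ hn]
    simp

lemma L_ext {a b : S.L} (h : ∀ p, χL p a = χL p b) : a = b :=
  lp.ext (funext fun n => (S.ev n).injective (funext fun x => h ⟨n, x⟩))

lemma mul_δL (a : S.L) (p : S.P) : a * δL p = χL p a • δL p := by
  refine L_ext fun q => ?_
  by_cases h : q = p
  · subst h
    simp
  · simp [χL_δL_ne h]

variable (S) in
/-- the isolated points up to level `M` -/
abbrev PM (M : ℕ) : Type := Σ n : Fin (M + 1), S.X n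

/-- the inclusion -/
def PM.toP {M : ℕ} (p : S.PM M) : S.P := ⟨p.1, p.2⟩

lemma PM.toP_inj {M : ℕ} {p q : S.PM M} (h : p.toP = q.toP) : p = q := by
  obtain ⟨n, x⟩ := p
  obtain ⟨m, y⟩ := q
  have h1 : n = m := Fin.ext (congrArg Sigma.fst h)
  subst h1
  simp only [PM.toP, Sigma.mk.injEq, heq_eq_eq, true_and] at h
  rw [h]

/-- truncation -/
noncomputable def head (M : ℕ) (a : S.L) : S.L := ∑ p : S.PM M, χL p.toP a • δL p.toP

lemma head_of_le {M n : ℕ} (h : n ≤ M) (a : S.L) : head M a n = a n := by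
  refine (S.ev n).injective (funext fun x => ?_)
  show χL ⟨n, x⟩ (head M a) = χL ⟨n, x⟩ a
  rw [head, map_sum, Finset.sum_eq_single (⟨⟨n, by omega⟩, x⟩ : S.PM M)]
  · rw [map_smul]
    show χL ⟨n, x⟩ a • χL ⟨n, x⟩ (δL ⟨n, x⟩) = _
    rw [χL_δL_self]
    simp
  · intro q _ hq
    rw [map_smul, χL_δL_ne, smul_zero]
    intro h'
    exact hq (PM.toP_inj (q := ⟨⟨n, by omega⟩, x⟩) h'.symm)
  · simp

lemma head_of_gt {M n : ℕ} (h : M < n) (a : S.L) : head M a n = 0 := by
  refine (S.ev n).injective (funext fun x => ?_)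
  show χL ⟨n, x⟩ (head M a) = S.ev n 0 x
  rw [head, map_sum, map_zero, Pi.zero_apply]
  refine Finset.sum_eq_zero fun q _ => ?_
  rw [map_smul, χL_δL_ne, smul_zero]
  intro h'
  have h2 : n = q.1.1 := congrArg Sigma.fst h'
  have := q.1.2
  omega

lemma T_expand (M : ℕ) (a : S.L) :
    S.T M a = ∑ p : S.PM M, χL p.toP a • S.T M (δL p.toP) := by
  rw [T_congr (b := head M a) fun n hn => (head_of_le hn a).symm, head, map_sum]
  simp only [map_smul]

lemma le_of_pow_le {a b C : ℝ} (hb : 0 ≤ b) (h : ∀ k : ℕ, 1 ≤ k → a ^ k ≤ C * b ^ k) : a ≤ b := by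
  by_contra hab
  push Not at hab
  rcases hb.eq_or_lt with rfl | hb'
  · have := h 1 le_rfl
    simp at this
    linarith
  · have h1 : 1 < a / b := (one_lt_div hb').2 hab
    obtain ⟨k, hk, hk1⟩ := (((tendsto_pow_atTop_atTop_of_one_lt h1).eventually_gt_atTop C).and
      (eventually_ge_atTop 1)).exists
    have := h k hk1
    rw [div_pow, lt_div_iff₀ (by positivity)] at hk
    linarith

lemma norm_e_pow (n : ℕ) : ∃ C : ℝ, ∀ k : ℕ, ‖S.e n ^ k‖ ≤ C * ((1 / 2) ^ n) ^ k := by
  refine ⟨∑ x : S.X (n + 1), ‖δD (n + 1) x‖, fun k => ?_⟩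
  rw [D_expand (n + 1) (S.e n ^ k), Finset.sum_mul]
  refine (norm_sum_le _ _).trans (Finset.sum_le_sum fun x _ => ?_)
  rw [norm_smul, map_pow, Pi.pow_apply, norm_pow, mul_comm]
  exact mul_le_mul_of_nonneg_left (pow_le_pow_left₀ (norm_nonneg _) (S.hsmall n x) k)
    (norm_nonneg _)

lemma norm_thr_pow (n k : ℕ) (r : S.L) (j : ℕ) :
    ‖S.thr n r (n + j + 1) ^ k‖ ≤ ‖r‖ ^ k * ‖S.e n ^ k‖ := by
  induction j with
  | zero =>
    rw [thr_succ (by omega)]
    show ‖(S.ι n (S.thr n r n) * S.e n) ^ k‖ ≤ _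
    rw [thr_of_le le_rfl, mul_pow]
    refine (norm_mul_le _ _).trans (mul_le_mul_of_nonneg_right ?_ (norm_nonneg _))
    refine (norm_pow_le _ _).trans ?_
    rw [S.hι]
    exact pow_le_pow_left₀ (norm_nonneg _) (S.norm_app_le _ _) k
  | succ j ih =>
    show ‖S.thr n r (n + j + 1 + 1) ^ k‖ ≤ _
    rw [thr_succ (by omega), mul_pow, ← map_pow]
    refine (norm_mul_le _ _).trans ?_
    rw [S.hι]
    refine (mul_le_of_le_one_right (norm_nonneg _) ?_).trans ih
    exact (norm_pow_le _ _).trans (pow_le_one₀ (norm_nonneg _) (S.he _))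

/-- the thread operator with values in the algebra -/
noncomputable def tA (M : ℕ) : S.L →ₗ[ℂ] S.A :=
  (S.T M).codRestrict (Subalgebra.toSubmodule S.Alg) fun a => mem_Alg (T_mem M a)

@[simp] lemma coe_tA (M : ℕ) (a : S.L) : (tA M a : S.L) = S.T M a := rfl

lemma spec_le (φ : Spec S.A) (a : S.A) : ‖φ a‖ ≤ ‖a‖ := by
  simpa [norm_one_A] using spec_norm_le φ a

lemma apply_A0 (φ : Spec S.A) (hφ : ∀ p, φ (δ p) = 0) (r : S.A) (hr : (r : S.L) ∈ S.A0) :
    φ r = 0 := by
  have h1 : ∀ n, ‖φ (tA n r)‖ ≤ ‖r‖ * (1 / 2) ^ n := by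
    intro n
    obtain ⟨C, hC⟩ := norm_e_pow (S := S) n
    refine le_of_pow_le (C := C) (by positivity) fun k hk => ?_
    set z : S.A := tA n r ^ k with hz
    have e : φ z = φ (z - ∑ p : S.PM n, χL p.toP (z : S.L) • δ p.toP) := by
      simp [hφ]
    rw [← norm_pow, ← map_pow, ← hz, e]
    refine (spec_le φ _).trans ?_
    have e2 : ((z - ∑ p : S.PM n, χL p.toP (z : S.L) • δ p.toP : S.A) : S.L) =
        (z : S.L) - head n z := by
      simp [head, δ]
    rw [norm_A, e2]
    have hC0 : 0 ≤ C * (‖r‖ * (1 / 2) ^ n) ^ k := by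
      have := (norm_nonneg _).trans (hC 0)
      simp only [pow_zero, mul_one] at this
      positivity
    refine lp.norm_le_of_forall_le hC0 fun m => ?_
    rw [lp.coeFn_sub, Pi.sub_apply]
    by_cases hm : m ≤ n
    · rw [head_of_le hm, sub_self, norm_zero]
      exact hC0
    · obtain ⟨j, rfl⟩ : ∃ j, m = n + j + 1 := ⟨m - n - 1, by omega⟩
      rw [head_of_gt (by omega), sub_zero]
      have e3 : (z : S.L) (n + j + 1) = S.thr n (r : S.L) (n + j + 1) ^ k := by
        rw [hz, Subalgebra.coe_pow, lp.infty_coeFn_pow]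
        rfl
      rw [e3]
      refine (norm_thr_pow n k (r : S.L) j).trans ?_
      rw [mul_pow, ← norm_A]
      calc ‖r‖ ^ k * ‖S.e n ^ k‖ ≤ ‖r‖ ^ k * (C * ((1 / 2) ^ n) ^ k) :=
            mul_le_mul_of_nonneg_left (hC k) (by positivity)
        _ = _ := by ring
  have h2 : Tendsto (fun n : ℕ => ‖(r : S.L) - S.T n r‖ + ‖r‖ * (1 / 2 : ℝ) ^ n) atTop
      (𝓝 (0 + ‖r‖ * 0)) :=
    (mem_A0.1 hr).add
      ((tendsto_pow_atTop_nhds_zero_of_lt_one (by norm_num) (by norm_num)).const_mul _)
  simp only [mul_zero, add_zero] at h2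
  rw [← norm_le_zero_iff]
  refine ge_of_tendsto' h2 fun n => ?_
  have e : φ r = φ (r - tA n r) + φ (tA n r) := by simp
  rw [e]
  exact (norm_add_le _ _).trans (add_le_add (spec_le φ _) (h1 n))

/-- the part of `a` vanishing at infinity -/
noncomputable def rad (a : S.A) : S.A := a - coef a • 1

lemma rad_mem (a : S.A) : ((rad a : S.A) : S.L) ∈ S.A0 := coef_spec a

variable (S)

/-- the description of the spectrum -/
noncomputable def seqData : SeqData S.A S.P where
  χ := χ
  ω := S.ω
  δ := δ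
  χδ p := χL_δL_self p
  χδ' _ _ h := χL_δL_ne h
  ωδ p := ω_A0 (δL_mem p)
  all φ := by
    by_cases h : ∀ p, φ (δ p) = 0
    · left
      ext a
      have := apply_A0 φ h (rad a) (rad_mem a)
      rw [rad, map_sub, map_smul, map_one, smul_eq_mul, mul_one, sub_eq_zero] at this
      rw [this, ω_apply]
    · right
      push Not at h
      obtain ⟨p, hp⟩ := h
      refine ⟨p, ?_⟩
      ext a
      have e : a * δ p = χL p (a : S.L) • δ p := Subtype.ext (mul_δL a p)
      have := congrArg φ e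
      rw [map_mul, map_smul, smul_eq_mul] at this
      exact mul_right_cancel₀ hp this
  sep a h := Subtype.ext (L_ext fun p => by simpa [χ_apply] using h p)

theorem semisimple_A : Semisimple S.A := S.seqData.semisimple

theorem regular_A : Regular S.A := S.seqData.regular

theorem not_hyperTauberian_A : ¬ HyperTauberian S.A := by
  classical
  refine S.seqData.not_hyperTauberian (tA 0 1) (ω_A0 (T_mem 0 1)) (1 / 2) (by norm_num) ?_
  intro a T hT
  set N := T.sup fun p => p.1 with hN
  have h0 : (a : S.L) (N + 1) = 0 := by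
    refine (S.ev _).injective (funext fun x => ?_)
    have := hT ⟨N + 1, x⟩ fun hm => by
      have := Finset.le_sup (f := fun p : S.P => p.1) hm
      simp only at this
      omega
    rw [map_zero]
    exact this
  have h1 := S.norm_app_le ((tA 0 1 - a : S.A) : S.L) (N + 1)
  rw [Subalgebra.coe_sub, lp.coeFn_sub, Pi.sub_apply, h0, sub_zero] at h1
  exact (half_le_norm_thr N).trans h1

theorem semisimple_PT : Semisimple (PT S.A) := by
  let R : S.A →ₗ[ℂ] S.A := LinearMap.id - S.coefHom.toLinearMap.smulRight 1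
  have hR : ∀ a, R a = rad a := fun a => rfl
  let U : ℕ → S.A →ₗ[ℂ] S.A := fun M => S.coefHom.toLinearMap.smulRight 1 +
    (tA M).comp (S.Alg.val.toLinearMap.comp R)
  have hU : ∀ M a, U M a = coef a • 1 + tA M ((rad a : S.A) : S.L) := fun M a => rfl
  have hc : ∀ a : S.A, ‖coef a • (1 : S.A)‖ ≤ ‖a‖ := fun a => by
    rw [norm_smul, norm_one_A, mul_one]
    exact norm_coef_le (coef_spec a)
  refine semisimple_pt U 3 (by norm_num) ?_ ?_ ?_
  · intro M a
    rw [hU]
    have h1 : ‖tA M ((rad a : S.A) : S.L)‖ ≤ ‖rad a‖ := norm_T_le M ((rad a : S.A) : S.L)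
    have h2 : ‖rad a‖ ≤ ‖a‖ + ‖coef a • (1 : S.A)‖ := norm_sub_le _ _
    have h3 := norm_add_le (coef a • (1 : S.A)) (tA M ((rad a : S.A) : S.L))
    linarith [hc a]
  · intro a
    rw [tendsto_iff_norm_sub_tendsto_zero]
    refine (mem_A0.1 (rad_mem a)).congr fun M => ?_
    have e : U M a - a = -(rad a - tA M ((rad a : S.A) : S.L)) := by
      rw [hU, rad]
      abel
    rw [e, norm_neg]
    rfl
  · intro M
    refine ⟨Option (S.PM M), inferInstance, fun o => o.elim S.ω fun p => χ p.toP,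
      fun o => o.elim (1 - ∑ p : S.PM M, tA M (δL p.toP)) fun p => tA M (δL p.toP), fun a => ?_⟩
    rw [hU, Fintype.sum_option]
    have e : tA M ((rad a : S.A) : S.L) =
        ∑ p : S.PM M, χL p.toP ((rad a : S.A) : S.L) • tA M (δL p.toP) := by
      apply Subtype.ext
      rw [coe_tA, T_expand]
      simp
    rw [e]
    simp only [Option.elim, ω_apply, χ_apply, rad, Subalgebra.coe_sub, Subalgebra.coe_smul,
      Subalgebra.coe_one, map_sub, map_smul, map_one, smul_eq_mul, mul_one, sub_smul,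
      Finset.sum_sub_distrib, smul_sub, Finset.smul_sum]
    abel

end Sys

end Pool.Agent.H181Z.HT
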