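import Mathlib
import Pool.Agent.H181Z.HTAlg

/-!
# The sequence algebra attached to a tower: amenability
-/

set_option autoImplicit false

namespace Pool.Agent.H181Z.HT

open Filter Topology
open scoped ENNReal

lemma lft_mul_mul {A : Type} [NormedCommRing A] [NormedAlgebra ℂ A] (s t : TSq A) :
    lft (LinearMap.mul ℂ A) (s * t) = lft (LinearMap.mul ℂ A) s * lft (LinearMap.mul ℂ A) t := by
  refine tsq_induction (P := fun s => lft (LinearMap.mul ℂ A) (s * t) =
    lft (LinearMap.mul ℂ A) s * lft (LinearMap.mul ℂ A) t) s (by simp) ?_ ?_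
  · intro a b
    refine tsq_induction (P := fun t => lft (LinearMap.mul ℂ A) (tm0 a b * t) =
      lft (LinearMap.mul ℂ A) (tm0 a b) * lft (LinearMap.mul ℂ A) t) t (by simp) ?_ ?_
    · intro c d
      rw [tm0_mul, lft_tm0, lft_tm0, lft_tm0]
      simp only [LinearMap.mul_apply']
      ring
    · intro s t hs ht
      rw [mul_add, map_add, map_add, hs, ht, mul_add]
  · intro s u hs hu
    rw [add_mul, map_add, map_add, hs, hu, add_mul]

namespace Sys

variable {S : Sys}

lemma thr_mul_thr (M : ℕ) (v w : ∀ n, S.D n) (n : ℕ) :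
    S.thr M v n * S.thr M w n = S.thr M 1 n * S.thr M (v * w) n := by
  induction n with
  | zero => simp [thr]
  | succ n ih =>
    by_cases hn : n + 1 ≤ M
    · simp [thr_of_le hn]
    · rw [thr_succ (by omega), thr_succ (by omega), thr_succ (by omega), thr_succ (by omega)]
      have := congrArg (S.ι n) ih
      rw [map_mul, map_mul] at this
      linear_combination (S.e n * S.e n) * this

lemma tA_mul_tA (M : ℕ) (v w : S.L) : tA M v * tA M w = tA M 1 * tA M (v * w) :=
  Subtype.ext (lp.ext (funext fun n => thr_mul_thr M v w n))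

variable (S) in
/-- the product of the groups up to level `M` -/
abbrev G (M : ℕ) : Type := ∀ n : Fin (M + 1), S.Γ n

/-- the group elements as sequences -/
noncomputable def ub0 {M : ℕ} (g : S.G M) (n : ℕ) : S.D n :=
  if h : n < M + 1 then S.u n (g ⟨n, h⟩) else 1

lemma norm_ub0 {M : ℕ} (g : S.G M) (n : ℕ) : ‖ub0 g n‖ ≤ 1 := by
  unfold ub0
  split_ifs
  · exact S.hu _ _
  · simp

/-- the group elements as bounded sequences -/
noncomputable def ub (M : ℕ) : S.G M →* S.L where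
  toFun g := ⟨ub0 g, memℓp_infty ⟨1, by
    rintro _ ⟨n, rfl⟩
    exact norm_ub0 g n⟩⟩
  map_one' := lp.ext (funext fun n => by
    show ub0 1 n = 1
    unfold ub0
    split_ifs <;> simp)
  map_mul' g h := lp.ext (funext fun n => by
    show ub0 (g * h) n = ub0 g n * ub0 h n
    unfold ub0
    split_ifs <;> simp)

lemma norm_ub (M : ℕ) (g : S.G M) : ‖ub M g‖ ≤ 1 :=
  lp.norm_le_of_forall_le zero_le_one fun n => norm_ub0 g n

lemma χL_ub {M : ℕ} (p : S.PM M) (g : S.G M) :
    χL p.toP (ub M g) = S.ev p.1 (S.u p.1 (g p.1)) p.2 := by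
  obtain ⟨n, x⟩ := p
  show S.ev n (ub0 g n) x = _
  unfold ub0
  rw [dif_pos n.2]

lemma orth {M : ℕ} {p q : S.PM M} (h : p ≠ q) :
    ∑ g : S.G M, χL p.toP (ub M g) * χL q.toP (ub M g⁻¹) = 0 := by
  classical
  let f : S.G M →* ℂ :=
    { toFun := fun g => χL p.toP (ub M g) * χL q.toP (ub M g⁻¹)
      map_one' := by simp
      map_mul' := fun g h => by
        rw [mul_inv, map_mul, map_mul, map_mul, map_mul]
        ring }
  refine sum_hom_units_eq_zero f fun hf => ?_
  have h1 : ∀ g, χL p.toP (ub M g) = χL q.toP (ub M g) := by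
    intro g
    have h2 : χL p.toP (ub M g) * χL q.toP (ub M g⁻¹) = 1 := DFunLike.congr_fun hf g
    have h3 : χL q.toP (ub M g⁻¹) * χL q.toP (ub M g) = 1 := by
      rw [← map_mul, ← map_mul]
      simp
    linear_combination χL q.toP (ub M g) * h2 - χL p.toP (ub M g) * h3
  obtain ⟨n, x⟩ := p
  obtain ⟨m, y⟩ := q
  by_cases hn : n = m
  · subst hn
    have hxy : x ≠ y := by
      rintro rfl
      exact h rfl
    obtain ⟨g, hg⟩ := S.hsep n x y hxy
    have := h1 (Pi.mulSingle n g)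
    rw [χL_ub, χL_ub] at this
    simp only [Pi.mulSingle_eq_same] at this
    exact hg this
  · obtain ⟨g, hg⟩ := S.hsign n x
    have := h1 (Pi.mulSingle n g)
    rw [χL_ub, χL_ub] at this
    simp only [Pi.mulSingle_eq_same, Pi.mulSingle_eq_of_ne (Ne.symm hn), map_one,
      Pi.one_apply] at this
    exact hg this

lemma tA_expand (M : ℕ) (a : S.L) :
    tA M a = ∑ p : S.PM M, χL p.toP a • tA M (δL p.toP) := by
  apply Subtype.ext
  rw [coe_tA, T_expand]
  simp

lemma diag_exact (M : ℕ) (a : S.L) :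
    ∑ g : S.G M, tm0 (tA M (a * ub M g)) (tA M (ub M g⁻¹)) =
      ∑ g : S.G M, tm0 (tA M (ub M g)) (tA M (a * ub M g⁻¹)) := by
  have key : ∀ v w : S.L, tm0 (tA M v) (tA M w) = ∑ p : S.PM M, ∑ q : S.PM M,
      (χL p.toP v * χL q.toP w) • tm0 (tA M (δL p.toP)) (tA M (δL q.toP)) := by
    intro v w
    rw [tA_expand M v, tA_expand M w]
    simp only [← tmB_apply, map_sum, map_smul, LinearMap.sum_apply, LinearMap.smul_apply,
      Finset.smul_sum]
    rw [Finset.sum_comm]
    refine Finset.sum_congr rfl fun i _ => Finset.sum_congr rfl fun j _ => ?_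
    rw [smul_smul, mul_comm]
  rw [Finset.sum_congr rfl fun g _ => key (a * ub M g) (ub M g⁻¹),
    Finset.sum_congr rfl fun g _ => key (ub M g) (a * ub M g⁻¹)]
  rw [Finset.sum_comm, Finset.sum_comm (s := (Finset.univ : Finset (S.G M)))]
  refine Finset.sum_congr rfl fun p _ => ?_
  rw [Finset.sum_comm, Finset.sum_comm (s := (Finset.univ : Finset (S.G M)))]
  refine Finset.sum_congr rfl fun q _ => ?_
  rw [← Finset.sum_smul, ← Finset.sum_smul]
  congr 1
  by_cases h : p = q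
  · subst h
    refine Finset.sum_congr rfl fun g _ => ?_
    rw [map_mul, map_mul]
    ring
  · have h1 := orth h
    have e1 : ∑ g : S.G M, χL p.toP (a * ub M g) * χL q.toP (ub M g⁻¹) =
        χL p.toP a * ∑ g : S.G M, χL p.toP (ub M g) * χL q.toP (ub M g⁻¹) := by
      rw [Finset.mul_sum]
      refine Finset.sum_congr rfl fun g _ => ?_
      rw [map_mul, mul_assoc]
    have e2 : ∑ g : S.G M, χL p.toP (ub M g) * χL q.toP (a * ub M g⁻¹) =
        χL q.toP a * ∑ g : S.G M, χL p.toP (ub M g) * χL q.toP (ub M g⁻¹) := by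
      rw [Finset.mul_sum]
      refine Finset.sum_congr rfl fun g _ => ?_
      rw [map_mul]
      ring
    rw [e1, e2, h1, mul_zero, mul_zero]

lemma norm_avg_le {ι E : Type} [Fintype ι] [Nonempty ι] [SeminormedAddCommGroup E]
    [NormedSpace ℂ E] (f : ι → E) (K : ℝ) (h : ∀ i, ‖f i‖ ≤ K) :
    ‖(Fintype.card ι : ℂ)⁻¹ • ∑ i, f i‖ ≤ K := by
  have hc : (0 : ℝ) < Fintype.card ι := by exact_mod_cast Fintype.card_pos
  rw [norm_smul, norm_inv, Complex.norm_natCast, inv_mul_le_iff₀ hc]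
  refine (norm_sum_le _ _).trans ((Finset.sum_le_sum fun i _ => h i).trans ?_)
  simp

lemma norm_tA_le (M : ℕ) (a : S.L) : ‖tA M a‖ ≤ ‖a‖ := norm_T_le M a

variable (S)

/-- the approximate diagonal of the maximal ideal -/
noncomputable def Δ (M : ℕ) : TSq S.A :=
  (Fintype.card (S.G M) : ℂ)⁻¹ • ∑ g : S.G M, tm0 (tA M (ub M g)) (tA M (ub M g⁻¹))

/-- the approximate unit -/
noncomputable def pu (M : ℕ) : S.A := tA M 1 * tA M 1

variable {S}

lemma norm_tA_ub (M : ℕ) (g : S.G M) : ‖tA M (ub M g)‖ ≤ 1 := (norm_tA_le _ _).trans (norm_ub _ _)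

lemma norm_Δ (M : ℕ) : ‖S.Δ M‖ ≤ 1 :=
  norm_avg_le _ _ fun g => (norm_tm0_le _ _).trans
    (mul_le_one₀ (norm_tA_ub M g) (norm_nonneg _) (norm_tA_ub M _))

lemma π_Δ (M : ℕ) : lft (LinearMap.mul ℂ S.A) (S.Δ M) = S.pu M := by
  rw [Δ, map_smul, map_sum]
  have : ∀ g : S.G M, lft (LinearMap.mul ℂ S.A) (tm0 (tA M (ub M g)) (tA M (ub M g⁻¹))) =
      S.pu M := by
    intro g
    rw [lft_tm0, LinearMap.mul_apply', tA_mul_tA, ← map_mul (ub M), mul_inv_cancel,
      map_one (ub M), pu]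
  simp only [this, Finset.sum_const, Finset.card_univ]
  rw [← Nat.cast_smul_eq_nsmul ℂ, smul_smul, inv_mul_cancel₀, one_smul]
  exact_mod_cast Fintype.card_ne_zero

lemma norm_tA_one (M : ℕ) : ‖tA M (1 : S.L)‖ ≤ 1 := (norm_tA_le _ _).trans (by simp)

lemma norm_pu (M : ℕ) : ‖S.pu M‖ ≤ 1 :=
  (norm_mul_le _ _).trans (mul_le_one₀ (norm_tA_one M) (norm_nonneg _) (norm_tA_one M))

/-- the error term -/
noncomputable def err (m : ℕ) (a : S.L) : ℝ := 2 * ‖a - S.T m a‖ + ‖a‖ * (1 / 2) ^ (m + 2)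

lemma err_nonneg (m : ℕ) (a : S.L) : 0 ≤ err m a := by
  unfold err
  positivity

lemma mul_tA_approx (m : ℕ) (r : S.A) (b : S.L) (hb : ‖b‖ ≤ 1) :
    ‖r * tA (m + 1) b - tA (m + 1) ((r : S.L) * b)‖ ≤ err m (r : S.L) :=
  (mul_T_approx m (r : S.L) b).trans (mul_le_of_le_one_right (err_nonneg _ _) hb)

lemma comm_Δ (m : ℕ) (r : S.A) :
    ‖tm0 r 1 * S.Δ (m + 1) - tm0 1 r * S.Δ (m + 1)‖ ≤ 2 * err m (r : S.L) := by
  set M := m + 1 with hM
  have e : tm0 r 1 * S.Δ M - tm0 1 r * S.Δ M = (Fintype.card (S.G M) : ℂ)⁻¹ • ∑ g : S.G M,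
      (tm0 (r * tA M (ub M g) - tA M ((r : S.L) * ub M g)) (tA M (ub M g⁻¹)) -
        tm0 (tA M (ub M g)) (r * tA M (ub M g⁻¹) - tA M ((r : S.L) * ub M g⁻¹))) := by
    simp only [tm0_sub_left, tm0_sub_right, Finset.sum_sub_distrib]
    rw [diag_exact, Δ, mul_smul_comm, mul_smul_comm, ← smul_sub, Finset.mul_sum, Finset.mul_sum]
    simp only [tm0_mul, one_mul]
    congr 1
    abel
  rw [e]
  refine norm_avg_le _ _ fun g => (norm_sub_le _ _).trans ?_
  have h1 := (norm_tm0_le _ _).trans (mul_le_mul (mul_tA_approx m r _ (norm_ub M g))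
    (norm_tA_ub M g⁻¹) (norm_nonneg _) (err_nonneg _ _))
  have h2 := (norm_tm0_le _ _).trans (mul_le_mul (norm_tA_ub M g)
    (mul_tA_approx m r _ (norm_ub M g⁻¹)) (norm_nonneg _) zero_le_one)
  linarith

lemma unit_pu (m : ℕ) (r : S.A) :
    ‖r * (1 - S.pu (m + 1))‖ ≤ 2 * (err m (r : S.L) + ‖(r : S.L) - S.T (m + 1) r‖) := by
  have h1 := mul_tA_approx m r 1 (by simp)
  rw [mul_one] at h1
  have h2 : ‖r - r * tA (m + 1) 1‖ ≤ err m (r : S.L) + ‖(r : S.L) - S.T (m + 1) r‖ := by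
    have e : r - r * tA (m + 1) 1 = (r - tA (m + 1) (r : S.L)) -
        (r * tA (m + 1) 1 - tA (m + 1) (r : S.L)) := by ring
    rw [e, add_comm (err m (r : S.L))]
    exact (norm_sub_le _ _).trans (add_le_add le_rfl h1)
  have e : r * (1 - S.pu (m + 1)) =
      (r - r * tA (m + 1) 1) + (r - r * tA (m + 1) 1) * tA (m + 1) 1 := by
    rw [pu]
    ring
  rw [e]
  refine (norm_add_le _ _).trans ?_
  have h3 := (norm_mul_le (r - r * tA (m + 1) 1) (tA (m + 1) 1)).trans
    (mul_le_of_le_one_right (norm_nonneg _) (norm_tA_one _))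
  linarith

variable (S)

theorem amenable_A.{u} : Amenable.{u} S.A := by
  have h1 : ∀ M, ‖1 - S.pu M‖ ≤ 2 := fun M => by
    have := norm_sub_le 1 (S.pu M)
    rw [norm_one_A] at this
    linarith [norm_pu (S := S) M]
  have h2 : ∀ M, ‖tm0 (1 + (1 - S.pu M)) (1 : S.A)‖ ≤ 3 := fun M => by
    refine (norm_tm0_le _ _).trans ?_
    have := norm_add_le 1 (1 - S.pu M)
    rw [norm_one_A] at this ⊢
    linarith [h1 M]
  refine amenable_of_diag (fun m => tm0 (1 - S.pu (m + 1)) (1 - S.pu (m + 1)) +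
    S.Δ (m + 1) * tm0 (1 + (1 - S.pu (m + 1))) 1) 7 ?_ ?_ ?_
  · intro m
    refine (norm_add_le _ _).trans ?_
    have h3 := (norm_tm0_le _ _).trans
      (mul_le_mul (h1 (m + 1)) (h1 (m + 1)) (norm_nonneg _) zero_le_two)
    have h4 := (norm_mul_le _ _).trans
      (mul_le_mul (norm_Δ (S := S) (m + 1)) (h2 (m + 1)) (norm_nonneg _) zero_le_one)
    linarith
  · intro m
    rw [map_add, lft_mul_mul, π_Δ, lft_tm0, lft_tm0]
    simp only [LinearMap.mul_apply']
    ring
  · intro a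
    set r := rad a with hr
    have hrm : (r : S.L) ∈ S.A0 := rad_mem a
    have e0 : tm0 a 1 - tm0 1 a = tm0 r 1 - tm0 1 r := by
      rw [hr, rad, tm0_sub_left, tm0_sub_right, tm0_smul_left, tm0_smul_right]
      abel
    have t1 : Tendsto (fun m => err m (r : S.L)) atTop (𝓝 0) := err_tendsto hrm
    have t2 := (tendsto_add_atTop_iff_nat 1).2 (mem_A0.1 hrm)
    have t3 := ((t1.add t2).const_mul 8).add (t1.const_mul 6)
    simp only [add_zero, mul_zero] at t3
    refine squeeze_zero (fun n => norm_nonneg _) (fun m => ?_) t3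
    set q := 1 - S.pu (m + 1) with hq
    have e : tm0 a 1 * (tm0 q q + S.Δ (m + 1) * tm0 (1 + q) 1) -
        tm0 1 a * (tm0 q q + S.Δ (m + 1) * tm0 (1 + q) 1) =
        (tm0 (r * q) q - tm0 q (r * q)) +
          (tm0 r 1 * S.Δ (m + 1) - tm0 1 r * S.Δ (m + 1)) * tm0 (1 + q) 1 := by
      have e1 : tm0 (r * q) q = tm0 r 1 * tm0 q q := by rw [tm0_mul, one_mul]
      have e2 : tm0 q (r * q) = tm0 1 r * tm0 q q := by rw [tm0_mul, one_mul]
      rw [← sub_mul, e0, e1, e2]
      ring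
    rw [e]
    have h3 := unit_pu m r
    have h0 := (norm_nonneg _).trans h3
    have h4 := (norm_tm0_le (r * q) q).trans (mul_le_mul h3 (h1 (m + 1)) (norm_nonneg _) h0)
    have h5 := (norm_tm0_le q (r * q)).trans
      (mul_le_mul (h1 (m + 1)) h3 (norm_nonneg _) zero_le_two)
    have h6 := (norm_mul_le _ _).trans (mul_le_mul (comm_Δ m r) (h2 (m + 1)) (norm_nonneg _)
      (by have := err_nonneg m (r : S.L); positivity))
    have h7 := norm_sub_le (tm0 (r * q) q) (tm0 q (r * q))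
    refine (norm_add_le _ _).trans ?_
    linarith

end Sys

end Pool.Agent.H181Z.HT
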