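import Mathlib

/-!
# Algebra norms on finite-dimensional function algebras: two extension steps
-/

set_option autoImplicit false

namespace Pool.Agent.H181Z.HT

open Finset

/-- an algebra norm on the functions on `X` -/
structure FN (X : Type) where
  N : Seminorm ℂ (X → ℂ)
  mul : ∀ f g, N (f * g) ≤ N f * N g
  one : N 1 ≤ 1
  sup : ∀ f x, ‖f x‖ ≤ N f

lemma seminorm_bound {X : Type} [Fintype X] (q : Seminorm ℂ (X → ℂ)) :
    ∃ C : ℝ, 1 ≤ C ∧ ∀ f, q f ≤ C * ‖f‖ := by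
  classical
  refine ⟨1 + ∑ x, q (Pi.single x 1), by
    have : 0 ≤ ∑ x, q (Pi.single x (1 : ℂ) : X → ℂ) := sum_nonneg fun x _ => apply_nonneg _ _
    linarith, fun f => ?_⟩
  have e : f = ∑ x, f x • (Pi.single x 1 : X → ℂ) := by
    ext y
    simp [Finset.sum_apply, Pi.single_apply]
  have h1 : q f ≤ ∑ x, q (f x • (Pi.single x 1 : X → ℂ)) := by
    conv_lhs => rw [e]
    exact Finset.le_sum_of_subadditive q (map_zero q).le (map_add_le_add q) _ _
  have h2 : ∑ x, q (f x • (Pi.single x 1 : X → ℂ)) ≤ (∑ x, q (Pi.single x 1)) * ‖f‖ := by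
    rw [sum_mul]
    refine sum_le_sum fun x _ => ?_
    rw [map_smul_eq_mul, mul_comm]
    exact mul_le_mul_of_nonneg_left (norm_le_pi_norm f x) (apply_nonneg _ _)
  have h3 := norm_nonneg f
  nlinarith

lemma FN.norm_le {X : Type} [Fintype X] (F : FN X) (f : X → ℂ) : ‖f‖ ≤ F.N f :=
  (pi_norm_le_iff_of_nonneg (apply_nonneg _ _)).2 (F.sup f)

lemma FN.pow_le {X : Type} (F : FN X) {a : X → ℂ} (ha : F.N a ≤ 1) (r : ℕ) : F.N (a ^ r) ≤ 1 := by
  induction r with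
  | zero => simpa using F.one
  | succ r ih =>
    rw [pow_succ]
    exact (F.mul _ _).trans (mul_le_one₀ ih (apply_nonneg _ _) ha)

lemma gauge_lemma {Z : Type} [Fintype Z] (W : Set (Z → ℂ)) (h1 : 1 ∈ W)
    (hm : ∀ v ∈ W, ∀ w ∈ W, v * w ∈ W) (hn : ∀ w ∈ W, ‖w‖ ≤ 1) (K : ℝ) (hK : 1 ≤ K) :
    ∃ F : FN Z, (∀ w ∈ W, F.N w ≤ 1) ∧ ∀ q : Seminorm ℂ (Z → ℂ), (∀ w ∈ W, q w ≤ 1) →
      (∀ f, q f ≤ K * ‖f‖) → ∀ f, q f ≤ F.N f := by
  set Q : Set (Seminorm ℂ (Z → ℂ)) := {q | (∀ w ∈ W, q w ≤ 1) ∧ ∀ f, q f ≤ K * ‖f‖} with hQ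
  have hb : BddAbove Q := by
    rw [Seminorm.bddAbove_iff]
    refine ⟨fun f => K * ‖f‖, ?_⟩
    rintro _ ⟨q, hq, rfl⟩ f
    exact hq.2 f
  have hnorm : normSeminorm ℂ (Z → ℂ) ∈ Q :=
    ⟨hn, fun f => le_mul_of_one_le_left (norm_nonneg f) hK⟩
  have hle : ∀ q ∈ Q, ∀ f, q f ≤ sSup Q f := fun q hq f => le_csSup hb hq f
  have hge : ∀ (f : Z → ℂ) (c : ℝ), (∀ q ∈ Q, q f ≤ c) → sSup Q f ≤ c := by
    intro f c h
    rw [Seminorm.sSup_apply hb]
    have : Nonempty Q := ⟨⟨_, hnorm⟩⟩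
    exact ciSup_le fun q => h q q.2
  have hsup : ∀ f : Z → ℂ, ‖f‖ ≤ sSup Q f := fun f => hle _ hnorm f
  have hW : ∀ w ∈ W, ∀ f, sSup Q (w * f) ≤ sSup Q f := by
    intro w hw f
    refine hge _ _ fun q hq => ?_
    refine hle (q.comp (LinearMap.mulLeft ℂ w)) ⟨fun v hv => hq.1 _ (hm w hw v hv), fun g => ?_⟩ f
    refine (hq.2 _).trans (mul_le_mul_of_nonneg_left ?_ (by linarith))
    exact (norm_mul_le _ _).trans (mul_le_of_le_one_left (norm_nonneg _) (hn w hw))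
  refine ⟨⟨sSup Q, fun g f => ?_, hge _ _ fun q hq => hq.1 _ h1,
    fun f x => (norm_le_pi_norm f x).trans (hsup f)⟩, fun w hw => hge _ _ fun q hq => hq.1 _ hw,
    fun q h1 h2 f => hle q ⟨h1, h2⟩ f⟩
  rcases (apply_nonneg (sSup Q) f).eq_or_lt with h | h
  · have : f = 0 := norm_le_zero_iff.1 (h ▸ hsup f)
    subst this
    simp
  · set c := sSup Q f with hc
    have key := hle ((sSup Q).comp (LinearMap.mulRight ℂ ((c : ℂ)⁻¹ • f))) ⟨fun w hw => ?_,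
      fun g => ?_⟩ g
    · have e : ((sSup Q).comp (LinearMap.mulRight ℂ ((c : ℂ)⁻¹ • f))) g =
          c⁻¹ * sSup Q (g * f) := by
        rw [Seminorm.comp_apply, LinearMap.mulRight_apply, mul_smul_comm, map_smul_eq_mul,
          norm_inv, Complex.norm_real, Real.norm_of_nonneg h.le]
      rw [e, inv_mul_le_iff₀ h] at key
      linarith
    · rw [Seminorm.comp_apply, LinearMap.mulRight_apply]
      refine (hW w hw _).trans ?_
      rw [map_smul_eq_mul, norm_inv, Complex.norm_real, Real.norm_of_nonneg h.le, ← hc,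
        inv_mul_cancel₀ h.ne']
    · rw [Seminorm.comp_apply, LinearMap.mulRight_apply]
      refine (hge _ _ fun q hq => hq.2 _).trans (mul_le_mul_of_nonneg_left ?_ (by linarith))
      refine (norm_mul_le _ _).trans (mul_le_of_le_one_right (norm_nonneg _) ?_)
      rw [norm_smul, norm_inv, Complex.norm_real, Real.norm_of_nonneg h.le, inv_mul_le_iff₀ h,
        mul_one]
      exact hsup f

lemma ext_lemma {X Z : Type} [Fintype X] [Fintype Z] (F : FN X) (π : Z → X)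
    (Φ : (Z → ℂ) →ₗ[ℂ] (X → ℂ)) (hΦ : ∀ (d : X → ℂ) f, Φ ((d ∘ π) * f) = d * Φ f) (hΦ1 : Φ 1 = 1)
    (M : Set (Z → ℂ)) (h1 : 1 ∈ M) (hm : ∀ v ∈ M, ∀ w ∈ M, v * w ∈ M) (hn : ∀ w ∈ M, ‖w‖ ≤ 1)
    (hM : ∀ w ∈ M, F.N (Φ w) ≤ 1) :
    ∃ F' : FN Z, (∀ d, F'.N (d ∘ π) = F.N d) ∧ (∀ w ∈ M, F'.N w ≤ 1) ∧
      ∀ f, F.N (Φ f) ≤ F'.N f := by
  obtain ⟨K, hK, hq⟩ := seminorm_bound (F.N.comp Φ)
  obtain ⟨F', hW, hmax⟩ := gauge_lemma {w | ∃ d : X → ℂ, F.N d ≤ 1 ∧ ∃ m ∈ M, w = (d ∘ π) * m}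
    ⟨1, F.one, 1, h1, by ext; simp⟩ (by
      rintro _ ⟨d, hd, m, hm1, rfl⟩ _ ⟨d', hd', m', hm2, rfl⟩
      refine ⟨d * d', (F.mul _ _).trans (mul_le_one₀ hd (apply_nonneg _ _) hd'), m * m',
        hm _ hm1 _ hm2, ?_⟩
      ext z
      simp only [Pi.mul_apply, Function.comp_apply]
      ring) (by
      rintro _ ⟨d, hd, m, hm1, rfl⟩
      refine (norm_mul_le _ _).trans (mul_le_one₀ ?_ (norm_nonneg _) (hn _ hm1))
      exact (pi_norm_le_iff_of_nonneg zero_le_one).2 fun z => (F.sup d _).trans hd) K hK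
  have hret : ∀ f, F.N (Φ f) ≤ F'.N f := by
    refine hmax (F.N.comp Φ) ?_ hq
    rintro _ ⟨d, hd, m, hm1, rfl⟩
    rw [Seminorm.comp_apply, hΦ]
    exact (F.mul _ _).trans (mul_le_one₀ hd (apply_nonneg _ _) (hM _ hm1))
  refine ⟨F', fun d => le_antisymm ?_ ?_, fun w hw => hW w ⟨1, F.one, w, hw, by ext; simp⟩, hret⟩
  · rcases (apply_nonneg F.N d).eq_or_lt with h | h
    · have : d = 0 := norm_le_zero_iff.1 (h ▸ F.norm_le d)
      subst this
      have : (0 : X → ℂ) ∘ π = 0 := rfl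
      rw [this]
      simp
    · have h2 := hW ((((F.N d : ℝ) : ℂ)⁻¹ • d) ∘ π) ⟨_, by
        rw [map_smul_eq_mul, norm_inv, Complex.norm_real, Real.norm_of_nonneg h.le,
          inv_mul_cancel₀ h.ne'], 1, h1, by rw [mul_one]⟩
      have e : (((F.N d : ℝ) : ℂ)⁻¹ • d) ∘ π = ((F.N d : ℝ) : ℂ)⁻¹ • (d ∘ π) := rfl
      rwa [e, map_smul_eq_mul, norm_inv, Complex.norm_real, Real.norm_of_nonneg h.le,
        inv_mul_le_iff₀ h, mul_one] at h2
  · have := hret (d ∘ π)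
    rwa [← mul_one (d ∘ π), hΦ, hΦ1, mul_one, mul_one] at this

lemma exists_functional (θ ε : ℝ) (hθ : 0 < θ) (hε : 0 < ε) (hε1 : ε ≤ 1) :
    ∃ (K : ℕ) (y : Fin (K + 1) → ℂ) (ψ : (Fin (K + 1) → ℂ) →ₗ[ℂ] ℂ), (∀ i, ‖y i‖ ≤ ε) ∧ ψ 1 = 1 ∧
      (∀ j : ℕ, ‖ψ (y ^ j)‖ ≤ 1) ∧ ∀ j : ℕ, ‖ψ (y ^ j) - ψ (y ^ (j + 1))‖ ≤ θ := by
  classical
  obtain ⟨K0, hK0⟩ := exists_nat_one_div_lt hθ
  set K := K0 + 1 with hK
  have hKpos : (0 : ℝ) < K := by positivity
  have hKθ : 1 / (K : ℝ) ≤ θ := by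
    rw [hK]
    push_cast
    exact hK0.le
  set η : ℝ := min ε θ with hη
  have hη0 : 0 < η := lt_min hε hθ
  have hη1 : η ≤ 1 := (min_le_left _ _).trans hε1
  have hζ := Complex.isPrimitiveRoot_exp (K + 1) (by omega)
  set ζ := Complex.exp (2 * Real.pi * Complex.I / (K + 1 : ℕ)) with hζd
  have hζn : ‖ζ‖ = 1 := hζ.norm'_eq_one (by omega)
  let y : Fin (K + 1) → ℂ := fun i => η * ζ ^ (i : ℕ)
  have hinj : Set.InjOn y (univ : Finset (Fin (K + 1))) := by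
    intro i _ j _ h
    have h1 : ζ ^ (i : ℕ) = ζ ^ (j : ℕ) :=
      mul_left_cancel₀ (by exact_mod_cast hη0.ne') h
    exact Fin.ext (hζ.pow_inj i.2 j.2 h1)
  let L : Polynomial ℂ →ₗ[ℂ] ℂ :=
    ∑ i ∈ range (K + 1), (1 - (i : ℂ) / K) • Polynomial.lcoeff ℂ i
  let ψ : (Fin (K + 1) → ℂ) →ₗ[ℂ] ℂ := L.comp (Lagrange.interpolate univ y)
  have hlow : ∀ j ≤ K, ψ (y ^ j) = 1 - (j : ℂ) / K := by
    intro j hj
    have e : (Polynomial.X ^ j : Polynomial ℂ) = Lagrange.interpolate univ y (y ^ j) := by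
      refine Lagrange.eq_interpolate_of_eval_eq _ hinj ?_ (by simp)
      rw [Polynomial.degree_X_pow, card_univ, Fintype.card_fin]
      exact_mod_cast Nat.lt_succ_of_le hj
    show L (Lagrange.interpolate univ y (y ^ j)) = _
    rw [← e]
    simp only [L, LinearMap.sum_apply, LinearMap.smul_apply, Polynomial.lcoeff_apply,
      Polynomial.coeff_X_pow, smul_eq_mul, mul_ite, mul_one, mul_zero]
    rw [sum_ite_eq', if_pos (mem_range.2 (Nat.lt_succ_of_le hj))]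
  have hper : ∀ j, ψ (y ^ (j + (K + 1))) = (η : ℂ) ^ (K + 1) * ψ (y ^ j) := by
    intro j
    have e : y ^ (j + (K + 1)) = (η : ℂ) ^ (K + 1) • y ^ j := by
      ext i
      simp only [Pi.pow_apply, Pi.smul_apply, smul_eq_mul, pow_add _ j, y]
      rw [mul_pow (η : ℂ) _ (K + 1), ← pow_mul ζ (i : ℕ) (K + 1), mul_comm (i : ℕ) (K + 1),
        pow_mul ζ (K + 1), hζ.pow_eq_one]
      ring
    rw [e, map_smul, smul_eq_mul]
  have hpow : ‖(η : ℂ) ^ (K + 1)‖ ≤ η := by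
    rw [norm_pow, Complex.norm_real, Real.norm_of_nonneg hη0.le, pow_succ]
    exact mul_le_of_le_one_left hη0.le (pow_le_one₀ hη0.le hη1)
  have h0 : ψ 1 = 1 := by simpa using hlow 0 (Nat.zero_le _)
  refine ⟨K, y, ψ, fun i => ?_, h0, fun j => ?_, fun j => ?_⟩
  · simp only [y, norm_mul, norm_pow, hζn, one_pow, mul_one, Complex.norm_real,
      Real.norm_of_nonneg hη0.le]
    exact min_le_left _ _
  · induction j using Nat.strong_induction_on with
    | _ j ih =>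
      by_cases hj : j ≤ K
      · rw [hlow j hj]
        have e : (1 - (j : ℂ) / K) = ((1 - (j : ℝ) / K : ℝ) : ℂ) := by push_cast; rfl
        have h1 : (j : ℝ) / K ≤ 1 := by
          rw [div_le_one hKpos]
          exact_mod_cast hj
        have h2 : 0 ≤ (j : ℝ) / K := by positivity
        rw [e, Complex.norm_real, Real.norm_of_nonneg (by linarith)]
        linarith
      · obtain ⟨i, rfl⟩ : ∃ i, j = i + (K + 1) := ⟨j - (K + 1), by omega⟩
        rw [hper, norm_mul]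
        exact mul_le_one₀ (hpow.trans hη1) (norm_nonneg _) (ih i (by omega))
  · induction j using Nat.strong_induction_on with
    | _ j ih =>
      rcases lt_trichotomy j K with hj | rfl | hj
      · rw [hlow j hj.le, hlow (j + 1) hj]
        have e : (1 - (j : ℂ) / K) - (1 - ((j + 1 : ℕ) : ℂ) / K) = ((1 / (K : ℝ) : ℝ) : ℂ) := by
          push_cast
          ring
        rw [e, Complex.norm_real, Real.norm_of_nonneg (by positivity)]
        exact hKθ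
      · have h1 := hper 0
        rw [zero_add, pow_zero, h0, mul_one] at h1
        have hK0 : ((K : ℕ) : ℂ) ≠ 0 := by exact_mod_cast hKpos.ne'
        rw [hlow _ le_rfl, h1, div_self hK0, sub_self, zero_sub, norm_neg]
        exact hpow.trans (min_le_right _ _)
      · obtain ⟨i, rfl⟩ : ∃ i, j = i + (K + 1) := ⟨j - (K + 1), by omega⟩
        have e : i + (K + 1) + 1 = (i + 1) + (K + 1) := by ring
        rw [e, hper, hper, ← mul_sub, norm_mul]
        exact (mul_le_of_le_one_left (norm_nonneg _) (hpow.trans hη1)).trans (ih i (by omega))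

lemma diff_bound {Y : Type} (y : Y → ℂ) (ψ : (Y → ℂ) →ₗ[ℂ] ℂ) (s : ℕ) (c : ℝ)
    (h : ∀ j : ℕ, ‖ψ (y ^ j * (1 - y) ^ s)‖ ≤ c) (r j : ℕ) :
    ‖ψ (y ^ j * (1 - y) ^ (s + r))‖ ≤ 2 ^ r * c := by
  induction r generalizing j with
  | zero => simpa using h j
  | succ r ih =>
    have e : y ^ j * (1 - y) ^ (s + (r + 1)) =
        y ^ j * (1 - y) ^ (s + r) - y ^ (j + 1) * (1 - y) ^ (s + r) := by ring
    rw [e, map_sub, pow_succ (2 : ℝ)]
    refine (norm_sub_le _ _).trans ?_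
    linarith [ih j, ih (j + 1)]

/-- Adjoining an approximate unit with small spectrum. -/
theorem stepV {X : Type} [Fintype X] [Nonempty X] (F : FN X) (a : X → ℂ) (δ ε : ℝ) (hδ : 0 < δ)
    (hδ1 : δ ≤ 1) (ha : ∀ x, ‖a x‖ ≤ δ / 4) (ha1 : F.N a ≤ 1) (hε : 0 < ε) (hε1 : ε ≤ 1) :
    ∃ (K : ℕ) (F' : FN (X × Fin (K + 1))) (e : X × Fin (K + 1) → ℂ),
      (∀ d, F'.N (d ∘ Prod.fst) = F.N d) ∧ F'.N e ≤ 1 ∧ 3 / 4 ≤ F'.N e ∧
      F'.N ((a ∘ Prod.fst) * (1 - e)) ≤ δ ∧ ∀ z, ‖e z‖ ≤ ε := by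
  obtain ⟨C, hC1, hC⟩ := seminorm_bound F.N
  obtain ⟨r0, hr0⟩ := pow_unbounded_of_one_lt C (one_lt_two (α := ℝ))
  set θ : ℝ := min (1 / 4) ((δ / 2) ^ r0) with hθ
  have hθ0 : 0 < θ := lt_min (by norm_num) (by positivity)
  obtain ⟨K, y, ψ, hy, h1, hb, hd⟩ := exists_functional θ ε hθ0 hε hε1
  let Φ : (X × Fin (K + 1) → ℂ) →ₗ[ℂ] (X → ℂ) :=
    LinearMap.pi fun x => ψ.comp (LinearMap.funLeft ℂ ℂ fun i => (x, i))
  have hΦ : ∀ f x, Φ f x = ψ fun i => f (x, i) := fun f x => rfl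
  have hΦm : ∀ (d : X → ℂ) f, Φ ((d ∘ Prod.fst) * f) = d * Φ f := by
    intro d f
    ext x
    rw [hΦ, Pi.mul_apply, hΦ, ← smul_eq_mul (d x), ← map_smul]
    rfl
  have hΦs : ∀ v : Fin (K + 1) → ℂ, Φ (v ∘ Prod.snd) = ψ v • 1 := by
    intro v
    ext x
    rw [hΦ]
    simp only [Function.comp_apply, Pi.smul_apply, Pi.one_apply, smul_eq_mul, mul_one]
  let e : X × Fin (K + 1) → ℂ := y ∘ Prod.snd
  let g : X × Fin (K + 1) → ℂ := ((δ : ℂ)⁻¹ • a) ∘ Prod.fst * (1 - e)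
  have hδn : ‖(δ : ℂ)⁻¹‖ = δ⁻¹ := by
    rw [norm_inv, Complex.norm_real, Real.norm_of_nonneg hδ.le]
  have hen : ‖e‖ ≤ 1 := (pi_norm_le_iff_of_nonneg zero_le_one).2 fun z => (hy _).trans hε1
  have hgn : ‖g‖ ≤ 1 := by
    refine (pi_norm_le_iff_of_nonneg zero_le_one).2 fun z => ?_
    have h2 : ‖(1 - e) z‖ ≤ 2 := by
      have := norm_sub_le (1 : ℂ) (e z)
      have h3 : ‖e z‖ ≤ 1 := (hy _).trans hε1
      rw [norm_one] at this
      show ‖1 - e z‖ ≤ 2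
      linarith
    have h3 : ‖(δ : ℂ)⁻¹ * a z.1‖ ≤ 1 / 4 := by
      rw [norm_mul, hδn, inv_mul_le_iff₀ hδ]
      linarith [ha z.1]
    show ‖(δ : ℂ)⁻¹ * a z.1 * (1 - e) z‖ ≤ 1
    rw [norm_mul]
    have := mul_le_mul h3 h2 (norm_nonneg _) (by norm_num)
    linarith
  obtain ⟨F', hiso, hM, hret⟩ := ext_lemma F Prod.fst Φ hΦm
    (by simpa [h1] using hΦs 1) {w | ∃ j r : ℕ, w = e ^ j * g ^ r} ⟨0, 0, by simp⟩ (by
      rintro _ ⟨j, r, rfl⟩ _ ⟨j', r', rfl⟩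
      exact ⟨j + j', r + r', by ring⟩) (by
      rintro _ ⟨j, r, rfl⟩
      exact (norm_mul_le _ _).trans (mul_le_one₀
        ((norm_pow_le _ _).trans (pow_le_one₀ (norm_nonneg _) hen)) (norm_nonneg _)
        ((norm_pow_le _ _).trans (pow_le_one₀ (norm_nonneg _) hgn)))) (by
      rintro _ ⟨j, r, rfl⟩
      have e1 : e ^ j * g ^ r = (((δ : ℂ)⁻¹ ^ r • a ^ r) ∘ Prod.fst) *
          ((y ^ j * (1 - y) ^ r) ∘ Prod.snd) := by
        ext z
        simp only [e, g, Pi.mul_apply, Pi.pow_apply, Function.comp_apply, Pi.smul_apply,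
          smul_eq_mul, Pi.sub_apply, Pi.one_apply, mul_pow]
        ring
      rw [e1, hΦm, hΦs, mul_smul_comm, mul_one, map_smul_eq_mul, map_smul_eq_mul, norm_pow, hδn,
        inv_pow, mul_left_comm, inv_mul_le_iff₀ (by positivity), mul_one]
      have hb2 := diff_bound y ψ 0 1 (by simpa using hb) r j
      rw [zero_add, mul_one] at hb2
      by_cases hr : r0 ≤ r
      · have h2 : F.N (a ^ r) ≤ C * (δ / 4) ^ r := by
          refine (hC _).trans (mul_le_mul_of_nonneg_left ?_ (by linarith))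
          refine (norm_pow_le _ _).trans (pow_le_pow_left₀ (norm_nonneg _) ?_ _)
          exact (pi_norm_le_iff_of_nonneg (by positivity)).2 ha
        have h3 : C ≤ 2 ^ r := hr0.le.trans (pow_le_pow_right₀ one_le_two hr)
        calc _ ≤ 2 ^ r * (C * (δ / 4) ^ r) :=
              mul_le_mul hb2 h2 (apply_nonneg _ _) (by positivity)
          _ ≤ 2 ^ r * (2 ^ r * (δ / 4) ^ r) := by gcongr
          _ = δ ^ r := by rw [← mul_pow, ← mul_pow]; congr 1; ring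
      · rcases Nat.eq_zero_or_pos r with rfl | hr1
        · rw [pow_zero δ]
          exact mul_le_one₀ (by simpa using hb2) (apply_nonneg _ _) (F.pow_le ha1 0)
        · obtain ⟨r, rfl⟩ : ∃ r', r = 1 + r' := ⟨r - 1, by omega⟩
          have hb3 := diff_bound y ψ 1 θ (fun j => by
            have e2 : y ^ j * (1 - y) ^ 1 = y ^ j - y ^ (j + 1) := by ring
            rw [e2, map_sub]
            exact hd j) r j
          have h2 : θ ≤ (δ / 2) ^ (1 + r) := (min_le_right _ _).trans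
            (pow_le_pow_of_le_one (by positivity) (by linarith) (by omega))
          calc _ ≤ 2 ^ r * θ * 1 :=
                mul_le_mul hb3 (F.pow_le ha1 _) (apply_nonneg _ _) (by positivity)
            _ ≤ 2 ^ (1 + r) * (δ / 2) ^ (1 + r) := by
                rw [mul_one]
                exact mul_le_mul (pow_le_pow_right₀ one_le_two (by omega)) h2 hθ0.le
                  (by positivity)
            _ = δ ^ (1 + r) := by rw [← mul_pow]; congr 1; ring)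
  refine ⟨K, F', e, hiso, hM e ⟨1, 0, by simp⟩, ?_, ?_, fun z => hy _⟩
  · have h2 := hret e
    obtain ⟨x⟩ := ‹Nonempty X›
    have h3 := (F.sup _ x).trans h2
    rw [hΦs] at h3
    simp only [Pi.smul_apply, Pi.one_apply, smul_eq_mul, mul_one] at h3
    have h4 := hd 0
    rw [pow_zero, zero_add, pow_one, h1] at h4
    have h5 := norm_sub_norm_le (1 : ℂ) (ψ y)
    rw [norm_one] at h5
    have h6 : θ ≤ 1 / 4 := min_le_left _ _
    linarith
  · have h2 := hM g ⟨0, 1, by simp⟩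
    have e1 : g = (δ : ℂ)⁻¹ • ((a ∘ Prod.fst) * (1 - e)) := by
      ext z
      simp only [g, Pi.mul_apply, Function.comp_apply, Pi.smul_apply, smul_eq_mul]
      ring
    rwa [e1, map_smul_eq_mul, hδn, inv_mul_le_iff₀ hδ, mul_one] at h2

end Pool.Agent.H181Z.HT
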