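import Mathlib
import Pool.Agent.H181Z.HTStep

/-!
# Adjoining a separating group of norm one elements
-/

set_option autoImplicit false

namespace Pool.Agent.H181Z.HT

open Finset

/-- the sign character -/
noncomputable def sg (t : ZMod 2) : ℂ := if t = 0 then 1 else -1

lemma zmod2_cases (t : ZMod 2) : t = 0 ∨ t = 1 := by
  revert t
  decide

lemma sg_zero : sg 0 = 1 := by simp [sg]

lemma sg_one : sg 1 = -1 := by simp [sg]

lemma sg_add (s t : ZMod 2) : sg (s + t) = sg s * sg t := by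
  have h : (1 : ZMod 2) + 1 = 0 := by decide
  rcases zmod2_cases s with rfl | rfl <;> rcases zmod2_cases t with rfl | rfl <;>
    simp [sg_zero, sg_one, h]

lemma norm_sg (t : ZMod 2) : ‖sg t‖ = 1 := by
  rcases zmod2_cases t with rfl | rfl <;> simp [sg_zero, sg_one]

lemma sg_inj {s t : ZMod 2} (h : sg s = sg t) : s = t := by
  rcases zmod2_cases s with rfl | rfl <;> rcases zmod2_cases t with rfl | rfl <;>
    simp only [sg_zero, sg_one] at h <;> first | rfl | (exfalso; norm_num at h)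

/-- the local phase -/
def loc (t : ZMod 2) (α h : ZMod 2 × ZMod 2) : ZMod 2 := t * h.1 * h.2 + α.1 * h.1 + α.2 * h.2

lemma loc_add (t t' : ZMod 2) (α α' h : ZMod 2 × ZMod 2) :
    loc (t + t') (α + α') h = loc t α h + loc t' α' h := by
  simp only [loc, Prod.fst_add, Prod.snd_add]
  ring

lemma loc_zero (h : ZMod 2 × ZMod 2) : loc 0 0 h = 0 := by simp [loc]

/-- the local average -/
noncomputable def av (t : ZMod 2) (α : ZMod 2 × ZMod 2) : ℂ := (4 : ℂ)⁻¹ * ∑ h, sg (loc t α h)

lemma sum_zmod2 (f : ZMod 2 → ℂ) : ∑ h, f h = f 0 + f 1 := Fin.sum_univ_two f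

lemma av_eq (t : ZMod 2) (α : ZMod 2 × ZMod 2) :
    av t α = (4 : ℂ)⁻¹ * (1 + sg α.2 + sg α.1 + sg t * sg α.1 * sg α.2) := by
  rw [av, Fintype.sum_prod_type, sum_zmod2, sum_zmod2, sum_zmod2]
  simp only [loc, mul_zero, mul_one, add_zero, zero_add, sg_zero, sg_add]
  ring

lemma norm_av_le (t : ZMod 2) (α : ZMod 2 × ZMod 2) : ‖av t α‖ ≤ 1 := by
  obtain ⟨a, b⟩ := α
  rw [av_eq]
  rcases zmod2_cases t with rfl | rfl <;> rcases zmod2_cases a with rfl | rfl <;>
    rcases zmod2_cases b with rfl | rfl <;> norm_num [sg_zero, sg_one]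

lemma norm_av_one (α : ZMod 2 × ZMod 2) : ‖av 1 α‖ ≤ 1 / 2 := by
  obtain ⟨a, b⟩ := α
  rw [av_eq]
  rcases zmod2_cases a with rfl | rfl <;>
    rcases zmod2_cases b with rfl | rfl <;> norm_num [sg_zero, sg_one]

lemma av_zero {α : ZMod 2 × ZMod 2} (h : α ≠ 0) : av 0 α = 0 := by
  obtain ⟨a, b⟩ := α
  rw [av_eq]
  rcases zmod2_cases a with rfl | rfl <;> rcases zmod2_cases b with rfl | rfl <;>
    first | exact absurd rfl h | norm_num [sg_zero, sg_one]

lemma exists_sep {h h' : ZMod 2 × ZMod 2} (hne : h ≠ h') : ∃ α, loc 0 α h ≠ loc 0 α h' := by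
  revert h h'
  decide

variable (Z : Type) (m : ℕ)

/-- the fibre -/
abbrev Fib : Type := Z × Fin m → ZMod 2 × ZMod 2

/-- the group -/
abbrev Gam : Type := Multiplicative (ZMod 2 × (Z → ZMod 2) × Fib Z m)

variable [Fintype Z]

/-- the functions of modulus one -/
noncomputable def uu : Gam Z m →* (Z × Fib Z m → ℂ) where
  toFun g := fun p => sg g.toAdd.1 * sg (g.toAdd.2.1 p.1) *
    ∏ k, sg (loc (g.toAdd.2.1 k.1) (g.toAdd.2.2 k) (p.2 k))
  map_one' := by
    ext p
    simp [loc_zero, sg_zero]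
  map_mul' g g' := by
    ext p
    simp only [toAdd_mul, Prod.fst_add, Prod.snd_add, Pi.add_apply, loc_add, sg_add,
      prod_mul_distrib, Pi.mul_apply]
    ring

variable {Z m}

lemma uu_apply (s : ZMod 2) (T : Z → ZMod 2) (α : Fib Z m) (z : Z) (h : Fib Z m) :
    uu Z m (Multiplicative.ofAdd (s, T, α)) (z, h) =
      sg s * sg (T z) * ∏ k, sg (loc (T k.1) (α k) (h k)) := rfl

lemma norm_uu (g : Gam Z m) (p : Z × Fib Z m) : ‖uu Z m g p‖ = 1 := by
  obtain ⟨z, h⟩ := p
  obtain ⟨⟨s, T, α⟩, rfl⟩ := Multiplicative.ofAdd.surjective g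
  rw [uu_apply]
  simp [norm_sg, norm_prod]

/-- Every algebra norm on a finite-dimensional function algebra extends isometrically to one
spanned by a group of elements of norm at most one. -/
theorem stepG [DecidableEq Z] (F : FN Z) :
    ∃ (m : ℕ) (F' : FN (Z × Fib Z m)), (∀ d, F'.N (d ∘ Prod.fst) = F.N d) ∧
      ∀ g, F'.N (uu Z m g) ≤ 1 := by
  obtain ⟨C, hC1, hC⟩ := seminorm_bound F.N
  obtain ⟨m, hm⟩ := pow_unbounded_of_one_lt C (one_lt_two (α := ℝ))
  let Φ : (Z × Fib Z m → ℂ) →ₗ[ℂ] (Z → ℂ) :=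
    { toFun := fun f z => (∏ _k : Z × Fin m, (4 : ℂ)⁻¹) * ∑ h, f (z, h)
      map_add' := fun f g => by
        ext z
        simp only [Pi.add_apply, sum_add_distrib, mul_add]
      map_smul' := fun c f => by
        ext z
        simp only [Pi.smul_apply, smul_eq_mul, RingHom.id_apply, ← mul_sum]
        ring }
  have hΦ : ∀ f z, Φ f z = (∏ _k : Z × Fin m, (4 : ℂ)⁻¹) * ∑ h, f (z, h) := fun f z => rfl
  have hΦu : ∀ s T α z, Φ (uu Z m (Multiplicative.ofAdd (s, T, α))) z =
      sg s * sg (T z) * ∏ k, av (T k.1) (α k) := by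
    intro s T α z
    rw [hΦ]
    simp only [uu_apply, av, prod_mul_distrib]
    rw [← mul_sum, Finset.prod_univ_sum, Fintype.piFinset_univ]
    ring
  have hav : av 0 0 = 1 := by
    rw [av_eq]
    norm_num [sg_zero]
  obtain ⟨F', hiso, hM, -⟩ := ext_lemma F Prod.fst Φ (by
      intro d f
      ext z
      simp only [hΦ, Pi.mul_apply, Function.comp_apply, ← mul_sum]
      ring) (by
      ext z
      have := hΦu 0 0 0 z
      rw [show Multiplicative.ofAdd ((0 : ZMod 2), (0 : Z → ZMod 2), (0 : Fib Z m)) = 1 from rfl,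
        map_one] at this
      rw [this]
      simp [sg_zero, hav]) (Set.range (uu Z m)) ⟨1, map_one _⟩ (by
      rintro _ ⟨g, rfl⟩ _ ⟨g', rfl⟩
      exact ⟨g * g', map_mul _ _ _⟩) (by
      rintro _ ⟨g, rfl⟩
      exact (pi_norm_le_iff_of_nonneg zero_le_one).2 fun p => (norm_uu g p).le) (by
      rintro _ ⟨g, rfl⟩
      obtain ⟨⟨s, T, α⟩, rfl⟩ := Multiplicative.ofAdd.surjective g
      by_cases hT : T = 0
      · subst hT
        by_cases hα : α = 0
        · subst hα
          have e : Φ (uu Z m (Multiplicative.ofAdd (s, 0, 0))) = sg s • 1 := by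
            ext z
            rw [hΦu]
            simp [sg_zero, hav]
          rw [e, map_smul_eq_mul, norm_sg, one_mul]
          exact F.one
        · obtain ⟨k, hk⟩ := Function.ne_iff.1 hα
          have e : Φ (uu Z m (Multiplicative.ofAdd (s, 0, α))) = 0 := by
            ext z
            rw [hΦu, prod_eq_zero (mem_univ k) (av_zero hk)]
            simp
          rw [e, map_zero]
          exact zero_le_one
      · obtain ⟨z0, hz0⟩ := Function.ne_iff.1 hT
        have hz1 : T z0 = 1 := (zmod2_cases _).resolve_left hz0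
        have hb : ‖Φ (uu Z m (Multiplicative.ofAdd (s, T, α)))‖ ≤ (1 / 2) ^ m := by
          refine (pi_norm_le_iff_of_nonneg (by positivity)).2 fun z => ?_
          rw [hΦu, norm_mul, norm_mul, norm_sg, norm_sg, one_mul, one_mul, norm_prod,
            Fintype.prod_prod_type, ← mul_prod_erase _ _ (mem_univ z0)]
          have h1 : ∏ i : Fin m, ‖av (T z0) (α (z0, i))‖ ≤ (1 / 2) ^ m := by
            refine (prod_le_prod (fun i _ => norm_nonneg _)
              (g := fun _ => (1 / 2 : ℝ)) fun i _ => ?_).trans (by simp)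
            rw [hz1]
            exact norm_av_one _
          have h2 : ∏ z ∈ univ.erase z0, ∏ i : Fin m, ‖av (T z) (α (z, i))‖ ≤ 1 :=
            prod_le_one (fun _ _ => prod_nonneg fun _ _ => norm_nonneg _) fun _ _ =>
              prod_le_one (fun _ _ => norm_nonneg _) fun _ _ => norm_av_le _ _
          exact (mul_le_of_le_one_right (prod_nonneg fun _ _ => norm_nonneg _) h2).trans h1
        refine (hC _).trans ((mul_le_mul hm.le hb (norm_nonneg _) (by positivity)).trans ?_)
        rw [← mul_pow]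
        norm_num)
  exact ⟨m, F', hiso, fun g => hM _ ⟨g, rfl⟩⟩

lemma uu_sign (p : Z × Fib Z m) : ∃ g, uu Z m g p ≠ 1 := by
  obtain ⟨z, h⟩ := p
  refine ⟨Multiplicative.ofAdd (1, 0, 0), ?_⟩
  rw [uu_apply]
  simp only [Pi.zero_apply, loc_zero, sg_zero, sg_one, prod_const_one]
  norm_num

lemma uu_sep [DecidableEq Z] (p q : Z × Fib Z m) (hpq : p ≠ q) :
    ∃ g, uu Z m g p ≠ uu Z m g q := by
  obtain ⟨z, h⟩ := p
  obtain ⟨z', h'⟩ := q
  by_cases hh : h = h'
  · subst hh
    have hz : z' ≠ z := by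
      rintro rfl
      exact hpq rfl
    refine ⟨Multiplicative.ofAdd (0, Pi.single z 1, 0), ?_⟩
    rw [uu_apply, uu_apply, Pi.single_eq_same, Pi.single_eq_of_ne hz]
    intro e
    have h1 : ∏ k : Z × Fin m, sg (loc ((Pi.single z 1 : Z → ZMod 2) k.1) ((0 : Fib Z m) k) (h k))
        ≠ 0 := by
      refine prod_ne_zero_iff.2 fun k _ hk => ?_
      have h3 := congrArg norm hk
      rw [norm_sg, norm_zero] at h3
      exact one_ne_zero h3
    have h2 := mul_right_cancel₀ h1 e
    rw [sg_zero, sg_one] at h2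
    norm_num at h2
  · obtain ⟨k, hk⟩ := Function.ne_iff.1 hh
    obtain ⟨α, hα⟩ := exists_sep hk
    refine ⟨Multiplicative.ofAdd (0, 0, Pi.single k α), ?_⟩
    have key : ∀ (w : Z) (t : Fib Z m), uu Z m (Multiplicative.ofAdd (0, 0, Pi.single k α)) (w, t) =
        sg (loc 0 α (t k)) := by
      intro w t
      rw [uu_apply, prod_eq_single k]
      · simp [sg_zero]
      · intro j _ hj
        rw [Pi.single_eq_of_ne hj, Pi.zero_apply, loc_zero, sg_zero]
      · simp
    rw [key, key]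
    exact fun e => hα (sg_inj e)

end Pool.Agent.H181Z.HT
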