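import Mathlib
import Pool.Agent.H181Z.HTGam
import Pool.Agent.H181Z.HTAmen

/-!
# Construction of the tower
-/

set_option autoImplicit false

namespace Pool.Agent.H181Z.HT

/-- the functions on `X` with the norm `F.N` -/
def FN.Alg {X : Type} (_F : FN X) : Type := X → ℂ

namespace FN

variable {X : Type} (F : FN X)

noncomputable instance : CommRing F.Alg := inferInstanceAs (CommRing (X → ℂ))

noncomputable instance : Algebra ℂ F.Alg := inferInstanceAs (Algebra ℂ (X → ℂ))

/-- the norm -/
noncomputable def ringNorm : RingNorm F.Alg where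
  toFun := F.N
  map_zero' := map_zero F.N
  add_le' := map_add_le_add F.N
  neg' := map_neg_eq_map F.N
  mul_le' := F.mul
  eq_zero_of_map_eq_zero' f h := funext fun x => norm_le_zero_iff.1 (h ▸ F.sup f x)

noncomputable instance : NormedCommRing F.Alg :=
  { F.ringNorm.toNormedRing, (inferInstance : CommRing F.Alg) with }

noncomputable instance : NormedAlgebra ℂ F.Alg where
  norm_smul_le c f := (map_smul_eq_mul F.N c f).le

lemma norm_eq (f : F.Alg) : ‖f‖ = F.N f := rfl

instance [Nonempty X] : NormOneClass F.Alg where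
  norm_one := by
    obtain ⟨x⟩ := ‹Nonempty X›
    refine le_antisymm F.one ?_
    have h := F.sup 1 x
    rw [Pi.one_apply, norm_one] at h
    exact h

instance [Fintype X] : FiniteDimensional ℂ F.Alg := inferInstanceAs (FiniteDimensional ℂ (X → ℂ))

instance [Fintype X] : CompleteSpace F.Alg := FiniteDimensional.complete ℂ F.Alg

/-- the identification with functions -/
noncomputable def ev : F.Alg ≃ₐ[ℂ] (X → ℂ) := AlgEquiv.refl

/-- pull-back -/
noncomputable def pull {Y : Type} (F' : FN Y) (π : Y → X) : F.Alg →ₐ[ℂ] F'.Alg where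
  toFun d := (d : X → ℂ) ∘ π
  map_one' := rfl
  map_mul' _ _ := rfl
  map_zero' := rfl
  map_add' _ _ := rfl
  commutes' _ := rfl

end FN

/-- one stage of the construction -/
structure Stage (n : ℕ) where
  X : Type
  [fin : Fintype X]
  [dec : DecidableEq X]
  [ne : Nonempty X]
  F : FN X
  a : X → ℂ
  ha : F.N a ≤ 1
  small : ∀ x, ‖a x‖ ≤ (1 / 2) ^ (n + 4)
  Γ : Type
  [grp : CommGroup Γ]
  [gfin : Fintype Γ]
  u : Γ →* (X → ℂ)
  hu : ∀ g, F.N (u g) ≤ 1
  hsep : ∀ x y : X, x ≠ y → ∃ g, u g x ≠ u g y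
  hsign : ∀ x, ∃ g, u g x ≠ 1

attribute [instance] Stage.fin Stage.dec Stage.ne Stage.grp Stage.gfin

/-- the relation between consecutive stages -/
structure Link {n : ℕ} (S : Stage n) (S' : Stage (n + 1)) where
  π : S'.X → S.X
  iso : ∀ d, S'.F.N (d ∘ π) = S.F.N d
  big : 3 / 4 ≤ S'.F.N S'.a
  unit : S'.F.N ((S.a ∘ π) * (1 - S'.a)) ≤ (1 / 2) ^ (n + 2)

lemma exists_base : Nonempty (Stage 0) := by
  let F : FN Unit := ⟨normSeminorm ℂ (Unit → ℂ), norm_mul_le, by simp, norm_le_pi_norm⟩
  obtain ⟨m, F', -, hu⟩ := stepG F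
  exact ⟨{ X := Unit × Fib Unit m, F := F', a := 0, ha := by simp, small := by simp
           Γ := Gam Unit m, u := uu Unit m, hu := hu, hsep := uu_sep, hsign := uu_sign }⟩

lemma exists_next {n : ℕ} (S : Stage n) : ∃ S' : Stage (n + 1), Nonempty (Link S S') := by
  obtain ⟨K, F1, e, hiso, he, hbig, hunit, hsm⟩ := stepV S.F S.a ((1 / 2) ^ (n + 2))
    ((1 / 2) ^ (n + 5)) (by positivity) (pow_le_one₀ (by norm_num) (by norm_num))
    (fun x => (S.small x).trans (le_of_eq (by ring))) S.ha (by positivity)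
    (pow_le_one₀ (by norm_num) (by norm_num))
  obtain ⟨m, F', hiso', hu⟩ := stepG F1
  refine ⟨{ X := (S.X × Fin (K + 1)) × Fib (S.X × Fin (K + 1)) m, F := F', a := e ∘ Prod.fst
            ha := by rw [hiso']; exact he
            small := fun x => hsm _
            Γ := Gam (S.X × Fin (K + 1)) m, u := uu _ m, hu := hu, hsep := uu_sep
            hsign := uu_sign }, ⟨⟨fun p => p.1.1, fun d => ?_, ?_, ?_⟩⟩⟩
  · exact (hiso' (d ∘ Prod.fst)).trans (hiso d)
  · exact hbig.trans (hiso' e).ge
  · exact (hiso' ((S.a ∘ Prod.fst) * (1 - e))).le.trans hunit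

/-- the sequence of stages -/
noncomputable def stage : ∀ n, Stage n
  | 0 => exists_base.some
  | n + 1 => (exists_next (stage n)).choose

/-- the links -/
noncomputable def link (n : ℕ) : Link (stage n) (stage (n + 1)) :=
  (exists_next (stage n)).choose_spec.some

/-- the tower -/
noncomputable def tower : Sys where
  D n := (stage n).F.Alg
  X n := (stage n).X
  ev n := (stage n).F.ev
  ι n := (stage n).F.pull (stage (n + 1)).F (link n).π
  hι n d := (link n).iso d
  e n := (stage (n + 1)).a
  he n := (stage (n + 1)).ha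
  he0 := (link 0).big
  hδ n := (link (n + 1)).unit
  hsmall n x := ((stage (n + 1)).small x).trans
    (pow_le_pow_of_le_one (by norm_num) (by norm_num) (by omega))
  Γ n := (stage n).Γ
  u n := (stage n).u
  hu n := (stage n).hu
  hsep n := (stage n).hsep
  hsign n := (stage n).hsign

theorem main.{u} : ∃ (A : Type) (_ : NormedCommRing A) (_ : NormedAlgebra ℂ A)
    (_ : CompleteSpace A), Semisimple A ∧ Regular A ∧ Semisimple (PT A) ∧ Amenable.{u} A ∧
      ¬ HyperTauberian A :=
  ⟨tower.A, inferInstance, inferInstance, inferInstance, tower.semisimple_A, tower.regular_A,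
    tower.semisimple_PT, tower.amenable_A, tower.not_hyperTauberian_A⟩

end Pool.Agent.H181Z.HT
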