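import Mathlib

/-!
# The extended Ising model on locally tree-like graphs: definitions
-/

set_option autoImplicit false

namespace Pool.Agent.H181Z.Is

open Classical in
/-- the neighbours of `v` -/
noncomputable def nbr {n : ℕ} (G : SimpleGraph (Fin n)) (v : Fin n) : Finset (Fin n) :=
  Finset.univ.filter fun u => G.Adj v u

/-- the degree of `v` -/
noncomputable def deg {n : ℕ} (G : SimpleGraph (Fin n)) (v : Fin n) : ℕ := (nbr G v).card

open Classical in
/-- the edges, each listed once as a pair `(u, v)` with `u < v` -/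
noncomputable def edges {n : ℕ} (G : SimpleGraph (Fin n)) : Finset (Fin n × Fin n) :=
  Finset.univ.filter fun e => G.Adj e.1 e.2 ∧ e.1 < e.2

/-- the spin `±1` at `v` -/
def spin {n : ℕ} (σ : Fin n → Bool) (v : Fin n) : ℝ := if σ v then 1 else -1

/-- the partition function of the extended Ising model -/
noncomputable def Zext {n : ℕ} (G : SimpleGraph (Fin n)) (β k h : ℝ) : ℝ :=
  ∑ σ : Fin n → Bool, Real.exp (β * ∑ e ∈ edges G, spin σ e.1 * spin σ e.2 +
    ∑ v, (k * deg G v + h) * spin σ v)

/-- the ball of radius `r` around `v` is isomorphic, as a rooted graph, to `(H, o)` -/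
def BallIso {V : Type} (G : SimpleGraph V) (v : V) (r : ℕ) {m : ℕ} (H : SimpleGraph (Fin m))
    (o : Fin m) : Prop :=
  ∃ φ : G.induce {u | G.edist v u ≤ r} ≃g H, (φ.symm o).1 = v

open Classical in
/-- the fraction of vertices satisfying `p` -/
noncomputable def frac {n : ℕ} (p : Fin n → Prop) : ℝ :=
  ((Finset.univ.filter p).card : ℝ) / n

end Pool.Agent.H181Z.Is
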