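import Mathlib
import Pool.Agent.H181Z.IsDefs

/-!
# The extended Ising model on locally tree-like graphs: the steps of the proof
-/

set_option autoImplicit false

namespace Pool.Agent.H181Z.Is

open Finset Real

section defs

variable {n : ℕ}

/-- occupation variable -/
def X (x : Fin n → Bool) (v : Fin n) : ℝ := if x v then 1 else 0

/-- energy in lattice gas form -/
def En (E : Finset (Fin n × Fin n)) (J : ℝ) (b : Fin n → ℝ) (x : Fin n → Bool) : ℝ :=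
  ∑ v, b v * X x v + J * ∑ e ∈ E, X x e.1 * X x e.2

/-- partition function in lattice gas form -/
noncomputable def Z0 (E : Finset (Fin n × Fin n)) (J : ℝ) (b : Fin n → ℝ) : ℝ :=
  ∑ x, exp (En E J b x)

/-- Gibbs weights pinned to `s` on `U` -/
noncomputable def pw (E : Finset (Fin n × Fin n)) (J : ℝ) (b : Fin n → ℝ) (U : Finset (Fin n))
    (s : Fin n → Bool) (x : Fin n → Bool) : ℝ :=
  if ∀ v ∈ U, x v = s v then exp (En E J b x) else 0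

/-- unnormalised covariance -/
def cov (μ f g : (Fin n → Bool) → ℝ) : ℝ :=
  (∑ x, μ x) * (∑ x, μ x * (f x * g x)) - (∑ x, μ x * f x) * ∑ x, μ x * g x

/-- marginal -/
def marg {Y : Type} [DecidableEq Y] (μ : (Fin n → Bool) → ℝ) (c : (Fin n → Bool) → Y) (y : Y) :
    ℝ := ∑ x, if c x = y then μ x else 0

/-- vertex entropy -/
noncomputable def Hv (μ : (Fin n → Bool) → ℝ) (v : Fin n) : ℝ :=
  ∑ y : Bool, negMulLog (marg μ (fun x => x v) y)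

/-- edge entropy -/
noncomputable def He (μ : (Fin n → Bool) → ℝ) (e : Fin n × Fin n) : ℝ :=
  ∑ y : Bool × Bool, negMulLog (marg μ (fun x => (x e.1, x e.2)) y)

/-- Bethe functional at the marginals of `μ` -/
noncomputable def Bethe (E : Finset (Fin n × Fin n)) (J : ℝ) (b : Fin n → ℝ)
    (μ : (Fin n → Bool) → ℝ) : ℝ :=
  ∑ x, μ x * En E J b x + ∑ v, Hv μ v + ∑ e ∈ E, (He μ e - Hv μ e.1 - Hv μ e.2)

/-- number of edges at `v` -/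
def degE (E : Finset (Fin n × Fin n)) (v : Fin n) : ℕ :=
  (E.filter fun e => e.1 = v ∨ e.2 = v).card

/-- the graph looks like a tree up to distance `R` from `w` -/
def Good (E : Finset (Fin n × Fin n)) (w : Fin n) (R : ℕ) : Prop :=
  ∃ (l : Fin n → ℕ) (ch : Fin n × Fin n → Fin n), l w = 0 ∧
    (∀ e ∈ E, l e.1 ≤ l e.2 + 1 ∧ l e.2 ≤ l e.1 + 1 ∧ (ch e = e.1 ∨ ch e = e.2) ∧ ch e ≠ w) ∧
    ∀ v, l v ≤ R → (E.filter fun e => ch e = v).card ≤ 1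

/-- averaged edge weight of `k` replicas -/
noncomputable def W (k : ℕ) (γ : ℝ) (a a' : ℕ) : ℝ :=
  ∑ j ∈ range (k + 1), γ ^ j * (a.choose j * a'.choose j) / k.choose j

/-- the replicated functional -/
noncomputable def Phi (E : Finset (Fin n × Fin n)) (γ : ℝ) (b : Fin n → ℝ) (k : ℕ)
    (a : Fin n → ℕ) : ℝ :=
  ∑ v, (b v * a v + log (k.choose (a v))) + ∑ e ∈ E, log (W k γ (a e.1) (a e.2))

/-- second differences of `log W` -/
noncomputable def Gam (k : ℕ) (γ : ℝ) (i i' : ℕ) : ℝ :=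
  log (W k γ (i + 1) (i' + 1)) - log (W k γ (i + 1) i') - log (W k γ i (i' + 1)) +
    log (W k γ i i')

/-- differences of the logarithms of binomial coefficients -/
noncomputable def lam (k i : ℕ) : ℝ := log (k.choose (i + 1)) - log (k.choose i)

/-- the concave extension of `Phi` -/
noncomputable def Fhat (E : Finset (Fin n × Fin n)) (γ : ℝ) (b : Fin n → ℝ) (k : ℕ)
    (q : Fin n → ℕ → ℝ) : ℝ :=
  ∑ v, ∑ i ∈ range k, (b v + lam k i) * q v i +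
    ∑ e ∈ E, ∑ i ∈ range k, ∑ i' ∈ range k, Gam k γ i i' * min (q e.1 i) (q e.2 i')

/-- antitone sequences in `[0, 1]` -/
def Adm (f : ℕ → ℝ) : Prop := Antitone f ∧ ∀ i, 0 ≤ f i ∧ f i ≤ 1

/-- colour refinement -/
noncomputable def wl (G : SimpleGraph (Fin n)) : ℕ → Fin n → ℕ
  | 0, _ => 0
  | j + 1, v => Encodable.encode (wl G j v, (nbr G v).val.map (wl G j))

/-- finite rooted graphs -/
abbrev RG : Type := Σ m : ℕ, SimpleGraph (Fin m) × Fin m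

/-- a finite family of pairwise non-isomorphic rooted forests -/
def Fam (r : ℕ) (s : Finset RG) : Prop :=
  (∀ i ∈ s, i.2.1.IsAcyclic) ∧ ∀ (m : ℕ) (G : SimpleGraph (Fin m)) (v : Fin m), ∀ i ∈ s, ∀ i' ∈ s,
    BallIso G v r i.2.1 i.2.2 → BallIso G v r i'.2.1 i'.2.2 → i = i'

/-- typical graphs -/
def Typ (G : SimpleGraph (Fin n)) (Dbar η1 : ℝ) (Δ r : ℕ) (s : Finset RG) (p : RG → ℝ) (η : ℝ) :
    Prop :=
  (∑ v, (deg G v : ℝ)) ≤ Dbar * n ∧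
    (∑ v, if Δ < deg G v then (deg G v : ℝ) else 0) ≤ η1 * n ∧
    ∀ i ∈ s, |frac (fun v => BallIso G v r i.2.1 i.2.2) - p i| ≤ η

end defs

/-- positive correlations -/
def S_fkg : Prop := ∀ (n : ℕ) (E : Finset (Fin n × Fin n)) (J : ℝ) (b : Fin n → ℝ)
  (U : Finset (Fin n)) (s : Fin n → Bool) (u w : Fin n), 0 ≤ J →
  0 ≤ cov (pw E J b U s) (fun x => X x u) fun x => X x w

/-- correlations pass through a separating shell -/
def S_shell : Prop := ∀ (n : ℕ) (E : Finset (Fin n × Fin n)) (J : ℝ) (b : Fin n → ℝ)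
  (U : Finset (Fin n)) (s : Fin n → Bool) (A S : Finset (Fin n)) (v w : Fin n), 0 ≤ J →
  v ∈ A → w ∉ A → (∀ e ∈ E, (e.1 ∈ A → e.2 ∈ A ∨ e.2 ∈ S) ∧ (e.2 ∈ A → e.1 ∈ A ∨ e.1 ∈ S)) →
  cov (pw E J b U s) (fun x => X x v) (fun x => X x w) ≤
    ∑ u ∈ S, cov (pw E J b U s) (fun x => X x u) fun x => X x w

/-- upper bound by the Bethe functional -/
def S_upper : Prop := ∀ (n : ℕ) (E : Finset (Fin n × Fin n)) (J : ℝ) (b : Fin n → ℝ)
  (D : Finset (Fin n)) (Δ R : ℕ) (L t : ℝ), 0 ≤ J → 0 < R → 0 < t → t ≤ 1 →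
  (∀ v ∉ D, |b v| ≤ L ∧ degE E v ≤ Δ ∧ Good E v R) →
  ∃ μ : (Fin n → Bool) → ℝ, (∀ x, 0 ≤ μ x) ∧ ∑ x, μ x = 1 ∧
    log (Z0 E J b) ≤ Bethe E J b μ + D.card * log 2 + t * n +
      Δ * (1 + exp (L + 1 + J * Δ)) ^ 2 / (R * t) * n

/-- from the Bethe functional to the replicated functional -/
def S_rep : Prop := ∀ (n : ℕ) (E : Finset (Fin n × Fin n)) (J : ℝ) (b : Fin n → ℝ) (k : ℕ)
  (μ : (Fin n → Bool) → ℝ), 0 ≤ J → (∀ x, 0 ≤ μ x) → ∑ x, μ x = 1 →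
  ∃ a : Fin n → ℕ, (∀ v, a v ≤ k) ∧
    k * Bethe E J b μ ≤ Phi E (exp J - 1) b k a + log (k + 1) * (n + 2 * E.card)

/-- lower bound by the replicated functional -/
def S_lower : Prop := ∀ (n : ℕ) (E : Finset (Fin n × Fin n)) (J : ℝ) (b : Fin n → ℝ) (k : ℕ)
  (a : Fin n → ℕ), 0 ≤ J → (∀ v, a v ≤ k) → Phi E (exp J - 1) b k a ≤ k * log (Z0 E J b)

/-- total positivity of `W` -/
def S_gam : Prop := ∀ (k : ℕ) (γ : ℝ) (i i' : ℕ), 0 ≤ γ →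
  0 ≤ Gam k γ i i' ∧ Gam k γ i i' = Gam k γ i' i

/-- `Fhat` extends `Phi` -/
def S_ext : Prop := ∀ (n : ℕ) (E : Finset (Fin n × Fin n)) (γ : ℝ) (b : Fin n → ℝ) (k : ℕ)
  (a : Fin n → ℕ), (∀ v, a v ≤ k) →
  Phi E γ b k a = Fhat E γ b k fun v i => if i < a v then 1 else 0

/-- threshold rounding -/
def S_round : Prop := ∀ (n : ℕ) (E : Finset (Fin n × Fin n)) (γ : ℝ) (b : Fin n → ℝ) (k : ℕ)
  (q : Fin n → ℕ → ℝ), (∀ v, Adm (q v)) →
  ∃ a : Fin n → ℕ, (∀ v, a v ≤ k) ∧ Fhat E γ b k q ≤ Phi E γ b k a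

/-- averaging over colour classes -/
def S_avg : Prop := ∀ (n : ℕ) (G : SimpleGraph (Fin n)) (γ α c : ℝ) (k K : ℕ)
  (p : Fin n → ℕ → ℝ), 0 ≤ γ → 0 < K → (∀ v, Adm (p v)) →
  ∃ j, 1 ≤ j ∧ j ≤ K ∧ ∃ Q : ℕ → ℕ → ℝ, (∀ τ, Adm (Q τ)) ∧
    Fhat (edges G) γ (fun v => α * deg G v + c) k p ≤
      Fhat (edges G) γ (fun v => α * deg G v + c) k (fun v => Q (wl G j v)) +
        (∑ i ∈ range k, ∑ i' ∈ range k, Gam k γ i i') * (∑ v, (deg G v : ℝ)) * √(k / K)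

/-- locality of `Fhat` at colour-determined points -/
def S_loc : Prop := ∀ (γ α c α' c' : ℝ) (k : ℕ), 0 ≤ γ → ∃ C : ℝ, 0 < C ∧
  ∀ Q : ℕ → ℕ → ℝ, (∀ τ, Adm (Q τ)) → ∃ Λ : ℕ → ℝ,
    ∀ (n : ℕ) (G : SimpleGraph (Fin n)) (j : ℕ),
      (∀ v, |Λ (wl G (j + 1) v)| ≤ C * (1 + deg G v)) ∧
      Fhat (edges G) γ (fun v => α * deg G v + c) k (fun v => Q (wl G j v)) +
        ∑ v, (α' * deg G v + c') = ∑ v, Λ (wl G (j + 1) v)

/-- passage to the lattice gas -/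
def S_conv : Prop := ∀ (n : ℕ) (G : SimpleGraph (Fin n)) (β k h : ℝ),
  log (Zext G β k h) = log (Z0 (edges G) (4 * β) fun v => 2 * (k - β) * deg G v + 2 * h) +
    ∑ v, ((β / 2 - k) * deg G v + -h)

/-- degrees and the list of edges -/
def S_deg : Prop := ∀ (n : ℕ) (G : SimpleGraph (Fin n)),
  (∀ v, degE (edges G) v = deg G v) ∧ 2 * (edges G).card = ∑ v, deg G v

/-- tree-like balls -/
def S_good : Prop := ∀ (n : ℕ) (G : SimpleGraph (Fin n)) (w : Fin n) (r R m : ℕ)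
  (H : SimpleGraph (Fin m)) (o : Fin m), BallIso G w r H o → H.IsAcyclic → R < r →
  Good (edges G) w R

/-- colours are determined by balls -/
def S_wl : Prop := ∀ (n : ℕ) (G : SimpleGraph (Fin n)) (v : Fin n) (r j m : ℕ)
  (H : SimpleGraph (Fin m)) (o : Fin m), BallIso G v r H o → j ≤ r → wl G j v = wl H j o

/-- transfer of local averages between typical graphs -/
def S_trans : Prop := ∀ (C Dbar η0 η1 η : ℝ) (Δ r : ℕ) (s : Finset RG) (p : RG → ℝ)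
  (lm : RG → ℝ) (n n' : ℕ) (G : SimpleGraph (Fin n)) (G' : SimpleGraph (Fin n'))
  (f : Fin n → ℝ) (f' : Fin n' → ℝ), 0 < n → 0 < n' → 0 ≤ C → Fam r s → 1 - η0 ≤ ∑ i ∈ s, p i →
  Typ G Dbar η1 Δ r s p η → Typ G' Dbar η1 Δ r s p η →
  (∀ v, |f v| ≤ C * (1 + deg G v)) → (∀ v, |f' v| ≤ C * (1 + deg G' v)) →
  (∀ i ∈ s, ∀ v, BallIso G v r i.2.1 i.2.2 → f v = lm i) →
  (∀ i ∈ s, ∀ v, BallIso G' v r i.2.1 i.2.2 → f' v = lm i) →
  (∑ v, f' v) / n' ≤ (∑ v, f v) / n + 2 * η * ∑ i ∈ s, |lm i| +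
    2 * C * ((1 + Δ) * (η0 + s.card * η) + η1)

/-- comparison of typical graphs -/
def S_cmp : Prop := ∀ (β k h ε Dbar : ℝ), 0 ≤ β → 0 < ε → 0 < Dbar → ∃ η1 : ℝ, 0 < η1 ∧
  ∀ Δ : ℕ, ∃ (r : ℕ) (η0 : ℝ), 1 ≤ r ∧ 0 < η0 ∧ ∀ s : Finset RG, Fam r s → ∃ η : ℝ, 0 < η ∧
    ∀ p : RG → ℝ, 1 - η0 ≤ ∑ i ∈ s, p i →
      ∀ (n n' : ℕ) (G : SimpleGraph (Fin n)) (G' : SimpleGraph (Fin n')), 0 < n → 0 < n' →
        Typ G Dbar η1 Δ r s p η → Typ G' Dbar η1 Δ r s p η →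
        log (Zext G' β k h) / n' ≤ log (Zext G β k h) / n + ε

open MeasureTheory in
/-- tightness of the limit -/
def S_tight : Prop := ∀ (Ω' : Type) [MeasurableSpace Ω'] (P' : Measure Ω') [IsProbabilityMeasure P']
  (V : Ω' → Type) (T : ∀ ω, SimpleGraph (V ω)) (o : ∀ ω, V ω),
  (∀ᵐ ω ∂P', (T ω).IsTree ∧ ∀ v, ((T ω).neighborSet v).Finite) →
  ∀ (r : ℕ) (η0 : ℝ), 0 < η0 → ∃ s : Finset RG, Fam r s ∧
    1 - η0 ≤ ∑ i ∈ s, P'.real {ω | BallIso (T ω) (o ω) r i.2.1 i.2.2}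

open MeasureTheory Filter Topology in
/-- the theorem -/
def S_main : Prop := ∀ (Ω : Type) [MeasurableSpace Ω] (P : Measure Ω) [IsProbabilityMeasure P]
  (G : ∀ n : ℕ, Ω → SimpleGraph (Fin n)), (∀ n g, MeasurableSet {ω | G n ω = g}) →
  ∀ (q : ℕ → ℝ) (m : ℝ), HasSum q 1 → HasSum (fun j : ℕ => j * q j) m →
  (∀ j : ℕ, Tendsto (fun n => ∫ ω, frac (fun v => deg (G n ω) v = j) ∂P) atTop (𝓝 (q j))) →
  Tendsto (fun n : ℕ => ∫ ω, (∑ v, (deg (G n ω) v : ℝ)) / n ∂P) atTop (𝓝 m) →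
  ∀ (Ω' : Type) [MeasurableSpace Ω'] (P' : Measure Ω') [IsProbabilityMeasure P']
    (V : Ω' → Type) (T : ∀ ω, SimpleGraph (V ω)) (o : ∀ ω, V ω),
  (∀ᵐ ω ∂P', (T ω).IsTree ∧ ∀ v, ((T ω).neighborSet v).Finite) →
  (∀ r : ℕ, 1 ≤ r → ∀ (l : ℕ) (H : SimpleGraph (Fin l)) (u : Fin l),
    TendstoInMeasure P (fun n ω => frac fun v => BallIso (G n ω) v r H u) atTop
      fun _ => P'.real {ω | BallIso (T ω) (o ω) r H u}) →
  ∀ β k h : ℝ, 0 ≤ β →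
    ∃ φ : ℝ, TendstoInMeasure P (fun n ω => log (Zext (G n ω) β k h) / n) atTop fun _ => φ

end Pool.Agent.H181Z.Is
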