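import Mathlib
import Pool.Agent.H181Z.IsSt

/-!
# Averaging over colour classes
-/

set_option autoImplicit false

namespace Pool.Agent.H181Z.Is

open Finset Real

namespace Avg

variable {n : ℕ}

/-- the average of `f` over the class of colour `τ` -/
noncomputable def av (c : Fin n → ℕ) (f : Fin n → ℝ) (τ : ℕ) : ℝ :=
  (∑ u ∈ univ.filter (fun u => c u = τ), f u) / (univ.filter (fun u => c u = τ)).card

theorem tower (c : Fin n → ℕ) (s f : Fin n → ℝ) (hs : ∀ u v, c u = c v → s u = s v) :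
    ∑ u, s u * f u = ∑ u, s u * av c f (c u) := by
  have h1 : ∀ u, s u * av c f (c u) = ∑ w, if c w = c u then
      s w * f w / (univ.filter (fun x => c x = c w)).card else 0 := by
    intro u
    rw [av, ← mul_div_assoc, mul_sum, sum_div, sum_filter]
    refine sum_congr rfl fun w _ => ?_
    split_ifs with h
    · rw [hs u w h.symm, h]
    · rfl
  simp only [h1]
  rw [sum_comm]
  refine sum_congr rfl fun w _ => ?_
  have h2 : (0 : ℝ) < (univ.filter (fun x => c x = c w)).card := by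
    exact_mod_cast card_pos.2 ⟨w, by simp⟩
  simp only [eq_comm (a := c w)]
  rw [← sum_filter, sum_const, nsmul_eq_mul]
  field_simp

theorem av_nonneg (c : Fin n → ℕ) {f : Fin n → ℝ} (h : ∀ u, 0 ≤ f u) (τ : ℕ) : 0 ≤ av c f τ :=
  div_nonneg (sum_nonneg fun u _ => h u) (Nat.cast_nonneg _)

theorem av_le_one (c : Fin n → ℕ) {f : Fin n → ℝ} (h : ∀ u, f u ≤ 1) (τ : ℕ) : av c f τ ≤ 1 := by
  refine div_le_one_of_le₀ ?_ (Nat.cast_nonneg _)
  simpa using sum_le_card_nsmul (univ.filter (fun u => c u = τ)) f 1 fun u _ => h u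

theorem av_mono (c : Fin n → ℕ) {f g : Fin n → ℝ} (h : ∀ u, f u ≤ g u) (τ : ℕ) :
    av c f τ ≤ av c g τ :=
  div_le_div_of_nonneg_right (sum_le_sum fun u _ => h u) (Nat.cast_nonneg _)

theorem incr (c c' : Fin n → ℕ) (hc : ∀ u v, c' u = c' v → c u = c v) (d f : Fin n → ℝ)
    (hd : ∀ u v, c u = c v → d u = d v) :
    ∑ u, d u * (av c' f (c' u) - av c f (c u)) ^ 2 =
      ∑ u, d u * av c' f (c' u) ^ 2 - ∑ u, d u * av c f (c u) ^ 2 := by
  have h1 := tower c (fun u => d u * av c f (c u)) f fun u v h => by rw [hd u v h, h]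
  have h2 := tower c' (fun u => d u * av c f (c u)) f fun u v h => by
    rw [hd u v (hc u v h), hc u v h]
  have h3 : ∑ u, d u * (av c' f (c' u) - av c f (c u)) ^ 2 =
      ∑ u, d u * av c' f (c' u) ^ 2 - 2 * ∑ u, d u * av c f (c u) * av c' f (c' u) +
        ∑ u, d u * av c f (c u) * av c f (c u) := by
    rw [mul_sum, ← sum_sub_distrib, ← sum_add_distrib]
    exact sum_congr rfl fun u _ => by ring
  have h4 : ∑ u, d u * av c f (c u) ^ 2 = ∑ u, d u * av c f (c u) * av c f (c u) :=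
    sum_congr rfl fun u _ => by ring
  rw [h3, h4, ← h2, h1]
  ring

theorem pigeon (E : ℕ → ℝ) (M : ℝ) (K : ℕ) (hK : 0 < K) (h0 : ∀ j, 0 ≤ E j) (h1 : ∀ j, E j ≤ M) :
    ∃ j, 1 ≤ j ∧ j ≤ K ∧ E (j + 1) - E j ≤ M / K := by
  by_contra hc
  push Not at hc
  have h2 : ∑ _j ∈ range K, M / K < ∑ j ∈ range K, (E (j + 1 + 1) - E (j + 1)) :=
    sum_lt_sum_of_nonempty (nonempty_range_iff.2 hK.ne') fun j hj =>
      hc (j + 1) (by omega) (by have := mem_range.1 hj; omega)
  rw [sum_range_sub (fun j => E (j + 1)), sum_const, card_range, nsmul_eq_mul,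
    mul_div_cancel₀ _ (by exact_mod_cast hK.ne')] at h2
  linarith [h0 (0 + 1), h1 (K + 1)]

variable (G : SimpleGraph (Fin n))

theorem wl_succ {j : ℕ} {u v : Fin n} (h : wl G (j + 1) u = wl G (j + 1) v) :
    wl G j u = wl G j v ∧ (nbr G u).val.map (wl G j) = (nbr G v).val.map (wl G j) := by
  have := Encodable.encode_injective h
  exact ⟨congrArg Prod.fst this, congrArg Prod.snd this⟩

theorem deg_eq {j : ℕ} (hj : 1 ≤ j) {u v : Fin n} (h : wl G j u = wl G j v) :
    deg G u = deg G v := by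
  obtain ⟨j, rfl⟩ := Nat.exists_eq_add_of_le' hj
  have := congrArg Multiset.card (wl_succ G h).2
  simpa [deg] using this

theorem mem_nbr {u v : Fin n} : v ∈ nbr G u ↔ G.Adj u v := by simp [nbr]

theorem swap (F : Fin n → Fin n → ℝ) :
    ∑ u, ∑ v ∈ nbr G u, F u v = ∑ v, ∑ u ∈ nbr G v, F u v :=
  sum_comm' fun u v => by simp [mem_nbr, G.adj_comm]

theorem two_edges (F : Fin n → Fin n → ℝ) (hF : ∀ u v, F u v = F v u) :
    2 * ∑ e ∈ edges G, F e.1 e.2 = ∑ u, ∑ v ∈ nbr G u, F u v := by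
  classical
  have h1 : ∑ e ∈ edges G, F e.1 e.2 = ∑ u, ∑ v ∈ nbr G u, if u < v then F u v else 0 := by
    rw [edges, sum_filter, ← univ_product_univ, sum_product]
    refine sum_congr rfl fun u _ => ?_
    rw [nbr, sum_filter]
    refine sum_congr rfl fun v _ => ?_
    by_cases h : G.Adj u v <;> simp [h]
  have h2 := h1
  rw [swap G] at h2
  have h3 : 2 * ∑ e ∈ edges G, F e.1 e.2 = (∑ u, ∑ v ∈ nbr G u, if u < v then F u v else 0) +
      ∑ u, ∑ v ∈ nbr G u, if v < u then F v u else 0 := by rw [← h1, ← h2, two_mul]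
  rw [h3, ← sum_add_distrib]
  refine sum_congr rfl fun u _ => ?_
  rw [← sum_add_distrib]
  refine sum_congr rfl fun v hv => ?_
  rcases lt_or_gt_of_ne ((mem_nbr G).1 hv).ne with h | h
  · simp [h, h.not_gt]
  · simp [h, h.not_gt, hF v u]

theorem sel_le (j : ℕ) (g : ℕ → ℕ → ℝ) (g0 : ∀ a b, 0 ≤ g a b) (g1 : ∀ a b, g a b ≤ 1)
    (f : Fin n → ℝ) :
    ∑ u, ∑ v ∈ nbr G u, g (wl G j u) (wl G j v) * f u ≤
      ∑ u, ∑ v ∈ nbr G u, g (wl G j u) (wl G j v) * av (wl G j) f (wl G j u) +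
        ∑ u, (deg G u : ℝ) * |av (wl G (j + 1)) f (wl G (j + 1) u) - av (wl G j) f (wl G j u)| := by
  simp only [← sum_mul]
  rw [tower (wl G (j + 1)) (fun u => ∑ v ∈ nbr G u, g (wl G j u) (wl G j v)) f, ← sum_add_distrib]
  · refine sum_le_sum fun u _ => ?_
    have h0 : 0 ≤ ∑ v ∈ nbr G u, g (wl G j u) (wl G j v) := sum_nonneg fun v _ => g0 _ _
    have h1 : ∑ v ∈ nbr G u, g (wl G j u) (wl G j v) ≤ deg G u := by
      simpa [deg] using sum_le_card_nsmul (nbr G u) _ 1 fun v _ => g1 (wl G j u) (wl G j v)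
    have h2 := le_abs_self (av (wl G (j + 1)) f (wl G (j + 1) u) - av (wl G j) f (wl G j u))
    have h3 := abs_nonneg (av (wl G (j + 1)) f (wl G (j + 1) u) - av (wl G j) f (wl G j u))
    nlinarith
  · intro u v h
    obtain ⟨h1, h2⟩ := wl_succ G h
    have e : ∀ w : Fin n, ∑ x ∈ nbr G w, g (wl G j u) (wl G j x) =
        (((nbr G w).val.map (wl G j)).map (g (wl G j u))).sum := fun w => by
      rw [Multiset.map_map]; rfl
    rw [← h1, e, e, h2]

theorem min_le (j : ℕ) (f f' : Fin n → ℝ) :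
    ∑ u, ∑ v ∈ nbr G u, min (f u) (f' v) ≤
      ∑ u, ∑ v ∈ nbr G u, min (av (wl G j) f (wl G j u)) (av (wl G j) f' (wl G j v)) +
        (∑ u, (deg G u : ℝ) * |av (wl G (j + 1)) f (wl G (j + 1) u) - av (wl G j) f (wl G j u)| +
        ∑ u, (deg G u : ℝ) *
          |av (wl G (j + 1)) f' (wl G (j + 1) u) - av (wl G j) f' (wl G j u)|) := by
  let g : ℕ → ℕ → ℝ := fun a b => if av (wl G j) f a ≤ av (wl G j) f' b then 1 else 0
  have g0 : ∀ a b, 0 ≤ g a b := fun a b => by dsimp only [g]; split_ifs <;> norm_num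
  have g1 : ∀ a b, g a b ≤ 1 := fun a b => by dsimp only [g]; split_ifs <;> norm_num
  have h1 := sel_le G j g g0 g1 f
  have h2 := sel_le G j (fun b a => 1 - g a b) (fun b a => sub_nonneg.2 (g1 a b))
    (fun b a => by linarith [g0 a b]) f'
  rw [← swap G (fun u v => (1 - g (wl G j u) (wl G j v)) * f' v),
    ← swap G (fun u v => (1 - g (wl G j u) (wl G j v)) * av (wl G j) f' (wl G j v))] at h2
  have h3 : ∑ u, ∑ v ∈ nbr G u, min (f u) (f' v) ≤
      ∑ u, ∑ v ∈ nbr G u, g (wl G j u) (wl G j v) * f u +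
        ∑ u, ∑ v ∈ nbr G u, (1 - g (wl G j u) (wl G j v)) * f' v := by
    rw [← sum_add_distrib]
    refine sum_le_sum fun u _ => ?_
    rw [← sum_add_distrib]
    refine sum_le_sum fun v _ => ?_
    dsimp only [g]
    split_ifs <;> simp
  have h4 : ∑ u, ∑ v ∈ nbr G u, min (av (wl G j) f (wl G j u)) (av (wl G j) f' (wl G j v)) =
      ∑ u, ∑ v ∈ nbr G u, g (wl G j u) (wl G j v) * av (wl G j) f (wl G j u) +
        ∑ u, ∑ v ∈ nbr G u, (1 - g (wl G j u) (wl G j v)) * av (wl G j) f' (wl G j v) := by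
    rw [← sum_add_distrib]
    refine sum_congr rfl fun u _ => ?_
    rw [← sum_add_distrib]
    refine sum_congr rfl fun v _ => ?_
    dsimp only [g]
    split_ifs with h
    · simp [h]
    · simp [(not_le.1 h).le]
  linarith

theorem cs (d x : Fin n → ℝ) (hd : ∀ u, 0 ≤ d u) (t : ℝ) (ht : 0 ≤ t)
    (h : ∑ u, d u * x u ^ 2 ≤ t * ∑ u, d u) : ∑ u, d u * |x u| ≤ (∑ u, d u) * √t := by
  have h0 : 0 ≤ ∑ u, d u := sum_nonneg fun u _ => hd u
  have h1 := sum_mul_sq_le_sq_mul_sq univ (fun u => √(d u)) (fun u => √(d u) * |x u|)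
  have e1 : ∑ u, √(d u) * (√(d u) * |x u|) = ∑ u, d u * |x u| :=
    sum_congr rfl fun u _ => by rw [← mul_assoc, mul_self_sqrt (hd u)]
  have e2 : ∑ u, √(d u) ^ 2 = ∑ u, d u := sum_congr rfl fun u _ => sq_sqrt (hd u)
  have e3 : ∑ u, (√(d u) * |x u|) ^ 2 = ∑ u, d u * x u ^ 2 :=
    sum_congr rfl fun u _ => by rw [mul_pow, sq_sqrt (hd u), sq_abs]
  rw [e1, e2, e3] at h1
  refine abs_le_of_sq_le_sq' ?_ (mul_nonneg h0 (sqrt_nonneg _)) |>.2
  rw [mul_pow, sq_sqrt ht]
  nlinarith [mul_le_mul_of_nonneg_left h h0]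

end Avg

open Avg in
theorem thm_avg (hg : S_gam) : S_avg := by
  intro n G γ α c k K p hγ hK hp
  have hd : ∀ u, (0 : ℝ) ≤ deg G u := fun u => Nat.cast_nonneg _
  obtain ⟨j, hj1, hjK, hj⟩ := pigeon (fun j => ∑ i ∈ range k, ∑ u, (deg G u : ℝ) *
      av (wl G j) (fun w => p w i) (wl G j u) ^ 2) (k * ∑ u, (deg G u : ℝ)) K hK
    (fun j => sum_nonneg fun i _ => sum_nonneg fun u _ => mul_nonneg (hd u) (sq_nonneg _))
    (fun j => by
      have := sum_le_card_nsmul (range k) (fun i => ∑ u, (deg G u : ℝ) *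
        av (wl G j) (fun w => p w i) (wl G j u) ^ 2) (∑ u, (deg G u : ℝ)) fun i _ =>
          sum_le_sum fun u _ => mul_le_of_le_one_right (hd u) (pow_le_one₀
            (av_nonneg _ (fun w => ((hp w).2 i).1) _) (av_le_one _ (fun w => ((hp w).2 i).2) _))
      simpa using this)
  have hdeg : ∀ u v, wl G j u = wl G j v → (deg G u : ℝ) = deg G v := fun u v h => by
    rw [deg_eq G hj1 h]
  rw [← sum_sub_distrib] at hj
  simp only [← incr (wl G j) (wl G (j + 1)) (fun u v h => (wl_succ G h).1) _ _ hdeg] at hj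
  have heps : ∀ i ∈ range k, ∑ u, (deg G u : ℝ) *
      |av (wl G (j + 1)) (fun w => p w i) (wl G (j + 1) u) -
        av (wl G j) (fun w => p w i) (wl G j u)| ≤ (∑ u, (deg G u : ℝ)) * √(k / K) := by
    intro i hi
    refine cs _ _ hd _ (by positivity) (le_trans ?_ (hj.trans (le_of_eq (by ring))))
    exact single_le_sum (f := fun i => ∑ u, (deg G u : ℝ) *
      (av (wl G (j + 1)) (fun w => p w i) (wl G (j + 1) u) -
        av (wl G j) (fun w => p w i) (wl G j u)) ^ 2)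
      (fun i _ => sum_nonneg fun u _ => mul_nonneg (hd u) (sq_nonneg _)) hi
  refine ⟨j, hj1, hjK, fun τ i => av (wl G j) (fun w => p w i) τ, fun τ =>
    ⟨fun i i' h => av_mono _ (fun w => (hp w).1 h) _, fun i =>
      ⟨av_nonneg _ (fun w => ((hp w).2 i).1) _, av_le_one _ (fun w => ((hp w).2 i).2) _⟩⟩, ?_⟩
  unfold Fhat
  have hlin : ∑ v, ∑ i ∈ range k, (α * deg G v + c + lam k i) * p v i =
      ∑ v, ∑ i ∈ range k, (α * deg G v + c + lam k i) *
        av (wl G j) (fun w => p w i) (wl G j v) := by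
    rw [sum_comm, sum_comm (s := univ)]
    exact sum_congr rfl fun i _ => tower (wl G j) _ _ fun u v h => by rw [hdeg u v h]
  have hedge : ∀ q : Fin n → ℕ → ℝ, 2 * ∑ e ∈ edges G, ∑ i ∈ range k, ∑ i' ∈ range k,
      Gam k γ i i' * min (q e.1 i) (q e.2 i') = ∑ i ∈ range k, ∑ i' ∈ range k,
        Gam k γ i i' * ∑ u, ∑ v ∈ nbr G u, min (q u i) (q v i') := by
    intro q
    rw [two_edges G (fun u v => ∑ i ∈ range k, ∑ i' ∈ range k,
      Gam k γ i i' * min (q u i) (q v i')) fun u v => by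
        rw [sum_comm]
        exact sum_congr rfl fun i _ => sum_congr rfl fun i' _ => by
          rw [(hg k γ i' i hγ).2, min_comm]]
    simp only [mul_sum]
    simp only [sum_comm (s := nbr G _) (t := range k)]
    simp only [sum_comm (s := (univ : Finset (Fin n))) (t := range k)]
  have h1 := hedge p
  have h2 := hedge fun v i => av (wl G j) (fun w => p w i) (wl G j v)
  have h3 : ∑ i ∈ range k, ∑ i' ∈ range k,
      Gam k γ i i' * ∑ u, ∑ v ∈ nbr G u, min (p u i) (p v i') ≤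
      ∑ i ∈ range k, ∑ i' ∈ range k, Gam k γ i i' * ∑ u, ∑ v ∈ nbr G u,
        min (av (wl G j) (fun w => p w i) (wl G j u)) (av (wl G j) (fun w => p w i') (wl G j v)) +
      2 * ((∑ i ∈ range k, ∑ i' ∈ range k, Gam k γ i i') * (∑ v, (deg G v : ℝ)) * √(k / K)) := by
    rw [mul_assoc, sum_mul, mul_sum, ← sum_add_distrib]
    refine sum_le_sum fun i hi => ?_
    rw [sum_mul, mul_sum, ← sum_add_distrib]
    refine sum_le_sum fun i' hi' => ?_
    have e1 := min_le G j (fun w => p w i) (fun w => p w i')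
    have e2 := heps i hi
    have e3 := heps i' hi'
    have e4 := (hg k γ i i' hγ).1
    nlinarith
  dsimp only at h2 ⊢
  linarith

end Pool.Agent.H181Z.Is
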