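import Mathlib
import Pool.Agent.H181Z.IsSt

/-!
# Balls that look like trees
-/

set_option autoImplicit false

namespace Pool.Agent.H181Z.Is

open Finset

namespace Ball

theorem step {V : Type} {G : SimpleGraph V} (w : V) {u v : V} (h : G.Adj u v) :
    G.edist w v ≤ G.edist w u + 1 := by
  calc G.edist w v ≤ G.edist w u + G.edist u v := SimpleGraph.edist_triangle
    _ = G.edist w u + 1 := by rw [SimpleGraph.edist_eq_one_iff_adj.mpr h]

theorem le_aux {V W : Type} {G : SimpleGraph V} {H : SimpleGraph W} {w : V} {r : ℕ}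
    (φ : G.induce {u | G.edist w u ≤ r} ≃g H) {o : W} (ho : (φ.symm o).1 = w) :
    ∀ (d : ℕ) (u : V) (hu : G.edist w u ≤ r), G.edist w u ≤ d → H.edist o (φ ⟨u, hu⟩) ≤ d := by
  intro d
  induction d with
  | zero =>
    intro u hu h
    have h0 : G.edist w u = 0 := by simpa using h
    have huw : w = u := SimpleGraph.edist_eq_zero_iff.mp h0
    have : (⟨u, hu⟩ : {u | G.edist w u ≤ r}) = φ.symm o := Subtype.ext (by rw [ho]; exact huw.symm)
    rw [this]
    simp
  | succ d ih =>
    intro u hu h
    by_cases hd : G.edist w u ≤ d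
    · exact (ih u hu hd).trans (by exact_mod_cast Nat.le_succ d)
    · have he : G.edist w u = ((d + 1 : ℕ) : ℕ∞) := by
        apply le_antisymm h
        have := not_le.mp hd
        exact_mod_cast Order.add_one_le_of_lt this
      obtain ⟨p, hp⟩ := SimpleGraph.exists_walk_of_edist_eq_coe he
      cases p with
      | nil => simp at hp
      | cons ha q =>
        obtain ⟨x, q', hx, hq⟩ := SimpleGraph.Walk.exists_cons_eq_concat ha q
        rw [hq, SimpleGraph.Walk.length_concat] at hp
        have hl : q'.length = d := by omega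
        have hxd : G.edist w x ≤ d := by rw [← hl]; exact SimpleGraph.edist_le q'
        have hxr : G.edist w x ≤ r := by
          refine hxd.trans (le_trans ?_ hu)
          rw [he]; exact_mod_cast Nat.le_succ d
        have hadj : H.Adj (φ ⟨x, hxr⟩) (φ ⟨u, hu⟩) := φ.map_adj_iff.mpr (by simpa using hx)
        calc H.edist o (φ ⟨u, hu⟩) ≤ H.edist o (φ ⟨x, hxr⟩) + 1 := step o hadj
          _ ≤ (d : ℕ∞) + 1 := by gcongr; exact ih x hxr hxd
          _ = ((d + 1 : ℕ) : ℕ∞) := by push_cast; rfl

theorem ge_aux {V W : Type} {G : SimpleGraph V} {H : SimpleGraph W} {S : Set V}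
    (φ : G.induce S ≃g H) {a b : W} (p : H.Walk a b) :
    G.edist (φ.symm a).1 (φ.symm b).1 ≤ p.length := by
  induction p with
  | nil => simp
  | @cons x y z h q ih =>
    have hadj : G.Adj (φ.symm x).1 (φ.symm y).1 := by
      have := φ.symm.map_adj_iff.mpr h
      simpa using this
    calc G.edist (φ.symm x).1 (φ.symm z).1
        ≤ G.edist (φ.symm x).1 (φ.symm y).1 + G.edist (φ.symm y).1 (φ.symm z).1 :=
          SimpleGraph.edist_triangle
      _ ≤ 1 + (q.length : ℕ∞) := by
          rw [SimpleGraph.edist_eq_one_iff_adj.mpr hadj]; gcongr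
      _ = ((SimpleGraph.Walk.cons h q).length : ℕ∞) := by
          rw [SimpleGraph.Walk.length_cons]; push_cast; rw [add_comm]

theorem edist_eq {V W : Type} {G : SimpleGraph V} {H : SimpleGraph W} {w : V} {r : ℕ}
    (φ : G.induce {u | G.edist w u ≤ r} ≃g H) {o : W} (ho : (φ.symm o).1 = w)
    (u : V) (hu : G.edist w u ≤ r) : H.edist o (φ ⟨u, hu⟩) = G.edist w u := by
  have hne : G.edist w u ≠ ⊤ := ne_top_of_le_ne_top (ENat.natCast_ne_top r) hu
  obtain ⟨d, hd⟩ := ENat.ne_top_iff_exists.mp hne
  have h1 : H.edist o (φ ⟨u, hu⟩) ≤ d := le_aux φ ho d u hu hd.symm.le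
  apply le_antisymm
  · rw [← hd]; exact h1
  · have hne' : H.edist o (φ ⟨u, hu⟩) ≠ ⊤ := ne_top_of_le_ne_top (ENat.natCast_ne_top d) h1
    obtain ⟨p, hp⟩ := SimpleGraph.exists_walk_of_edist_ne_top hne'
    have := ge_aux φ p
    rw [ho, hp] at this
    simpa using this

theorem parent {W : Type} {H : SimpleGraph W} (hH : H.IsAcyclic) {o v a b : W}
    (hv : H.Reachable o v) (ha : H.Adj v a) (hb : H.Adj v b) (hda : H.dist o a ≤ H.dist o v)
    (hdb : H.dist o b ≤ H.dist o v) : a = b := by
  have key : ∀ c, H.Adj v c → H.dist o c ≤ H.dist o v →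
      ∃ p : H.Walk o v, p.IsPath ∧ p.penultimate = c := by
    intro c hc hd
    have h1 := hH.dist_eq_dist_add_one_of_adj_of_reachable o hc hv
    have h2 : H.dist o v = H.dist o c + 1 := by omega
    obtain ⟨q, hq⟩ := (hv.trans hc.reachable).exists_walk_length_eq_dist
    refine ⟨q.concat hc.symm, SimpleGraph.Walk.isPath_of_length_eq_dist _ ?_,
      SimpleGraph.Walk.penultimate_concat _ _⟩
    rw [SimpleGraph.Walk.length_concat, hq, h2]
  obtain ⟨p, hp, rfl⟩ := key a ha hda
  obtain ⟨q, hq, rfl⟩ := key b hb hdb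
  have := Subtype.mk.inj <| (hH.subsingleton_path o v).elim ⟨p, hp⟩ ⟨q, hq⟩
  rw [this]

theorem parentG {V W : Type} {G : SimpleGraph V} {H : SimpleGraph W} {w : V} {r : ℕ}
    (φ : G.induce {u | G.edist w u ≤ r} ≃g H) {o : W} (ho : (φ.symm o).1 = w) (hH : H.IsAcyclic)
    {v a b : V} (hv : G.edist w v ≤ r) (ha : G.Adj v a) (hb : G.Adj v b)
    (hda : G.edist w a ≤ G.edist w v) (hdb : G.edist w b ≤ G.edist w v) : a = b := by
  have har := hda.trans hv
  have hbr := hdb.trans hv
  have ev := edist_eq φ ho v hv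
  have ea := edist_eq φ ho a har
  have eb := edist_eq φ ho b hbr
  have hne : H.edist o (φ ⟨v, hv⟩) ≠ ⊤ := by
    rw [ev]; exact ne_top_of_le_ne_top (ENat.natCast_ne_top r) hv
  have hle : ∀ x : W, H.edist o x ≤ H.edist o (φ ⟨v, hv⟩) →
      H.dist o x ≤ H.dist o (φ ⟨v, hv⟩) := fun x hx => ENat.toNat_le_toNat hx hne
  have := parent hH (SimpleGraph.reachable_of_edist_ne_top hne)
    (a := φ ⟨a, har⟩) (b := φ ⟨b, hbr⟩) (φ.map_adj_iff.mpr (by simpa using ha))
    (φ.map_adj_iff.mpr (by simpa using hb)) (hle _ (by rw [ea, ev]; exact hda))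
    (hle _ (by rw [eb, ev]; exact hdb))
  exact congrArg Subtype.val (φ.injective this)

theorem wl_aux {n m : ℕ} {G : SimpleGraph (Fin n)} {H : SimpleGraph (Fin m)} {v : Fin n} {r : ℕ}
    (φ : G.induce {u | G.edist v u ≤ r} ≃g H) :
    ∀ (j : ℕ) (x : Fin m), G.edist v (φ.symm x).1 + j ≤ r → wl G j (φ.symm x).1 = wl H j x := by
  intro j
  induction j with
  | zero => intro x _; rfl
  | succ j ih =>
    intro x hx
    have hx' : G.edist v (φ.symm x).1 + j ≤ r := by
      refine le_trans ?_ hx
      gcongr; exact_mod_cast Nat.le_succ j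
    have hnb : ∀ u, G.Adj (φ.symm x).1 u → G.edist v u + j ≤ r := by
      intro u hu
      refine le_trans ?_ hx
      calc G.edist v u + j ≤ (G.edist v (φ.symm x).1 + 1) + j := by gcongr; exact step v hu
        _ = G.edist v (φ.symm x).1 + ((j + 1 : ℕ) : ℕ∞) := by push_cast; ring
    have hinj : Function.Injective fun y : Fin m => (φ.symm y).1 :=
      Subtype.val_injective.comp φ.symm.injective
    have hset : nbr G (φ.symm x).1 = (nbr H x).map ⟨_, hinj⟩ := by
      ext u
      simp only [nbr, mem_filter, mem_univ, true_and, mem_map, Function.Embedding.coeFn_mk]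
      constructor
      · intro hu
        have hur : G.edist v u ≤ r := le_trans le_self_add (hnb u hu)
        refine ⟨φ ⟨u, hur⟩, ?_, by simp⟩
        have : (G.induce {u | G.edist v u ≤ r}).Adj (φ.symm x) ⟨u, hur⟩ := by simpa using hu
        have := φ.map_adj_iff.mpr this
        simpa using this
      · rintro ⟨y, hy, rfl⟩
        have := φ.symm.map_adj_iff.mpr hy
        simpa using this
    have hmul : (nbr G (φ.symm x).1).val.map (wl G j) = (nbr H x).val.map (wl H j) := by
      rw [hset, Finset.map_val, Multiset.map_map]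
      apply Multiset.map_congr rfl
      intro y hy
      have hy' : H.Adj x y := by
        have : y ∈ nbr H x := hy
        simpa [nbr] using this
      have hadj : G.Adj (φ.symm x).1 (φ.symm y).1 := by
        have := φ.symm.map_adj_iff.mpr hy'
        simpa using this
      exact ih y (hnb _ hadj)
    simp only [wl]
    rw [ih x hx', hmul]

end Ball

theorem thm_wl : S_wl := by
  rintro n G v r j m H o ⟨φ, ho⟩ hj
  have := Ball.wl_aux φ j o (by rw [ho]; simpa using hj)
  rwa [ho] at this

theorem thm_good : S_good := by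
  rintro n G w r R m H o ⟨φ, ho⟩ hH hR
  classical
  let l : Fin n → ℕ := fun u => (min (G.edist w u) ((R + 1 : ℕ) : ℕ∞)).toNat
  have hl : ∀ u, (l u : ℕ∞) = min (G.edist w u) ((R + 1 : ℕ) : ℕ∞) := fun u =>
    ENat.natCast_toNat (ne_top_of_le_ne_top (ENat.natCast_ne_top _) (min_le_right _ _))
  have hsm : ∀ u, l u ≤ R → (l u : ℕ∞) = G.edist w u := by
    intro u hu
    rcases min_choice (G.edist w u) ((R + 1 : ℕ) : ℕ∞) with h | h
    · rw [hl, h]
    · have := hl u
      rw [h] at this
      have : l u = R + 1 := by exact_mod_cast this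
      omega
  have hw : l w = 0 := by simp [l]
  have hz : ∀ u, l u = 0 → u = w := by
    intro u hu
    have := hsm u (by omega)
    rw [hu] at this
    exact (SimpleGraph.edist_eq_zero_iff.mp (by exact_mod_cast this.symm)).symm
  have hst : ∀ u v, G.Adj u v → l v ≤ l u + 1 := by
    intro u v h
    have : (l v : ℕ∞) ≤ (l u : ℕ∞) + 1 := by
      rw [hl, hl, ← min_add_add_right]
      exact min_le_min (Ball.step w h) le_self_add
    exact_mod_cast this
  refine ⟨l, fun e => if l e.2 ≤ l e.1 then e.1 else e.2, hw, ?_, ?_⟩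
  · intro e he
    have hadj : G.Adj e.1 e.2 := by
      simp only [edges, mem_filter, mem_univ, true_and] at he
      exact he.1
    refine ⟨hst _ _ hadj.symm, hst _ _ hadj, ?_, ?_⟩
    · dsimp only
      split_ifs <;> simp
    · dsimp only
      split_ifs with h
      · intro h1
        rw [h1, hw] at h
        have h2 := hz e.2 (by omega)
        rw [h1, h2] at hadj
        exact hadj.ne rfl
      · intro h2
        rw [h2, hw] at h
        omega
  · intro v hv
    have hvr : G.edist w v ≤ r := by
      rw [← hsm v hv]; exact_mod_cast (by omega : l v ≤ r)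
    have key : ∀ e ∈ (edges G).filter (fun e => (if l e.2 ≤ l e.1 then e.1 else e.2) = v),
        ∃ a, G.Adj v a ∧ G.edist w a ≤ G.edist w v ∧ e.1 < e.2 ∧ (e = (v, a) ∨ e = (a, v)) := by
      intro e he
      simp only [edges, mem_filter, mem_univ, true_and] at he
      obtain ⟨⟨hadj, hlt⟩, hch⟩ := he
      have hle : ∀ a, l a ≤ l v → G.edist w a ≤ G.edist w v := by
        intro a ha
        rw [← hsm v hv, ← hsm a (by omega)]; exact_mod_cast ha
      split_ifs at hch with h
      · exact ⟨e.2, hch ▸ hadj, hle _ (hch ▸ h), hlt, Or.inl (by rw [← hch])⟩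
      · exact ⟨e.1, hch ▸ hadj.symm, hle _ (by rw [← hch]; omega), hlt, Or.inr (by rw [← hch])⟩
    rw [Finset.card_le_one]
    intro e he e' he'
    obtain ⟨a, ha, hda, hlt, hea⟩ := key e he
    obtain ⟨b, hb, hdb, hlt', heb⟩ := key e' he'
    have hab := Ball.parentG φ ho hH hvr ha hb hda hdb
    subst hab
    rcases hea with rfl | rfl <;> rcases heb with rfl | rfl
    · rfl
    · exact absurd (hlt.trans hlt') (lt_irrefl _)
    · exact absurd (hlt.trans hlt') (lt_irrefl _)
    · rfl

end Pool.Agent.H181Z.Is
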