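import Mathlib
import Pool.Agent.H181Z.IsSt

/-!
# The extended Ising model on locally tree-like graphs: comparison of typical graphs
-/

set_option autoImplicit false

namespace Pool.Agent.H181Z.Is

open Finset Real

namespace Cmp

lemma exN (Dbar δ : ℝ) (hD : 0 < Dbar) (hδ : 0 < δ) :
    ∃ N : ℕ, 1 ≤ N ∧ log ((N : ℝ) + 1) * (1 + Dbar) ≤ N * δ := by
  obtain ⟨M, hM⟩ := exists_nat_gt (2 * (1 + Dbar) / δ)
  have hM0 : (0 : ℝ) < M := lt_trans (by positivity) hM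
  have hM1 : 1 ≤ M := by exact_mod_cast hM0
  refine ⟨M * M, Nat.one_le_iff_ne_zero.mpr (by positivity), ?_⟩
  have h1 : log (((M * M : ℕ) : ℝ) + 1) ≤ 2 * M := by
    have h2 : log (((M * M : ℕ) : ℝ) + 1) ≤ log (((M : ℝ) + 1) ^ 2) := by
      apply log_le_log (by positivity)
      push_cast
      nlinarith
    have h3 : log ((M : ℝ) + 1) ≤ M := by
      have := log_le_sub_one_of_pos (show (0 : ℝ) < M + 1 by positivity)
      linarith
    rw [log_pow] at h2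
    push_cast at h2 ⊢
    linarith
  rw [div_lt_iff₀ hδ] at hM
  have h4 : log (((M * M : ℕ) : ℝ) + 1) * (1 + Dbar) ≤ 2 * M * (1 + Dbar) :=
    mul_le_mul_of_nonneg_right h1 (by positivity)
  have h5 : (M : ℝ) * (2 * (1 + Dbar)) ≤ M * (M * δ) := mul_le_mul_of_nonneg_left hM.le hM0.le
  push_cast at h4 ⊢
  nlinarith

lemma exK (A δ : ℝ) (N : ℕ) (hN : 1 ≤ N) (hA : 0 ≤ A) (hδ : 0 < δ) :
    ∃ K : ℕ, 0 < K ∧ A * √((N : ℝ) / K) ≤ δ := by
  obtain ⟨M, hM⟩ := exists_nat_gt (A / δ)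
  have hM0 : (0 : ℝ) < M := lt_of_le_of_lt (by positivity) hM
  have hM1 : 0 < M := by exact_mod_cast hM0
  have hN0 : (0 : ℝ) < N := by exact_mod_cast hN
  refine ⟨N * (M * M), by positivity, ?_⟩
  have h1 : (N : ℝ) / ((N * (M * M) : ℕ) : ℝ) = (1 / M) ^ 2 := by
    push_cast
    field_simp
  rw [h1, sqrt_sq (by positivity)]
  rw [div_lt_iff₀ hδ] at hM
  rw [mul_one_div, div_le_iff₀ hM0]
  linarith

lemma exR (A t δ : ℝ) (hA : 0 ≤ A) (ht : 0 < t) (hδ : 0 < δ) :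
    ∃ R : ℕ, 0 < R ∧ A / (R * t) ≤ δ := by
  obtain ⟨M, hM⟩ := exists_nat_gt (A / (t * δ))
  have hM0 : (0 : ℝ) < M := lt_of_le_of_lt (by positivity) hM
  refine ⟨M, by exact_mod_cast hM0, ?_⟩
  rw [div_lt_iff₀ (by positivity)] at hM
  rw [div_le_iff₀ (by positivity)]
  nlinarith

lemma exSmall (A δ : ℝ) (hA : 0 ≤ A) (hδ : 0 < δ) : ∃ η : ℝ, 0 < η ∧ A * η ≤ δ := by
  refine ⟨δ / (A + 1), by positivity, ?_⟩
  rw [← mul_div_assoc, div_le_iff₀ (by positivity)]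
  nlinarith

lemma deg_le {m : ℕ} (H : SimpleGraph (Fin m)) (o : Fin m) : deg H o ≤ m := by
  unfold deg
  simpa using Finset.card_le_univ (nbr H o)

open Classical in
lemma cardD {n : ℕ} (hn : 0 < n) (G : SimpleGraph (Fin n)) (Dbar η0 η1 η : ℝ) (Δ r : ℕ)
    (s : Finset RG) (p : RG → ℝ) (hF : Fam r s) (hp : 1 - η0 ≤ ∑ i ∈ s, p i)
    (hT : Typ G Dbar η1 Δ r s p η) :
    ((univ.filter fun v => (∀ i ∈ s, ¬ BallIso G v r i.2.1 i.2.2) ∨ Δ < deg G v).card : ℝ) ≤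
      (η0 + s.card * η + η1) * n := by
  have hn0 : (0 : ℝ) < n := by exact_mod_cast hn
  obtain ⟨_, h2, h3⟩ := hT
  have hpt : ∀ v : Fin n,
      (if (∀ i ∈ s, ¬ BallIso G v r i.2.1 i.2.2) ∨ Δ < deg G v then (1 : ℝ) else 0) +
        ∑ i ∈ s, (if BallIso G v r i.2.1 i.2.2 then (1 : ℝ) else 0) ≤
        1 + if Δ < deg G v then (deg G v : ℝ) else 0 := by
    intro v
    have hs : ∑ i ∈ s, (if BallIso G v r i.2.1 i.2.2 then (1 : ℝ) else 0) ≤ 1 := by
      rw [Finset.sum_boole]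
      have : (s.filter fun i => BallIso G v r i.2.1 i.2.2).card ≤ 1 := by
        rw [Finset.card_le_one]
        intro a ha b hb
        rw [Finset.mem_filter] at ha hb
        exact hF.2 n G v a ha.1 b hb.1 ha.2 hb.2
      exact_mod_cast this
    by_cases hd : Δ < deg G v
    · have : (1 : ℝ) ≤ deg G v := by
        have : 1 ≤ deg G v := by omega
        exact_mod_cast this
      rw [if_pos (Or.inr hd), if_pos hd]
      linarith
    · rw [if_neg hd]
      by_cases ha : ∀ i ∈ s, ¬ BallIso G v r i.2.1 i.2.2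
      · rw [if_pos (Or.inl ha), Finset.sum_eq_zero fun i hi => if_neg (ha i hi)]
      · rw [if_neg (by tauto)]
        linarith
  have hsum := Finset.sum_le_sum fun v (_ : v ∈ (univ : Finset (Fin n))) => hpt v
  rw [Finset.sum_add_distrib, Finset.sum_add_distrib, Finset.sum_comm, Finset.sum_boole] at hsum
  have h4 : ∀ i ∈ s, (p i - η) * n ≤
      ∑ v : Fin n, (if BallIso G v r i.2.1 i.2.2 then (1 : ℝ) else 0) := by
    intro i hi
    have h5 := (abs_le.mp (h3 i hi)).1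
    rw [Finset.sum_boole]
    unfold frac at h5
    have h6 : p i - η ≤
        ((univ.filter fun v => BallIso G v r i.2.1 i.2.2).card : ℝ) / n := by linarith
    rwa [le_div_iff₀ hn0] at h6
  have h7 := Finset.sum_le_sum h4
  rw [← Finset.sum_mul, Finset.sum_sub_distrib, Finset.sum_const, nsmul_eq_mul] at h7
  simp only [Finset.sum_const, Finset.card_univ, Fintype.card_fin, nsmul_eq_mul, mul_one] at hsum
  have h8 : (1 - η0 - s.card * η) * n ≤ (∑ i ∈ s, p i - s.card * η) * n :=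
    mul_le_mul_of_nonneg_right (by linarith) hn0.le
  nlinarith

lemma adm_ind (a : ℕ) : Adm fun i => if i < a then (1 : ℝ) else 0 := by
  refine ⟨fun i j hij => ?_, fun i => ?_⟩
  · dsimp only
    split_ifs with h1 h2 h2
    · exact le_rfl
    · omega
    · exact zero_le_one
    · exact le_rfl
  · dsimp only
    split_ifs <;> simp

end Cmp

open Cmp in
theorem thm_cmp (h1 : S_upper) (h2 : S_rep) (h3 : S_lower) (h4 : S_gam) (h5 : S_ext)
    (h6 : S_round) (h7 : S_avg) (h8 : S_loc) (h9 : S_conv) (h10 : S_deg) (h11 : S_good)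
    (h12 : S_wl) (h13 : S_trans) : S_cmp := by
  classical
  intro β k h ε Dbar hβ hε hD
  have hδ : 0 < ε / 10 := by positivity
  have hJ : 0 ≤ 4 * β := by positivity
  have hγ : 0 ≤ exp (4 * β) - 1 := by
    have := add_one_le_exp (4 * β)
    linarith
  obtain ⟨N, hN1, hN⟩ := exN Dbar (ε / 10) hD hδ
  have hN0 : (1 : ℝ) ≤ N := by exact_mod_cast hN1
  obtain ⟨C, hC, hloc⟩ := h8 (exp (4 * β) - 1) (2 * (k - β)) (2 * h) (N * (β / 2 - k)) (-(N * h))
    N hγ
  obtain ⟨η1, hη1, hη1'⟩ := exSmall (2 * C + 1) (ε / 10) (by positivity) hδ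
  refine ⟨η1, hη1, fun Δ => ?_⟩
  have ht0 : 0 < min 1 (ε / 10) := lt_min one_pos hδ
  obtain ⟨R, hR0, hR⟩ := exR (Δ * (1 + exp (|2 * (k - β)| * Δ + |2 * h| + 1 + 4 * β * Δ)) ^ 2)
    (min 1 (ε / 10)) (ε / 10) (by positivity) ht0 hδ
  have hΓ : 0 ≤ ∑ i ∈ range N, ∑ i' ∈ range N, Gam N (exp (4 * β) - 1) i i' :=
    Finset.sum_nonneg fun i _ => Finset.sum_nonneg fun i' _ => (h4 N _ i i' hγ).1
  obtain ⟨K, hK0, hK⟩ := exK ((∑ i ∈ range N, ∑ i' ∈ range N, Gam N (exp (4 * β) - 1) i i') * Dbar)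
    (ε / 10) N hN1 (by positivity) hδ
  obtain ⟨η0, hη0, hη0'⟩ := exSmall (2 * C * (1 + Δ) + 1) (ε / 10) (by positivity) hδ
  refine ⟨R + K + 1, η0, by omega, hη0, fun s hF => ?_⟩
  have hS : 0 ≤ ∑ i ∈ s, C * (1 + (i.1 : ℝ)) := Finset.sum_nonneg fun i _ => by positivity
  obtain ⟨η, hη, hη'⟩ := exSmall (2 * ∑ i ∈ s, C * (1 + (i.1 : ℝ)) +
    (2 * C * (1 + Δ) + 1) * s.card) (ε / 10) (by positivity) hδ
  refine ⟨η, hη, fun p hp n n' G G' hn hn' hT hT' => ?_⟩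
  have hn0 : (0 : ℝ) < n := by exact_mod_cast hn
  have hn0' : (0 : ℝ) < n' := by exact_mod_cast hn'
  have hcard := cardD hn' G' Dbar η0 η1 η Δ (R + K + 1) s p hF hp hT'
  obtain ⟨μ, hμ0, hμ1, hμ⟩ := h1 n' (edges G') (4 * β) (fun v => 2 * (k - β) * deg G' v + 2 * h)
    (univ.filter fun v => (∀ i ∈ s, ¬ BallIso G' v (R + K + 1) i.2.1 i.2.2) ∨ Δ < deg G' v)
    Δ R (|2 * (k - β)| * Δ + |2 * h|) (min 1 (ε / 10)) hJ hR0 ht0 (min_le_left _ _) (by
      intro v hv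
      simp only [Finset.mem_filter, Finset.mem_univ, true_and, not_or, not_forall, not_not,
        not_lt] at hv
      obtain ⟨⟨i, hi, hb⟩, hd⟩ := hv
      refine ⟨?_, ?_, h11 n' G' v _ R _ _ _ hb (hF.1 i hi) (by omega)⟩
      · have hd' : (deg G' v : ℝ) ≤ Δ := by exact_mod_cast hd
        refine (abs_add_le _ _).trans ?_
        rw [abs_mul (2 * (k - β)), Nat.abs_cast]
        have := mul_le_mul_of_nonneg_left hd' (abs_nonneg (2 * (k - β)))
        linarith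
      · rw [(h10 n' G').1 v]
        exact hd)
  obtain ⟨a, ha, hrep⟩ := h2 n' (edges G') (4 * β) (fun v => 2 * (k - β) * deg G' v + 2 * h) N μ
    hJ hμ0 hμ1
  rw [h5 n' _ _ _ N a ha] at hrep
  obtain ⟨j, _, hjK, Q, hQ, havg⟩ := h7 n' G' (exp (4 * β) - 1) (2 * (k - β)) (2 * h) N K
    (fun v i => if i < a v then 1 else 0) hγ hK0 fun v => adm_ind (a v)
  obtain ⟨Λ, hΛ⟩ := hloc Q hQ
  have htr := h13 C Dbar η0 η1 η Δ (R + K + 1) s p (fun i => Λ (wl i.2.1 (j + 1) i.2.2)) n n' G G'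
    (fun v => Λ (wl G (j + 1) v)) (fun v => Λ (wl G' (j + 1) v)) hn hn' hC.le hF hp hT hT'
    (hΛ n G j).1 (hΛ n' G' j).1
    (fun i _ v hb => by rw [h12 n G v _ (j + 1) _ _ _ hb (by omega)])
    (fun i _ v hb => by rw [h12 n' G' v _ (j + 1) _ _ _ hb (by omega)])
  have hlm : ∑ i ∈ s, |Λ (wl i.2.1 (j + 1) i.2.2)| ≤ ∑ i ∈ s, C * (1 + (i.1 : ℝ)) := by
    refine Finset.sum_le_sum fun i _ => ((hΛ i.1 i.2.1 j).1 i.2.2).trans ?_
    have : (deg i.2.1 i.2.2 : ℝ) ≤ i.1 := by exact_mod_cast deg_le i.2.1 i.2.2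
    exact mul_le_mul_of_nonneg_left (by linarith) hC.le
  obtain ⟨a', ha', hrd⟩ := h6 n (edges G) (exp (4 * β) - 1)
    (fun v => 2 * (k - β) * deg G v + 2 * h) N (fun v => Q (wl G j v)) fun v => hQ _
  have hlow := h3 n (edges G) (4 * β) (fun v => 2 * (k - β) * deg G v + 2 * h) N a' hJ ha'
  have hlin : ∀ (m : ℕ) (H : SimpleGraph (Fin m)),
      ∑ v, ((N : ℝ) * (β / 2 - k) * deg H v + -(N * h)) =
        N * ∑ v, ((β / 2 - k) * deg H v + -h) := by
    intro m H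
    rw [Finset.mul_sum]
    exact Finset.sum_congr rfl fun v _ => by ring
  have hG := (hΛ n G j).2
  have hG' := (hΛ n' G' j).2
  rw [hlin] at hG hG'
  have hc := h9 n G β k h
  have hc' := h9 n' G' β k h
  -- lower bound on `G`
  have e1 : ∑ v, Λ (wl G (j + 1) v) ≤ N * log (Zext G β k h) := by
    rw [hc, mul_add]
    linarith
  -- upper bound on `G'`
  have hE : 2 * ((edges G').card : ℝ) ≤ Dbar * n' := by
    have h := (h10 n' G').2
    have h' : 2 * ((edges G').card : ℝ) = ∑ v, (deg G' v : ℝ) := by exact_mod_cast h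
    rw [h']
    exact hT'.1
  have hlog0 : 0 ≤ log ((N : ℝ) + 1) := log_nonneg (by linarith)
  have f1 : log ((N : ℝ) + 1) * (n' + 2 * (edges G').card) ≤ N * (ε / 10) * n' := by
    have a1 : log ((N : ℝ) + 1) * (n' + 2 * (edges G').card) ≤
        log ((N : ℝ) + 1) * (n' + Dbar * n') := mul_le_mul_of_nonneg_left (by linarith) hlog0
    have a2 := mul_le_mul_of_nonneg_right hN hn0'.le
    linarith
  have f2 : (∑ i ∈ range N, ∑ i' ∈ range N, Gam N (exp (4 * β) - 1) i i') *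
      (∑ v, (deg G' v : ℝ)) * √((N : ℝ) / K) ≤ ε / 10 * n' := by
    have a1 : (∑ i ∈ range N, ∑ i' ∈ range N, Gam N (exp (4 * β) - 1) i i') *
        (∑ v, (deg G' v : ℝ)) * √((N : ℝ) / K) ≤
        (∑ i ∈ range N, ∑ i' ∈ range N, Gam N (exp (4 * β) - 1) i i') *
        (Dbar * n') * √((N : ℝ) / K) :=
      mul_le_mul_of_nonneg_right (mul_le_mul_of_nonneg_left hT'.1 hΓ) (sqrt_nonneg _)
    have a2 := mul_le_mul_of_nonneg_right hK hn0'.le
    linarith
  have hl2 : log 2 ≤ 1 := by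
    have := log_le_sub_one_of_pos (show (0 : ℝ) < 2 by norm_num)
    linarith
  have f3 : ((univ.filter fun v => (∀ i ∈ s, ¬ BallIso G' v (R + K + 1) i.2.1 i.2.2) ∨
      Δ < deg G' v).card : ℝ) * log 2 ≤ (η0 + s.card * η + η1) * n' := by
    refine le_trans ?_ hcard
    exact mul_le_of_le_one_right (Nat.cast_nonneg _) hl2
  have f4 : min 1 (ε / 10) * n' ≤ ε / 10 * n' :=
    mul_le_mul_of_nonneg_right (min_le_right _ _) hn0'.le
  have f5 := mul_le_mul_of_nonneg_right hR hn0'.le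
  have g1 : log (Z0 (edges G') (4 * β) fun v => 2 * (k - β) * deg G' v + 2 * h) ≤
      Bethe (edges G') (4 * β) (fun v => 2 * (k - β) * deg G' v + 2 * h) μ +
        (η0 + s.card * η + η1 + 2 * (ε / 10)) * n' := by
    linarith
  have g2 := mul_le_mul_of_nonneg_left g1 (show (0 : ℝ) ≤ N by linarith)
  have e2 : N * log (Zext G' β k h) ≤ ∑ v, Λ (wl G' (j + 1) v) +
      (N * (η0 + s.card * η + η1 + 3 * (ε / 10)) + ε / 10) * n' := by
    rw [hc', mul_add]
    linarith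
  have e3 : N * (log (Zext G' β k h) / n') ≤ (∑ v, Λ (wl G' (j + 1) v)) / n' +
      (N * (η0 + s.card * η + η1 + 3 * (ε / 10)) + ε / 10) := by
    rw [← mul_div_assoc, div_le_iff₀ hn0', add_mul, div_mul_cancel₀ _ hn0'.ne']
    exact e2
  have e4 : (∑ v, Λ (wl G (j + 1) v)) / n ≤ N * (log (Zext G β k h) / n) := by
    rw [← mul_div_assoc]
    exact div_le_div_of_nonneg_right e1 hn0.le
  have hlm' := mul_le_mul_of_nonneg_left hlm (show 0 ≤ 2 * η by positivity)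
  -- the error terms that are not multiplied by `N`
  have hB0 : 0 ≤ ε / 10 + 2 * η * ∑ i ∈ s, C * (1 + (i.1 : ℝ)) +
      2 * C * ((1 + Δ) * (η0 + s.card * η) + η1) := by positivity
  have hB := le_mul_of_one_le_left hB0 hN0
  have hsumerr : (η0 + s.card * η + η1 + 3 * (ε / 10)) + (ε / 10 +
      2 * η * ∑ i ∈ s, C * (1 + (i.1 : ℝ)) +
      2 * C * ((1 + Δ) * (η0 + s.card * η) + η1)) ≤ ε := by
    linarith
  have hfin := mul_le_mul_of_nonneg_left hsumerr (show (0 : ℝ) ≤ N by linarith)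
  have e5 : N * (log (Zext G' β k h) / n') ≤ N * (log (Zext G β k h) / n + ε) := by
    linarith
  exact le_of_mul_le_mul_left e5 (by linarith)

end Pool.Agent.H181Z.Is
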