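import Mathlib
import Pool.Agent.H181Z.IsSt

/-!
# Entropy inequalities for mixtures
-/

set_option autoImplicit false

namespace Pool.Agent.H181Z.Is.Upper

open Finset Real

lemma gibbs1 {x σ q : ℝ} (hx : 0 ≤ x) (hσ : x ≤ σ) (hq : 0 ≤ q) (h : 0 < x → 0 < q) :
    negMulLog x + x * log σ + x * log q ≤ σ * q - x := by
  rcases hx.eq_or_lt with rfl | hx
  · simpa using mul_nonneg hσ hq
  · have hq' := h hx
    have hσ' : 0 < σ := hx.trans_le hσ
    have h1 := log_le_sub_one_of_pos (show 0 < σ * q / x by positivity)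
    rw [log_div (by positivity) hx.ne', log_mul hσ'.ne' hq'.ne'] at h1
    have h2 := mul_le_mul_of_nonneg_left h1 hx.le
    have h3 : x * (σ * q / x - 1) = σ * q - x := by field_simp
    rw [negMulLog]
    linarith

/-- conditional entropy of a pair of masses -/
noncomputable def psi (a b : ℝ) : ℝ := negMulLog a + negMulLog b - negMulLog (a + b)

lemma psi_le {a b q q' : ℝ} (ha : 0 ≤ a) (hb : 0 ≤ b) (hq : 0 ≤ q) (hq' : 0 ≤ q')
    (h1 : q + q' ≤ 1) (h : 0 < a → 0 < q) (h' : 0 < b → 0 < q') :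
    psi a b ≤ -(a * log q) - b * log q' := by
  have e1 := gibbs1 ha (show a ≤ a + b by linarith) hq h
  have e2 := gibbs1 hb (show b ≤ a + b by linarith) hq' h'
  have e3 : (a + b) * (q + q') ≤ a + b := mul_le_of_le_one_right (by linarith) h1
  simp only [psi, negMulLog] at *
  nlinarith

lemma psi_eq {a b : ℝ} (ha : 0 ≤ a) (hb : 0 ≤ b) :
    psi a b = -(a * log (a / (a + b))) - b * log (b / (a + b)) := by
  have key : ∀ x s : ℝ, 0 ≤ x → x ≤ s → x * log (x / s) = x * log x - x * log s := by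
    intro x s hx hs
    rcases hx.eq_or_lt with rfl | hx
    · simp
    · rw [log_div hx.ne' (hx.trans_le hs).ne']
      ring
  rw [key a _ ha (by linarith), key b _ hb (by linarith), psi, negMulLog, negMulLog, negMulLog]
  ring

lemma psi_mix {p a1 b1 a0 b0 : ℝ} (hp0 : 0 < p) (hp1 : p < 1) (ha1 : 0 ≤ a1) (hb1 : 0 ≤ b1)
    (ha0 : 0 ≤ a0) (hb0 : 0 ≤ b0) :
    p * psi a1 b1 + (1 - p) * psi a0 b0 ≤ psi (p * a1 + (1 - p) * a0) (p * b1 + (1 - p) * b0) := by
  have hp1' : 0 < 1 - p := by linarith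
  set a := p * a1 + (1 - p) * a0 with ha
  set b := p * b1 + (1 - p) * b0 with hb
  have ha' : 0 ≤ a := by positivity
  have hb' : 0 ≤ b := by positivity
  have hq : a / (a + b) + b / (a + b) ≤ 1 := by
    rw [← add_div]
    exact div_self_le_one _
  have e1 := psi_le ha1 hb1 (div_nonneg ha' (by positivity)) (div_nonneg hb' (by positivity)) hq
    (fun h => by have : 0 < a := by positivity
                 positivity)
    (fun h => by have : 0 < b := by positivity
                 positivity)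
  have e0 := psi_le ha0 hb0 (div_nonneg ha' (by positivity)) (div_nonneg hb' (by positivity)) hq
    (fun h => by have : 0 < a := by positivity
                 positivity)
    (fun h => by have : 0 < b := by positivity
                 positivity)
  rw [psi_eq ha' hb']
  have e2 := mul_le_mul_of_nonneg_left e1 hp0.le
  have e3 := mul_le_mul_of_nonneg_left e0 hp1'.le
  have e4 : -(a * log (a / (a + b))) - b * log (b / (a + b)) =
      p * (-(a1 * log (a / (a + b))) - b1 * log (b / (a + b))) +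
        (1 - p) * (-(a0 * log (a / (a + b))) - b0 * log (b / (a + b))) := by
    generalize log (a / (a + b)) = u
    generalize log (b / (a + b)) = v
    rw [ha, hb]
    ring
  linarith

/-- binary entropy -/
noncomputable def hb (m : ℝ) : ℝ := negMulLog m + negMulLog (1 - m)

lemma hb_eq_psi (m : ℝ) : hb m = psi m (1 - m) := by simp [hb, psi]

lemma hb_mix {p m1 m0 : ℝ} (hp0 : 0 < p) (hp1 : p < 1) (h1 : 0 ≤ m1) (h1' : m1 ≤ 1)
    (h0 : 0 ≤ m0) (h0' : m0 ≤ 1) :
    p * hb m1 + (1 - p) * hb m0 ≤ hb (p * m1 + (1 - p) * m0) := by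
  have := psi_mix hp0 hp1 h1 (sub_nonneg.2 h1') h0 (sub_nonneg.2 h0')
  rw [hb_eq_psi, hb_eq_psi, hb_eq_psi]
  convert this using 2
  ring

lemma kl1 {a m : ℝ} (ha : 0 ≤ a) (hm : 0 < m) :
    -negMulLog a - a * log m ≤ a ^ 2 / m - a := by
  rcases ha.eq_or_lt with rfl | ha
  · simp
  · have h1 := log_le_sub_one_of_pos (show 0 < a / m by positivity)
    rw [log_div ha.ne' hm.ne'] at h1
    have h2 := mul_le_mul_of_nonneg_left h1 ha.le
    have h3 : a * (a / m - 1) = a ^ 2 / m - a := by ring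
    rw [negMulLog]
    linarith

lemma hb_chi {p m1 m0 : ℝ} (hp0 : 0 < p) (hp1 : p < 1) (h1 : 0 ≤ m1) (h1' : m1 ≤ 1)
    (h0 : 0 ≤ m0) (h0' : m0 ≤ 1) (hm : 0 < p * m1 + (1 - p) * m0)
    (hm' : p * m1 + (1 - p) * m0 < 1) :
    hb (p * m1 + (1 - p) * m0) - p * hb m1 - (1 - p) * hb m0 ≤ p * (1 - p) * (m1 - m0) ^ 2 /
      ((p * m1 + (1 - p) * m0) * (1 - (p * m1 + (1 - p) * m0))) := by
  have hp1' : 0 < 1 - p := by linarith
  set m := p * m1 + (1 - p) * m0 with hmd
  have hm'' : 0 < 1 - m := by linarith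
  have e1 := mul_le_mul_of_nonneg_left (kl1 h1 hm) hp0.le
  have e2 := mul_le_mul_of_nonneg_left (kl1 h0 hm) hp1'.le
  have e3 := mul_le_mul_of_nonneg_left (kl1 (sub_nonneg.2 h1') hm'') hp0.le
  have e4 := mul_le_mul_of_nonneg_left (kl1 (sub_nonneg.2 h0') hm'') hp1'.le
  have e5 : p * (m1 ^ 2 / m - m1) + (1 - p) * (m0 ^ 2 / m - m0) +
      p * ((1 - m1) ^ 2 / (1 - m) - (1 - m1)) + (1 - p) * ((1 - m0) ^ 2 / (1 - m) - (1 - m0)) =
      p * (1 - p) * (m1 - m0) ^ 2 / (m * (1 - m)) := by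
    field_simp
    rw [hmd]
    ring
  have e6 : negMulLog m = -(p * (m1 * log m)) - (1 - p) * (m0 * log m) := by
    rw [negMulLog]
    generalize log m = u
    rw [hmd]
    ring
  have e7 : negMulLog (1 - m) =
      -(p * ((1 - m1) * log (1 - m))) - (1 - p) * ((1 - m0) * log (1 - m)) := by
    rw [negMulLog]
    generalize log (1 - m) = u
    rw [hmd]
    ring
  simp only [hb]
  rw [e6, e7]
  linarith

variable {n : ℕ}

/-- mean occupation -/
def mean (μ : (Fin n → Bool) → ℝ) (v : Fin n) : ℝ := ∑ x, μ x * X x v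

lemma X_nonneg (x : Fin n → Bool) (v : Fin n) : 0 ≤ X x v := by
  unfold X
  split_ifs <;> norm_num

lemma X_le_one (x : Fin n → Bool) (v : Fin n) : X x v ≤ 1 := by
  unfold X
  split_ifs <;> norm_num

lemma mean_nonneg {μ : (Fin n → Bool) → ℝ} (h : ∀ x, 0 ≤ μ x) (v : Fin n) : 0 ≤ mean μ v :=
  sum_nonneg fun x _ => mul_nonneg (h x) (X_nonneg x v)

lemma mean_le_one {μ : (Fin n → Bool) → ℝ} (h : ∀ x, 0 ≤ μ x) (h1 : ∑ x, μ x = 1) (v : Fin n) :
    mean μ v ≤ 1 := by
  rw [← h1]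
  exact sum_le_sum fun x _ => mul_le_of_le_one_right (h x) (X_le_one x v)

lemma Hv_eq {μ : (Fin n → Bool) → ℝ} (h1 : ∑ x, μ x = 1) (v : Fin n) :
    Hv μ v = hb (mean μ v) := by
  have e1 : marg μ (fun x => x v) true = mean μ v :=
    sum_congr rfl fun x _ => by unfold X; split_ifs <;> simp
  have e2 : marg μ (fun x => x v) false = 1 - mean μ v := by
    rw [← h1, mean, ← sum_sub_distrib]
    exact sum_congr rfl fun x _ => by unfold X; cases h : x v <;> simp [h]
  rw [Hv, Fintype.sum_bool, e1, e2, hb]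

lemma marg_nonneg {Y : Type} [DecidableEq Y] {μ : (Fin n → Bool) → ℝ} (h : ∀ x, 0 ≤ μ x)
    (c : (Fin n → Bool) → Y) (y : Y) : 0 ≤ marg μ c y :=
  sum_nonneg fun x _ => by split_ifs; exacts [h x, le_rfl]

lemma marg_mix {Y : Type} [DecidableEq Y] (μ1 μ0 : (Fin n → Bool) → ℝ) (p : ℝ)
    (c : (Fin n → Bool) → Y) (y : Y) :
    marg (fun x => p * μ1 x + (1 - p) * μ0 x) c y = p * marg μ1 c y + (1 - p) * marg μ0 c y := by
  simp only [marg, mul_sum, ← sum_add_distrib]
  exact sum_congr rfl fun x _ => by split_ifs <;> simp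

lemma He_sub_fst (μ : (Fin n → Bool) → ℝ) (e : Fin n × Fin n) :
    He μ e - Hv μ e.1 = ∑ y : Bool, psi (marg μ (fun x => (x e.1, x e.2)) (y, true))
      (marg μ (fun x => (x e.1, x e.2)) (y, false)) := by
  have key : ∀ y : Bool, marg μ (fun x => x e.1) y = marg μ (fun x => (x e.1, x e.2)) (y, true) +
      marg μ (fun x => (x e.1, x e.2)) (y, false) := fun y => by
    simp only [marg, ← sum_add_distrib]
    exact sum_congr rfl fun x _ => by
      rcases Bool.eq_false_or_eq_true (x e.1) with h1 | h1 <;>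
        rcases Bool.eq_false_or_eq_true (x e.2) with h2 | h2 <;> cases y <;> simp [h1, h2]
  simp only [He, Hv, key, psi, Fintype.sum_prod_type, Fintype.sum_bool]
  ring

lemma He_sub_snd (μ : (Fin n → Bool) → ℝ) (e : Fin n × Fin n) :
    He μ e - Hv μ e.2 = ∑ y : Bool, psi (marg μ (fun x => (x e.1, x e.2)) (true, y))
      (marg μ (fun x => (x e.1, x e.2)) (false, y)) := by
  have key : ∀ y : Bool, marg μ (fun x => x e.2) y = marg μ (fun x => (x e.1, x e.2)) (true, y) +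
      marg μ (fun x => (x e.1, x e.2)) (false, y) := fun y => by
    simp only [marg, ← sum_add_distrib]
    exact sum_congr rfl fun x _ => by
      rcases Bool.eq_false_or_eq_true (x e.1) with h1 | h1 <;>
        rcases Bool.eq_false_or_eq_true (x e.2) with h2 | h2 <;> cases y <;> simp [h1, h2]
  simp only [He, Hv, key, psi, Fintype.sum_prod_type, Fintype.sum_bool]
  ring

lemma He_mix {μ1 μ0 : (Fin n → Bool) → ℝ} (h1 : ∀ x, 0 ≤ μ1 x) (h0 : ∀ x, 0 ≤ μ0 x) {p : ℝ}
    (hp0 : 0 < p) (hp1 : p < 1) (e : Fin n × Fin n) (u : Fin n) (hu : u = e.1 ∨ u = e.2) :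
    p * (He μ1 e - Hv μ1 u) + (1 - p) * (He μ0 e - Hv μ0 u) ≤
      He (fun x => p * μ1 x + (1 - p) * μ0 x) e - Hv (fun x => p * μ1 x + (1 - p) * μ0 x) u := by
  rcases hu with rfl | rfl
  · simp only [He_sub_fst, marg_mix, mul_sum, ← sum_add_distrib]
    exact sum_le_sum fun y _ => psi_mix hp0 hp1 (marg_nonneg h1 _ _) (marg_nonneg h1 _ _)
      (marg_nonneg h0 _ _) (marg_nonneg h0 _ _)
  · simp only [He_sub_snd, marg_mix, mul_sum, ← sum_add_distrib]
    exact sum_le_sum fun y _ => psi_mix hp0 hp1 (marg_nonneg h1 _ _) (marg_nonneg h1 _ _)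
      (marg_nonneg h0 _ _) (marg_nonneg h0 _ _)

/-- the Bethe entropy -/
noncomputable def HB (E : Finset (Fin n × Fin n)) (μ : (Fin n → Bool) → ℝ) : ℝ :=
  ∑ v, Hv μ v + ∑ e ∈ E, (He μ e - Hv μ e.1 - Hv μ e.2)

/-- one pinning step for the Bethe entropy -/
lemma HB_mix (E : Finset (Fin n × Fin n)) {μ1 μ0 : (Fin n → Bool) → ℝ} (h1 : ∀ x, 0 ≤ μ1 x)
    (h0 : ∀ x, 0 ≤ μ0 x) {p : ℝ} (hp0 : 0 < p) (hp1 : p < 1) (ch : Fin n × Fin n → Fin n)
    (hch : ∀ e ∈ E, ch e = e.1 ∨ ch e = e.2) :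
    p * HB E μ1 + (1 - p) * HB E μ0 + ∑ v, (1 - ((E.filter fun e => ch e = v).card : ℝ)) *
      (Hv (fun x => p * μ1 x + (1 - p) * μ0 x) v - p * Hv μ1 v - (1 - p) * Hv μ0 v) ≤
      HB E fun x => p * μ1 x + (1 - p) * μ0 x := by
  set μ := fun x => p * μ1 x + (1 - p) * μ0 x with hμ
  set I := fun v => Hv μ v - p * Hv μ1 v - (1 - p) * Hv μ0 v with hI
  have e1 : ∑ v, ((E.filter fun e => ch e = v).card : ℝ) * I v = ∑ e ∈ E, I (ch e) := by
    rw [← sum_fiberwise E ch]
    refine sum_congr rfl fun v _ => ?_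
    rw [sum_congr rfl fun e he => congrArg I (mem_filter.1 he).2, sum_const, nsmul_eq_mul]
  have e2 : ∀ e ∈ E, p * (He μ1 e - Hv μ1 e.1 - Hv μ1 e.2) +
      (1 - p) * (He μ0 e - Hv μ0 e.1 - Hv μ0 e.2) - I (ch e) ≤
      He μ e - Hv μ e.1 - Hv μ e.2 := fun e he => by
    rcases hch e he with h | h
    · have := He_mix h1 h0 hp0 hp1 e e.2 (Or.inr rfl)
      rw [h]
      simp only [hI]
      linarith
    · have := He_mix h1 h0 hp0 hp1 e e.1 (Or.inl rfl)
      rw [h]
      simp only [hI]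
      linarith
  have e3 := sum_le_sum e2
  have e4 : ∑ v, I v = ∑ v, Hv μ v - p * ∑ v, Hv μ1 v - (1 - p) * ∑ v, Hv μ0 v := by
    simp only [hI, sum_sub_distrib, mul_sum]
  have e5 : ∑ v, (1 - ((E.filter fun e => ch e = v).card : ℝ)) * I v =
      ∑ v, I v - ∑ e ∈ E, I (ch e) := by
    rw [← e1, ← sum_sub_distrib]
    exact sum_congr rfl fun v _ => by ring
  rw [sum_sub_distrib, sum_add_distrib, ← mul_sum, ← mul_sum] at e3
  change _ + _ + ∑ v, _ * I v ≤ _
  rw [e5, e4]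
  simp only [HB]
  linarith

end Pool.Agent.H181Z.Is.Upper
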