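import Mathlib
import Pool.Agent.H181Z.IsSt

/-!
# Total positivity of `W`, the extension `Fhat` of `Phi`, threshold rounding
-/

set_option autoImplicit false

namespace Pool.Agent.H181Z.Is

open Finset Real

namespace Ext

theorem W_symm (k : ℕ) (γ : ℝ) (a a' : ℕ) : W k γ a a' = W k γ a' a := by
  unfold W
  refine sum_congr rfl fun j _ => ?_
  ring

theorem one_le_W (k : ℕ) (γ : ℝ) (hγ : 0 ≤ γ) (a a' : ℕ) : 1 ≤ W k γ a a' := by
  unfold W
  rw [sum_range_succ']
  have : 0 ≤ ∑ j ∈ range k, γ ^ (j + 1) * (a.choose (j + 1) * a'.choose (j + 1)) /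
      (k.choose (j + 1) : ℝ) := sum_nonneg fun j _ => by positivity
  simp only [pow_zero, Nat.choose_zero_right, Nat.cast_one, mul_one, div_one]
  linarith

theorem W_zero (k : ℕ) (γ : ℝ) (a : ℕ) : W k γ a 0 = 1 := by
  unfold W
  rw [sum_range_succ']
  simp

theorem choose_le (i j l : ℕ) (h : l ≤ j) :
    i.choose j * (i + 1).choose l ≤ (i + 1).choose j * i.choose l := by
  have h1 := Nat.choose_mul_succ_eq i j
  have h2 := Nat.choose_mul_succ_eq i l
  refine Nat.le_of_mul_le_mul_right (c := i + 1) ?_ (Nat.succ_pos i)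
  calc i.choose j * (i + 1).choose l * (i + 1)
      = (i.choose j * (i + 1)) * (i + 1).choose l := by ring
    _ = (i + 1).choose j * (i + 1).choose l * (i + 1 - j) := by rw [h1]; ring
    _ ≤ (i + 1).choose j * (i + 1).choose l * (i + 1 - l) :=
        Nat.mul_le_mul_left _ (by omega)
    _ = (i + 1).choose j * ((i + 1).choose l * (i + 1 - l)) := by ring
    _ = (i + 1).choose j * i.choose l * (i + 1) := by rw [← h2]; ring

/-- the two by two minors -/
def M (i j l : ℕ) : ℝ :=
  ((i + 1).choose j : ℝ) * i.choose l - (i.choose j : ℝ) * (i + 1).choose l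

theorem M_nonneg (i j l : ℕ) (h : l ≤ j) : 0 ≤ M i j l := by
  have : ((i.choose j * (i + 1).choose l : ℕ) : ℝ) ≤ ((i + 1).choose j * i.choose l : ℕ) := by
    exact_mod_cast choose_le i j l h
  push_cast at this
  unfold M
  linarith

theorem M_nonpos (i j l : ℕ) (h : j ≤ l) : M i j l ≤ 0 := by
  have := M_nonneg i l j h
  unfold M at this ⊢
  linarith

theorem cb (s : Finset ℕ) (w A B A' B' : ℕ → ℝ) :
    2 * ((∑ j ∈ s, w j * (A j * A' j)) * (∑ j ∈ s, w j * (B j * B' j)) -
      (∑ j ∈ s, w j * (A j * B' j)) * ∑ j ∈ s, w j * (B j * A' j)) =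
    ∑ j ∈ s, ∑ l ∈ s, w j * w l * ((A j * B l - B j * A l) * (A' j * B' l - B' j * A' l)) := by
  have h1 : (∑ j ∈ s, w j * (A j * A' j)) * (∑ j ∈ s, w j * (B j * B' j)) =
      ∑ j ∈ s, ∑ l ∈ s, w j * (A j * A' j) * (w l * (B l * B' l)) := sum_mul_sum _ _ _ _
  have h2 : (∑ j ∈ s, w j * (A j * A' j)) * (∑ j ∈ s, w j * (B j * B' j)) =
      ∑ j ∈ s, ∑ l ∈ s, w j * (B j * B' j) * (w l * (A l * A' l)) := by
    rw [mul_comm]; exact sum_mul_sum _ _ _ _
  have h3 : (∑ j ∈ s, w j * (A j * B' j)) * (∑ j ∈ s, w j * (B j * A' j)) =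
      ∑ j ∈ s, ∑ l ∈ s, w j * (A j * B' j) * (w l * (B l * A' l)) := sum_mul_sum _ _ _ _
  have h4 : (∑ j ∈ s, w j * (A j * B' j)) * (∑ j ∈ s, w j * (B j * A' j)) =
      ∑ j ∈ s, ∑ l ∈ s, w j * (B j * A' j) * (w l * (A l * B' l)) := by
    rw [mul_comm]; exact sum_mul_sum _ _ _ _
  have h5 : ∑ j ∈ s, ∑ l ∈ s, w j * w l * ((A j * B l - B j * A l) * (A' j * B' l - B' j * A' l)) =
      (∑ j ∈ s, ∑ l ∈ s, w j * (A j * A' j) * (w l * (B l * B' l))) +
      (∑ j ∈ s, ∑ l ∈ s, w j * (B j * B' j) * (w l * (A l * A' l))) -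
      (∑ j ∈ s, ∑ l ∈ s, w j * (A j * B' j) * (w l * (B l * A' l))) -
      ∑ j ∈ s, ∑ l ∈ s, w j * (B j * A' j) * (w l * (A l * B' l)) := by
    simp only [← sum_add_distrib, ← sum_sub_distrib]
    refine sum_congr rfl fun j _ => sum_congr rfl fun l _ => ?_
    ring
  rw [h5, ← h1, ← h3]
  linarith

theorem W_eq (k : ℕ) (γ : ℝ) (a a' : ℕ) : W k γ a a' =
    ∑ j ∈ range (k + 1), γ ^ j / k.choose j * ((a.choose j : ℝ) * a'.choose j) := by
  unfold W
  refine sum_congr rfl fun j _ => ?_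
  ring

theorem W_tp (k : ℕ) (γ : ℝ) (hγ : 0 ≤ γ) (i i' : ℕ) :
    W k γ (i + 1) i' * W k γ i (i' + 1) ≤ W k γ (i + 1) (i' + 1) * W k γ i i' := by
  have h := cb (range (k + 1)) (fun j => γ ^ j / k.choose j) (fun j => ((i + 1).choose j : ℝ))
    (fun j => (i.choose j : ℝ)) (fun j => ((i' + 1).choose j : ℝ)) (fun j => (i'.choose j : ℝ))
  have h0 : 0 ≤ ∑ j ∈ range (k + 1), ∑ l ∈ range (k + 1),
      γ ^ j / k.choose j * (γ ^ l / k.choose l) * (M i j l * M i' j l) := by
    refine sum_nonneg fun j _ => sum_nonneg fun l _ => mul_nonneg (by positivity) ?_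
    rcases le_total l j with hl | hl
    · exact mul_nonneg (M_nonneg i j l hl) (M_nonneg i' j l hl)
    · exact mul_nonneg_of_nonpos_of_nonpos (M_nonpos i j l hl) (M_nonpos i' j l hl)
  simp only [W_eq]
  unfold M at h0
  linarith

theorem sum_ind (k a : ℕ) (h : a ≤ k) (f : ℕ → ℝ) :
    ∑ i ∈ range k, f i * (if i < a then (1 : ℝ) else 0) = ∑ i ∈ range a, f i := by
  simp only [mul_ite, mul_one, mul_zero]
  rw [← sum_filter]
  congr 1
  ext i
  simp only [mem_filter, mem_range]
  omega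

theorem sum_gam (k : ℕ) (γ : ℝ) (a a' : ℕ) :
    ∑ i ∈ range a, ∑ i' ∈ range a', Gam k γ i i' = log (W k γ a a') := by
  have h1 : ∀ i, ∑ i' ∈ range a', Gam k γ i i' = log (W k γ (i + 1) a') - log (W k γ i a') := by
    intro i
    have := sum_range_sub (fun i' => log (W k γ (i + 1) i') - log (W k γ i i')) a'
    simp only [W_zero, log_one, sub_zero] at this
    rw [← this]
    refine sum_congr rfl fun i' _ => ?_
    unfold Gam
    ring
  simp only [h1]
  rw [sum_range_sub (fun i => log (W k γ i a')) a, W_symm k γ 0 a', W_zero, log_one, sub_zero]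

/-- threshold indicator -/
noncomputable def ind (x t : ℝ) : ℝ := if t < x then 1 else 0

theorem ind_min (x y t : ℝ) : min (ind x t) (ind y t) = ind (min x y) t := by
  unfold ind
  by_cases hx : t < x <;> by_cases hy : t < y <;> simp [hx, hy]

theorem ind_anti (x : ℝ) : Antitone (ind x) := by
  intro s t hst
  unfold ind
  by_cases ht : t < x
  · rw [if_pos ht, if_pos (lt_of_le_of_lt hst ht)]
  · rw [if_neg ht]
    split_ifs <;> norm_num

theorem ind_int (x : ℝ) : IntervalIntegrable (ind x) MeasureTheory.volume 0 1 :=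
  (ind_anti x).intervalIntegrable

theorem integral_ind (x : ℝ) (h0 : 0 ≤ x) (h1 : x ≤ 1) : ∫ t in (0 : ℝ)..1, ind x t = x := by
  have e : ind x = (Set.Iio x).indicator fun _ => (1 : ℝ) := by
    funext t
    simp [ind, Set.indicator]
  rw [intervalIntegral.integral_of_le zero_le_one, e,
    MeasureTheory.setIntegral_indicator measurableSet_Iio]
  have e2 : Set.Ioc (0 : ℝ) 1 ∩ Set.Iio x = Set.Ioo 0 x := by
    ext t
    simp only [Set.mem_inter_iff, Set.mem_Ioc, Set.mem_Iio, Set.mem_Ioo]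
    constructor
    · rintro ⟨⟨a, _⟩, c⟩
      exact ⟨a, c⟩
    · rintro ⟨a, c⟩
      exact ⟨⟨a, by linarith⟩, c⟩
  rw [e2]
  simp [h0]

theorem lt_card_iff (k : ℕ) (f : ℕ → ℝ) (hf : Antitone f) (t : ℝ) (i : ℕ) (hi : i < k) :
    i < ((range k).filter fun j => t < f j).card ↔ t < f i := by
  constructor
  · intro h
    by_contra hc
    have : ((range k).filter fun j => t < f j) ⊆ range i := by
      intro j hj
      rw [mem_filter] at hj
      rw [mem_range]
      by_contra hji
      exact hc (lt_of_lt_of_le hj.2 (hf (not_lt.1 hji)))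
    have := card_le_card this
    rw [card_range] at this
    omega
  · intro h
    have : range (i + 1) ⊆ (range k).filter fun j => t < f j := by
      intro j hj
      rw [mem_range] at hj
      rw [mem_filter, mem_range]
      exact ⟨by omega, lt_of_lt_of_le h (hf (by omega))⟩
    have := card_le_card this
    rw [card_range] at this
    omega

theorem Fhat_congr {n : ℕ} (E : Finset (Fin n × Fin n)) (γ : ℝ) (b : Fin n → ℝ) (k : ℕ)
    (q q' : Fin n → ℕ → ℝ) (h : ∀ v i, i < k → q v i = q' v i) :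
    Fhat E γ b k q = Fhat E γ b k q' := by
  unfold Fhat
  congr 1
  · refine sum_congr rfl fun v _ => sum_congr rfl fun i hi => ?_
    rw [h v i (mem_range.1 hi)]
  · refine sum_congr rfl fun e _ => sum_congr rfl fun i hi => sum_congr rfl fun i' hi' => ?_
    rw [h _ i (mem_range.1 hi), h _ i' (mem_range.1 hi')]

/-- a function with a given integral over the unit interval -/
def HasI (f : ℝ → ℝ) (c : ℝ) : Prop :=
  IntervalIntegrable f MeasureTheory.volume 0 1 ∧ ∫ t in (0 : ℝ)..1, f t = c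

theorem HasI.add {f g : ℝ → ℝ} {c d : ℝ} (hf : HasI f c) (hg : HasI g d) :
    HasI (fun t => f t + g t) (c + d) :=
  ⟨hf.1.add hg.1, by rw [intervalIntegral.integral_add hf.1 hg.1, hf.2, hg.2]⟩

theorem HasI.sum {ι : Type} (s : Finset ι) (f : ι → ℝ → ℝ) (c : ι → ℝ)
    (h : ∀ i ∈ s, HasI (f i) (c i)) : HasI (fun t => ∑ i ∈ s, f i t) (∑ i ∈ s, c i) := by
  classical
  induction s using Finset.induction_on with
  | empty => exact ⟨by simp, by simp⟩
  | insert a s ha ih =>
    simp only [sum_insert ha]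
    exact (h a (mem_insert_self a s)).add (ih fun i hi => h i (mem_insert_of_mem hi))

theorem hasI_ind (r x : ℝ) (h0 : 0 ≤ x) (h1 : x ≤ 1) : HasI (fun t => r * ind x t) (r * x) :=
  ⟨(ind_int x).const_mul r, by rw [intervalIntegral.integral_const_mul, integral_ind x h0 h1]⟩

theorem hasI_Fhat {n : ℕ} (E : Finset (Fin n × Fin n)) (γ : ℝ) (b : Fin n → ℝ) (k : ℕ)
    (q : Fin n → ℕ → ℝ) (hq : ∀ v, Adm (q v)) :
    HasI (fun t => Fhat E γ b k fun v i => ind (q v i) t) (Fhat E γ b k q) := by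
  unfold Fhat
  refine HasI.add (HasI.sum _ _ _ fun v _ => HasI.sum _ _ _ fun i _ => ?_)
    (HasI.sum _ _ _ fun e _ => HasI.sum _ _ _ fun i _ => HasI.sum _ _ _ fun i' _ => ?_)
  · exact hasI_ind _ _ ((hq v).2 i).1 ((hq v).2 i).2
  · simp only [ind_min]
    exact hasI_ind _ _ (le_min ((hq _).2 i).1 ((hq _).2 i').1)
      (le_trans (min_le_left _ _) ((hq _).2 i).2)

end Ext

theorem thm_gam : S_gam := by
  intro k γ i i' hγ
  constructor
  · have p1 := Ext.one_le_W k γ hγ (i + 1) (i' + 1)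
    have p2 := Ext.one_le_W k γ hγ (i + 1) i'
    have p3 := Ext.one_le_W k γ hγ i (i' + 1)
    have p4 := Ext.one_le_W k γ hγ i i'
    have h := log_le_log (by positivity) (Ext.W_tp k γ hγ i i')
    rw [log_mul (by positivity) (by positivity), log_mul (by positivity) (by positivity)] at h
    unfold Gam
    linarith
  · unfold Gam
    rw [Ext.W_symm k γ (i + 1) (i' + 1), Ext.W_symm k γ (i + 1) i', Ext.W_symm k γ i (i' + 1),
      Ext.W_symm k γ i i']
    ring

theorem thm_ext : S_ext := by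
  intro n E γ b k a ha
  unfold Phi Fhat
  congr 1
  · refine sum_congr rfl fun v _ => ?_
    rw [Ext.sum_ind k (a v) (ha v) fun i => b v + lam k i, sum_add_distrib]
    have := sum_range_sub (fun i => log (k.choose i : ℝ)) (a v)
    simp only [Nat.choose_zero_right, Nat.cast_one, log_one, sub_zero] at this
    unfold lam
    rw [this, sum_const, card_range, nsmul_eq_mul, mul_comm]
  · refine sum_congr rfl fun e _ => ?_
    have h1 : ∀ i i' : ℕ, Gam k γ i i' * min (if i < a e.1 then (1 : ℝ) else 0)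
        (if i' < a e.2 then (1 : ℝ) else 0) =
        (Gam k γ i i' * if i' < a e.2 then (1 : ℝ) else 0) * if i < a e.1 then (1 : ℝ) else 0 := by
      intro i i'
      split_ifs <;> simp
    simp only [h1, ← sum_mul]
    simp only [Ext.sum_ind k (a e.2) (ha e.2)]
    rw [Ext.sum_ind k (a e.1) (ha e.1) fun i => ∑ i' ∈ range (a e.2), Gam k γ i i', Ext.sum_gam]

theorem thm_round : S_round := by
  intro n E γ b k q hq
  obtain ⟨a, ha, hmax⟩ := exists_max_image (Fintype.piFinset fun _ : Fin n => range (k + 1))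
    (Phi E γ b k) ⟨fun _ => 0, by simp⟩
  refine ⟨a, fun v => Nat.lt_succ_iff.1 (mem_range.1 (Fintype.mem_piFinset.1 ha v)), ?_⟩
  obtain ⟨h1, h2⟩ := Ext.hasI_Fhat E γ b k q hq
  have h3 : ∀ t : ℝ, (Fhat E γ b k fun v i => Ext.ind (q v i) t) ≤ Phi E γ b k a := by
    intro t
    have hle : ∀ v, ((range k).filter fun j => t < q v j).card ≤ k := fun v =>
      (card_filter_le _ _).trans (card_range k).le
    have h4 := thm_ext n E γ b k (fun v => ((range k).filter fun j => t < q v j).card) hle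
    have h5 := hmax (fun v => ((range k).filter fun j => t < q v j).card)
      (Fintype.mem_piFinset.2 fun v => mem_range.2 (Nat.lt_succ_of_le (hle v)))
    rw [h4] at h5
    refine le_of_eq_of_le (Ext.Fhat_congr E γ b k _ _ fun v i hi => ?_) h5
    simp only [Ext.ind, Ext.lt_card_iff k (q v) (hq v).1 t i hi]
  have h6 := intervalIntegral.integral_mono_on zero_le_one h1
    (intervalIntegrable_const (c := Phi E γ b k a)) fun t _ => h3 t
  rw [h2] at h6
  simpa using h6

end Pool.Agent.H181Z.Is
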