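import Mathlib
import Pool.Agent.H181Z.IsSt

/-!
# The extended Ising model: degrees, lattice gas form, locality
-/

set_option autoImplicit false

namespace Pool.Agent.H181Z.Is

open Finset Real

namespace Loc

variable {n : ℕ}

theorem edge_sum {M : Type} [AddCommMonoid M] (G : SimpleGraph (Fin n)) (F : Fin n → Fin n → M) :
    ∑ e ∈ edges G, (F e.1 e.2 + F e.2 e.1) = ∑ u, ∑ v ∈ nbr G u, F u v := by
  classical
  have h1 : ∑ e ∈ edges G, F e.1 e.2 =
      ∑ u, ∑ v, if G.Adj u v ∧ u < v then F u v else 0 := by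
    unfold edges
    rw [Finset.sum_filter, Fintype.sum_prod_type]
  have h2 : ∑ e ∈ edges G, F e.2 e.1 =
      ∑ u, ∑ v, if G.Adj u v ∧ v < u then F u v else 0 := by
    unfold edges
    rw [Finset.sum_filter, Fintype.sum_prod_type, Finset.sum_comm]
    refine Finset.sum_congr rfl fun u _ => Finset.sum_congr rfl fun v _ => ?_
    by_cases h : G.Adj u v ∧ v < u
    · rw [if_pos h, if_pos ⟨h.1.symm, h.2⟩]
    · rw [if_neg h, if_neg fun h' => h ⟨h'.1.symm, h'.2⟩]
  rw [Finset.sum_add_distrib, h1, h2, ← Finset.sum_add_distrib]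
  refine Finset.sum_congr rfl fun u _ => ?_
  unfold nbr
  rw [Finset.sum_filter, ← Finset.sum_add_distrib]
  refine Finset.sum_congr rfl fun v _ => ?_
  by_cases h : G.Adj u v
  · rcases lt_or_gt_of_ne h.ne with h' | h'
    · rw [if_pos ⟨h, h'⟩, if_neg fun h'' => lt_asymm h' h''.2, if_pos h, add_zero]
    · rw [if_neg fun h'' => lt_asymm h' h''.2, if_pos ⟨h, h'⟩, if_pos h, zero_add]
  · rw [if_neg fun h' => h h'.1, if_neg fun h' => h h'.1, if_neg h, add_zero]

theorem vert_sum {M : Type} [AddCommMonoid M] (G : SimpleGraph (Fin n)) (f : Fin n → M) :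
    ∑ e ∈ edges G, (f e.1 + f e.2) = ∑ u, deg G u • f u := by
  rw [edge_sum G fun u _ => f u]
  refine Finset.sum_congr rfl fun u _ => ?_
  rw [Finset.sum_const, deg]

theorem sym_sum (G : SimpleGraph (Fin n)) (F : Fin n → Fin n → ℝ) (hF : ∀ u v, F u v = F v u) :
    ∑ e ∈ edges G, F e.1 e.2 = ∑ u, 1 / 2 * ∑ v ∈ nbr G u, F u v := by
  rw [← Finset.mul_sum, ← edge_sum G F, Finset.mul_sum]
  refine Finset.sum_congr rfl fun e _ => ?_
  rw [hF e.2 e.1]
  ring

theorem edges_ne (G : SimpleGraph (Fin n)) {e : Fin n × Fin n} (he : e ∈ edges G) : e.1 ≠ e.2 := by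
  classical
  unfold edges at he
  exact (Finset.mem_filter.1 he).2.2.ne

theorem spin_eq (σ : Fin n → Bool) (v : Fin n) : spin σ v = 2 * X σ v - 1 := by
  unfold spin X
  split_ifs <;> norm_num

/-- the local function before decoding -/
noncomputable def L0 (γ α c α' c' : ℝ) (k : ℕ) (Q : ℕ → ℕ → ℝ) (p : ℕ × Multiset ℕ) : ℝ :=
  ∑ i ∈ range k, (α * (Multiset.card p.2 : ℝ) + c + lam k i) * Q p.1 i +
    1 / 2 * (p.2.map fun t => ∑ i ∈ range k, ∑ i' ∈ range k,
      Gam k γ i i' * min (Q p.1 i) (Q t i')).sum + (α' * (Multiset.card p.2 : ℝ) + c')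

/-- the local function -/
noncomputable def L1 (γ α c α' c' : ℝ) (k : ℕ) (Q : ℕ → ℕ → ℝ) (τ : ℕ) : ℝ :=
  ((Encodable.decode (α := ℕ × Multiset ℕ) τ).map (L0 γ α c α' c' k Q)).getD 0

theorem L1_wl (γ α c α' c' : ℝ) (k : ℕ) (Q : ℕ → ℕ → ℝ) (G : SimpleGraph (Fin n)) (j : ℕ)
    (v : Fin n) : L1 γ α c α' c' k Q (wl G (j + 1) v) =
      ∑ i ∈ range k, (α * (deg G v : ℝ) + c + lam k i) * Q (wl G j v) i +
        1 / 2 * ∑ u ∈ nbr G v, (∑ i ∈ range k, ∑ i' ∈ range k,
          Gam k γ i i' * min (Q (wl G j v) i) (Q (wl G j u) i')) + (α' * (deg G v : ℝ) + c') := by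
  unfold L1
  rw [wl, Encodable.encodek, Option.map_some, Option.getD_some]
  unfold L0
  simp only [Multiset.card_map, Multiset.map_map, Finset.card_val]
  rfl

end Loc

open Loc

theorem thm_deg : S_deg := by
  intro n G
  refine ⟨fun v => ?_, ?_⟩
  · have h := vert_sum G fun u => if u = v then (1 : ℕ) else 0
    simp only [smul_eq_mul, mul_ite, mul_one, mul_zero, Finset.sum_ite_eq', Finset.mem_univ,
      if_true] at h
    rw [← h, degE, Finset.card_filter]
    refine Finset.sum_congr rfl fun e he => ?_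
    have hne := edges_ne G he
    by_cases h1 : e.1 = v
    · have h2 : ¬ e.2 = v := fun h2 => hne (h1.trans h2.symm)
      simp [h1, h2]
    · by_cases h2 : e.2 = v <;> simp [h1, h2]
  · have h := vert_sum G fun _ => (1 : ℕ)
    simp only [smul_eq_mul, mul_one, Finset.sum_const] at h
    rw [← h]
    ring

theorem thm_conv : S_conv := by
  intro n G β k h
  have hpos : 0 < Z0 (edges G) (4 * β) fun v => 2 * (k - β) * deg G v + 2 * h :=
    Finset.sum_pos (fun x _ => exp_pos _) Finset.univ_nonempty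
  have key : Zext G β k h = (Z0 (edges G) (4 * β) fun v => 2 * (k - β) * deg G v + 2 * h) *
      exp (∑ v, ((β / 2 - k) * deg G v + -h)) := by
    unfold Zext Z0
    rw [Finset.sum_mul]
    refine Finset.sum_congr rfl fun σ _ => ?_
    rw [← exp_add]
    congr 1
    have h1 := vert_sum G fun v => -(2 * X σ v) + 1 / 2
    have h2 : ∑ e ∈ edges G, spin σ e.1 * spin σ e.2 = 4 * ∑ e ∈ edges G, X σ e.1 * X σ e.2 +
        ∑ e ∈ edges G, ((-(2 * X σ e.1) + 1 / 2) + (-(2 * X σ e.2) + 1 / 2)) := by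
      rw [Finset.mul_sum, ← Finset.sum_add_distrib]
      refine Finset.sum_congr rfl fun e _ => ?_
      rw [spin_eq, spin_eq]
      ring
    rw [h2, h1, En, mul_add, Finset.mul_sum Finset.univ]
    have h3 : ∑ v, β * deg G v • (-(2 * X σ v) + 1 / 2) + ∑ v, (k * deg G v + h) * spin σ v =
        ∑ v, (2 * (k - β) * deg G v + 2 * h) * X σ v + ∑ v, ((β / 2 - k) * deg G v + -h) := by
      rw [← Finset.sum_add_distrib, ← Finset.sum_add_distrib]
      refine Finset.sum_congr rfl fun v _ => ?_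
      rw [spin_eq, nsmul_eq_mul]
      ring
    linarith
  rw [key, log_mul hpos.ne' (exp_pos _).ne', log_exp]

theorem thm_loc (hg : S_gam) : S_loc := by
  intro γ α c α' c' k hγ
  have hS : 0 ≤ ∑ i ∈ range k, ∑ i' ∈ range k, Gam k γ i i' :=
    Finset.sum_nonneg fun i _ => Finset.sum_nonneg fun i' _ => (hg k γ i i' hγ).1
  have hT : 0 ≤ ∑ i ∈ range k, (|α| + |c| + |lam k i|) :=
    Finset.sum_nonneg fun i _ => by positivity
  refine ⟨1 + ∑ i ∈ range k, (|α| + |c| + |lam k i|) +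
    ∑ i ∈ range k, ∑ i' ∈ range k, Gam k γ i i' + |α'| + |c'|, by positivity, fun Q hQ => ?_⟩
  refine ⟨L1 γ α c α' c' k Q, fun n G j => ⟨fun v => ?_, ?_⟩⟩
  · rw [L1_wl]
    have hd : (0 : ℝ) ≤ deg G v := Nat.cast_nonneg _
    have e1 : |∑ i ∈ range k, (α * (deg G v : ℝ) + c + lam k i) * Q (wl G j v) i| ≤
        (∑ i ∈ range k, (|α| + |c| + |lam k i|)) * (1 + deg G v) := by
      rw [Finset.sum_mul]
      refine (Finset.abs_sum_le_sum_abs _ _).trans (Finset.sum_le_sum fun i _ => ?_)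
      have hq := (hQ (wl G j v)).2 i
      rw [abs_mul, abs_of_nonneg hq.1]
      have e : |α * (deg G v : ℝ) + c + lam k i| ≤ |α| * deg G v + |c| + |lam k i| := by
        refine (abs_add_le _ _).trans (add_le_add_left ((abs_add_le _ _).trans ?_) _)
        rw [abs_mul, abs_of_nonneg hd]
      have e' : |α * (deg G v : ℝ) + c + lam k i| * Q (wl G j v) i ≤
          |α * (deg G v : ℝ) + c + lam k i| := mul_le_of_le_one_right (abs_nonneg _) hq.2
      have := abs_nonneg α
      have := mul_nonneg (abs_nonneg c) hd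
      have := mul_nonneg (abs_nonneg (lam k i)) hd
      nlinarith
    have e2a : ∀ u, 0 ≤ ∑ i ∈ range k, ∑ i' ∈ range k,
        Gam k γ i i' * min (Q (wl G j v) i) (Q (wl G j u) i') := fun u =>
      Finset.sum_nonneg fun i _ => Finset.sum_nonneg fun i' _ =>
        mul_nonneg (hg k γ i i' hγ).1 (le_min ((hQ _).2 _).1 ((hQ _).2 _).1)
    have e2b : ∀ u, ∑ i ∈ range k, ∑ i' ∈ range k,
        Gam k γ i i' * min (Q (wl G j v) i) (Q (wl G j u) i') ≤
        ∑ i ∈ range k, ∑ i' ∈ range k, Gam k γ i i' := fun u =>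
      Finset.sum_le_sum fun i _ => Finset.sum_le_sum fun i' _ =>
        mul_le_of_le_one_right (hg k γ i i' hγ).1 ((min_le_left _ _).trans ((hQ _).2 _).2)
    have e2 : |1 / 2 * ∑ u ∈ nbr G v, (∑ i ∈ range k, ∑ i' ∈ range k,
        Gam k γ i i' * min (Q (wl G j v) i) (Q (wl G j u) i'))| ≤
        (∑ i ∈ range k, ∑ i' ∈ range k, Gam k γ i i') * (1 + deg G v) := by
      have a1 : 0 ≤ ∑ u ∈ nbr G v, (∑ i ∈ range k, ∑ i' ∈ range k,
          Gam k γ i i' * min (Q (wl G j v) i) (Q (wl G j u) i')) :=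
        Finset.sum_nonneg fun u _ => e2a u
      have a2 : ∑ u ∈ nbr G v, (∑ i ∈ range k, ∑ i' ∈ range k,
          Gam k γ i i' * min (Q (wl G j v) i) (Q (wl G j u) i')) ≤
          deg G v * ∑ i ∈ range k, ∑ i' ∈ range k, Gam k γ i i' := by
        refine (Finset.sum_le_sum fun u _ => e2b u).trans ?_
        rw [Finset.sum_const, nsmul_eq_mul, deg]
      rw [abs_of_nonneg (by positivity)]
      nlinarith
    have e3 : |α' * (deg G v : ℝ) + c'| ≤ (|α'| + |c'|) * (1 + deg G v) := by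
      refine (abs_add_le _ _).trans ?_
      rw [abs_mul, abs_of_nonneg hd]
      have := abs_nonneg α'
      have := mul_nonneg (abs_nonneg c') hd
      nlinarith
    refine (abs_add_le _ _).trans ((add_le_add (abs_add_le _ _) le_rfl).trans ?_)
    nlinarith
  · simp only [L1_wl]
    unfold Fhat
    rw [Finset.sum_add_distrib (s := Finset.univ) (g := fun v => α' * (deg G v : ℝ) + c'),
      Finset.sum_add_distrib (s := Finset.univ)
        (f := fun v => ∑ i ∈ range k, (α * (deg G v : ℝ) + c + lam k i) * Q (wl G j v) i)]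
    congr 2
    refine sym_sum G (fun u v => ∑ i ∈ range k, ∑ i' ∈ range k,
      Gam k γ i i' * min (Q (wl G j u) i) (Q (wl G j v) i')) fun u v => ?_
    rw [Finset.sum_comm]
    refine Finset.sum_congr rfl fun i _ => Finset.sum_congr rfl fun i' _ => ?_
    rw [(hg k γ i' i hγ).2, min_comm]

end Pool.Agent.H181Z.Is
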