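import Mathlib
import Pool.Agent.H181Z.IsSt

/-!
# Lower bound of the partition function by the replicated functional
-/

set_option autoImplicit false

namespace Pool.Agent.H181Z.Is

open Finset Real

namespace Lower

variable {n k : ℕ}

/-- indicator of membership -/
def xi (S : Finset (Fin k)) (l : Fin k) : ℝ := if l ∈ S then 1 else 0

lemma xi_nonneg (S : Finset (Fin k)) (l : Fin k) : 0 ≤ xi S l := by
  unfold xi; split_ifs <;> norm_num

/-- product edge weight -/
def D (g : ℝ) (S T : Finset (Fin k)) : ℝ := ∏ l, (1 + g * (xi S l * xi T l))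

/-- swap two replicas at one vertex -/
def sw (i j : Fin k) (w : Fin n) (Y : Fin n → Finset (Fin k)) : Fin n → Finset (Fin k) :=
  Function.update Y w ((Y w).map (Equiv.swap i j).toEmbedding)

lemma xi_sw (i j : Fin k) (w : Fin n) (Y : Fin n → Finset (Fin k)) (v : Fin n) (l : Fin k) :
    xi (sw i j w Y v) l = if v = w then xi (Y v) (Equiv.swap i j l) else xi (Y v) l := by
  unfold sw
  by_cases h : v = w
  · subst h
    simp [xi, Finset.mem_map_equiv]
  · simp [h]

lemma card_sw (i j : Fin k) (w : Fin n) (Y : Fin n → Finset (Fin k)) (v : Fin n) :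
    (sw i j w Y v).card = (Y v).card := by
  unfold sw
  by_cases h : v = w
  · subst h; simp
  · simp [h]

lemma sw_sw (i j : Fin k) (w : Fin n) (Y : Fin n → Finset (Fin k)) :
    sw i j w (sw i j w Y) = Y := by
  funext v
  unfold sw
  by_cases h : v = w
  · subst h
    ext l
    simp [Finset.mem_map_equiv]
  · simp [h]

/-- difference of two replicas -/
def tt (i j : Fin k) (Y : Fin n → Finset (Fin k)) (w : Fin n) : ℝ := xi (Y w) i - xi (Y w) j

lemma tt_sw (i j : Fin k) (w : Fin n) (Y : Fin n → Finset (Fin k)) (v : Fin n) :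
    tt i j (sw i j w Y) v = if v = w then - tt i j Y v else tt i j Y v := by
  unfold tt
  rw [xi_sw, xi_sw]
  split_ifs <;> simp

lemma gks_base (i j : Fin k) (ρ : (Fin n → Finset (Fin k)) → ℝ) (h0 : ∀ Y, 0 ≤ ρ Y)
    (hinv : ∀ w Y, ρ (sw i j w Y) = ρ Y) (m : Fin n → ℕ) :
    0 ≤ ∑ Y, ρ Y * ∏ w, tt i j Y w ^ m w := by
  by_cases hm : ∀ w, Even (m w)
  · exact sum_nonneg fun Y _ => mul_nonneg (h0 Y) (prod_nonneg fun w _ => (hm w).pow_nonneg _)
  · push Not at hm
    obtain ⟨w0, hw0⟩ := hm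
    have hodd : Odd (m w0) := Nat.not_even_iff_odd.mp hw0
    have key : ∀ Y, ∏ w, tt i j (sw i j w0 Y) w ^ m w = - ∏ w, tt i j Y w ^ m w := by
      intro Y
      rw [← Finset.mul_prod_erase univ _ (mem_univ w0),
        ← Finset.mul_prod_erase univ (fun w => tt i j Y w ^ m w) (mem_univ w0)]
      have h1 : ∏ w ∈ univ.erase w0, tt i j (sw i j w0 Y) w ^ m w =
          ∏ w ∈ univ.erase w0, tt i j Y w ^ m w := by
        refine prod_congr rfl fun w hw => ?_
        rw [tt_sw, if_neg (Finset.ne_of_mem_erase hw)]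
      rw [h1, tt_sw, if_pos rfl, hodd.neg_pow]
      ring
    have hinvol : Function.Involutive (sw i j w0 : (Fin n → Finset (Fin k)) → _) :=
      sw_sw i j w0
    have h2 : ∑ Y, ρ Y * ∏ w, tt i j Y w ^ m w =
        ∑ Y, ρ (sw i j w0 Y) * ∏ w, tt i j (sw i j w0 Y) w ^ m w :=
      (Equiv.sum_comp hinvol.toPerm (fun Y => ρ Y * ∏ w, tt i j Y w ^ m w)).symm
    have h3 : ∑ Y, ρ (sw i j w0 Y) * ∏ w, tt i j (sw i j w0 Y) w ^ m w =
        - ∑ Y, ρ Y * ∏ w, tt i j Y w ^ m w := by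
      rw [← Finset.sum_neg_distrib]
      refine sum_congr rfl fun Y _ => ?_
      rw [hinv, key]; ring
    linarith

/-- two-replica edge factor -/
def ff (g : ℝ) (i j : Fin k) (Y : Fin n → Finset (Fin k)) (e : Fin n × Fin n) : ℝ :=
  (1 + g * (xi (Y e.1) i * xi (Y e.2) i)) * (1 + g * (xi (Y e.1) j * xi (Y e.2) j))

/-- symmetric part of the edge factor -/
noncomputable def al (g : ℝ) (i j : Fin k) (Y : Fin n → Finset (Fin k)) (e : Fin n × Fin n) : ℝ :=
  1 + g / 2 * ((xi (Y e.1) i + xi (Y e.1) j) * (xi (Y e.2) i + xi (Y e.2) j)) +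
    g ^ 2 * ((xi (Y e.1) i * xi (Y e.1) j) * (xi (Y e.2) i * xi (Y e.2) j))

lemma ff_eq (g : ℝ) (i j : Fin k) (Y : Fin n → Finset (Fin k)) (e : Fin n × Fin n) :
    ff g i j Y e = al g i j Y e + g / 2 * (tt i j Y e.1 * tt i j Y e.2) := by
  unfold ff al tt; ring

lemma al_nonneg {g : ℝ} (hg : 0 ≤ g) (i j : Fin k) (Y : Fin n → Finset (Fin k))
    (e : Fin n × Fin n) : 0 ≤ al g i j Y e := by
  unfold al
  have := xi_nonneg (Y e.1) i
  have := xi_nonneg (Y e.1) j
  have := xi_nonneg (Y e.2) i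
  have := xi_nonneg (Y e.2) j
  positivity

lemma add_sw (i j : Fin k) (w : Fin n) (Y : Fin n → Finset (Fin k)) (v : Fin n) :
    xi (sw i j w Y v) i + xi (sw i j w Y v) j = xi (Y v) i + xi (Y v) j := by
  rw [xi_sw, xi_sw]
  split_ifs
  · simp [add_comm]
  · rfl

lemma mul_sw (i j : Fin k) (w : Fin n) (Y : Fin n → Finset (Fin k)) (v : Fin n) :
    xi (sw i j w Y v) i * xi (sw i j w Y v) j = xi (Y v) i * xi (Y v) j := by
  rw [xi_sw, xi_sw]
  split_ifs
  · simp [mul_comm]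
  · rfl

lemma al_sw (g : ℝ) (i j : Fin k) (w : Fin n) (Y : Fin n → Finset (Fin k)) (e : Fin n × Fin n) :
    al g i j (sw i j w Y) e = al g i j Y e := by
  unfold al
  rw [add_sw, add_sw, mul_sw, mul_sw]

lemma prod_pow_succ (t : Fin n → ℝ) (m : Fin n → ℕ) (u : Fin n) :
    ∏ w, t w ^ (m w + if w = u then 1 else 0) = t u * ∏ w, t w ^ m w := by
  simp only [pow_add, prod_mul_distrib]
  rw [mul_comm]
  congr 1
  rw [Finset.prod_eq_single u]
  · simp
  · intro b _ hb; simp [hb]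
  · simp

lemma gks {g : ℝ} (hg : 0 ≤ g) (i j : Fin k) (E1 : Finset (Fin n × Fin n)) :
    ∀ (ρ : (Fin n → Finset (Fin k)) → ℝ), (∀ Y, 0 ≤ ρ Y) → (∀ w Y, ρ (sw i j w Y) = ρ Y) →
      ∀ m : Fin n → ℕ, 0 ≤ ∑ Y, ρ Y * (∏ w, tt i j Y w ^ m w) * ∏ e ∈ E1, ff g i j Y e := by
  classical
  induction E1 using Finset.induction_on with
  | empty =>
    intro ρ h0 hinv m
    simpa using gks_base i j ρ h0 hinv m
  | insert e F he ih =>
    intro ρ h0 hinv m
    have h1 := ih (fun Y => ρ Y * al g i j Y e) (fun Y => mul_nonneg (h0 Y) (al_nonneg hg i j Y e))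
      (fun w Y => by rw [hinv, al_sw]) m
    have h2 := ih ρ h0 hinv
      (fun w => (m w + if w = e.2 then 1 else 0) + if w = e.1 then 1 else 0)
    have h3 : ∑ Y, ρ Y * (∏ w, tt i j Y w ^ m w) * ∏ e' ∈ insert e F, ff g i j Y e' =
        (∑ Y, (ρ Y * al g i j Y e) * (∏ w, tt i j Y w ^ m w) * ∏ e' ∈ F, ff g i j Y e') +
        g / 2 * ∑ Y, ρ Y * (∏ w, tt i j Y w ^
          ((m w + if w = e.2 then 1 else 0) + if w = e.1 then 1 else 0)) *
            ∏ e' ∈ F, ff g i j Y e' := by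
      rw [mul_sum, ← sum_add_distrib]
      refine sum_congr rfl fun Y _ => ?_
      rw [prod_insert he, ff_eq, prod_pow_succ (tt i j Y) (fun w => m w + if w = e.2 then 1 else 0),
        prod_pow_succ]
      ring
    rw [h3]
    have : 0 ≤ g / 2 := by positivity
    exact add_nonneg h1 (mul_nonneg this h2)

/-- indicator of inclusion -/
def ind (A S : Finset (Fin k)) : ℝ := ∏ l ∈ A, xi S l

lemma ind_nonneg (A S : Finset (Fin k)) : 0 ≤ ind A S := prod_nonneg fun l _ => xi_nonneg S l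

lemma ind_eq (A S : Finset (Fin k)) : ind A S = if A ⊆ S then 1 else 0 := by
  unfold ind
  split_ifs with h
  · exact prod_eq_one fun l hl => by simp [xi, h hl]
  · obtain ⟨l, hl, hl'⟩ := Finset.not_subset.mp h
    exact prod_eq_zero hl (by simp [xi, hl'])

lemma ind_sw {i j : Fin k} {A : Finset (Fin k)} (hi : i ∉ A) (hj : j ∉ A) (w : Fin n)
    (Y : Fin n → Finset (Fin k)) (v : Fin n) : ind A (sw i j w Y v) = ind A (Y v) := by
  unfold ind
  refine prod_congr rfl fun l hl => ?_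
  rw [xi_sw]
  split_ifs
  · rw [Equiv.swap_apply_of_ne_of_ne (by rintro rfl; exact hi hl) (by rintro rfl; exact hj hl)]
  · rfl

/-- the rest of the edge weight -/
def rest (g : ℝ) (i j : Fin k) (S T : Finset (Fin k)) : ℝ :=
  ∏ l ∈ (univ.erase i).erase j, (1 + g * (xi S l * xi T l))

lemma rest_nonneg {g : ℝ} (hg : 0 ≤ g) (i j : Fin k) (S T : Finset (Fin k)) :
    0 ≤ rest g i j S T :=
  prod_nonneg fun l _ => by
    have := xi_nonneg S l
    have := xi_nonneg T l
    positivity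

lemma rest_sw (g : ℝ) (i j : Fin k) (w : Fin n) (Y : Fin n → Finset (Fin k)) (u v : Fin n) :
    rest g i j (sw i j w Y u) (sw i j w Y v) = rest g i j (Y u) (Y v) := by
  unfold rest
  refine prod_congr rfl fun l hl => ?_
  have h1 : l ≠ j := Finset.ne_of_mem_erase hl
  have h2 : l ≠ i := Finset.ne_of_mem_erase (Finset.mem_of_mem_erase hl)
  rw [xi_sw, xi_sw, Equiv.swap_apply_of_ne_of_ne h2 h1]
  simp

lemma D_split (g : ℝ) {i j : Fin k} (hij : i ≠ j) (Y : Fin n → Finset (Fin k))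
    (e : Fin n × Fin n) : D g (Y e.1) (Y e.2) = rest g i j (Y e.1) (Y e.2) * ff g i j Y e := by
  unfold D rest ff
  rw [← Finset.mul_prod_erase univ _ (mem_univ i),
    ← Finset.mul_prod_erase (univ.erase i) _ (Finset.mem_erase.mpr ⟨hij.symm, mem_univ j⟩)]
  ring

lemma step1 {g : ℝ} (hg : 0 ≤ g) (E1 : Finset (Fin n × Fin n))
    (ρ : (Fin n → Finset (Fin k)) → ℝ) (h0 : ∀ Y, 0 ≤ ρ Y)
    (hinv : ∀ i j w Y, ρ (sw i j w Y) = ρ Y) (u v : Fin n) {A B : Finset (Fin k)} {i j : Fin k}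
    (hiA : i ∈ A) (hiB : i ∉ B) (hjB : j ∈ B) (hjA : j ∉ A) :
    ∑ Y, ρ Y * (∏ e ∈ E1, D g (Y e.1) (Y e.2)) * (ind A (Y u) * ind B (Y v)) ≤
      ∑ Y, ρ Y * (∏ e ∈ E1, D g (Y e.1) (Y e.2)) *
        (ind A (Y u) * ind (insert i (B.erase j)) (Y v)) := by
  have hij : i ≠ j := by rintro rfl; exact hjA hiA
  set ρ1 : (Fin n → Finset (Fin k)) → ℝ := fun Y => ρ Y * (∏ e ∈ E1, rest g i j (Y e.1) (Y e.2)) *
    (ind (A.erase i) (Y u) * ind (B.erase j) (Y v)) with hρ1
  have h10 : ∀ Y, 0 ≤ ρ1 Y := fun Y => mul_nonneg (mul_nonneg (h0 Y)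
    (prod_nonneg fun e _ => rest_nonneg hg i j _ _)) (mul_nonneg (ind_nonneg _ _) (ind_nonneg _ _))
  have h1inv : ∀ w Y, ρ1 (sw i j w Y) = ρ1 Y := by
    intro w Y
    simp only [hρ1]
    rw [hinv, ind_sw (Finset.notMem_erase i A) (fun h => hjA (Finset.mem_of_mem_erase h)),
      ind_sw (fun h => hiB (Finset.mem_of_mem_erase h)) (Finset.notMem_erase j B)]
    simp only [rest_sw]
  have ha := gks hg i j E1 (fun Y => ρ1 Y * (xi (Y u) i + xi (Y u) j))
    (fun Y => mul_nonneg (h10 Y) (add_nonneg (xi_nonneg _ _) (xi_nonneg _ _)))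
    (fun w Y => by rw [h1inv, add_sw]) (fun w => 0 + if w = v then 1 else 0)
  have hb := gks hg i j E1 ρ1 h10 h1inv
    (fun w => (0 + if w = v then 1 else 0) + if w = u then 1 else 0)
  rw [← sub_nonneg, ← sum_sub_distrib]
  have hsum := add_nonneg ha hb
  rw [← sum_add_distrib] at hsum
  have : ∑ Y : Fin n → Finset (Fin k), (ρ Y * (∏ e ∈ E1, D g (Y e.1) (Y e.2)) *
        (ind A (Y u) * ind (insert i (B.erase j)) (Y v)) -
        ρ Y * (∏ e ∈ E1, D g (Y e.1) (Y e.2)) * (ind A (Y u) * ind B (Y v))) =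
      (1 / 2) * ∑ Y : Fin n → Finset (Fin k), (ρ1 Y * (xi (Y u) i + xi (Y u) j) *
        (∏ w, tt i j Y w ^ (0 + if w = v then 1 else 0)) * ∏ e ∈ E1, ff g i j Y e +
        ρ1 Y * (∏ w, tt i j Y w ^ ((0 + if w = v then 1 else 0) + if w = u then 1 else 0)) *
          ∏ e ∈ E1, ff g i j Y e) := by
    rw [mul_sum]
    refine sum_congr rfl fun Y _ => ?_
    rw [prod_pow_succ (tt i j Y) (fun w => 0 + if w = v then 1 else 0),
      prod_pow_succ (tt i j Y) (fun _ => 0)]
    have e1 : ind A (Y u) = xi (Y u) i * ind (A.erase i) (Y u) :=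
      (Finset.mul_prod_erase A _ hiA).symm
    have e2 : ind B (Y v) = xi (Y v) j * ind (B.erase j) (Y v) :=
      (Finset.mul_prod_erase B _ hjB).symm
    have e3 : ind (insert i (B.erase j)) (Y v) = xi (Y v) i * ind (B.erase j) (Y v) :=
      Finset.prod_insert fun h => hiB (Finset.mem_of_mem_erase h)
    have e4 : ∏ e ∈ E1, D g (Y e.1) (Y e.2) =
        (∏ e ∈ E1, rest g i j (Y e.1) (Y e.2)) * ∏ e ∈ E1, ff g i j Y e := by
      rw [← prod_mul_distrib]
      exact prod_congr rfl fun e _ => D_split g hij Y e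
    rw [e1, e2, e3, e4]
    simp only [hρ1, tt, pow_zero, prod_const_one]
    ring
  rw [this]
  positivity

lemma step2 {g : ℝ} (hg : 0 ≤ g) (E1 : Finset (Fin n × Fin n))
    (ρ : (Fin n → Finset (Fin k)) → ℝ) (h0 : ∀ Y, 0 ≤ ρ Y)
    (hinv : ∀ i j w Y, ρ (sw i j w Y) = ρ Y) (u v : Fin n) (A : Finset (Fin k)) (d : ℕ) :
    ∀ B : Finset (Fin k), (B \ A).card = d → A.card = B.card →
    ∑ Y, ρ Y * (∏ e ∈ E1, D g (Y e.1) (Y e.2)) * (ind A (Y u) * ind B (Y v)) ≤
      ∑ Y, ρ Y * (∏ e ∈ E1, D g (Y e.1) (Y e.2)) * (ind A (Y u) * ind A (Y v)) := by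
  induction d with
  | zero =>
    intro B hB hc
    have h1 : B ⊆ A := Finset.sdiff_eq_empty_iff_subset.mp (Finset.card_eq_zero.mp hB)
    have h2 : B = A := Finset.eq_of_subset_of_card_le h1 hc.le
    rw [h2]
  | succ d ih =>
    intro B hB hc
    obtain ⟨j, hj⟩ : (B \ A).Nonempty := Finset.card_pos.mp (by omega)
    have hc2 : (A \ B).card = (B \ A).card := Finset.card_sdiff_comm hc
    obtain ⟨i, hi⟩ : (A \ B).Nonempty := Finset.card_pos.mp (by omega)
    rw [Finset.mem_sdiff] at hi hj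
    refine (step1 hg E1 ρ h0 hinv u v hi.1 hi.2 hj.1 hj.2).trans (ih _ ?_ ?_)
    · have : insert i (B.erase j) \ A = (B \ A).erase j := by
        ext l
        simp only [mem_sdiff, mem_insert, mem_erase]
        constructor
        · rintro ⟨h | h, h'⟩
          · exact absurd (h ▸ hi.1) h'
          · exact ⟨h.1, h.2, h'⟩
        · rintro ⟨h1, h2, h3⟩
          exact ⟨Or.inr ⟨h1, h2⟩, h3⟩
      rw [this, Finset.card_erase_of_mem (Finset.mem_sdiff.mpr hj)]
      omega
    · rw [Finset.card_insert_of_notMem (fun h => hi.2 (Finset.mem_of_mem_erase h)),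
        Finset.card_erase_of_mem hj.1]
      have : 0 < B.card := Finset.card_pos.mpr ⟨j, hj.1⟩
      omega

lemma sum_ind (j : ℕ) (S : Finset (Fin k)) :
    ∑ A ∈ powersetCard j (univ : Finset (Fin k)), ind A S = (S.card.choose j : ℝ) := by
  simp only [ind_eq]
  rw [Finset.sum_boole]
  have : (powersetCard j (univ : Finset (Fin k))).filter (fun A => A ⊆ S) = powersetCard j S := by
    ext A
    simp [mem_powersetCard, and_comm]
  rw [this, Finset.card_powersetCard]

lemma W_eq (g : ℝ) (S T : Finset (Fin k)) :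
    W k g S.card T.card = ∑ j ∈ range (k + 1), g ^ j / k.choose j *
      ∑ A ∈ powersetCard j (univ : Finset (Fin k)), ∑ B ∈ powersetCard j (univ : Finset (Fin k)),
        ind A S * ind B T := by
  unfold W
  refine sum_congr rfl fun j _ => ?_
  rw [← Finset.sum_mul_sum, sum_ind, sum_ind]
  ring

lemma D_eq (g : ℝ) (S T : Finset (Fin k)) :
    D g S T = ∑ j ∈ range (k + 1), g ^ j / k.choose j *
      ∑ A ∈ powersetCard j (univ : Finset (Fin k)), ∑ _B ∈ powersetCard j (univ : Finset (Fin k)),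
        ind A S * ind A T := by
  unfold D
  rw [Finset.prod_one_add, Finset.sum_powerset]
  simp only [card_univ, Fintype.card_fin]
  refine sum_congr rfl fun j hj => ?_
  have hk : (k.choose j : ℝ) ≠ 0 := by
    have : 0 < k.choose j := Nat.choose_pos (by simpa [Nat.lt_succ_iff] using hj)
    positivity
  rw [mul_sum]
  refine sum_congr rfl fun A hA => ?_
  rw [sum_const, Finset.card_powersetCard, card_univ, Fintype.card_fin, nsmul_eq_mul,
    prod_mul_distrib, prod_mul_distrib, prod_const, (mem_powersetCard.mp hA).2]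
  unfold ind
  field_simp

lemma one_edge {g : ℝ} (hg : 0 ≤ g) (E1 : Finset (Fin n × Fin n))
    (ρ : (Fin n → Finset (Fin k)) → ℝ) (h0 : ∀ Y, 0 ≤ ρ Y)
    (hinv : ∀ i j w Y, ρ (sw i j w Y) = ρ Y) (u v : Fin n) :
    ∑ Y, ρ Y * (∏ e ∈ E1, D g (Y e.1) (Y e.2)) * W k g (Y u).card (Y v).card ≤
      ∑ Y, ρ Y * (∏ e ∈ E1, D g (Y e.1) (Y e.2)) * D g (Y u) (Y v) := by
  have key : ∀ (c : (Fin n → Finset (Fin k)) → ℝ)
      (f : Finset (Fin k) → Finset (Fin k) → (Fin n → Finset (Fin k)) → ℝ),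
      ∑ Y, c Y * ∑ j ∈ range (k + 1), g ^ j / k.choose j *
        ∑ A ∈ powersetCard j (univ : Finset (Fin k)),
          ∑ B ∈ powersetCard j (univ : Finset (Fin k)), f A B Y =
      ∑ j ∈ range (k + 1), g ^ j / k.choose j *
        ∑ A ∈ powersetCard j (univ : Finset (Fin k)),
          ∑ B ∈ powersetCard j (univ : Finset (Fin k)), ∑ Y, c Y * f A B Y := by
    intro c f
    simp only [mul_sum]
    rw [sum_comm]
    refine sum_congr rfl fun j _ => ?_
    rw [sum_comm]
    refine sum_congr rfl fun A _ => ?_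
    rw [sum_comm]
    refine sum_congr rfl fun B _ => sum_congr rfl fun Y _ => ?_
    ring
  have e1 := key (fun Y => ρ Y * ∏ e ∈ E1, D g (Y e.1) (Y e.2))
    (fun A B Y => ind A (Y u) * ind B (Y v))
  have e2 := key (fun Y => ρ Y * ∏ e ∈ E1, D g (Y e.1) (Y e.2))
    (fun A _ Y => ind A (Y u) * ind A (Y v))
  have e3 : ∑ Y, ρ Y * (∏ e ∈ E1, D g (Y e.1) (Y e.2)) * W k g (Y u).card (Y v).card = _ :=
    (sum_congr rfl fun Y _ => by rw [W_eq]).trans e1
  have e4 : ∑ Y, ρ Y * (∏ e ∈ E1, D g (Y e.1) (Y e.2)) * D g (Y u) (Y v) = _ :=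
    (sum_congr rfl fun Y _ => by rw [D_eq g (Y u) (Y v)]).trans e2
  rw [e3, e4]
  refine sum_le_sum fun j _ => mul_le_mul_of_nonneg_left ?_ (by positivity)
  refine sum_le_sum fun A hA => sum_le_sum fun B hB => ?_
  exact step2 hg E1 ρ h0 hinv u v A _ B rfl
    ((mem_powersetCard.mp hA).2.trans (mem_powersetCard.mp hB).2.symm)

lemma one_le_W {g : ℝ} (hg : 0 ≤ g) (k a a' : ℕ) : 1 ≤ W k g a a' := by
  unfold W
  rw [Finset.sum_range_succ']
  have : 0 ≤ ∑ j ∈ range k, g ^ (j + 1) * ((a.choose (j + 1) : ℝ) * a'.choose (j + 1)) /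
      k.choose (j + 1) := sum_nonneg fun j _ => by positivity
  simp only [pow_zero, Nat.choose_zero_right, Nat.cast_one, mul_one, div_one]
  linarith

lemma all_edges {g : ℝ} (hg : 0 ≤ g) (F : Finset (Fin n × Fin n)) :
    ∀ (ρ : (Fin n → Finset (Fin k)) → ℝ), (∀ Y, 0 ≤ ρ Y) →
      (∀ i j w Y, ρ (sw i j w Y) = ρ Y) →
      ∑ Y, ρ Y * ∏ e ∈ F, W k g (Y e.1).card (Y e.2).card ≤
        ∑ Y, ρ Y * ∏ e ∈ F, D g (Y e.1) (Y e.2) := by
  classical
  induction F using Finset.induction_on with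
  | empty => intro ρ _ _; simp
  | insert e F he ih =>
    intro ρ h0 hinv
    have h1 := ih (fun Y => ρ Y * W k g (Y e.1).card (Y e.2).card)
      (fun Y => mul_nonneg (h0 Y) (zero_le_one.trans (one_le_W hg _ _ _)))
      (fun i j w Y => by rw [hinv, card_sw, card_sw])
    have h2 := one_edge hg F ρ h0 hinv e.1 e.2
    simp only [prod_insert he]
    calc ∑ Y, ρ Y * (W k g (Y e.1).card (Y e.2).card * ∏ e ∈ F, W k g (Y e.1).card (Y e.2).card)
        = ∑ Y, ρ Y * W k g (Y e.1).card (Y e.2).card *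
            ∏ e ∈ F, W k g (Y e.1).card (Y e.2).card := sum_congr rfl fun Y _ => by ring
      _ ≤ ∑ Y, ρ Y * W k g (Y e.1).card (Y e.2).card * ∏ e ∈ F, D g (Y e.1) (Y e.2) := h1
      _ = ∑ Y, ρ Y * (∏ e ∈ F, D g (Y e.1) (Y e.2)) * W k g (Y e.1).card (Y e.2).card :=
          sum_congr rfl fun Y _ => by ring
      _ ≤ ∑ Y, ρ Y * (∏ e ∈ F, D g (Y e.1) (Y e.2)) * D g (Y e.1) (Y e.2) := h2
      _ = _ := sum_congr rfl fun Y _ => by ring

/-- replicas from occupation sets -/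
def toP (Y : Fin n → Finset (Fin k)) : Fin k → Fin n → Bool := fun l v => decide (l ∈ Y v)

lemma toP_bij : Function.Bijective (toP : (Fin n → Finset (Fin k)) → Fin k → Fin n → Bool) := by
  constructor
  · intro Y Y' h
    funext v
    ext l
    have := congrFun (congrFun h l) v
    simpa [toP] using this
  · intro p
    refine ⟨fun v => univ.filter fun l => p l v = true, ?_⟩
    funext l v
    simp [toP]

lemma X_toP (Y : Fin n → Finset (Fin k)) (l : Fin k) (v : Fin n) :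
    X (toP Y l) v = xi (Y v) l := by
  simp [X, toP, xi]

lemma sum_xi (S : Finset (Fin k)) : ∑ l, xi S l = S.card := by
  simp [xi]

lemma exp_edge (J : ℝ) (S T : Finset (Fin k)) (l : Fin k) :
    exp (J * (xi S l * xi T l)) = 1 + (exp J - 1) * (xi S l * xi T l) := by
  unfold xi
  split_ifs <;> simp

lemma Z0_pow (E : Finset (Fin n × Fin n)) (J : ℝ) (b : Fin n → ℝ) (k : ℕ) :
    Z0 E J b ^ k = ∑ Y : Fin n → Finset (Fin k), exp (∑ v, b v * (Y v).card) *
      ∏ e ∈ E, D (exp J - 1) (Y e.1) (Y e.2) := by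
  unfold Z0
  rw [Fintype.sum_pow]
  symm
  refine Fintype.sum_bijective toP toP_bij _ _ fun Y => ?_
  simp only [En, X_toP, exp_add, prod_mul_distrib]
  congr 1
  · rw [← exp_sum, sum_comm]
    congr 1
    refine sum_congr rfl fun v _ => ?_
    rw [← mul_sum, sum_xi]
  · unfold D
    rw [prod_comm]
    refine prod_congr rfl fun l _ => ?_
    rw [mul_sum, exp_sum]
    exact prod_congr rfl fun e _ => (exp_edge J _ _ l).symm

end Lower

open Lower in
theorem thm_lower : S_lower := by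
  intro n E J b k a hJ ha
  have hg : 0 ≤ exp J - 1 := by
    have := Real.one_le_exp hJ
    linarith
  have h1 := all_edges (k := k) hg E (fun Y => exp (∑ v, b v * (Y v).card))
    (fun Y => (exp_pos _).le) (fun i j w Y => by simp only [card_sw])
  rw [← Z0_pow] at h1
  have hW : ∀ c c', 0 < W k (exp J - 1) c c' := fun c c' => one_pos.trans_le (one_le_W hg _ _ _)
  have h2 : ∑ Y ∈ Fintype.piFinset (fun v => powersetCard (a v) (univ : Finset (Fin k))),
      exp (∑ v, b v * (Y v).card) * ∏ e ∈ E, W k (exp J - 1) (Y e.1).card (Y e.2).card ≤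
      ∑ Y : Fin n → Finset (Fin k),
        exp (∑ v, b v * (Y v).card) * ∏ e ∈ E, W k (exp J - 1) (Y e.1).card (Y e.2).card :=
    sum_le_sum_of_subset_of_nonneg (subset_univ _) fun Y _ _ =>
      mul_nonneg (exp_pos _).le (prod_nonneg fun e _ => (hW _ _).le)
  have h3 : ∑ Y ∈ Fintype.piFinset (fun v => powersetCard (a v) (univ : Finset (Fin k))),
      exp (∑ v, b v * (Y v).card) * ∏ e ∈ E, W k (exp J - 1) (Y e.1).card (Y e.2).card =
      (∏ v, (k.choose (a v) : ℝ)) *
        (exp (∑ v, b v * a v) * ∏ e ∈ E, W k (exp J - 1) (a e.1) (a e.2)) := by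
    rw [sum_congr rfl (g := fun _ =>
      exp (∑ v, b v * a v) * ∏ e ∈ E, W k (exp J - 1) (a e.1) (a e.2))]
    · rw [sum_const, Fintype.card_piFinset, nsmul_eq_mul]
      simp [Finset.card_powersetCard]
    · intro Y hY
      have hc : ∀ v, (Y v).card = a v := fun v =>
        (mem_powersetCard.mp (Fintype.mem_piFinset.mp hY v)).2
      simp only [hc]
  have hC : ∀ v, (0 : ℝ) < k.choose (a v) := fun v => by
    have := Nat.choose_pos (ha v)
    positivity
  have h4 : Phi E (exp J - 1) b k a = log ((∏ v, (k.choose (a v) : ℝ)) *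
        (exp (∑ v, b v * a v) * ∏ e ∈ E, W k (exp J - 1) (a e.1) (a e.2))) := by
    rw [log_mul (prod_pos fun v _ => hC v).ne'
        (mul_pos (exp_pos _) (prod_pos fun e _ => hW _ _)).ne',
      log_mul (exp_pos _).ne' (prod_pos fun e _ => hW _ _).ne', log_exp,
      log_prod (fun v _ => (hC v).ne'), log_prod (fun e _ => (hW _ _).ne')]
    unfold Phi
    rw [sum_add_distrib]
    ring
  rw [h4, ← log_pow]
  exact log_le_log (mul_pos (prod_pos fun v _ => hC v)
    (mul_pos (exp_pos _) (prod_pos fun e _ => hW _ _))) (h3 ▸ h2.trans h1)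

end Pool.Agent.H181Z.Is
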