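import Mathlib
import Pool.Agent.H181Z.IsEnt

/-!
# Pinned measures
-/

set_option autoImplicit false

namespace Pool.Agent.H181Z.Is.Upper

open Finset Real Function

variable {n : ℕ} (E : Finset (Fin n × Fin n)) (J : ℝ) (b : Fin n → ℝ)

/-- pinned partition function -/
noncomputable def Zp (U : Finset (Fin n)) (s : Fin n → Bool) : ℝ := ∑ x, pw E J b U s x

/-- pinned measure -/
noncomputable def pm (U : Finset (Fin n)) (s : Fin n → Bool) (x : Fin n → Bool) : ℝ :=
  pw E J b U s x / Zp E J b U s

lemma pw_nonneg (U : Finset (Fin n)) (s x : Fin n → Bool) : 0 ≤ pw E J b U s x := by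
  unfold pw
  split_ifs
  exacts [(exp_pos _).le, le_rfl]

lemma Zp_pos (U : Finset (Fin n)) (s : Fin n → Bool) : 0 < Zp E J b U s :=
  sum_pos' (fun x _ => pw_nonneg E J b U s x) ⟨s, mem_univ _, by simp [pw, exp_pos]⟩

lemma pm_nonneg (U : Finset (Fin n)) (s x : Fin n → Bool) : 0 ≤ pm E J b U s x :=
  div_nonneg (pw_nonneg E J b U s x) (Zp_pos E J b U s).le

lemma sum_pm (U : Finset (Fin n)) (s : Fin n → Bool) : ∑ x, pm E J b U s x = 1 := by
  simp only [pm]
  rw [← sum_div]
  exact div_self (Zp_pos E J b U s).ne'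

lemma pw_insert {U : Finset (Fin n)} {w : Fin n} (hw : w ∉ U) (s : Fin n → Bool) (c : Bool)
    (x : Fin n → Bool) :
    pw E J b (insert w U) (update s w c) x = if x w = c then pw E J b U s x else 0 := by
  have : (∀ v ∈ insert w U, x v = update s w c v) ↔ x w = c ∧ ∀ v ∈ U, x v = s v := by
    rw [forall_mem_insert, update_self]
    refine and_congr_right fun _ => forall₂_congr fun v hv => ?_
    rw [update_of_ne (by rintro rfl; exact hw hv)]
  simp only [pw, this]
  by_cases h : x w = c <;> simp [h]

lemma pw_true {U : Finset (Fin n)} {w : Fin n} (hw : w ∉ U) (s x : Fin n → Bool) :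
    pw E J b (insert w U) (update s w true) x = pw E J b U s x * X x w := by
  rw [pw_insert E J b hw]
  unfold X
  split_ifs <;> simp

lemma pw_false {U : Finset (Fin n)} {w : Fin n} (hw : w ∉ U) (s x : Fin n → Bool) :
    pw E J b (insert w U) (update s w false) x = pw E J b U s x * (1 - X x w) := by
  rw [pw_insert E J b hw]
  unfold X
  cases h : x w <;> simp

lemma Zp_split {U : Finset (Fin n)} {w : Fin n} (hw : w ∉ U) (s : Fin n → Bool) :
    Zp E J b U s = Zp E J b (insert w U) (update s w true) +
      Zp E J b (insert w U) (update s w false) := by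
  simp only [Zp, pw_true E J b hw, pw_false E J b hw, ← sum_add_distrib]
  exact sum_congr rfl fun x _ => by ring

lemma pm_split {U : Finset (Fin n)} {w : Fin n} (hw : w ∉ U) (s : Fin n → Bool) :
    pm E J b U s = fun x =>
      Zp E J b (insert w U) (update s w true) / Zp E J b U s *
        pm E J b (insert w U) (update s w true) x +
      (1 - Zp E J b (insert w U) (update s w true) / Zp E J b U s) *
        pm E J b (insert w U) (update s w false) x := by
  ext x
  have h0 := Zp_pos E J b U s
  have h1 := Zp_pos E J b (insert w U) (update s w true)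
  have h2 := Zp_pos E J b (insert w U) (update s w false)
  have h3 : 1 - Zp E J b (insert w U) (update s w true) / Zp E J b U s =
      Zp E J b (insert w U) (update s w false) / Zp E J b U s := by
    field_simp
    rw [Zp_split E J b hw s]
    ring
  rw [h3]
  simp only [pm, pw_true E J b hw, pw_false E J b hw]
  field_simp
  ring

lemma mean_pinned {U : Finset (Fin n)} (s : Fin n → Bool) {v : Fin n} (hv : v ∈ U) :
    mean (pm E J b U s) v = X s v := by
  rw [mean, ← one_mul (X s v), ← sum_pm E J b U s, sum_mul]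
  refine sum_congr rfl fun x _ => ?_
  by_cases h : ∀ v ∈ U, x v = s v
  · simp only [X, h v hv]
  · simp [pm, pw, h]

lemma cov_eq {U : Finset (Fin n)} {w : Fin n} (hw : w ∉ U) (s : Fin n → Bool) (v : Fin n) :
    cov (pw E J b U s) (fun x => X x v) (fun x => X x w) =
      Zp E J b (insert w U) (update s w true) * Zp E J b (insert w U) (update s w false) *
      (mean (pm E J b (insert w U) (update s w true)) v -
        mean (pm E J b (insert w U) (update s w false)) v) := by
  have h1 := Zp_pos E J b (insert w U) (update s w true)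
  have h2 := Zp_pos E J b (insert w U) (update s w false)
  have e0 : ∀ U s, mean (pm E J b U s) v = (∑ x, pw E J b U s x * X x v) / Zp E J b U s := by
    intro U s
    rw [mean, sum_div]
    exact sum_congr rfl fun x _ => by rw [pm]; ring
  have e1 : ∑ x, pw E J b U s x * (X x v * X x w) =
      ∑ x, pw E J b (insert w U) (update s w true) x * X x v :=
    sum_congr rfl fun x _ => by rw [pw_true E J b hw]; ring
  have e2 : ∑ x, pw E J b U s x * X x v =
      ∑ x, pw E J b (insert w U) (update s w true) x * X x v +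
      ∑ x, pw E J b (insert w U) (update s w false) x * X x v := by
    rw [← sum_add_distrib]
    exact sum_congr rfl fun x _ => by rw [pw_true E J b hw, pw_false E J b hw]; ring
  have e3 : ∑ x, pw E J b U s x * X x w = Zp E J b (insert w U) (update s w true) :=
    sum_congr rfl fun x _ => by rw [pw_true E J b hw]
  have e4 := Zp_split E J b hw s
  rw [cov, e1, e2, e3, e0, e0]
  change Zp E J b U s * _ - _ = _
  rw [e4]
  field_simp
  ring

lemma En_flip (hJ : 0 ≤ J) (v : Fin n) (x : Fin n → Bool) (c : Bool) :
    En E J b x ≤ En E J b (update x v c) + (|b v| + J * degE E v) := by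
  have hX : ∀ u, u ≠ v → X (update x v c) u = X x u := fun u hu => by
    simp only [X, update_of_ne hu]
  have e1 : ∑ u, b u * X x u ≤ ∑ u, b u * X (update x v c) u + |b v| := by
    rw [← sub_le_iff_le_add', ← sum_sub_distrib, sum_eq_single v]
    · rw [← mul_sub]
      refine (le_abs_self _).trans ?_
      rw [abs_mul]
      refine mul_le_of_le_one_right (abs_nonneg _) (abs_le.2 ⟨?_, ?_⟩) <;>
        linarith [X_nonneg x v, X_le_one x v, X_nonneg (update x v c) v, X_le_one (update x v c) v]
    · intro u _ hu
      rw [hX u hu, sub_self]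
    · simp
  have e2 : ∑ e ∈ E, X x e.1 * X x e.2 ≤
      ∑ e ∈ E, X (update x v c) e.1 * X (update x v c) e.2 + degE E v := by
    rw [degE, card_filter, Nat.cast_sum, ← sum_add_distrib]
    refine sum_le_sum fun e _ => ?_
    split_ifs with h
    · have := mul_le_one₀ (X_le_one x e.1) (X_nonneg x e.2) (X_le_one x e.2)
      have := mul_nonneg (X_nonneg (update x v c) e.1) (X_nonneg (update x v c) e.2)
      push_cast
      linarith
    · push Not at h
      rw [hX _ h.1, hX _ h.2]
      simp
  have := mul_le_mul_of_nonneg_left e2 hJ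
  simp only [En]
  linarith

lemma pw_flip (hJ : 0 ≤ J) {U : Finset (Fin n)} {v : Fin n} (hv : v ∉ U) (s x : Fin n → Bool)
    (c : Bool) :
    pw E J b U s x ≤ exp (|b v| + J * degE E v) * pw E J b U s (update x v c) := by
  have : (∀ u ∈ U, update x v c u = s u) ↔ ∀ u ∈ U, x u = s u :=
    forall₂_congr fun u hu => by rw [update_of_ne (by rintro rfl; exact hv hu)]
  simp only [pw, this]
  split_ifs
  · rw [← exp_add]
    exact exp_le_exp.2 (by linarith [En_flip E J b hJ v x c])
  · simp

lemma mean_bounds (hJ : 0 ≤ J) {U : Finset (Fin n)} {v : Fin n} (hv : v ∉ U) (s : Fin n → Bool)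
    {C : ℝ} (hC : exp (|b v| + J * degE E v) ≤ C) :
    mean (pm E J b U s) v ≤ C * (1 - mean (pm E J b U s) v) ∧
      1 - mean (pm E J b U s) v ≤ C * mean (pm E J b U s) v := by
  let f : (Fin n → Bool) → Fin n → Bool := fun x => update x v (!x v)
  have hf : Involutive f := fun x => by simp [f]
  have hX : ∀ x, X (f x) v = 1 - X x v := fun x => by
    simp only [X, f, update_self]
    cases x v <;> simp
  have hpm : ∀ x, pm E J b U s x ≤ C * pm E J b U s (f x) := fun x => by
    rw [pm, pm, ← mul_div_assoc]
    exact div_le_div_of_nonneg_right ((pw_flip E J b hJ hv s x _).trans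
      (mul_le_mul_of_nonneg_right hC (pw_nonneg E J b U s _))) (Zp_pos E J b U s).le
  have e1 : 1 - mean (pm E J b U s) v = ∑ x, pm E J b U s x * (1 - X x v) := by
    simp only [mul_sub, mul_one, sum_sub_distrib, sum_pm, mean]
  constructor
  · rw [e1, ← hf.bijective.sum_comp, mul_sum]
    refine sum_le_sum fun x _ => ?_
    rw [hX, sub_sub_cancel, ← mul_assoc]
    exact mul_le_mul_of_nonneg_right (hpm x) (X_nonneg x v)
  · rw [e1, mean, ← hf.bijective.sum_comp fun x => pm E J b U s x * X x v, mul_sum]
    refine sum_le_sum fun x _ => ?_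
    rw [hX, ← mul_assoc]
    exact mul_le_mul_of_nonneg_right (hpm x) (sub_nonneg.2 (X_le_one x v))

lemma var_lower {m C : ℝ} (h0 : 0 ≤ m) (h0' : m ≤ 1) (hC : 0 ≤ C) (h1 : m ≤ C * (1 - m))
    (h2 : 1 - m ≤ C * m) : 0 < m ∧ m < 1 ∧ 1 ≤ (1 + C) ^ 2 * (m * (1 - m)) := by
  have e1 : 1 ≤ (1 + C) * m := by linarith
  have e2 : 1 ≤ (1 + C) * (1 - m) := by linarith
  refine ⟨h0.lt_of_ne (by rintro rfl; linarith), h0'.lt_of_ne (by rintro rfl; linarith), ?_⟩
  calc (1 : ℝ) = 1 * 1 := by ring
    _ ≤ ((1 + C) * m) * ((1 + C) * (1 - m)) := mul_le_mul e1 e2 zero_le_one (by linarith)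
    _ = _ := by ring

end Pool.Agent.H181Z.Is.Upper
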