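import Mathlib
import Pool.Agent.H181Z.IsSt

/-!
# The extended Ising model on locally tree-like graphs: the probabilistic step
-/

set_option autoImplicit false

namespace Pool.Agent.H181Z.Is

open Finset Real MeasureTheory Filter Topology

namespace Prob

variable {Ω : Type} [MeasurableSpace Ω] {P : Measure Ω} [IsProbabilityMeasure P]

theorem integ {α : Type} [Finite α] {G : Ω → α} (hG : ∀ g, MeasurableSet {ω | G ω = g})
    (F : α → ℝ) : Integrable (fun ω => F (G ω)) P := by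
  classical
  have := Fintype.ofFinite α
  have : (fun ω => F (G ω)) = fun ω => ∑ g, {ω | G ω = g}.indicator (fun _ => F g) ω := by
    funext ω
    simp [Set.indicator_apply]
  rw [this]
  exact integrable_finset_sum _ fun g _ => (integrable_const _).indicator (hG g)

theorem exists_not_mem {A : Set Ω} (h : P.real A < 1) : ∃ ω, ω ∉ A := by
  by_contra hc
  push Not at hc
  rw [Set.eq_univ_of_forall hc] at h
  simp at h

theorem conc (f : ℕ → Ω → ℝ) (h : ∀ ε : ℝ, 0 < ε → ε < 1 / 6 →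
    ∃ c, ∀ᶠ n in atTop, P.real {ω | ε < |f n ω - c|} ≤ 3 * ε) :
    ∃ φ : ℝ, TendstoInMeasure P f atTop fun _ => φ := by
  choose! c hc using h
  have h1 : ∀ ε ε', 0 < ε → ε < 1 / 6 → 0 < ε' → ε' < 1 / 6 → c ε - ε ≤ c ε' + ε' := by
    intro ε ε' a1 a2 a3 a4
    obtain ⟨n, b1, b2⟩ := ((hc ε a1 a2).and (hc ε' a3 a4)).exists
    obtain ⟨ω, hω⟩ := exists_not_mem (P := P)
      ((measureReal_union_le {ω | ε < |f n ω - c ε|} {ω | ε' < |f n ω - c ε'|}).trans_lt
        (by linarith))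
    simp only [Set.mem_union, Set.mem_setOf_eq, not_or, not_lt, abs_le] at hω
    linarith [hω.1.1, hω.2.2]
  let S : Set ℝ := {y | ∃ ε, 0 < ε ∧ ε < 1 / 6 ∧ y = c ε - ε}
  have h2 : ∀ ε, 0 < ε → ε < 1 / 6 → |c ε - sSup S| ≤ ε := by
    intro ε a1 a2
    have hb : ∀ y ∈ S, y ≤ c ε + ε := by
      rintro _ ⟨ε', b1, b2, rfl⟩
      exact h1 _ _ b1 b2 a1 a2
    have e1 : c ε - ε ≤ sSup S := le_csSup ⟨_, hb⟩ ⟨ε, a1, a2, rfl⟩
    have e2 : sSup S ≤ c ε + ε := csSup_le ⟨_, ε, a1, a2, rfl⟩ hb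
    rw [abs_le]
    constructor <;> linarith
  refine ⟨sSup S, tendstoInMeasure_iff_measureReal_dist.2 fun δ hδ => ?_⟩
  refine tendsto_order.2 ⟨fun a ha => Eventually.of_forall fun n =>
    ha.trans_le measureReal_nonneg, fun a ha => ?_⟩
  obtain ⟨ε, a1, a2, a3, a4⟩ : ∃ ε : ℝ, 0 < ε ∧ ε < 1 / 6 ∧ 2 * ε < δ ∧ 3 * ε < a := by
    refine ⟨min (1 / 7) (min (δ / 3) (a / 4)), by positivity, ?_, ?_, ?_⟩
    · linarith [min_le_left (1 / 7 : ℝ) (min (δ / 3) (a / 4))]
    · linarith [(min_le_right (1 / 7 : ℝ) _).trans (min_le_left (δ / 3) (a / 4))]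
    · linarith [(min_le_right (1 / 7 : ℝ) _).trans (min_le_right (δ / 3) (a / 4))]
  filter_upwards [hc ε a1 a2] with n hn
  refine lt_of_le_of_lt ((measureReal_mono fun ω hω => ?_).trans hn) a4
  have e1 := abs_sub_le (f n ω) (c ε) (sSup S)
  have e2 := h2 ε a1 a2
  simp only [Set.mem_setOf_eq, Real.dist_eq] at hω ⊢
  linarith

theorem heavy_eq {n : ℕ} (G : SimpleGraph (Fin n)) (Δ : ℕ) :
    (∑ v, if Δ < deg G v then (deg G v : ℝ) else 0) / n = (∑ v, (deg G v : ℝ)) / n -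
      ∑ j ∈ range (Δ + 1), j * frac (fun v => deg G v = j) := by
  have h1 : ∀ j : ℕ, (j : ℝ) * frac (fun v => deg G v = j) =
      (∑ v, if deg G v = j then (deg G v : ℝ) else 0) / n := fun j => by
    unfold frac
    rw [← mul_div_assoc, ← sum_filter, sum_congr rfl (g := fun _ => (j : ℝ))
      (fun v hv => by rw [(mem_filter.1 hv).2]), sum_const, nsmul_eq_mul, mul_comm]
    congr!
  simp only [h1]
  rw [← sum_div, ← sub_div, sum_comm, ← sum_sub_distrib]
  congr 1
  refine sum_congr rfl fun v _ => ?_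
  rw [sum_ite_eq]
  simp only [mem_range]
  split_ifs <;> first | omega | simp

omit [IsProbabilityMeasure P] in
theorem markov {f : Ω → ℝ} (h0 : ∀ ω, 0 ≤ f ω) (hf : Integrable f P) {a ε : ℝ} (ha : 0 < a)
    (h : ∫ ω, f ω ∂P < a * ε) : P.real {ω | a ≤ f ω} ≤ ε :=
  le_of_mul_le_mul_left
    ((mul_meas_ge_le_integral_of_nonneg (Eventually.of_forall h0) hf a).trans h.le) ha

end Prob

open Prob

theorem thm_main (hc : S_cmp) (ht : S_tight) : S_main := by
  intro Ω _ P _ G hG q m _ hm hq hd Ω' _ P' _ V T o hT hloc β k h hβ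
  refine conc _ fun ε a1 a2 => ?_
  have hD : 0 < (|m| + 1) / ε := by positivity
  obtain ⟨η1, b1, hc1⟩ := hc β k h ε _ hβ a1 hD
  obtain ⟨Δ, hΔ⟩ : ∃ Δ : ℕ, m - ∑ j ∈ range (Δ + 1), j * q j < η1 * ε := by
    have := (hm.tendsto_sum_nat.comp (tendsto_add_atTop_nat 1)).eventually
      (lt_mem_nhds (show m - η1 * ε < m by have := mul_pos b1 a1; linarith))
    obtain ⟨Δ, hΔ⟩ := this.exists
    exact ⟨Δ, by simp only [Function.comp] at hΔ; linarith⟩
  obtain ⟨r, η0, c1, c2, hc2⟩ := hc1 Δ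
  obtain ⟨s, d1, d2⟩ := ht Ω' P' V T o hT r η0 c2
  obtain ⟨η, e1, hc3⟩ := hc2 s d1
  set p : RG → ℝ := fun i => P'.real {ω | BallIso (T ω) (o ω) r i.2.1 i.2.2} with hp
  have hc4 := hc3 p d2
  have t1 : ∀ᶠ n : ℕ in atTop, P.real {ω | (|m| + 1) / ε ≤ (∑ v, (deg (G n ω) v : ℝ)) / n} ≤ ε := by
    filter_upwards [hd.eventually (gt_mem_nhds (show m < |m| + 1 by linarith [le_abs_self m]))]
      with n hn
    exact markov (fun ω => by positivity)
      (integ (hG n) fun g => (∑ v, (deg g v : ℝ)) / n) hD (by rwa [div_mul_cancel₀ _ a1.ne'])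
  have t2 : ∀ᶠ n : ℕ in atTop, P.real {ω | η1 ≤
      (∑ v, if Δ < deg (G n ω) v then (deg (G n ω) v : ℝ) else 0) / n} ≤ ε := by
    have := hd.sub (tendsto_finset_sum (range (Δ + 1)) fun j _ => (hq j).const_mul (j : ℝ))
    filter_upwards [this.eventually (gt_mem_nhds hΔ)] with n hn
    refine markov (fun ω => div_nonneg (sum_nonneg fun v _ => by positivity) (Nat.cast_nonneg _))
      (integ (hG n) fun g => (∑ v, if Δ < deg g v then (deg g v : ℝ) else 0) / n) b1 ?_
    simp only [heavy_eq]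
    rw [integral_sub (integ (hG n) fun g => (∑ v, (deg g v : ℝ)) / n)
      (integ (hG n) fun g => ∑ j ∈ range (Δ + 1), j * frac fun v => deg g v = j),
      integral_finset_sum _ fun j _ => integ (hG n) fun g => j * frac fun v => deg g v = j]
    simpa only [integral_const_mul] using hn
  have t3 : ∀ᶠ n : ℕ in atTop, ∑ i ∈ s, P.real {ω | η ≤
      dist (frac fun v => BallIso (G n ω) v r i.2.1 i.2.2) (p i)} < ε := by
    have := tendsto_finset_sum s fun i _ =>
      tendstoInMeasure_iff_measureReal_dist.1 (hloc r c1 i.1 i.2.1 i.2.2) η e1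
    rw [sum_const_zero] at this
    exact this.eventually (gt_mem_nhds a1)
  have t4 : ∀ᶠ n : ℕ in atTop, 0 < n ∧
      P.real {ω | ¬ Typ (G n ω) ((|m| + 1) / ε) η1 Δ r s p η} ≤ 3 * ε := by
    filter_upwards [t1, t2, t3, eventually_gt_atTop 0] with n u1 u2 u3 hn
    refine ⟨hn, ?_⟩
    have hn' : (0 : ℝ) < n := by exact_mod_cast hn
    refine le_trans ((measureReal_mono fun ω hω => ?_).trans ((measureReal_union_le _ _).trans
      (add_le_add ((measureReal_union_le _ _).trans (add_le_add u1 u2))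
        ((measureReal_biUnion_finset_le s _).trans u3.le)))) (by linarith)
    by_contra hcon
    simp only [Set.mem_union, Set.mem_setOf_eq, Set.mem_iUnion, not_or, not_le, not_exists,
      div_lt_iff₀ hn', Real.dist_eq] at hcon
    exact hω ⟨hcon.1.1.le, hcon.1.2.le, fun i hi => (hcon.2 i hi).le⟩
  obtain ⟨n0, f1, f2⟩ := t4.exists
  obtain ⟨ω0, f3⟩ := exists_not_mem (f2.trans_lt (by linarith))
  have f4 := not_not.1 f3
  refine ⟨log (Zext (G n0 ω0) β k h) / n0, ?_⟩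
  filter_upwards [t4] with n ⟨hn, u⟩
  refine (measureReal_mono fun ω hω hty => ?_).trans u
  rw [Set.mem_setOf_eq] at hω
  refine absurd hω (not_lt.2 (abs_le.2 ⟨?_, ?_⟩))
  · linarith [hc4 n n0 _ _ hn f1 hty f4]
  · linarith [hc4 n0 n _ _ f1 hn f4 hty]

end Pool.Agent.H181Z.Is
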