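import Mathlib
import Pool.Agent.H181Z.IsSt

/-!
# From the Bethe functional to the replicated functional
-/

set_option autoImplicit false

namespace Pool.Agent.H181Z.Is

open Finset Real

namespace Rep

/-- number of occupied replicas -/
def cnt {k : ℕ} (z : Fin k → Bool) : ℕ := (univ.filter fun l => z l = true).card

lemma cnt_le {k : ℕ} (z : Fin k → Bool) : cnt z ≤ k := by
  unfold cnt
  simpa using card_filter_le (univ : Finset (Fin k)) (fun l => z l = true)

/-- the occupied set -/
def occ {k : ℕ} : (Fin k → Bool) ≃ Finset (Fin k) where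
  toFun z := univ.filter fun l => z l = true
  invFun S := fun l => decide (l ∈ S)
  left_inv z := by
    funext l
    simp
  right_inv S := by
    ext l
    simp

lemma card_occ {k : ℕ} (z : Fin k → Bool) : (occ z).card = cnt z := rfl

lemma mem_occ {k : ℕ} (z : Fin k → Bool) (l : Fin k) : l ∈ occ z ↔ z l = true := by
  simp [occ]

lemma card_cnt (k a : ℕ) :
    (univ.filter fun z : Fin k → Bool => cnt z = a).card = k.choose a := by
  have h : (powersetCard a (univ : Finset (Fin k))).card = k.choose a := by simp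
  rw [← h]
  refine card_equiv occ ?_
  intro z
  simp [mem_powersetCard, card_occ]

/-- pushing a product measure forward -/
lemma push {n k : ℕ} {T : Type} [Fintype T] [DecidableEq T] (μ : (Fin n → Bool) → ℝ)
    (c : (Fin n → Bool) → T) (F : (Fin k → T) → ℝ) :
    ∑ Y : Fin k → (Fin n → Bool), (∏ l, μ (Y l)) * F (fun l => c (Y l)) =
      ∑ z : Fin k → T, (∏ l, marg μ c (z l)) * F z := by
  have h : ∀ z : Fin k → T, ∏ l, marg μ c (z l) =
      ∑ Y : Fin k → (Fin n → Bool), if (fun l => c (Y l)) = z then ∏ l, μ (Y l) else 0 := by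
    intro z
    unfold marg
    rw [prod_univ_sum, Fintype.piFinset_univ]
    refine sum_congr rfl fun Y _ => ?_
    by_cases hY : (fun l => c (Y l)) = z
    · rw [if_pos hY]
      refine prod_congr rfl fun l _ => ?_
      rw [if_pos (congrFun hY l)]
    · rw [if_neg hY]
      obtain ⟨l, hl⟩ : ∃ l, c (Y l) ≠ z l := by
        by_contra hc
        push Not at hc
        exact hY (funext hc)
      exact prod_eq_zero (mem_univ l) (if_neg hl)
  simp_rw [h, sum_mul]
  rw [sum_comm]
  refine sum_congr rfl fun Y _ => ?_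
  rw [sum_eq_single (fun l => c (Y l))]
  · simp
  · intro z _ hz
    rw [if_neg (Ne.symm hz), zero_mul]
  · simp

lemma sum_prod_one {k : ℕ} {T : Type} [Fintype T] [DecidableEq T] (p : T → ℝ)
    (hp : ∑ y, p y = 1) : ∑ z : Fin k → T, ∏ l, p (z l) = 1 := by
  have := prod_univ_sum (fun _ : Fin k => (univ : Finset T)) (fun _ y => p y)
  rw [Fintype.piFinset_univ] at this
  rw [← this]
  simp [hp]

/-- tensorisation of additive functionals -/
lemma tensor {k : ℕ} {T : Type} [Fintype T] [DecidableEq T] (p f : T → ℝ)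
    (hp : ∑ y, p y = 1) :
    ∑ z : Fin k → T, (∏ l, p (z l)) * ∑ l, f (z l) = k * ∑ y, p y * f y := by
  have h : ∀ m : Fin k, ∑ z : Fin k → T, (∏ l, p (z l)) * f (z m) = ∑ y, p y * f y := by
    intro m
    have h1 := prod_univ_sum (fun _ : Fin k => (univ : Finset T))
      (fun l y => p y * if l = m then f y else 1)
    rw [Fintype.piFinset_univ] at h1
    have h2 : ∀ z : Fin k → T, ∏ l, (p (z l) * if l = m then f (z l) else 1) =
        (∏ l, p (z l)) * f (z m) := by
      intro z
      rw [prod_mul_distrib]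
      simp
    simp_rw [h2] at h1
    rw [← h1, prod_eq_single m]
    · simp
    · intro l _ hl
      simp [hl, hp]
    · simp
  simp_rw [mul_sum]
  rw [sum_comm]
  simp_rw [h]
  simp [mul_sum]

lemma ent_prod {k : ℕ} {T : Type} [Fintype T] [DecidableEq T] (p : T → ℝ)
    (hp : ∑ y, p y = 1) :
    ∑ z : Fin k → T, negMulLog (∏ l, p (z l)) = k * ∑ y, negMulLog (p y) := by
  have h := tensor (k := k) p (fun y => -log (p y)) hp
  have h2 : ∀ y, p y * -log (p y) = negMulLog (p y) := by
    intro y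
    simp [negMulLog]
  simp_rw [h2] at h
  rw [← h]
  refine sum_congr rfl fun z _ => ?_
  by_cases h0 : ∏ l, p (z l) = 0
  · simp [h0]
  · have hne : ∀ l ∈ (univ : Finset (Fin k)), p (z l) ≠ 0 := prod_ne_zero_iff.mp h0
    rw [negMulLog, log_prod hne]
    simp

/-- the grouped Gibbs inequality -/
lemma gibbs {Z C : Type} [Fintype Z] [DecidableEq C] (P ψ : Z → ℝ) (cl : Z → C) (Tt : C → ℝ)
    (s : Finset C) (N : ℝ) (hP : ∀ z, 0 ≤ P z) (hP1 : ∑ z, P z = 1) (hs : ∀ z, cl z ∈ s)
    (hN : (s.card : ℝ) ≤ N) (hN0 : 0 < N) (hT0 : ∀ c ∈ s, 0 < Tt c)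
    (hT : ∀ c ∈ s, ∑ z with cl z = c, exp (ψ z) ≤ Tt c) :
    ∑ z, P z * ψ z + ∑ z, negMulLog (P z) - log N ≤ ∑ z, P z * log (Tt (cl z)) := by
  have h1 : ∀ z, P z * ψ z + negMulLog (P z) - P z * log N - P z * log (Tt (cl z)) ≤
      exp (ψ z) / (Tt (cl z) * N) - P z := by
    intro z
    have hT' := hT0 _ (hs z)
    rcases (hP z).eq_or_lt with h0 | h0
    · rw [← h0]
      simp only [zero_mul, negMulLog_zero, add_zero, sub_zero]
      positivity
    · have ht : 0 < exp (ψ z) / (Tt (cl z) * N * P z) := by positivity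
      have := log_le_sub_one_of_pos ht
      rw [log_div (by positivity) (by positivity), log_mul (by positivity) h0.ne',
        log_mul hT'.ne' hN0.ne', log_exp] at this
      have h3 := mul_le_mul_of_nonneg_left this h0.le
      have h4 : P z * (exp (ψ z) / (Tt (cl z) * N * P z) - 1) =
          exp (ψ z) / (Tt (cl z) * N) - P z := by
        field_simp
      rw [h4] at h3
      rw [negMulLog]
      linarith
  have h2 : ∑ z, exp (ψ z) / (Tt (cl z) * N) ≤ 1 := by
    rw [← sum_fiberwise_of_maps_to (s := univ) (t := s) (g := cl) (fun z _ => hs z)]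
    have : ∀ c ∈ s, ∑ z with cl z = c, exp (ψ z) / (Tt (cl z) * N) ≤ 1 / N := by
      intro c hc
      have e : ∑ z with cl z = c, exp (ψ z) / (Tt (cl z) * N) =
          (∑ z with cl z = c, exp (ψ z)) / (Tt c * N) := by
        rw [sum_div]
        refine sum_congr rfl fun z hz => ?_
        rw [(mem_filter.mp hz).2]
      rw [e]
      have hc0 := hT0 c hc
      rw [div_le_div_iff₀ (by positivity) hN0]
      nlinarith [hT c hc]
    refine (sum_le_sum this).trans ?_
    rw [sum_const, nsmul_eq_mul, mul_one_div, div_le_one hN0]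
    exact hN
  have h3 := sum_le_sum fun z (_ : z ∈ (univ : Finset Z)) => h1 z
  simp only [sum_sub_distrib, sum_add_distrib] at h3
  rw [← sum_mul, hP1] at h3
  linarith

lemma prod_bool {k : ℕ} (p : Bool → ℝ) (z : Fin k → Bool) :
    ∏ l, p (z l) = p true ^ cnt z * p false ^ (k - cnt z) := by
  rw [← prod_filter_mul_prod_filter_not univ (fun l => z l = true)]
  have h1 : ∏ l ∈ univ.filter (fun l => z l = true), p (z l) = p true ^ cnt z := by
    rw [prod_congr rfl (g := fun _ => p true)]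
    · simp [cnt]
    · intro l hl
      rw [(mem_filter.mp hl).2]
  have h2 : ∏ l ∈ univ.filter (fun l => ¬ z l = true), p (z l) = p false ^ (k - cnt z) := by
    rw [prod_congr rfl (g := fun _ => p false)]
    · rw [prod_const]
      congr 1
      have := card_filter_add_card_filter_not (s := (univ : Finset (Fin k)))
        (fun l => z l = true)
      simp only [card_univ, Fintype.card_fin] at this
      unfold cnt
      omega
    · intro l hl
      have := (mem_filter.mp hl).2
      simp only [Bool.not_eq_true] at this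
      rw [this]
  rw [h1, h2]

lemma vert_lower {k : ℕ} (p : Bool → ℝ) (hp0 : ∀ y, 0 ≤ p y) (hp : ∑ y, p y = 1) :
    k * ∑ y, negMulLog (p y) - log (k + 1) ≤
      ∑ z : Fin k → Bool, (∏ l, p (z l)) * log (k.choose (cnt z)) := by
  have h := gibbs (Z := Fin k → Bool) (fun z => ∏ l, p (z l)) (fun _ => 0) cnt
    (fun a => (k.choose a : ℝ)) (range (k + 1)) (k + 1)
    (fun z => prod_nonneg fun l _ => hp0 _) (sum_prod_one p hp)
    (fun z => mem_range.mpr (Nat.lt_succ_of_le (cnt_le z))) (by simp) (by positivity)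
    (fun c hc => by exact_mod_cast Nat.choose_pos (Nat.le_of_lt_succ (mem_range.mp hc)))
    (fun c _ => by simp [card_cnt])
  rw [ent_prod p hp] at h
  simpa using h

lemma vert_upper {k : ℕ} (p : Bool → ℝ) (hp0 : ∀ y, 0 ≤ p y) (hp : ∑ y, p y = 1) :
    ∑ z : Fin k → Bool, (∏ l, p (z l)) * log (k.choose (cnt z)) ≤
      k * ∑ y, negMulLog (p y) := by
  rw [← ent_prod p hp]
  refine sum_le_sum fun z _ => ?_
  have hz : 0 ≤ ∏ l, p (z l) := prod_nonneg fun l _ => hp0 _
  rcases hz.eq_or_lt with h0 | h0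
  · rw [← h0]
    simp
  · have h1 : (k.choose (cnt z) : ℝ) * ∏ l, p (z l) ≤ 1 := by
      rw [← sum_prod_one (k := k) p hp, ← card_cnt, ← nsmul_eq_mul, ← sum_const]
      calc ∑ _z' ∈ univ.filter (fun z' : Fin k → Bool => cnt z' = cnt z), ∏ l, p (z l)
          = ∑ z' ∈ univ.filter (fun z' : Fin k → Bool => cnt z' = cnt z), ∏ l, p (z' l) := by
            refine sum_congr rfl fun z' hz' => ?_
            rw [prod_bool, prod_bool, (mem_filter.mp hz').2]
        _ ≤ _ := sum_le_sum_of_subset_of_nonneg (filter_subset _ _)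
            fun z' _ _ => prod_nonneg fun l _ => hp0 _
    have hc : (0 : ℝ) < k.choose (cnt z) := by exact_mod_cast Nat.choose_pos (cnt_le z)
    have h2 := log_nonpos (by positivity) h1
    rw [log_mul hc.ne' h0.ne'] at h2
    rw [negMulLog]
    nlinarith

lemma one_le_W (k : ℕ) (γ : ℝ) (hγ : 0 ≤ γ) (a a' : ℕ) : 1 ≤ W k γ a a' := by
  unfold W
  have h : (1 : ℝ) = γ ^ 0 * (a.choose 0 * a'.choose 0) / k.choose 0 := by simp
  rw [h]
  exact single_le_sum (f := fun j => γ ^ j * (a.choose j * a'.choose j) / (k.choose j : ℝ))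
    (fun j _ => by positivity) (mem_range.mpr (Nat.succ_pos k))

/-- number of sets of given size containing a given set -/
lemma card_sup {k : ℕ} (U : Finset (Fin k)) (a : ℕ) :
    ((univ.filter fun z : Fin k → Bool => cnt z = a ∧ U ⊆ occ z).card : ℝ) =
      k.choose a * a.choose U.card / k.choose U.card := by
  have hU : U.card ≤ k := by simpa using card_le_univ U
  have hc : (0 : ℝ) < k.choose U.card := by exact_mod_cast Nat.choose_pos hU
  have h1 : (univ.filter fun z : Fin k → Bool => cnt z = a ∧ U ⊆ occ z).card =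
      ((powersetCard a (univ : Finset (Fin k))).filter fun S => U ⊆ S).card := by
    refine card_equiv occ ?_
    intro z
    simp [mem_powersetCard, card_occ]
  rw [h1, eq_div_iff hc.ne']
  by_cases hj : U.card ≤ a
  · rw [card_filter_powersetCard_subset _ _ _ (subset_univ U) hj]
    have := Nat.choose_mul (n := k) (k := a) (s := U.card) hj
    simp only [card_univ, Fintype.card_fin]
    rw [mul_comm]
    exact_mod_cast this.symm
  · push Not at hj
    rw [Nat.choose_eq_zero_of_lt hj]
    have : ((powersetCard a (univ : Finset (Fin k))).filter fun S => U ⊆ S) = ∅ := by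
      rw [filter_eq_empty_iff]
      intro S hS hUS
      have := card_le_card hUS
      rw [(mem_powersetCard.mp hS).2] at this
      omega
    simp [this]

/-- indicator of a Boolean -/
def ind (y : Bool) : ℝ := if y then 1 else 0

lemma exp_expand {k : ℕ} (J : ℝ) (x y : Fin k → Bool) :
    exp (∑ l, J * (ind (x l) * ind (y l))) = ∑ U ∈ (univ : Finset (Fin k)).powerset,
      (exp J - 1) ^ U.card * ((if U ⊆ occ x then 1 else 0) * if U ⊆ occ y then 1 else 0) := by
  rw [exp_sum]
  have h : ∀ l, exp (J * (ind (x l) * ind (y l))) =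
      1 + (exp J - 1) * (ind (x l) * ind (y l)) := by
    intro l
    unfold ind
    cases x l <;> cases y l <;> simp
  simp_rw [h]
  rw [prod_one_add]
  refine sum_congr rfl fun U _ => ?_
  rw [prod_mul_distrib, prod_const, prod_mul_distrib]
  have h2 : ∀ z : Fin k → Bool, ∏ l ∈ U, ind (z l) = if U ⊆ occ z then 1 else 0 := by
    intro z
    split_ifs with hU
    · refine prod_eq_one fun l hl => ?_
      simp [ind, (mem_occ z l).mp (hU hl)]
    · obtain ⟨l, hl, hl'⟩ := not_subset.mp hU
      refine prod_eq_zero hl ?_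
      rw [mem_occ] at hl'
      simp [ind, hl']
  rw [h2, h2]

/-- the pair of counts -/
def cl2 {k : ℕ} (z : Fin k → Bool × Bool) : ℕ × ℕ :=
  (cnt fun l => (z l).1, cnt fun l => (z l).2)

lemma edge_sum {k : ℕ} (J : ℝ) (a a' : ℕ) :
    ∑ z : Fin k → Bool × Bool with cl2 z = (a, a'),
      exp (∑ l, J * (ind (z l).1 * ind (z l).2)) =
      k.choose a * k.choose a' * W k (exp J - 1) a a' := by
  rw [sum_filter]
  rw [Fintype.sum_equiv (Equiv.arrowProdEquivProdArrow (Fin k) (fun _ => Bool) (fun _ => Bool))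
    _ (fun q => ∑ U ∈ (univ : Finset (Fin k)).powerset, (exp J - 1) ^ U.card *
      ((if cnt q.1 = a ∧ U ⊆ occ q.1 then 1 else 0) *
        if cnt q.2 = a' ∧ U ⊆ occ q.2 then 1 else 0))]
  · rw [sum_comm]
    have h : ∀ U : Finset (Fin k), ∑ q : (Fin k → Bool) × (Fin k → Bool),
        (exp J - 1) ^ U.card * ((if cnt q.1 = a ∧ U ⊆ occ q.1 then (1 : ℝ) else 0) *
        if cnt q.2 = a' ∧ U ⊆ occ q.2 then 1 else 0) =
        (exp J - 1) ^ U.card * ((k.choose a * a.choose U.card / k.choose U.card) *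
          (k.choose a' * a'.choose U.card / k.choose U.card)) := by
      intro U
      rw [← mul_sum, Fintype.sum_prod_type, ← card_sup U a, ← card_sup U a']
      rw [← sum_boole, ← sum_boole, sum_mul_sum]
    simp_rw [h]
    rw [sum_powerset_apply_card (fun j => (exp J - 1) ^ j *
      (((k.choose a : ℝ) * a.choose j / k.choose j) *
          (k.choose a' * a'.choose j / k.choose j)))]
    unfold W
    rw [mul_sum]
    simp only [card_univ, Fintype.card_fin]
    refine sum_congr rfl fun j hj => ?_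
    have hc : (0 : ℝ) < k.choose j := by
      exact_mod_cast Nat.choose_pos (Nat.le_of_lt_succ (mem_range.mp hj))
    rw [nsmul_eq_mul]
    field_simp
  · intro z
    simp only [Equiv.arrowProdEquivProdArrow_apply]
    rw [exp_expand]
    unfold cl2
    by_cases h1 : cnt (fun l => (z l).1) = a
    · by_cases h2 : cnt (fun l => (z l).2) = a'
      · simp [h1, h2]
      · simp [h2]
    · simp [h1]

lemma edge_lower {k : ℕ} (J : ℝ) (hJ : 0 ≤ J) (p : Bool × Bool → ℝ) (hp0 : ∀ y, 0 ≤ p y)
    (hp : ∑ y, p y = 1) :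
    k * ∑ y, p y * (J * (ind y.1 * ind y.2)) + k * ∑ y, negMulLog (p y) - 2 * log (k + 1) ≤
      ∑ z : Fin k → Bool × Bool, (∏ l, p (z l)) * (log (k.choose (cl2 z).1) +
        log (k.choose (cl2 z).2) + log (W k (exp J - 1) (cl2 z).1 (cl2 z).2)) := by
  have hγ : 0 ≤ exp J - 1 := sub_nonneg.mpr (one_le_exp hJ)
  have hm : ∀ z : Fin k → Bool × Bool, cl2 z ∈ range (k + 1) ×ˢ range (k + 1) := fun z =>
    mem_product.mpr ⟨mem_range.mpr (Nat.lt_succ_of_le (cnt_le _)),
      mem_range.mpr (Nat.lt_succ_of_le (cnt_le _))⟩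
  have hpos : ∀ c ∈ range (k + 1) ×ˢ range (k + 1), (0 : ℝ) < k.choose c.1 ∧
      (0 : ℝ) < k.choose c.2 ∧ 0 < W k (exp J - 1) c.1 c.2 := by
    intro c hc
    obtain ⟨h1, h2⟩ := mem_product.mp hc
    refine ⟨?_, ?_, lt_of_lt_of_le one_pos (one_le_W _ _ hγ _ _)⟩
    · exact_mod_cast Nat.choose_pos (Nat.le_of_lt_succ (mem_range.mp h1))
    · exact_mod_cast Nat.choose_pos (Nat.le_of_lt_succ (mem_range.mp h2))
  have h := gibbs (Z := Fin k → Bool × Bool) (fun z => ∏ l, p (z l))
    (fun z => ∑ l, J * (ind (z l).1 * ind (z l).2)) cl2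
    (fun c => (k.choose c.1 : ℝ) * k.choose c.2 * W k (exp J - 1) c.1 c.2)
    (range (k + 1) ×ˢ range (k + 1)) ((k + 1) ^ 2)
    (fun z => prod_nonneg fun l _ => hp0 _) (sum_prod_one p hp) hm
    (by simp [sq]) (by positivity)
    (fun c hc => by
      obtain ⟨h1, h2, h3⟩ := hpos c hc
      positivity)
    (fun c _ => (edge_sum J c.1 c.2).le)
  rw [ent_prod p hp, tensor p (fun y => J * (ind y.1 * ind y.2)) hp, log_pow] at h
  refine le_trans (le_of_eq (by push_cast; ring)) (h.trans (le_of_eq ?_))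
  refine sum_congr rfl fun z _ => ?_
  obtain ⟨h1, h2, h3⟩ := hpos _ (hm z)
  rw [log_mul (by positivity) h3.ne', log_mul h1.ne' h2.ne']

lemma marg_nonneg {n : ℕ} {T : Type} [DecidableEq T] (μ : (Fin n → Bool) → ℝ)
    (h0 : ∀ x, 0 ≤ μ x) (c : (Fin n → Bool) → T) (y : T) : 0 ≤ marg μ c y := by
  unfold marg
  refine sum_nonneg fun x _ => ?_
  split_ifs
  · exact h0 x
  · exact le_rfl

lemma marg_int {n : ℕ} {T : Type} [Fintype T] [DecidableEq T] (μ : (Fin n → Bool) → ℝ)
    (c : (Fin n → Bool) → T) (f : T → ℝ) : ∑ y, marg μ c y * f y = ∑ x, μ x * f (c x) := by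
  unfold marg
  simp_rw [sum_mul]
  rw [sum_comm]
  refine sum_congr rfl fun x _ => ?_
  simp

lemma marg_sum {n : ℕ} {T : Type} [Fintype T] [DecidableEq T] (μ : (Fin n → Bool) → ℝ)
    (h1 : ∑ x, μ x = 1) (c : (Fin n → Bool) → T) : ∑ y, marg μ c y = 1 := by
  simpa [h1] using marg_int μ c fun _ => 1

lemma cnt_eq {k : ℕ} (z : Fin k → Bool) : (cnt z : ℝ) = ∑ l, ind (z l) := by
  unfold cnt ind
  rw [sum_boole]

end Rep

open Pool.Agent.H181Z.Is.Rep in
theorem thm_rep : S_rep := by
  intro n E J b k μ hJ h0 h1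
  set ρ : (Fin k → (Fin n → Bool)) → ℝ := fun Y => ∏ l, μ (Y l) with hρ
  set A : (Fin k → (Fin n → Bool)) → Fin n → ℕ := fun Y v => cnt fun l => Y l v with hA
  have hρ0 : ∀ Y, 0 ≤ ρ Y := fun Y => prod_nonneg fun l _ => h0 _
  have hρ1 : ∑ Y, ρ Y = 1 := sum_prod_one μ h1
  -- vertices
  have hv1 : ∀ v, ∑ Y, ρ Y * (b v * A Y v) = k * ∑ x, μ x * (b v * X x v) := by
    intro v
    rw [← tensor μ (fun x => b v * X x v) h1]
    refine sum_congr rfl fun Y _ => ?_
    rw [hA]
    simp only []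
    rw [cnt_eq, mul_sum]
    rfl
  have hv2 : ∀ v, ∑ Y, ρ Y * log (k.choose (A Y v)) =
      ∑ z : Fin k → Bool, (∏ l, marg μ (fun x => x v) (z l)) * log (k.choose (cnt z)) :=
    fun v => push μ (fun x => x v) fun z => log (k.choose (cnt z))
  have hv3 : ∀ v, k * Hv μ v - log (k + 1) ≤ ∑ Y, ρ Y * log (k.choose (A Y v)) := by
    intro v
    rw [hv2]
    exact vert_lower _ (marg_nonneg μ h0 _) (marg_sum μ h1 _)
  have hv4 : ∀ v, ∑ Y, ρ Y * log (k.choose (A Y v)) ≤ k * Hv μ v := by
    intro v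
    rw [hv2]
    exact vert_upper _ (marg_nonneg μ h0 _) (marg_sum μ h1 _)
  -- edges
  have he : ∀ e : Fin n × Fin n, k * ∑ x, μ x * (J * (X x e.1 * X x e.2)) +
      k * (He μ e - Hv μ e.1 - Hv μ e.2) - 2 * log (k + 1) ≤
      ∑ Y, ρ Y * log (W k (exp J - 1) (A Y e.1) (A Y e.2)) := by
    intro e
    have h2 := edge_lower (k := k) J hJ (marg μ fun x => (x e.1, x e.2)) (marg_nonneg μ h0 _)
      (marg_sum μ h1 _)
    rw [← push μ (fun x => (x e.1, x e.2)) (fun z => log (k.choose (cl2 z).1) +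
        log (k.choose (cl2 z).2) + log (W k (exp J - 1) (cl2 z).1 (cl2 z).2)),
      marg_int] at h2
    simp only [mul_add, sum_add_distrib] at h2
    have h3 := hv4 e.1
    have h4 := hv4 e.2
    change k * ∑ x, μ x * (J * (X x e.1 * X x e.2)) + k * He μ e - 2 * log (k + 1) ≤
      ∑ Y, ρ Y * log (k.choose (A Y e.1)) + ∑ Y, ρ Y * log (k.choose (A Y e.2)) +
        ∑ Y, ρ Y * log (W k (exp J - 1) (A Y e.1) (A Y e.2)) at h2
    linarith
  have hsum : k * Bethe E J b μ - log (k + 1) * (n + 2 * E.card) ≤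
      ∑ Y, ρ Y * Phi E (exp J - 1) b k (A Y) := by
    have e1 : ∑ Y, ρ Y * Phi E (exp J - 1) b k (A Y) =
        ∑ v, (∑ Y, ρ Y * (b v * A Y v) + ∑ Y, ρ Y * log (k.choose (A Y v))) +
          ∑ e ∈ E, ∑ Y, ρ Y * log (W k (exp J - 1) (A Y e.1) (A Y e.2)) := by
      unfold Phi
      simp only [mul_add, mul_sum, sum_add_distrib]
      rw [sum_comm (s := E), sum_comm (s := (univ : Finset (Fin n))),
        sum_comm (s := (univ : Finset (Fin n)))]
    have e2 : ∑ x, μ x * En E J b x = ∑ v, ∑ x, μ x * (b v * X x v) +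
        ∑ e ∈ E, ∑ x, μ x * (J * (X x e.1 * X x e.2)) := by
      unfold En
      simp only [mul_add, mul_sum, sum_add_distrib]
      rw [sum_comm (s := E), sum_comm (s := (univ : Finset (Fin n)))]
    have f1 : ∑ v, (k * ∑ x, μ x * (b v * X x v) + (k * Hv μ v - log (k + 1))) ≤
        ∑ v, (∑ Y, ρ Y * (b v * A Y v) + ∑ Y, ρ Y * log (k.choose (A Y v))) :=
      sum_le_sum fun v _ => add_le_add (hv1 v).ge (hv3 v)
    have f2 := sum_le_sum fun e (_ : e ∈ E) => he e
    rw [e1]
    unfold Bethe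
    rw [e2]
    simp only [sum_add_distrib, sum_sub_distrib, ← mul_sum, sum_const, card_univ,
      Fintype.card_fin, nsmul_eq_mul] at f1 f2 ⊢
    linarith
  obtain ⟨Y, -, hY⟩ := exists_max_image (univ : Finset (Fin k → (Fin n → Bool)))
    (fun Y => Phi E (exp J - 1) b k (A Y)) univ_nonempty
  refine ⟨A Y, fun v => cnt_le _, ?_⟩
  have h5 : ∑ Y', ρ Y' * Phi E (exp J - 1) b k (A Y') ≤ Phi E (exp J - 1) b k (A Y) := by
    calc _ ≤ ∑ Y', ρ Y' * Phi E (exp J - 1) b k (A Y) :=
          sum_le_sum fun Y' _ => mul_le_mul_of_nonneg_left (hY Y' (mem_univ _)) (hρ0 Y')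
      _ = _ := by rw [← sum_mul, hρ1, one_mul]
  linarith

end Pool.Agent.H181Z.Is
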