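import Mathlib
import Pool.Agent.H181Z.IsSt

/-!
# Positive correlations and the shell inequality
-/

set_option autoImplicit false

namespace Pool.Agent.H181Z.Is

open Finset Real

namespace Shell

variable {n : ℕ}

lemma X_nonneg (x : Fin n → Bool) (v : Fin n) : 0 ≤ X x v := by
  unfold X; split_ifs <;> norm_num

lemma X_le_one (x : Fin n → Bool) (v : Fin n) : X x v ≤ 1 := by
  unfold X; split_ifs <;> norm_num

lemma X_congr {x y : Fin n → Bool} {u v : Fin n} (h : x u = y v) : X x u = X y v := by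
  unfold X; rw [h]

lemma X_mono (v : Fin n) : Monotone fun x : Fin n → Bool => X x v := by
  intro x y h
  have h1 : x v ≤ y v := h v
  simp only [X]
  rcases hx : x v with _ | _ <;> rcases hy : y v with _ | _ <;> simp_all
  exact absurd h1 (by decide)

/-- indicator of a Boolean -/
def B (a : Bool) : ℝ := if a then 1 else 0

lemma X_eq (x : Fin n → Bool) (v : Fin n) : X x v = B (x v) := rfl

lemma X_mod (x y : Fin n → Bool) (v : Fin n) : X (x ⊓ y) v + X (x ⊔ y) v = X x v + X y v := by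
  simp only [X_eq, Pi.inf_apply, Pi.sup_apply]
  rcases x v with _ | _ <;> rcases y v with _ | _ <;> simp [B]

lemma XX_super (x y : Fin n → Bool) (u v : Fin n) :
    X x u * X x v + X y u * X y v ≤ X (x ⊓ y) u * X (x ⊓ y) v + X (x ⊔ y) u * X (x ⊔ y) v := by
  simp only [X_eq, Pi.inf_apply, Pi.sup_apply]
  rcases x u with _ | _ <;> rcases y u with _ | _ <;> rcases x v with _ | _ <;>
    rcases y v with _ | _ <;> simp [B]

lemma En_super (E : Finset (Fin n × Fin n)) {J : ℝ} (hJ : 0 ≤ J) (b : Fin n → ℝ)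
    (x y : Fin n → Bool) : En E J b x + En E J b y ≤ En E J b (x ⊓ y) + En E J b (x ⊔ y) := by
  unfold En
  have h1 : ∑ v, b v * X (x ⊓ y) v + ∑ v, b v * X (x ⊔ y) v =
      ∑ v, b v * X x v + ∑ v, b v * X y v := by
    rw [← sum_add_distrib, ← sum_add_distrib]
    refine sum_congr rfl fun v _ => ?_
    rw [← mul_add, ← mul_add, X_mod]
  have h2 : ∑ e ∈ E, X x e.1 * X x e.2 + ∑ e ∈ E, X y e.1 * X y e.2 ≤
      ∑ e ∈ E, X (x ⊓ y) e.1 * X (x ⊓ y) e.2 + ∑ e ∈ E, X (x ⊔ y) e.1 * X (x ⊔ y) e.2 := by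
    rw [← sum_add_distrib, ← sum_add_distrib]
    exact sum_le_sum fun e _ => XX_super x y e.1 e.2
  have h3 := mul_le_mul_of_nonneg_left h2 hJ
  rw [mul_add, mul_add] at h3
  linarith

lemma pw_nonneg (E : Finset (Fin n × Fin n)) (J : ℝ) (b : Fin n → ℝ) (U : Finset (Fin n))
    (s x : Fin n → Bool) : 0 ≤ pw E J b U s x := by
  unfold pw
  split_ifs
  · exact (exp_pos _).le
  · exact le_rfl

lemma pw_lsm (E : Finset (Fin n × Fin n)) {J : ℝ} (hJ : 0 ≤ J) (b : Fin n → ℝ)
    (U : Finset (Fin n)) (s x y : Fin n → Bool) :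
    pw E J b U s x * pw E J b U s y ≤ pw E J b U s (x ⊓ y) * pw E J b U s (x ⊔ y) := by
  by_cases hx : ∀ v ∈ U, x v = s v
  · by_cases hy : ∀ v ∈ U, y v = s v
    · have h1 : ∀ v ∈ U, (x ⊓ y) v = s v := fun v hv => by
        rw [Pi.inf_apply, hx v hv, hy v hv, inf_idem]
      have h2 : ∀ v ∈ U, (x ⊔ y) v = s v := fun v hv => by
        rw [Pi.sup_apply, hx v hv, hy v hv, sup_idem]
      unfold pw
      rw [if_pos hx, if_pos hy, if_pos h1, if_pos h2, ← exp_add, ← exp_add]
      exact exp_le_exp.mpr (En_super E hJ b x y)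
    · have : pw E J b U s y = 0 := by unfold pw; rw [if_neg hy]
      rw [this, mul_zero]
      exact mul_nonneg (pw_nonneg _ _ _ _ _ _) (pw_nonneg _ _ _ _ _ _)
  · have : pw E J b U s x = 0 := by unfold pw; rw [if_neg hx]
    rw [this, zero_mul]
    exact mul_nonneg (pw_nonneg _ _ _ _ _ _) (pw_nonneg _ _ _ _ _ _)

lemma cov_shift (μ f g : (Fin n → Bool) → ℝ) (c : ℝ) :
    cov μ (fun x => f x - c) g = cov μ f g := by
  unfold cov
  have h1 : ∑ x, μ x * ((f x - c) * g x) = ∑ x, μ x * (f x * g x) - c * ∑ x, μ x * g x := by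
    rw [mul_sum, ← sum_sub_distrib]
    exact sum_congr rfl fun x _ => by ring
  have h2 : ∑ x, μ x * (f x - c) = ∑ x, μ x * f x - c * ∑ x, μ x := by
    rw [mul_sum, ← sum_sub_distrib]
    exact sum_congr rfl fun x _ => by ring
  rw [h1, h2]
  ring

lemma cov_nonneg {μ f g : (Fin n → Bool) → ℝ} (h0 : ∀ x, 0 ≤ μ x)
    (hμ : ∀ x y, μ x * μ y ≤ μ (x ⊓ y) * μ (x ⊔ y)) (hf : Monotone f) (hg : Monotone g)
    (hg0 : ∀ x, 0 ≤ g x) : 0 ≤ cov μ f g := by
  rw [← cov_shift μ f g (f ⊥)]
  unfold cov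
  rw [sub_nonneg]
  exact fkg (μ := μ) (f := fun x => f x - f ⊥) (g := g) h0
    (fun x => sub_nonneg.mpr (hf bot_le)) hg0 (fun x y h => sub_le_sub_right (hf h) _) hg hμ

lemma cov_sub (μ f f' g : (Fin n → Bool) → ℝ) :
    cov μ (fun x => f x - f' x) g = cov μ f g - cov μ f' g := by
  unfold cov
  have h1 : ∑ x, μ x * ((f x - f' x) * g x) =
      ∑ x, μ x * (f x * g x) - ∑ x, μ x * (f' x * g x) := by
    rw [← sum_sub_distrib]
    exact sum_congr rfl fun x _ => by ring
  have h2 : ∑ x, μ x * (f x - f' x) = ∑ x, μ x * f x - ∑ x, μ x * f' x := by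
    rw [← sum_sub_distrib]
    exact sum_congr rfl fun x _ => by ring
  rw [h1, h2]
  ring

lemma cov_sum (μ g : (Fin n → Bool) → ℝ) (S : Finset (Fin n)) (f : Fin n → (Fin n → Bool) → ℝ) :
    cov μ (fun x => ∑ u ∈ S, f u x) g = ∑ u ∈ S, cov μ (f u) g := by
  unfold cov
  have h1 : ∑ x, μ x * ((∑ u ∈ S, f u x) * g x) = ∑ u ∈ S, ∑ x, μ x * (f u x * g x) := by
    rw [sum_comm]
    refine sum_congr rfl fun x _ => ?_
    rw [sum_mul, mul_sum]
  have h2 : ∑ x, μ x * (∑ u ∈ S, f u x) = ∑ u ∈ S, ∑ x, μ x * f u x := by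
    rw [sum_comm]
    refine sum_congr rfl fun x _ => ?_
    rw [mul_sum]
  rw [h1, h2, sum_sub_distrib, mul_sum, sum_mul]

/-- summing over the values inside `A` -/
lemma sum_pw (A : Finset (Fin n)) (h : (Fin n → Bool) → ℝ) :
    ∑ x, ∑ y, h (A.piecewise y x) = (Fintype.card (Fin n → Bool) : ℝ) * ∑ x, h x := by
  let φ : (Fin n → Bool) × (Fin n → Bool) → (Fin n → Bool) × (Fin n → Bool) := fun p =>
    (A.piecewise p.2 p.1, A.piecewise p.1 p.2)
  have hφ : Function.Involutive φ := by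
    rintro ⟨x, y⟩
    refine Prod.ext ?_ ?_
    · funext v
      by_cases hv : v ∈ A <;> simp [φ, Finset.piecewise, hv]
    · funext v
      by_cases hv : v ∈ A <;> simp [φ, Finset.piecewise, hv]
  have h1 : ∑ p : (Fin n → Bool) × (Fin n → Bool), h (φ p).1 =
      ∑ p : (Fin n → Bool) × (Fin n → Bool), h p.1 :=
    Equiv.sum_comp hφ.toPerm (fun p => h p.1)
  rw [Fintype.sum_prod_type, Fintype.sum_prod_type] at h1
  simp only [φ] at h1
  rw [h1, mul_sum]
  refine sum_congr rfl fun x _ => ?_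
  rw [sum_const, card_univ, nsmul_eq_mul]

lemma pw_pw (A : Finset (Fin n)) (x y z : Fin n → Bool) :
    A.piecewise z (A.piecewise y x) = A.piecewise z x := by
  funext v
  by_cases hv : v ∈ A <;> simp [Finset.piecewise, hv]

lemma En_swap (E : Finset (Fin n × Fin n)) (J : ℝ) (b : Fin n → ℝ) (A S : Finset (Fin n))
    (hE : ∀ e ∈ E, (e.1 ∈ A → e.2 ∈ A ∨ e.2 ∈ S) ∧ (e.2 ∈ A → e.1 ∈ A ∨ e.1 ∈ S))
    (x x' y y' : Fin n → Bool) (hx : ∀ u ∈ S, x u = x' u) :
    En E J b (A.piecewise y x) + En E J b (A.piecewise y' x') =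
      En E J b (A.piecewise y' x) + En E J b (A.piecewise y x') := by
  unfold En
  have h1 : ∑ v, b v * X (A.piecewise y x) v + ∑ v, b v * X (A.piecewise y' x') v =
      ∑ v, b v * X (A.piecewise y' x) v + ∑ v, b v * X (A.piecewise y x') v := by
    rw [← sum_add_distrib, ← sum_add_distrib]
    refine sum_congr rfl fun v _ => ?_
    by_cases hv : v ∈ A
    · simp only [X, Finset.piecewise, hv, if_true]
      ring
    · simp only [X, Finset.piecewise, hv, if_false]
  have h2 : ∑ e ∈ E, X (A.piecewise y x) e.1 * X (A.piecewise y x) e.2 +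
      ∑ e ∈ E, X (A.piecewise y' x') e.1 * X (A.piecewise y' x') e.2 =
      ∑ e ∈ E, X (A.piecewise y' x) e.1 * X (A.piecewise y' x) e.2 +
      ∑ e ∈ E, X (A.piecewise y x') e.1 * X (A.piecewise y x') e.2 := by
    rw [← sum_add_distrib, ← sum_add_distrib]
    refine sum_congr rfl fun e he => ?_
    obtain ⟨h3, h4⟩ := hE e he
    by_cases h5 : e.1 ∈ A <;> by_cases h6 : e.2 ∈ A
    · simp only [X, Finset.piecewise, h5, h6, if_true]
      ring
    · have h7 := hx _ ((h3 h5).resolve_left h6)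
      simp only [X, Finset.piecewise, h5, h6, if_true, if_false, h7]
      ring
    · have h7 := hx _ ((h4 h6).resolve_left h5)
      simp only [X, Finset.piecewise, h5, h6, if_true, if_false, h7]
      ring
    · simp only [X, Finset.piecewise, h5, h6, if_false]
  rw [add_add_add_comm, ← mul_add, h1, h2, mul_add, add_add_add_comm]

lemma pin_iff (U A : Finset (Fin n)) (s x y : Fin n → Bool) :
    (∀ v ∈ U ∩ A, A.piecewise y x v = s v) ↔ ∀ v ∈ U ∩ A, y v = s v := by
  refine forall_congr' fun v => forall_congr' fun hv => ?_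
  rw [Finset.piecewise_eq_of_mem _ _ _ (mem_inter.mp hv).2]

lemma pw_swap (E : Finset (Fin n × Fin n)) (J : ℝ) (b : Fin n → ℝ) (U A S : Finset (Fin n))
    (s : Fin n → Bool)
    (hE : ∀ e ∈ E, (e.1 ∈ A → e.2 ∈ A ∨ e.2 ∈ S) ∧ (e.2 ∈ A → e.1 ∈ A ∨ e.1 ∈ S))
    (x x' y y' : Fin n → Bool) (hx : ∀ u ∈ S, x u = x' u) :
    pw E J b (U ∩ A) s (A.piecewise y x) * pw E J b (U ∩ A) s (A.piecewise y' x') =
      pw E J b (U ∩ A) s (A.piecewise y' x) * pw E J b (U ∩ A) s (A.piecewise y x') := by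
  unfold pw
  simp only [pin_iff]
  by_cases h1 : ∀ v ∈ U ∩ A, y v = s v <;> by_cases h2 : ∀ v ∈ U ∩ A, y' v = s v
  · rw [if_pos h1, if_pos h2, if_pos h1, if_pos h2, ← exp_add, ← exp_add,
      En_swap E J b A S hE x x' y y' hx]
  · rw [if_neg h2, if_neg h2, mul_zero, zero_mul]
  · rw [if_neg h1, if_neg h1, mul_zero, zero_mul]
  · rw [if_neg h1, if_neg h1, mul_zero, zero_mul]

/-- conditional partition function -/
noncomputable def Zc (ν : (Fin n → Bool) → ℝ) (A : Finset (Fin n)) (x : Fin n → Bool) : ℝ :=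
  ∑ y, ν (A.piecewise y x)

/-- conditional numerator -/
noncomputable def Nc (ν : (Fin n → Bool) → ℝ) (A : Finset (Fin n)) (v : Fin n)
    (x : Fin n → Bool) : ℝ := ∑ y, ν (A.piecewise y x) * X y v

lemma cond_exp (ν F : (Fin n → Bool) → ℝ) (A : Finset (Fin n)) {v : Fin n} (hv : v ∈ A)
    (hZ : ∀ x, Zc ν A x ≠ 0) (hF : ∀ x y, F (A.piecewise y x) = F x) :
    ∑ x, ν x * F x * X x v = ∑ x, ν x * F x * (Nc ν A v x / Zc ν A x) := by
  have hM : (Fintype.card (Fin n → Bool) : ℝ) ≠ 0 := Nat.cast_ne_zero.mpr Fintype.card_ne_zero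
  refine mul_left_cancel₀ hM ?_
  rw [← sum_pw A fun x => ν x * F x * X x v,
    ← sum_pw A fun x => ν x * F x * (Nc ν A v x / Zc ν A x)]
  refine sum_congr rfl fun x _ => ?_
  have h1 : ∀ y, Nc ν A v (A.piecewise y x) = Nc ν A v x := fun y => by
    unfold Nc; simp only [pw_pw]
  have h2 : ∀ y, Zc ν A (A.piecewise y x) = Zc ν A x := fun y => by
    unfold Zc; simp only [pw_pw]
  have h3 : ∀ y, X (A.piecewise y x) v = X y v := fun y =>
    X_congr (Finset.piecewise_eq_of_mem _ _ _ hv)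
  simp only [h1, h2, h3, hF]
  have h4 : ∑ y, ν (A.piecewise y x) * F x * X y v = F x * Nc ν A v x := by
    unfold Nc
    rw [mul_sum]
    exact sum_congr rfl fun y _ => by ring
  have h5 : ∑ y, ν (A.piecewise y x) * F x * (Nc ν A v x / Zc ν A x) =
      Zc ν A x * (F x * (Nc ν A v x / Zc ν A x)) := by
    conv_rhs => unfold Zc
    rw [sum_mul]
    exact sum_congr rfl fun y _ => by unfold Zc; ring
  rw [h4, h5]
  field_simp [hZ x]

open Classical in
lemma pw_split (E : Finset (Fin n × Fin n)) (J : ℝ) (b : Fin n → ℝ) (U A : Finset (Fin n))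
    (s x : Fin n → Bool) :
    pw E J b U s x = pw E J b (U ∩ A) s x * if ∀ v ∈ U \ A, x v = s v then 1 else 0 := by
  unfold pw
  by_cases h : ∀ v ∈ U, x v = s v
  · rw [if_pos h, if_pos fun v hv => h v (mem_inter.mp hv).1,
      if_pos fun v hv => h v (mem_sdiff.mp hv).1, mul_one]
  · rw [if_neg h]
    by_cases h1 : ∀ v ∈ U ∩ A, x v = s v
    · rw [if_neg (c := ∀ v ∈ U \ A, x v = s v), mul_zero]
      intro h2
      refine h fun v hv => ?_
      by_cases hA : v ∈ A
      · exact h1 v (mem_inter.mpr ⟨hv, hA⟩)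
      · exact h2 v (mem_sdiff.mpr ⟨hv, hA⟩)
    · rw [if_neg h1, zero_mul]

end Shell

open Shell

theorem thm_fkg : S_fkg := by
  intro n E J b U s u w hJ
  exact cov_nonneg (pw_nonneg E J b U s) (pw_lsm E hJ b U s) (X_mono u) (X_mono w)
    fun x => X_nonneg x w

theorem thm_shell : S_shell := by
  classical
  intro n E J b U s A S v w hJ hv hw hE
  set ν := pw E J b (U ∩ A) s with hν
  have hν0 : ∀ x, 0 ≤ ν x := pw_nonneg E J b (U ∩ A) s
  have hZ : ∀ x, 0 < Zc ν A x := fun x => by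
    refine sum_pos' (fun y _ => hν0 _) ⟨s, mem_univ _, ?_⟩
    rw [hν]
    unfold pw
    rw [if_pos ((pin_iff U A s x s).mpr fun _ _ => rfl)]
    exact exp_pos _
  let g : (Fin n → Bool) → ℝ := fun x => Nc ν A v x / Zc ν A x
  have hg0 : ∀ x, 0 ≤ g x := fun x =>
    div_nonneg (sum_nonneg fun y _ => mul_nonneg (hν0 _) (X_nonneg _ _)) (hZ x).le
  have hg1 : ∀ x, g x ≤ 1 := fun x => by
    refine (div_le_one (hZ x)).mpr (sum_le_sum fun y _ => ?_)
    exact mul_le_of_le_one_right (hν0 _) (X_le_one _ _)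
  have hgS : ∀ x x' : Fin n → Bool, (∀ u ∈ S, x u = x' u) → g x = g x' := by
    intro x x' hx
    refine (div_eq_div_iff (hZ x).ne' (hZ x').ne').mpr ?_
    unfold Nc Zc
    rw [sum_mul_sum, sum_mul_sum]
    refine sum_congr rfl fun y _ => sum_congr rfl fun y' _ => ?_
    have := pw_swap E J b U A S s hE x x' y y' hx
    rw [← hν] at this
    calc ν (A.piecewise y x) * X y v * ν (A.piecewise y' x')
        = ν (A.piecewise y x) * ν (A.piecewise y' x') * X y v := by ring
      _ = ν (A.piecewise y' x) * ν (A.piecewise y x') * X y v := by rw [this]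
      _ = _ := by ring
  have hf : Monotone fun x : Fin n → Bool => (∑ u ∈ S, X x u) - g x := by
    intro x x' hxx
    by_cases hx : ∀ u ∈ S, x u = x' u
    · have h1 : ∑ u ∈ S, X x u = ∑ u ∈ S, X x' u := sum_congr rfl fun u hu => X_congr (hx u hu)
      simp only [h1, hgS x x' hx, le_refl]
    · push Not at hx
      obtain ⟨u, hu, hne⟩ := hx
      have h1 : X x u + 1 ≤ X x' u := by
        have h2 : x u ≤ x' u := hxx u
        simp only [X]
        rcases h3 : x u with _ | _ <;> rcases h4 : x' u with _ | _ <;> simp_all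
        exact absurd h2 (by decide)
      have h2 : ∑ u ∈ S, X x u + 1 ≤ ∑ u ∈ S, X x' u := by
        rw [← add_sum_erase S _ hu, ← add_sum_erase S (fun u => X x' u) hu]
        have h3 : ∑ u ∈ S.erase u, X x u ≤ ∑ u ∈ S.erase u, X x' u :=
          sum_le_sum fun u _ => X_mono u hxx
        linarith
      have := hg0 x
      have := hg1 x'
      simp only
      linarith
  have h1 := cov_nonneg (pw_nonneg E J b U s) (pw_lsm E hJ b U s) hf (X_mono w)
    fun x => X_nonneg x w
  rw [cov_sub, cov_sum (pw E J b U s) (fun x => X x w) S fun u x => X x u] at h1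
  have h2 : cov (pw E J b U s) (fun x => X x v) (fun x => X x w) =
      cov (pw E J b U s) g fun x => X x w := by
    let χ : (Fin n → Bool) → ℝ := fun x => if ∀ v ∈ U \ A, x v = s v then 1 else 0
    have hχ : ∀ x y, χ (A.piecewise y x) = χ x := fun x y => by
      have : (∀ v ∈ U \ A, A.piecewise y x v = s v) ↔ ∀ v ∈ U \ A, x v = s v := by
        refine forall_congr' fun v => forall_congr' fun hv => ?_
        rw [Finset.piecewise_eq_of_notMem _ _ _ (mem_sdiff.mp hv).2]
      simp only [χ, this]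
    have hμ : ∀ x, pw E J b U s x = ν x * χ x := fun x => by
      rw [pw_split E J b U A s x]
    have h3 := cond_exp ν χ A hv (fun x => (hZ x).ne') hχ
    have h4 := cond_exp ν (fun x => χ x * X x w) A hv (fun x => (hZ x).ne') fun x y => by
      simp only [hχ]
      rw [X_congr (Finset.piecewise_eq_of_notMem _ _ _ hw)]
    unfold cov
    have h5 : ∑ x, pw E J b U s x * (X x v * X x w) = ∑ x, pw E J b U s x * (g x * X x w) := by
      calc ∑ x, pw E J b U s x * (X x v * X x w) = ∑ x, ν x * (χ x * X x w) * X x v :=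
            sum_congr rfl fun x _ => by rw [hμ]; ring
        _ = _ := by
            rw [h4]
            exact sum_congr rfl fun x _ => by rw [hμ]; simp only [g]; ring
    have h6 : ∑ x, pw E J b U s x * X x v = ∑ x, pw E J b U s x * g x := by
      calc ∑ x, pw E J b U s x * X x v = ∑ x, ν x * χ x * X x v :=
            sum_congr rfl fun x _ => by rw [hμ]
        _ = _ := by
            rw [h3]
            exact sum_congr rfl fun x _ => by rw [hμ]
    simp only [h5, h6]
  rw [h2]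
  linarith

end Pool.Agent.H181Z.Is
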