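import Mathlib
import Pool.Agent.H181Z.IsSt

/-!
# The extended Ising model on locally tree-like graphs: tightness and transfer
-/

set_option autoImplicit false

namespace Pool.Agent.H181Z.Is

open Finset

namespace Tight

open Classical in
lemma frac_mul {n : ℕ} (hn : 0 < n) (p : Fin n → Prop) :
    ∑ v, (if p v then (1 : ℝ) else 0) = frac p * n := by
  have h : (n : ℝ) ≠ 0 := by positivity
  unfold frac
  rw [div_mul_cancel₀ _ h, Finset.sum_boole]

open Classical in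
lemma split {r : ℕ} {s : Finset RG} (hs : Fam r s) {n : ℕ} (G : SimpleGraph (Fin n)) (v : Fin n)
    (g : RG → ℝ) (a : ℝ) (h : ∀ i ∈ s, BallIso G v r i.2.1 i.2.2 → a = g i) :
    a = ∑ i ∈ s, (if BallIso G v r i.2.1 i.2.2 then (1 : ℝ) else 0) * g i +
      if ∀ i ∈ s, ¬ BallIso G v r i.2.1 i.2.2 then a else 0 := by
  by_cases hb : ∀ i ∈ s, ¬ BallIso G v r i.2.1 i.2.2
  · rw [if_pos hb, Finset.sum_eq_zero fun i hi => by rw [if_neg (hb i hi), zero_mul], zero_add]
  · rw [if_neg hb, add_zero]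
    push Not at hb
    obtain ⟨i, hi, hB⟩ := hb
    rw [Finset.sum_eq_single_of_mem i hi, if_pos hB, one_mul, h i hi hB]
    intro j hj hne
    rw [if_neg fun hB' => hne (hs.2 n G v j hj i hi hB' hB), zero_mul]

open Classical in
lemma key {C Dbar η0 η1 η : ℝ} {Δ r : ℕ} {s : Finset RG} {p : RG → ℝ} {lm : RG → ℝ} {n : ℕ}
    {G : SimpleGraph (Fin n)} {f : Fin n → ℝ} (hn : 0 < n) (hC : 0 ≤ C) (hs : Fam r s)
    (hp : 1 - η0 ≤ ∑ i ∈ s, p i) (hT : Typ G Dbar η1 Δ r s p η)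
    (hf : ∀ v, |f v| ≤ C * (1 + deg G v))
    (hl : ∀ i ∈ s, ∀ v, BallIso G v r i.2.1 i.2.2 → f v = lm i) :
    |(∑ v, f v) / n - ∑ i ∈ s, frac (fun v => BallIso G v r i.2.1 i.2.2) * lm i| ≤
      C * ((1 + Δ) * (η0 + s.card * η) + η1) := by
  have hn' : (0 : ℝ) < n := by positivity
  set bad : Fin n → Prop := fun v => ∀ i ∈ s, ¬ BallIso G v r i.2.1 i.2.2 with hbad
  have e1 : ∑ v, f v = (∑ i ∈ s, frac (fun v => BallIso G v r i.2.1 i.2.2) * lm i) * n +
      ∑ v, if bad v then f v else 0 := by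
    rw [Finset.sum_congr rfl fun v _ => split hs G v lm (f v) fun i hi => hl i hi v,
      Finset.sum_add_distrib, Finset.sum_comm, Finset.sum_mul]
    congr 1
    refine Finset.sum_congr rfl fun i _ => ?_
    rw [← Finset.sum_mul, frac_mul hn]
    ring
  have e2 : (n : ℝ) = (∑ i ∈ s, frac (fun v => BallIso G v r i.2.1 i.2.2)) * n +
      ∑ v, if bad v then (1 : ℝ) else 0 := by
    have : (n : ℝ) = ∑ _v : Fin n, (1 : ℝ) := by simp
    refine this.trans ?_
    rw [Finset.sum_congr rfl fun v _ => split hs G v (fun _ => 1) 1 fun i hi _ => rfl,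
      Finset.sum_add_distrib, Finset.sum_comm, Finset.sum_mul]
    congr 1
    refine Finset.sum_congr rfl fun i _ => ?_
    rw [← Finset.sum_mul, frac_mul hn]
    ring
  have e3 : ∑ i ∈ s, p i - s.card * η ≤ ∑ i ∈ s, frac (fun v => BallIso G v r i.2.1 i.2.2) := by
    have : ∑ i ∈ s, (p i - η) ≤ ∑ i ∈ s, frac (fun v => BallIso G v r i.2.1 i.2.2) :=
      Finset.sum_le_sum fun i hi => by linarith [(abs_le.1 (hT.2.2 i hi)).1]
    rwa [Finset.sum_sub_distrib, Finset.sum_const, nsmul_eq_mul] at this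
  have e4 : (∑ v, if bad v then (1 : ℝ) else 0) ≤ (η0 + s.card * η) * n := by nlinarith
  have e5 : |∑ v, if bad v then f v else 0| ≤ C * (1 + Δ) * (∑ v, if bad v then (1 : ℝ) else 0) +
      C * ∑ v, if Δ < deg G v then (deg G v : ℝ) else 0 := by
    refine (Finset.abs_sum_le_sum_abs _ _).trans ?_
    rw [Finset.mul_sum, Finset.mul_sum, ← Finset.sum_add_distrib]
    refine Finset.sum_le_sum fun v _ => ?_
    have h0 : (0 : ℝ) ≤ deg G v := by positivity
    have hΔ : (0 : ℝ) ≤ Δ := by positivity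
    by_cases hb : bad v
    · rw [if_pos hb, if_pos hb]
      refine (hf v).trans ?_
      by_cases hd : Δ < deg G v
      · rw [if_pos hd]; nlinarith
      · rw [if_neg hd]
        have : (deg G v : ℝ) ≤ Δ := by exact_mod_cast not_lt.1 hd
        nlinarith
    · rw [if_neg hb, if_neg hb, abs_zero]
      split_ifs <;> positivity
  have e6 := hT.2.1
  have hΔ : (0 : ℝ) ≤ C * (1 + Δ) := by positivity
  have e7 : |∑ v, if bad v then f v else 0| ≤ C * ((1 + Δ) * (η0 + s.card * η) + η1) * n := by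
    have a1 := mul_le_mul_of_nonneg_left e4 hΔ
    have a2 := mul_le_mul_of_nonneg_left e6 hC
    nlinarith
  rw [e1, add_div, mul_div_cancel_right₀ _ hn'.ne', add_sub_cancel_left, abs_div, abs_of_pos hn',
    div_le_iff₀ hn']
  exact e7

/-- isomorphism of rooted graphs -/
def Eqv (i j : RG) : Prop := ∃ φ : i.2.1 ≃g j.2.1, φ i.2.2 = j.2.2

lemma Eqv.refl (i : RG) : Eqv i i := ⟨SimpleGraph.Iso.refl, rfl⟩

lemma Eqv.symm {i j : RG} (h : Eqv i j) : Eqv j i := by
  obtain ⟨φ, hφ⟩ := h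
  exact ⟨φ.symm, by rw [← hφ]; exact φ.symm_apply_apply _⟩

lemma Eqv.trans {i j k : RG} (h : Eqv i j) (h' : Eqv j k) : Eqv i k := by
  obtain ⟨φ, hφ⟩ := h
  obtain ⟨ψ, hψ⟩ := h'
  exact ⟨φ.trans ψ, by rw [← hψ, ← hφ]; rfl⟩

lemma eqv_of_ballIso {V : Type} {G : SimpleGraph V} {v : V} {r : ℕ} {i j : RG}
    (h : BallIso G v r i.2.1 i.2.2) (h' : BallIso G v r j.2.1 j.2.2) : Eqv i j := by
  obtain ⟨φ, hφ⟩ := h
  obtain ⟨ψ, hψ⟩ := h'
  refine ⟨φ.symm.trans ψ, ?_⟩
  have : φ.symm i.2.2 = ψ.symm j.2.2 := Subtype.ext (hφ.trans hψ.symm)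
  show ψ (φ.symm i.2.2) = j.2.2
  rw [this]
  exact ψ.apply_symm_apply _

lemma ballIso_of_eqv {V : Type} {G : SimpleGraph V} {v : V} {r : ℕ} {i j : RG}
    (h : BallIso G v r i.2.1 i.2.2) (h' : Eqv i j) : BallIso G v r j.2.1 j.2.2 := by
  obtain ⟨φ, hφ⟩ := h
  obtain ⟨ψ, hψ⟩ := h'
  refine ⟨φ.trans ψ, ?_⟩
  show (φ.symm (ψ.symm j.2.2)).1 = v
  rw [← hψ, show ψ.symm (ψ i.2.2) = i.2.2 from ψ.symm_apply_apply _, hφ]

lemma ball_finite {V : Type} {G : SimpleGraph V} (h : ∀ v, (G.neighborSet v).Finite) (v : V)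
    (r : ℕ) : {u | G.edist v u ≤ r}.Finite := by
  induction r with
  | zero =>
    refine (Set.finite_singleton v).subset fun u hu => ?_
    have : G.edist v u = 0 := le_antisymm (by exact_mod_cast (show G.edist v u ≤ ((0 : ℕ) : ℕ∞) from hu))
      zero_le
    exact (SimpleGraph.edist_eq_zero_iff.1 this).symm
  | succ r ih =>
    refine (ih.union (ih.biUnion fun w _ => h w)).subset fun u hu => ?_
    have hu' : G.edist v u ≤ ((r + 1 : ℕ) : ℕ∞) := hu
    have hne : G.edist v u ≠ ⊤ := ne_top_of_le_ne_top (ENat.natCast_ne_top _) hu'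
    obtain ⟨w, hw⟩ := SimpleGraph.exists_walk_of_edist_ne_top hne
    have hl : w.length ≤ r + 1 := by
      rw [← hw] at hu'
      exact_mod_cast hu'
    by_cases h0 : w.length ≤ r
    · left
      exact (SimpleGraph.edist_le w).trans (by exact_mod_cast h0)
    · right
      have hnil : ¬ w.Nil := by
        rw [SimpleGraph.Walk.not_nil_iff_lt_length]; omega
      refine Set.mem_biUnion (x := w.penultimate) ?_ (w.adj_penultimate hnil)
      refine (SimpleGraph.edist_le w.dropLast).trans ?_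
      have := SimpleGraph.Walk.length_dropLast_add_one hnil
      exact_mod_cast (by omega : w.dropLast.length ≤ r)

lemma exists_ballIso {V : Type} {G : SimpleGraph V} (hG : G.IsAcyclic)
    (h : ∀ v, (G.neighborSet v).Finite) (v : V) (r : ℕ) :
    ∃ i : RG, i.2.1.IsAcyclic ∧ BallIso G v r i.2.1 i.2.2 := by
  have hf : Finite {u | G.edist v u ≤ r} := (ball_finite h v r).to_subtype
  obtain ⟨m, ⟨e⟩⟩ := Finite.exists_equiv_fin {u | G.edist v u ≤ r}
  let H : SimpleGraph (Fin m) := (G.induce {u | G.edist v u ≤ r}).comap e.symm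
  let φ : H ≃g G.induce {u | G.edist v u ≤ r} := SimpleGraph.Iso.comap e.symm _
  refine ⟨⟨m, H, e ⟨v, by simp⟩⟩, ?_, φ.symm, ?_⟩
  · exact φ.isAcyclic_iff.2 (hG.induce _)
  · show (e.symm (e _)).1 = v
    rw [Equiv.symm_apply_apply]

end Tight

open Tight

theorem thm_trans : S_trans := by
  intro C Dbar η0 η1 η Δ r s p lm n n' G G' f f' hn hn' hC hs hp hT hT' hf hf' hl hl'
  have k1 := abs_le.1 (key hn hC hs hp hT hf hl)
  have k2 := abs_le.1 (key hn' hC hs hp hT' hf' hl')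
  have k3 : ∑ i ∈ s, frac (fun v => BallIso G' v r i.2.1 i.2.2) * lm i ≤
      ∑ i ∈ s, frac (fun v => BallIso G v r i.2.1 i.2.2) * lm i + 2 * η * ∑ i ∈ s, |lm i| := by
    rw [Finset.mul_sum, ← Finset.sum_add_distrib]
    refine Finset.sum_le_sum fun i hi => ?_
    have a1 := abs_le.1 (hT.2.2 i hi)
    have a2 := abs_le.1 (hT'.2.2 i hi)
    have a3 : |frac (fun v => BallIso G' v r i.2.1 i.2.2) - frac (fun v => BallIso G v r i.2.1 i.2.2)|
        ≤ 2 * η := abs_le.2 ⟨by linarith, by linarith⟩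
    have a4 := le_abs_self ((frac (fun v => BallIso G' v r i.2.1 i.2.2) -
      frac (fun v => BallIso G v r i.2.1 i.2.2)) * lm i)
    rw [abs_mul] at a4
    have a5 := mul_le_mul_of_nonneg_right a3 (abs_nonneg (lm i))
    linarith
  linarith [k1.1, k2.2]

open MeasureTheory in
theorem thm_tight : S_tight := by
  intro Ω' _ P' _ V T o hae r η0 hη
  classical
  have : ∀ m : ℕ, Countable (SimpleGraph (Fin m) × Fin m) := fun m => inferInstance
  obtain ⟨c, hc⟩ := exists_injective_nat RG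
  let Rep : RG → Prop := fun i => i.2.1.IsAcyclic ∧ ∀ j, Eqv i j → c i ≤ c j
  let A : RG → Set Ω' := fun i => {ω | BallIso (T ω) (o ω) r i.2.1 i.2.2}
  have hcov : ∀ᵐ ω ∂P', ω ∈ ⋃ i : {i // Rep i}, A i.1 := by
    filter_upwards [hae] with ω hω
    obtain ⟨i, hi, hB⟩ := exists_ballIso hω.1.isAcyclic hω.2 (o ω) r
    have hex : ∃ k, ∃ j, Eqv i j ∧ c j = k := ⟨_, i, Eqv.refl i, rfl⟩
    obtain ⟨j, hj, hk⟩ := Nat.find_spec hex
    refine Set.mem_iUnion.2 ⟨⟨j, ?_, fun j' hj' => ?_⟩, ballIso_of_eqv hB hj⟩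
    · obtain ⟨φ, -⟩ := hj
      exact φ.isAcyclic_iff.1 hi
    · rw [hk]
      exact Nat.find_min' hex ⟨j', hj.trans hj', rfl⟩
  have h1 : (1 : ENNReal) ≤ ∑' i : {i // Rep i}, P' (A i.1) := by
    refine le_trans ?_ (measure_iUnion_le _)
    rw [← measure_univ (μ := P')]
    exact measure_mono_ae (by filter_upwards [hcov] with ω hω _ using hω)
  have h2 : ENNReal.ofReal (1 - η0) < ∑' i : {i // Rep i}, P' (A i.1) := by
    refine lt_of_lt_of_le ?_ h1
    rw [ENNReal.ofReal_lt_one]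
    linarith
  rw [ENNReal.tsum_eq_iSup_sum, lt_iSup_iff] at h2
  obtain ⟨t, ht⟩ := h2
  refine ⟨t.map (Function.Embedding.subtype _), ⟨fun i hi => ?_, fun m G v i hi j hj hB hB' => ?_⟩, ?_⟩
  · obtain ⟨i', -, rfl⟩ := Finset.mem_map.1 hi
    exact i'.2.1
  · obtain ⟨i', -, rfl⟩ := Finset.mem_map.1 hi
    obtain ⟨j', -, rfl⟩ := Finset.mem_map.1 hj
    have e := eqv_of_ballIso hB hB'
    exact hc (le_antisymm (i'.2.2 _ e) (j'.2.2 _ e.symm))
  · rw [Finset.sum_map]
    have h3 := (ENNReal.ofReal_le_iff_le_toReal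
      (ENNReal.sum_ne_top.2 fun i _ => measure_ne_top P' _)).1 ht.le
    rw [ENNReal.toReal_sum fun i _ => measure_ne_top P' _] at h3
    exact h3

end Pool.Agent.H181Z.Is
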