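import Mathlib
import Pool.Agent.H181Z.IsPin

/-!
# The upper bound by the Bethe functional
-/

set_option autoImplicit false

namespace Pool.Agent.H181Z.Is

namespace Upper

open Finset Real Function

variable {n : ℕ} (E : Finset (Fin n × Fin n)) (J : ℝ) (b : Fin n → ℝ)

/-- total occupation -/
def Mt (x : Fin n → Bool) : ℝ := ∑ v, X x v

/-- variance of the total occupation -/
def Var (μ : (Fin n → Bool) → ℝ) : ℝ := ∑ x, μ x * Mt x ^ 2 - (∑ x, μ x * Mt x) ^ 2

lemma sum_Mt (μ : (Fin n → Bool) → ℝ) : ∑ x, μ x * Mt x = ∑ v, mean μ v := by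
  simp only [Mt, mean, mul_sum]
  exact sum_comm

lemma sum_mix (μ1 μ0 f : (Fin n → Bool) → ℝ) (p : ℝ) :
    ∑ x, (p * μ1 x + (1 - p) * μ0 x) * f x = p * ∑ x, μ1 x * f x + (1 - p) * ∑ x, μ0 x * f x := by
  simp only [mul_sum, ← sum_add_distrib]
  exact sum_congr rfl fun x _ => by ring

lemma Var_mix (μ1 μ0 : (Fin n → Bool) → ℝ) (p : ℝ) :
    Var (fun x => p * μ1 x + (1 - p) * μ0 x) = p * Var μ1 + (1 - p) * Var μ0 +
      p * (1 - p) * (∑ v, (mean μ1 v - mean μ0 v)) ^ 2 := by
  rw [sum_sub_distrib, ← sum_Mt, ← sum_Mt]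
  simp only [Var, sum_mix]
  ring

lemma far_bound (hf : S_fkg) (hs : S_shell) (hJ : 0 ≤ J) {U : Finset (Fin n)} {w : Fin n}
    (hw : w ∉ U) (s : Fin n → Bool) (R : ℕ) (l : Fin n → ℕ) (hl0 : l w = 0)
    (hl : ∀ e ∈ E, l e.1 ≤ l e.2 + 1 ∧ l e.2 ≤ l e.1 + 1) (δ : Fin n → ℝ)
    (hδ : δ = fun v => mean (pm E J b (insert w U) (update s w true)) v -
      mean (pm E J b (insert w U) (update s w false)) v) :
    (∀ v, 0 ≤ δ v) ∧ ∀ v, R < l v → R * δ v ≤ ∑ u, δ u := by
  have hZ := mul_pos (Zp_pos E J b (insert w U) (update s w true))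
    (Zp_pos E J b (insert w U) (update s w false))
  have hc : ∀ v, cov (pw E J b U s) (fun x => X x v) (fun x => X x w) = _ * δ v := fun v => by
    rw [cov_eq E J b hw, hδ]
  have h0 : ∀ v, 0 ≤ δ v := fun v => by
    have := hf n E J b U s v w hJ
    rw [hc] at this
    exact nonneg_of_mul_nonneg_right this hZ
  refine ⟨h0, fun v hv => ?_⟩
  have h1 : ∀ r ∈ range R, δ v ≤ ∑ u ∈ univ.filter fun u => l u = r, δ u := fun r hr => by
    have := hs n E J b U s (univ.filter fun u => r < l u) (univ.filter fun u => l u = r) v w hJ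
      (by simpa using (mem_range.1 hr).trans hv) (by simp [hl0]) fun e he => by
        have := hl e he
        simp only [mem_filter, mem_univ, true_and]
        omega
    simp only [hc] at this
    rw [← mul_sum] at this
    exact le_of_mul_le_mul_left this hZ
  calc (R : ℝ) * δ v = ∑ _r ∈ range R, δ v := by simp
    _ ≤ ∑ r ∈ range R, ∑ u ∈ univ.filter fun u => l u = r, δ u := sum_le_sum h1
    _ = ∑ u ∈ univ.filter fun u => l u ∈ range R, δ u := sum_fiberwise_eq_sum_filter _ _ _ _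
    _ ≤ ∑ u, δ u := sum_le_sum_of_subset_of_nonneg (filter_subset _ _) fun u _ _ => h0 u

lemma log_split {Z1 Z0 : ℝ} (h1 : 0 < Z1) (h0 : 0 < Z0) :
    log (Z1 + Z0) = Z1 / (Z1 + Z0) * log Z1 + (1 - Z1 / (Z1 + Z0)) * log Z0 +
      hb (Z1 / (Z1 + Z0)) := by
  have h : 0 < Z1 + Z0 := by positivity
  have e : 1 - Z1 / (Z1 + Z0) = Z0 / (Z1 + Z0) := by
    field_simp
    ring
  rw [hb, e, negMulLog, negMulLog, log_div h1.ne' h.ne', log_div h0.ne' h.ne']
  field_simp
  ring

lemma Bethe_eq (μ : (Fin n → Bool) → ℝ) :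
    Bethe E J b μ = ∑ x, μ x * En E J b x + HB E μ := by
  rw [Bethe, HB, add_assoc]

lemma base (s : Fin n → Bool) :
    log (Zp E J b univ s) = Bethe E J b (pm E J b univ s) ∧ Var (pm E J b univ s) = 0 := by
  have e1 : ∀ x, pw E J b univ s x = if x = s then exp (En E J b s) else 0 := fun x => by
    have : (∀ v ∈ (univ : Finset (Fin n)), x v = s v) ↔ x = s := by simp [funext_iff]
    simp only [pw, this]
    split_ifs with h
    · rw [h]
    · rfl
  have e2 : Zp E J b univ s = exp (En E J b s) := by simp [Zp, e1]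
  have e3 : ∀ x, pm E J b univ s x = if x = s then 1 else 0 := fun x => by
    rw [pm, e1, e2]
    split_ifs <;> simp
  have e4 : ∀ {Y : Type} [DecidableEq Y] (c : (Fin n → Bool) → Y) (y : Y),
      negMulLog (marg (pm E J b univ s) c y) = 0 := by
    intro Y _ c y
    rw [marg, sum_eq_single s (fun x _ hx => by simp [e3, hx]) (by simp), e3]
    split_ifs <;> simp
  constructor
  · simp [Bethe, He, Hv, e4, e2, e3]
  · simp [Var, e3]

lemma step (hf : S_fkg) (hs : S_shell) (hJ : 0 ≤ J) {U : Finset (Fin n)} {w : Fin n}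
    (hw : w ∉ U) (s : Fin n → Bool) {R : ℕ} (hR : 0 < R) (hgood : Good E w R) {Δ : ℕ} {C : ℝ}
    (hC : ∀ v ∉ U, exp (|b v| + J * degE E v) ≤ C ∧ degE E v ≤ Δ)
    (ih : ∀ c, log (Zp E J b (insert w U) (update s w c)) ≤
      Bethe E J b (pm E J b (insert w U) (update s w c)) +
        Δ * (1 + C) ^ 2 / R * Var (pm E J b (insert w U) (update s w c))) :
    log (Zp E J b U s) ≤ Bethe E J b (pm E J b U s) +
      Δ * (1 + C) ^ 2 / R * Var (pm E J b U s) := by
  obtain ⟨l, ch, hl0, hl, hnear⟩ := hgood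
  have hC0 : 0 ≤ C := (exp_pos _).le.trans (hC w hw).1
  have hR' : (0 : ℝ) < R := by exact_mod_cast hR
  obtain ⟨hδ0, hfar⟩ := far_bound E J b hf hs hJ hw s R l hl0
    (fun e he => ⟨(hl e he).1, (hl e he).2.1⟩) _ rfl
  have hsplit := pm_split E J b hw s
  have hZ := Zp_split E J b hw s
  have hZ1 := Zp_pos E J b (insert w U) (update s w true)
  have hZ0 := Zp_pos E J b (insert w U) (update s w false)
  have hlog := log_split hZ1 hZ0
  rw [← hZ] at hlog
  set p := Zp E J b (insert w U) (update s w true) / Zp E J b U s with hp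
  have hp0 : 0 < p := div_pos hZ1 (Zp_pos E J b U s)
  have hp1 : p < 1 := by
    rw [hp, div_lt_one (Zp_pos E J b U s)]
    linarith
  have hp1' : 0 < 1 - p := by linarith
  set μ1 := pm E J b (insert w U) (update s w true) with hμ1
  set μ0 := pm E J b (insert w U) (update s w false) with hμ0
  have n1 : ∀ x, 0 ≤ μ1 x := pm_nonneg E J b _ _
  have n0 : ∀ x, 0 ≤ μ0 x := pm_nonneg E J b _ _
  have s1 : ∑ x, μ1 x = 1 := sum_pm E J b _ _
  have s0 : ∑ x, μ0 x = 1 := sum_pm E J b _ _
  have hmean : ∀ v, mean (pm E J b U s) v = p * mean μ1 v + (1 - p) * mean μ0 v := fun v => by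
    rw [hsplit]
    exact sum_mix _ _ _ _
  have hH := HB_mix E n1 n0 hp0 hp1 ch fun e he => (hl e he).2.2.1
  have hV := Var_mix μ1 μ0 p
  have hE := sum_mix μ1 μ0 (En E J b) p
  rw [← hsplit] at hH hV
  have hE' : ∑ x, pm E J b U s x * En E J b x =
      p * ∑ x, μ1 x * En E J b x + (1 - p) * ∑ x, μ0 x * En E J b x := by
    rw [hsplit]
    exact hE
  simp only [Hv_eq s1, Hv_eq s0, Hv_eq (sum_pm E J b U s), hmean] at hH
  set D := ∑ v, (mean μ1 v - mean μ0 v) with hD
  set κ := Δ * (1 + C) ^ 2 / R with hκ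
  have hκ0 : 0 ≤ κ := by positivity
  have hD0 : 0 ≤ D := sum_nonneg fun v _ => hδ0 v
  have key : ∀ v, (if v = w then hb p else 0) - κ * (p * (1 - p)) * D * (mean μ1 v - mean μ0 v) ≤
      (1 - ((E.filter fun e => ch e = v).card : ℝ)) * (hb (p * mean μ1 v + (1 - p) * mean μ0 v) -
        p * hb (mean μ1 v) - (1 - p) * hb (mean μ0 v)) := by
    intro v
    have hI := hb_mix hp0 hp1 (mean_nonneg n1 v) (mean_le_one n1 s1 v) (mean_nonneg n0 v)
      (mean_le_one n0 s0 v)
    have hpos : 0 ≤ κ * (p * (1 - p)) * D * (mean μ1 v - mean μ0 v) :=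
      mul_nonneg (by positivity) (hδ0 v)
    by_cases hvw : v = w
    · subst hvw
      have c0 : E.filter (fun e => ch e = v) = ∅ :=
        filter_eq_empty_iff.2 fun e he => (hl e he).2.2.2
      have m1 : mean μ1 v = 1 := by
        rw [hμ1, mean_pinned E J b _ (mem_insert_self _ _)]
        simp [X]
      have m0 : mean μ0 v = 0 := by
        rw [hμ0, mean_pinned E J b _ (mem_insert_self _ _)]
        simp [X]
      rw [m1, m0] at hpos ⊢
      simp only [c0, if_true, card_empty, Nat.cast_zero, hb, mul_one, mul_zero, add_zero, sub_zero,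
        sub_self, negMulLog_one, negMulLog_zero] at hpos ⊢
      linarith
    rw [if_neg hvw]
    by_cases hvU : v ∈ U
    · have m1 : mean μ1 v = X s v := by
        rw [hμ1, mean_pinned E J b _ (mem_insert_of_mem hvU)]
        simp only [X, update_of_ne hvw]
      have m0 : mean μ0 v = X s v := by
        rw [hμ0, mean_pinned E J b _ (mem_insert_of_mem hvU)]
        simp only [X, update_of_ne hvw]
      rw [m1, m0, show p * X s v + (1 - p) * X s v = X s v by ring]
      apply le_of_eq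
      ring
    by_cases hlv : l v ≤ R
    · have : ((E.filter fun e => ch e = v).card : ℝ) ≤ 1 := by exact_mod_cast hnear v hlv
      have := mul_nonneg (sub_nonneg.2 this) (show 0 ≤ hb (p * mean μ1 v + (1 - p) * mean μ0 v) -
        p * hb (mean μ1 v) - (1 - p) * hb (mean μ0 v) by linarith)
      linarith
    have hb1 := mean_bounds E J b hJ hvU s (hC v hvU).1
    obtain ⟨v0, v1, v2⟩ := var_lower (mean_nonneg (pm_nonneg E J b U s) v)
      (mean_le_one (pm_nonneg E J b U s) (sum_pm E J b U s) v) hC0 hb1.1 hb1.2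
    rw [hmean] at v0 v1 v2
    have hchi := hb_chi hp0 hp1 (mean_nonneg n1 v) (mean_le_one n1 s1 v) (mean_nonneg n0 v)
      (mean_le_one n0 s0 v) v0 v1
    have hc : ((E.filter fun e => ch e = v).card : ℝ) ≤ Δ := by
      have : (E.filter fun e => ch e = v).card ≤ degE E v :=
        card_le_card fun e he => by
          obtain ⟨h1, h2⟩ := mem_filter.1 he
          refine mem_filter.2 ⟨h1, ?_⟩
          rcases (hl e h1).2.2.1 with h | h
          · exact Or.inl (h.symm.trans h2)
          · exact Or.inr (h.symm.trans h2)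
      exact_mod_cast this.trans (hC v hvU).2
    have hf' : R * (mean μ1 v - mean μ0 v) ≤ D := hfar v (not_le.1 hlv)
    have hδv : 0 ≤ mean μ1 v - mean μ0 v := hδ0 v
    set m := p * mean μ1 v + (1 - p) * mean μ0 v with hm
    set δ := mean μ1 v - mean μ0 v with hδ
    set I := hb m - p * hb (mean μ1 v) - (1 - p) * hb (mean μ0 v) with hI'
    have hI0 : 0 ≤ I := by linarith
    have hmm : 0 < m * (1 - m) := mul_pos v0 (by linarith)
    have e1 : I ≤ (1 + C) ^ 2 * (p * (1 - p) * δ ^ 2) := by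
      refine hchi.trans ?_
      rw [div_le_iff₀ hmm]
      have : 0 ≤ p * (1 - p) * δ ^ 2 := by positivity
      nlinarith
    have e2 : δ ≤ D / R := by
      rw [le_div_iff₀ hR']
      linarith
    have e3 : (1 + C) ^ 2 * (p * (1 - p) * δ ^ 2) ≤ (1 + C) ^ 2 * (p * (1 - p) * (D / R * δ)) := by
      refine mul_le_mul_of_nonneg_left (mul_le_mul_of_nonneg_left ?_ (by positivity))
        (by positivity)
      rw [sq]
      exact mul_le_mul_of_nonneg_right e2 hδv
    have e4 : κ * (p * (1 - p)) * D * δ = Δ * ((1 + C) ^ 2 * (p * (1 - p) * (D / R * δ))) := by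
      rw [hκ]
      field_simp
    have e5 := mul_le_mul hc (e1.trans e3) hI0 (Nat.cast_nonneg _)
    rw [e4]
    linarith
  have hsum := sum_le_sum fun v (_ : v ∈ univ) => key v
  rw [sum_sub_distrib, sum_ite_eq', if_pos (mem_univ _), ← mul_sum, ← hD] at hsum
  have i1 := mul_le_mul_of_nonneg_left (ih true) hp0.le
  have i0 := mul_le_mul_of_nonneg_left (ih false) hp1'.le
  rw [Bethe_eq] at i1 i0 ⊢
  rw [hlog, hE', hV]
  rw [← hμ1] at i1
  rw [← hμ0] at i0
  nlinarith

lemma pinned_bound (hf : S_fkg) (hs : S_shell) (hJ : 0 ≤ J) (D : Finset (Fin n)) {R : ℕ}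
    (hR : 0 < R) {Δ : ℕ} {C : ℝ}
    (hC : ∀ v ∉ D, exp (|b v| + J * degE E v) ≤ C ∧ degE E v ≤ Δ ∧ Good E v R) (N : ℕ) :
    ∀ (U : Finset (Fin n)) (s : Fin n → Bool), Uᶜ.card = N → D ⊆ U →
      log (Zp E J b U s) ≤ Bethe E J b (pm E J b U s) +
        Δ * (1 + C) ^ 2 / R * Var (pm E J b U s) := by
  induction N with
  | zero =>
    intro U s hU _
    rw [card_eq_zero, compl_eq_empty_iff] at hU
    subst hU
    rw [(base E J b s).1, (base E J b s).2]
    simp
  | succ N ih =>
    intro U s hU hD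
    obtain ⟨w, hw⟩ := card_pos.1 (by omega : 0 < Uᶜ.card)
    have hw' := mem_compl.1 hw
    refine step E J b hf hs hJ hw' s hR (hC w fun h => hw' (hD h)).2.2
      (fun v hv => ⟨(hC v fun h => hv (hD h)).1, (hC v fun h => hv (hD h)).2.1⟩) fun c =>
      ih _ _ ?_ (hD.trans (subset_insert _ _))
    rw [compl_insert, card_erase_of_mem hw, hU]
    rfl

lemma exists_pin (D : Finset (Fin n)) :
    ∃ s, log (Z0 E J b) ≤ D.card * log 2 + log (Zp E J b D s) := by
  induction D using Finset.induction_on with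
  | empty => exact ⟨fun _ => false, by simp [Zp, pw, Z0]⟩
  | insert w U hw ih =>
    obtain ⟨s, hs⟩ := ih
    have key : ∃ c, Zp E J b U s ≤ 2 * Zp E J b (insert w U) (update s w c) := by
      rw [Zp_split E J b hw s]
      rcases le_total (Zp E J b (insert w U) (update s w true))
        (Zp E J b (insert w U) (update s w false)) with h | h
      · exact ⟨false, by linarith⟩
      · exact ⟨true, by linarith⟩
    obtain ⟨c, hc⟩ := key
    refine ⟨update s w c, hs.trans ?_⟩
    have := log_le_log (Zp_pos E J b U s) hc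
    rw [log_mul two_ne_zero (Zp_pos E J b _ _).ne'] at this
    rw [card_insert_of_notMem hw]
    push_cast
    linarith

lemma En_shift (t : ℝ) (x : Fin n → Bool) :
    En E J (fun v => b v + t) x = En E J b x + t * Mt x := by
  simp only [En, Mt, add_mul, sum_add_distrib, mul_sum]
  ring

lemma pw_shift (U : Finset (Fin n)) (s : Fin n → Bool) (t : ℝ) (x : Fin n → Bool) :
    pw E J (fun v => b v + t) U s x = pw E J b U s x * exp (t * Mt x) := by
  simp only [pw, En_shift, exp_add]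
  split_ifs <;> simp

lemma Mt_nonneg (x : Fin n → Bool) : 0 ≤ Mt x := sum_nonneg fun v _ => X_nonneg x v

lemma Mt_le (x : Fin n → Bool) : Mt x ≤ n := by
  calc Mt x ≤ ∑ _v : Fin n, (1 : ℝ) := sum_le_sum fun v _ => X_le_one x v
    _ = n := by simp

lemma EM_bounds {μ : (Fin n → Bool) → ℝ} (h : ∀ x, 0 ≤ μ x) (h1 : ∑ x, μ x = 1) :
    0 ≤ ∑ x, μ x * Mt x ∧ ∑ x, μ x * Mt x ≤ n := by
  refine ⟨sum_nonneg fun x _ => mul_nonneg (h x) (Mt_nonneg x), ?_⟩
  calc ∑ x, μ x * Mt x ≤ ∑ x, μ x * n :=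
        sum_le_sum fun x _ => mul_le_mul_of_nonneg_left (Mt_le x) (h x)
    _ = n := by rw [← sum_mul, h1, one_mul]

lemma exists_shift (U : Finset (Fin n)) (s : Fin n → Bool) {t : ℝ} (ht : 0 < t) :
    ∃ u, 0 < u ∧ u < t ∧ Var (pm E J (fun v => b v + u) U s) ≤ n / t := by
  let N : ℕ → ℝ → ℝ := fun j u => ∑ x, pw E J b U s x * exp (u * Mt x) * Mt x ^ j
  have hN : ∀ j u, HasDerivAt (N j) (N (j + 1) u) u := fun j u => by
    refine HasDerivAt.fun_sum fun x _ => ?_
    have h := ((((hasDerivAt_id u).mul_const (Mt x)).exp).const_mul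
      (pw E J b U s x)).mul_const (Mt x ^ j)
    refine h.congr_deriv ?_
    simp only [id]
    ring
  have hN0 : ∀ u, N 0 u = Zp E J (fun v => b v + u) U s := fun u => by
    simp only [N, Zp, pw_shift, pow_zero, mul_one]
  have hNj : ∀ j u, ∑ x, pm E J (fun v => b v + u) U s x * Mt x ^ j = N j u / N 0 u := by
    intro j u
    rw [hN0, sum_div]
    exact sum_congr rfl fun x _ => by rw [pm, pw_shift]; ring
  have hpos : ∀ u, 0 < N 0 u := fun u => hN0 u ▸ Zp_pos _ _ _ _ _
  have hder : ∀ u, HasDerivAt (fun u => N 1 u / N 0 u)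
      (Var (pm E J (fun v => b v + u) U s)) u := fun u => by
    have h := (hN 1 u).div (hN 0 u) (hpos u).ne'
    refine h.congr_deriv ?_
    have e1 := hNj 1 u
    simp only [pow_one] at e1
    rw [Var, hNj 2 u, e1]
    have := hpos u
    field_simp
  obtain ⟨u, hu, hu'⟩ := exists_hasDerivAt_eq_slope (fun u => N 1 u / N 0 u) _ ht
    (fun u _ => (hder u).continuousAt.continuousWithinAt) fun u _ => hder u
  refine ⟨u, hu.1, hu.2, ?_⟩
  rw [hu', sub_zero]
  refine div_le_div_of_nonneg_right ?_ ht.le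
  have hb : ∀ u, 0 ≤ N 1 u / N 0 u ∧ N 1 u / N 0 u ≤ n := fun u => by
    rw [← hNj]
    simp only [pow_one]
    exact EM_bounds (pm_nonneg _ _ _ _ _) (sum_pm _ _ _ _ _)
  linarith [(hb 0).1, (hb t).2]

end Upper

open Finset Real Upper in
theorem thm_upper (hf : S_fkg) (hs : S_shell) : S_upper := by
  intro n E J b D Δ R L t hJ hR ht ht1 hD
  obtain ⟨s, h1⟩ := exists_pin E J b D
  obtain ⟨u, hu0, hut, h2⟩ := exists_shift E J b D s ht
  have h3 := pinned_bound E J (fun v => b v + u) hf hs hJ D hR (Δ := Δ)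
    (C := exp (L + 1 + J * Δ)) (fun v hv => ⟨exp_le_exp.2 (by
      have e1 := abs_add_le (b v) u
      rw [abs_of_pos hu0] at e1
      have e2 : J * degE E v ≤ J * Δ :=
        mul_le_mul_of_nonneg_left (by exact_mod_cast (hD v hv).2.1) hJ
      linarith [(hD v hv).1]), (hD v hv).2⟩) _ D s rfl subset_rfl
  refine ⟨pm E J (fun v => b v + u) D s, pm_nonneg _ _ _ _ _, sum_pm _ _ _ _ _, ?_⟩
  have h4 : log (Zp E J b D s) ≤ log (Zp E J (fun v => b v + u) D s) :=
    log_le_log (Zp_pos _ _ _ _ _) (sum_le_sum fun x _ => by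
      rw [pw_shift]
      exact le_mul_of_one_le_right (pw_nonneg _ _ _ _ _ _)
        (one_le_exp (mul_nonneg hu0.le (Mt_nonneg x))))
  set μ := pm E J (fun v => b v + u) D s with hμ
  have h5 : Bethe E J (fun v => b v + u) μ = Bethe E J b μ + u * ∑ x, μ x * Mt x := by
    simp only [Bethe, En_shift, mul_add, sum_add_distrib, mul_sum]
    have : ∑ x, μ x * (u * Mt x) = ∑ x, u * (μ x * Mt x) := sum_congr rfl fun x _ => by ring
    rw [this]
    ring
  have h6 := EM_bounds (μ := μ) (pm_nonneg _ _ _ _ _) (sum_pm _ _ _ _ _)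
  have h7 : u * ∑ x, μ x * Mt x ≤ t * n := mul_le_mul hut.le h6.2 h6.1 ht.le
  have hR' : (0 : ℝ) < R := by exact_mod_cast hR
  have h8 : Δ * (1 + exp (L + 1 + J * Δ)) ^ 2 / R * Var μ ≤
      Δ * (1 + exp (L + 1 + J * Δ)) ^ 2 / (R * t) * n := by
    refine (mul_le_mul_of_nonneg_left h2 (by positivity)).trans (le_of_eq ?_)
    field_simp
  linarith

end Pool.Agent.H181Z.Is
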