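import Mathlib

/-!
# Slice rank and partition rank of tensors
-/

set_option autoImplicit false

namespace Pool.Agent.H181Z.SR

variable {F : Type*} [Field F] {d : ℕ} {X : Fin d → Type}

/-- a finitely supported function of the form `f (x i) * g (x off i)` -/
def IsSlice (T : (∀ i, X i) → F) : Prop :=
  (Function.support T).Finite ∧
    ∃ (i : Fin d) (f : X i → F) (g : (∀ j : {j // j ≠ i}, X j) → F),
      ∀ x, T x = f (x i) * g fun j => x j

/-- a finitely supported function of the form `f (x on S) * g (x off S)`, `∅ ≠ S ≠ [d]` -/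
def IsPart (T : (∀ i, X i) → F) : Prop :=
  (Function.support T).Finite ∧
    ∃ S : Finset (Fin d), S ≠ ∅ ∧ S ≠ Finset.univ ∧
      ∃ (f : (∀ j : {j // j ∈ S}, X j) → F) (g : (∀ j : {j // j ∉ S}, X j) → F),
        ∀ x, T x = f (fun j => x j) * g fun j => x j

/-- slice rank -/
noncomputable def sliceRank (T : (∀ i, X i) → F) : ℕ :=
  sInf {r | ∃ S : Fin r → (∀ i, X i) → F, (∀ k, IsSlice (S k)) ∧ T = ∑ k, S k}

/-- partition rank -/
noncomputable def partRank (T : (∀ i, X i) → F) : ℕ :=
  sInf {r | ∃ S : Fin r → (∀ i, X i) → F, (∀ k, IsPart (S k)) ∧ T = ∑ k, S k}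

/-- the restriction of a tensor to `J 1 × ⋯ × J d` -/
def restrict (T : (Fin d → ℕ) → F) (J : Fin d → Finset ℕ) : (∀ i, J i) → F :=
  fun x => T fun i => x i

end Pool.Agent.H181Z.SR
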