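import Mathlib

/-!
# Weighted spanning families and common refinements
-/

set_option autoImplicit false

namespace Pool.Agent.H181Z.SR

open Submodule

variable {F : Type*} [Field F] {V : Type*} [AddCommGroup V] [Module F V]

/-- the sum of the squares of the weights -/
def cost (s : Multiset (V × ℝ)) : ℝ := (s.map fun x => x.2 ^ 2).sum

variable (F) in
/-- the span of the vectors of weight at most `t` -/
def low (s : Multiset (V × ℝ)) (t : ℝ) : Submodule F V := span F {v | ∃ p, (v, p) ∈ s ∧ p ≤ t}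

variable (F) in
/-- the span of all vectors -/
def all (s : Multiset (V × ℝ)) : Submodule F V := span F {v | ∃ p, (v, p) ∈ s}

omit [AddCommGroup V] in
lemma cost_nonneg (s : Multiset (V × ℝ)) : 0 ≤ cost s :=
  Multiset.sum_nonneg fun x hx => by
    obtain ⟨y, -, rfl⟩ := Multiset.mem_map.1 hx
    positivity

omit [AddCommGroup V] in
@[simp] lemma cost_cons (x : V × ℝ) (s : Multiset (V × ℝ)) : cost (x ::ₘ s) = x.2 ^ 2 + cost s := by
  simp [cost]

omit [AddCommGroup V] in
@[simp] lemma cost_zero : cost (0 : Multiset (V × ℝ)) = 0 := by simp [cost]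

omit [AddCommGroup V] in
lemma cost_add (s t : Multiset (V × ℝ)) : cost (s + t) = cost s + cost t := by simp [cost]

lemma mem_low {s : Multiset (V × ℝ)} {x : V × ℝ} (hx : x ∈ s) {t : ℝ} (h : x.2 ≤ t) :
    x.1 ∈ low F s t := subset_span ⟨x.2, hx, h⟩

lemma mem_all {s : Multiset (V × ℝ)} {x : V × ℝ} (hx : x ∈ s) : x.1 ∈ all F s :=
  subset_span ⟨x.2, hx⟩

lemma low_le {s : Multiset (V × ℝ)} {t : ℝ} {W : Submodule F V}
    (h : ∀ x ∈ s, x.2 ≤ t → x.1 ∈ W) : low F s t ≤ W :=
  span_le.2 fun v ⟨p, hp, hpt⟩ => h (v, p) hp hpt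

lemma all_le {s : Multiset (V × ℝ)} {W : Submodule F V} (h : ∀ x ∈ s, x.1 ∈ W) : all F s ≤ W :=
  span_le.2 fun v ⟨p, hp⟩ => h (v, p) hp

lemma low_le_all (s : Multiset (V × ℝ)) (t : ℝ) : low F s t ≤ all F s :=
  low_le fun _ hx _ => mem_all hx

lemma low_mono (s : Multiset (V × ℝ)) {t t' : ℝ} (h : t ≤ t') : low F s t ≤ low F s t' :=
  low_le fun _ hx hx' => mem_low hx (hx'.trans h)

lemma all_cons (x : V × ℝ) (s : Multiset (V × ℝ)) : all F (x ::ₘ s) = all F s ⊔ F ∙ x.1 := by
  refine le_antisymm (all_le fun y hy => ?_) (sup_le (all_le fun y hy => ?_) ?_)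
  · rcases Multiset.mem_cons.1 hy with rfl | hy
    · exact mem_sup_right (mem_span_singleton_self _)
    · exact mem_sup_left (mem_all hy)
  · exact mem_all (Multiset.mem_cons_of_mem hy)
  · exact (span_singleton_le_iff_mem _ _).2 (mem_all (Multiset.mem_cons_self x s))

lemma eq_inf_ker {W : Submodule F V} {v : V} {φ : V →ₗ[F] F} (hv : φ v ≠ 0)
    (hW : W ≤ LinearMap.ker φ) : W = (W ⊔ F ∙ v) ⊓ LinearMap.ker φ := by
  refine le_antisymm (le_inf le_sup_left hW) ?_
  rintro y ⟨hy, hy0⟩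
  obtain ⟨w, hw, z, hz, rfl⟩ := mem_sup.1 hy
  obtain ⟨c, rfl⟩ := mem_span_singleton.1 hz
  have h1 : φ w = 0 := hW hw
  have h2 : φ (w + c • v) = 0 := hy0
  rw [map_add, h1, zero_add, map_smul, smul_eq_mul, mul_eq_zero] at h2
  rcases h2 with rfl | h2
  · simpa using hw
  · exact absurd h2 hv

/-- restriction to a hyperplane -/
lemma hyperplane (s : Multiset (V × ℝ)) (φ : V →ₗ[F] F) (h : ¬ all F s ≤ LinearMap.ker φ) :
    ∃ (x : V × ℝ) (s' : Multiset (V × ℝ)), x ∈ s ∧ φ x.1 ≠ 0 ∧
      all F s' = all F s ⊓ LinearMap.ker φ ∧ all F s = all F s' ⊔ (F ∙ x.1) ∧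
      (∀ y ∈ s', y.1 ∈ low F s y.2) ∧ cost s = x.2 ^ 2 + cost s' := by
  classical
  have hne : (s.toFinset.filter fun x => φ x.1 ≠ 0).Nonempty := by
    by_contra hc
    refine h (all_le fun x hx => ?_)
    by_contra hx0
    exact hc ⟨x, Finset.mem_filter.2 ⟨Multiset.mem_toFinset.2 hx, hx0⟩⟩
  obtain ⟨x, hx, hmin⟩ := Finset.exists_min_image _ (fun x : V × ℝ => x.2) hne
  obtain ⟨hxs, hx0⟩ := Finset.mem_filter.1 hx
  rw [Multiset.mem_toFinset] at hxs
  obtain ⟨r, rfl⟩ := Multiset.exists_cons_of_mem hxs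
  let s' : Multiset (V × ℝ) := r.map fun y => (y.1 - (φ y.1 / φ x.1) • x.1, y.2)
  have hker : all F s' ≤ LinearMap.ker φ := all_le fun y hy => by
    obtain ⟨z, -, rfl⟩ := Multiset.mem_map.1 hy
    rw [LinearMap.mem_ker, map_sub, map_smul, smul_eq_mul, div_mul_cancel₀ _ hx0, sub_self]
  have hsup : all F (x ::ₘ r) = all F s' ⊔ F ∙ x.1 := by
    refine le_antisymm (all_le fun y hy => ?_) (sup_le (all_le fun y hy => ?_) ?_)
    · rcases Multiset.mem_cons.1 hy with rfl | hy
      · exact mem_sup_right (mem_span_singleton_self _)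
      · have h1 : y.1 - (φ y.1 / φ x.1) • x.1 ∈ all F s' :=
          mem_all (x := (_, y.2)) (Multiset.mem_map_of_mem _ hy)
        have h2 := add_mem (mem_sup_left (T := F ∙ x.1) h1)
          (mem_sup_right (smul_mem _ (φ y.1 / φ x.1) (mem_span_singleton_self x.1)))
        simpa using h2
    · obtain ⟨z, hz, rfl⟩ := Multiset.mem_map.1 hy
      exact sub_mem (mem_all (Multiset.mem_cons_of_mem hz)) (smul_mem _ _ (mem_all hxs))
    · exact (span_singleton_le_iff_mem _ _).2 (mem_all hxs)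
  refine ⟨x, s', hxs, hx0, ?_, hsup, fun y hy => ?_, ?_⟩
  · rw [hsup]
    exact eq_inf_ker hx0 hker
  · obtain ⟨z, hz, rfl⟩ := Multiset.mem_map.1 hy
    have hz' := Multiset.mem_cons_of_mem (b := x) hz
    refine sub_mem (mem_low hz' le_rfl) ?_
    by_cases h0 : φ z.1 = 0
    · simp [h0]
    · exact smul_mem _ _ (mem_low hxs
        (hmin z (Finset.mem_filter.2 ⟨Multiset.mem_toFinset.2 hz', h0⟩)))
  · simp [cost, s', Function.comp_def]

/-- first weights -/
def fst3 (κ : Multiset (V × ℝ × ℝ)) : Multiset (V × ℝ) := κ.map fun x => (x.1, x.2.1)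

/-- second weights -/
def snd3 (κ : Multiset (V × ℝ × ℝ)) : Multiset (V × ℝ) := κ.map fun x => (x.1, x.2.2)

/-- common refinement of two weighted families with the same span -/
lemma common (n : ℕ) : ∀ s s' : Multiset (V × ℝ), Multiset.card s = n → all F s = all F s' →
    ∃ κ : Multiset (V × ℝ × ℝ), all F (fst3 κ) = all F s ∧
      (∀ x ∈ κ, x.1 ∈ low F s x.2.1 ∧ x.1 ∈ low F s' x.2.2 ∧ ∃ y ∈ s, x.2.1 = y.2) ∧
      (∀ t, low F s t ≤ low F (fst3 κ) t) ∧ cost (fst3 κ) ≤ cost s ∧ cost (snd3 κ) ≤ cost s' := by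
  classical
  induction n with
  | zero =>
    intro s s' hs _
    rw [Multiset.card_eq_zero] at hs
    subst hs
    exact ⟨0, rfl, by simp, fun t => le_rfl, le_rfl, cost_nonneg _⟩
  | succ n ih =>
    intro s s' hs hss
    have hne : s.toFinset.Nonempty := by
      rw [Multiset.toFinset_nonempty]
      rintro rfl
      simp at hs
    obtain ⟨x, hx, hmax⟩ := Finset.exists_max_image _ (fun x : V × ℝ => x.2) hne
    rw [Multiset.mem_toFinset] at hx
    simp only [Multiset.mem_toFinset] at hmax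
    obtain ⟨r, rfl⟩ := Multiset.exists_cons_of_mem hx
    have hr : Multiset.card r = n := by simpa using hs
    have hlowr : ∀ t, low F r t ≤ low F (x ::ₘ r) t := fun t =>
      low_le fun y hy h => mem_low (Multiset.mem_cons_of_mem hy) h
    have hlt : ∀ t, t < x.2 → low F (x ::ₘ r) t ≤ low F r t := fun t ht =>
      low_le fun y hy h => by
        rcases Multiset.mem_cons.1 hy with rfl | hy
        · exact absurd h (not_le.2 ht)
        · exact mem_low hy h
    by_cases hxr : x.1 ∈ all F r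
    · have e : all F (x ::ₘ r) = all F r := by
        rw [all_cons, sup_eq_left, span_singleton_le_iff_mem]
        exact hxr
      obtain ⟨κ, h1, h2, h3, h4, h5⟩ := ih r s' hr (e ▸ hss)
      refine ⟨κ, h1.trans e.symm, fun y hy => ⟨hlowr _ (h2 y hy).1, (h2 y hy).2.1, ?_⟩,
        fun t => ?_, ?_, h5⟩
      · obtain ⟨z, hz, hz'⟩ := (h2 y hy).2.2
        exact ⟨z, Multiset.mem_cons_of_mem hz, hz'⟩
      · rcases lt_or_ge t x.2 with ht | ht
        · exact (hlt t ht).trans (h3 t)
        · refine (low_le_all _ _).trans ?_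
          rw [e, ← h1]
          refine all_le fun y hy => mem_low hy ?_
          obtain ⟨z, hz, rfl⟩ := Multiset.mem_map.1 hy
          obtain ⟨w, hw, hw'⟩ := (h2 z hz).2.2
          exact hw'.le.trans ((hmax w (Multiset.mem_cons_of_mem hw)).trans ht)
      · rw [cost_cons]
        nlinarith [sq_nonneg x.2]
    · obtain ⟨φ, hφ, hφ'⟩ := exists_dual_map_eq_bot_of_notMem hxr inferInstance
      have hker : all F r ≤ LinearMap.ker φ := LinearMap.le_ker_iff_map.2 hφ'
      obtain ⟨y, s'', hy, -, e1, e2, hlow, hcost⟩ := hyperplane s' φ (by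
        rw [← hss]
        exact fun h => hφ (h (mem_all hx)))
      have e3 : all F r = all F s'' := by
        rw [e1, ← hss, all_cons]
        exact eq_inf_ker hφ hker
      obtain ⟨κ, h1, h2, h3, h4, h5⟩ := ih r s'' hr e3
      have hf : fst3 ((y.1, x.2, y.2) ::ₘ κ) = (y.1, x.2) ::ₘ fst3 κ := by simp [fst3]
      have hg : snd3 ((y.1, x.2, y.2) ::ₘ κ) = (y.1, y.2) ::ₘ snd3 κ := by simp [snd3]
      have e4 : all F (fst3 ((y.1, x.2, y.2) ::ₘ κ)) = all F (x ::ₘ r) := by
        rw [hf, all_cons, h1, e3, hss, e2]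
      refine ⟨(y.1, x.2, y.2) ::ₘ κ, e4, fun z hz => ?_, fun t => ?_, ?_, ?_⟩
      · rcases Multiset.mem_cons.1 hz with rfl | hz
        · refine ⟨?_, mem_low hy le_rfl, x, hx, rfl⟩
          have : all F (x ::ₘ r) ≤ low F (x ::ₘ r) x.2 :=
            all_le fun w hw => mem_low hw (hmax w hw)
          exact this (hss ▸ mem_all hy)
        · obtain ⟨w, hw, hw'⟩ := (h2 z hz).2.2
          refine ⟨hlowr _ (h2 z hz).1, ?_, w, Multiset.mem_cons_of_mem hw, hw'⟩
          have : low F s'' z.2.2 ≤ low F s' z.2.2 :=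
            low_le fun w hw h => low_mono s' h (hlow w hw)
          exact this (h2 z hz).2.1
      · rcases lt_or_ge t x.2 with ht | ht
        · refine (hlt t ht).trans ((h3 t).trans ?_)
          rw [hf]
          exact low_le fun w hw h => mem_low (Multiset.mem_cons_of_mem hw) h
        · refine (low_le_all _ _).trans ?_
          rw [← e4]
          refine all_le fun w hw => mem_low hw ?_
          obtain ⟨z, hz, rfl⟩ := Multiset.mem_map.1 hw
          rcases Multiset.mem_cons.1 hz with rfl | hz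
          · exact ht
          · obtain ⟨w, hw, hw'⟩ := (h2 z hz).2.2
            exact hw'.le.trans ((hmax w (Multiset.mem_cons_of_mem hw)).trans ht)
      · rw [hf, cost_cons, cost_cons]
        linarith
      · rw [hg, cost_cons, hcost]
        linarith

/-- middle weights -/
noncomputable def mid3 (κ : Multiset (V × ℝ × ℝ)) : Multiset (V × ℝ) :=
  κ.map fun x => (x.1, (x.2.1 + x.2.2) / 2)

/-- squared distance of the two weights -/
def gap3 (κ : Multiset (V × ℝ × ℝ)) : ℝ := (κ.map fun x => (x.2.1 - x.2.2) ^ 2).sum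

omit [AddCommGroup V] in
lemma cost_mid (κ : Multiset (V × ℝ × ℝ)) :
    cost (mid3 κ) = cost (fst3 κ) / 2 + cost (snd3 κ) / 2 - gap3 κ / 4 := by
  induction κ using Multiset.induction_on with
  | empty => simp [mid3, fst3, snd3, gap3]
  | cons x κ ih =>
    simp only [mid3, fst3, snd3, gap3, Multiset.map_cons, cost_cons, Multiset.sum_cons] at ih ⊢
    rw [ih]
    ring

omit [AddCommGroup V] in
lemma gap3_nonneg (κ : Multiset (V × ℝ × ℝ)) : 0 ≤ gap3 κ :=
  Multiset.sum_nonneg fun x hx => by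
    obtain ⟨y, -, rfl⟩ := Multiset.mem_map.1 hx
    positivity

omit [AddCommGroup V] in
lemma le_gap3 {κ : Multiset (V × ℝ × ℝ)} {x : V × ℝ × ℝ} (hx : x ∈ κ) :
    (x.2.1 - x.2.2) ^ 2 ≤ gap3 κ := by
  obtain ⟨r, rfl⟩ := Multiset.exists_cons_of_mem hx
  have := gap3_nonneg r
  simp only [gap3, Multiset.map_cons, Multiset.sum_cons] at this ⊢
  linarith

lemma all_mid (κ : Multiset (V × ℝ × ℝ)) : all F (mid3 κ) = all F (fst3 κ) := by
  refine le_antisymm (all_le fun y hy => ?_) (all_le fun y hy => ?_)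
  · obtain ⟨z, hz, rfl⟩ := Multiset.mem_map.1 hy
    exact mem_all (x := (z.1, z.2.1)) (Multiset.mem_map_of_mem _ hz)
  · obtain ⟨z, hz, rfl⟩ := Multiset.mem_map.1 hy
    exact mem_all (x := (z.1, (z.2.1 + z.2.2) / 2)) (Multiset.mem_map_of_mem _ hz)

end Pool.Agent.H181Z.SR
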