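import Mathlib
import Pool.Agent.H181Z.SRFilt

/-!
# The quadratic cover number of a multilinear form and its growth
-/

set_option autoImplicit false

namespace Pool.Agent.H181Z.SR

open Submodule Function

variable {F : Type*} [Field F] {V : Type*} [AddCommGroup V] [Module F V]
variable {ι : Type*} [Fintype ι] [DecidableEq ι]

lemma vanish_span (μ : MultilinearMap F (fun _ : ι => V) F) (S : ι → Set V)
    (h : ∀ v, (∀ i, v i ∈ S i) → μ v = 0) (v : ι → V) (hv : ∀ i, v i ∈ span F (S i)) :
    μ v = 0 := by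
  have key : ∀ A : Finset ι, ∀ v : ι → V, (∀ i ∈ A, v i ∈ span F (S i)) →
      (∀ i ∉ A, v i ∈ S i) → μ v = 0 := by
    intro A
    induction A using Finset.induction_on with
    | empty => exact fun v _ h2 => h v fun i => h2 i (by simp)
    | insert j A hj ih =>
      intro v h1 h2
      have : span F (S j) ≤ LinearMap.ker (μ.toLinearMap v j) := by
        refine span_le.2 fun w hw => ?_
        refine ih (update v j w) (fun i hi => ?_) fun i hi => ?_
        · rw [update_of_ne (by rintro rfl; exact hj hi)]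
          exact h1 i (Finset.mem_insert_of_mem hi)
        · by_cases hij : i = j
          · subst hij
            rwa [update_self]
          · rw [update_of_ne hij]
            exact h2 i (by simp [hij, hi])
      have h3 := this (h1 j (Finset.mem_insert_self _ _))
      simpa using h3
  exact key Finset.univ v (fun i _ => hv i) (by simp)

/-- weighted spanning families such that the weights cover the support -/
def Cover (μ : MultilinearMap F (fun _ : ι => V) F) (U : ι → Submodule F V)
    (s : ι → Multiset (V × ℝ)) : Prop :=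
  (∀ i, all F (s i) = U i) ∧
    ∀ x : ι → V × ℝ, (∀ i, x i ∈ s i) → μ (fun i => (x i).1) ≠ 0 → 1 ≤ ∑ i, (x i).2

lemma Cover.vanish {μ : MultilinearMap F (fun _ : ι => V) F} {U : ι → Submodule F V}
    {s : ι → Multiset (V × ℝ)} (h : Cover μ U s) (t : ι → ℝ) (ht : ∑ i, t i < 1) (v : ι → V)
    (hv : ∀ i, v i ∈ low F (s i) (t i)) : μ v = 0 := by
  refine vanish_span μ _ (fun w hw => ?_) v hv
  choose p hp hpt using hw
  by_contra hne
  have h1 := h.2 (fun i => (w i, p i)) hp hne
  have h2 : ∑ i, p i ≤ ∑ i, t i := Finset.sum_le_sum fun i _ => hpt i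
  simp only at h1
  linarith

/-- the costs of covers -/
def costSet (μ : MultilinearMap F (fun _ : ι => V) F) (U : ι → Submodule F V) : Set ℝ :=
  {c | ∃ s, Cover μ U s ∧ c = ∑ i, cost (s i)}

/-- the quadratic cover number -/
noncomputable def M (μ : MultilinearMap F (fun _ : ι => V) F) (U : ι → Submodule F V) : ℝ :=
  sInf (costSet μ U)

variable {μ : MultilinearMap F (fun _ : ι => V) F}

omit [DecidableEq ι] in
lemma costSet_bdd (U : ι → Submodule F V) : ∀ c ∈ costSet μ U, 0 ≤ c := by
  rintro _ ⟨s, -, rfl⟩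
  exact Finset.sum_nonneg fun i _ => cost_nonneg _

omit [DecidableEq ι] in
lemma M_le {U : ι → Submodule F V} {s : ι → Multiset (V × ℝ)} (h : Cover μ U s) :
    M μ U ≤ ∑ i, cost (s i) := csInf_le ⟨0, costSet_bdd U⟩ ⟨s, h, rfl⟩

omit [DecidableEq ι] in
lemma M_nonneg (U : ι → Submodule F V) : 0 ≤ M μ U := Real.sInf_nonneg (costSet_bdd U)

omit [DecidableEq ι] in
lemma exists_cover_lt {U : ι → Submodule F V} (hne : (costSet μ U).Nonempty) {η : ℝ}
    (hη : 0 < η) : ∃ s, Cover μ U s ∧ ∑ i, cost (s i) < M μ U + η := by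
  obtain ⟨_, ⟨s, hs, rfl⟩, h⟩ := Real.lt_sInf_add_pos hne hη
  exact ⟨s, hs, h⟩

lemma grow (U : ι → Submodule F V) (i0 : ι) (e : V) (D : ℝ) (hD : (Fintype.card ι : ℝ) ≤ D)
    (hD1 : 1 ≤ D) (s : ι → Multiset (V × ℝ)) (hs : Cover μ U s)
    (hcost : ∑ i, cost (s i) ≤ M μ U + 1 / (64 * D ^ 2))
    (good : ∀ u ∈ U i0, ∃ v : ι → V, (∀ i, i ≠ i0 → v i ∈ low F (s i) (1 / (4 * D))) ∧
      μ (update v i0 (e + u)) ≠ 0)
    (s' : ι → Multiset (V × ℝ)) (hs' : Cover μ (update U i0 (U i0 ⊔ F ∙ e)) s') :
    M μ U + 1 / (64 * D ^ 2) ≤ ∑ i, cost (s' i) := by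
  have he : e ∉ U i0 := by
    intro he
    obtain ⟨v, -, hv⟩ := good (-e) (neg_mem he)
    simp at hv
  obtain ⟨φ, hφ, hφ'⟩ := exists_dual_map_eq_bot_of_notMem he inferInstance
  have hker : U i0 ≤ LinearMap.ker φ := LinearMap.le_ker_iff_map.2 hφ'
  have hall : all F (s' i0) = U i0 ⊔ F ∙ e := by rw [hs'.1, update_self]
  obtain ⟨y, r, hy, hy0, e1, -, hlow, hc⟩ := hyperplane (s' i0) φ (by
    rw [hall]
    exact fun h => hφ (h (mem_sup_right (mem_span_singleton_self e))))
  rw [hall, ← eq_inf_ker hφ hker] at e1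
  set s'' := update s' i0 r with hs''
  have hlow'' : ∀ i t, low F (s'' i) t ≤ low F (s' i) t := by
    intro i t
    by_cases hi : i = i0
    · subst hi
      rw [hs'', update_self]
      exact low_le fun w hw h => low_mono _ h (hlow w hw)
    · rw [hs'', update_of_ne hi]
  have hall'' : ∀ i, all F (s'' i) = U i := by
    intro i
    by_cases hi : i = i0
    · subst hi
      rw [hs'', update_self, e1]
    · rw [hs'', update_of_ne hi, hs'.1, update_of_ne hi]
  have hcov'' : Cover μ U s'' := by
    refine ⟨hall'', fun x hx hne => ?_⟩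
    by_contra hlt
    exact hne (hs'.vanish (fun i => (x i).2) (not_le.1 hlt) _ fun i =>
      hlow'' i _ (mem_low (hx i) le_rfl))
  have hsum : ∑ i, cost (s' i) = y.2 ^ 2 + ∑ i, cost (s'' i) := by
    rw [← Finset.add_sum_erase _ _ (Finset.mem_univ i0),
      ← Finset.add_sum_erase _ (fun i => cost (s'' i)) (Finset.mem_univ i0), hc, hs'', update_self,
      add_assoc]
    congr 2
    exact Finset.sum_congr rfl fun i hi => by rw [update_of_ne (Finset.ne_of_mem_erase hi)]
  have hDpos : 0 < D := by linarith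
  have hc4 : 1 / (64 * D ^ 2) ≤ 1 / 4 := by
    rw [div_le_div_iff₀ (by positivity) (by positivity)]
    nlinarith
  by_cases hα : 1 / 2 ≤ y.2
  · have := M_le hcov''
    nlinarith
  by_contra hlt
  push Not at hlt hα
  choose κ h1 h2 h3 h4 h5 using fun i =>
    common (F := F) _ (s i) (s'' i) rfl ((hs.1 i).trans (hall'' i).symm)
  have hmid : Cover μ U fun i => mid3 (κ i) := by
    refine ⟨fun i => by rw [all_mid, h1, hs.1], fun x hx hne => ?_⟩
    choose z hz hzx using fun i => Multiset.mem_map.1 (hx i)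
    have e2 : (fun i => (x i).1) = fun i => (z i).1 := funext fun i => by rw [← hzx i]
    rw [e2] at hne
    have a1 : 1 ≤ ∑ i, (z i).2.1 := by
      by_contra h
      exact hne (hs.vanish _ (not_le.1 h) _ fun i => (h2 i _ (hz i)).1)
    have a2 : 1 ≤ ∑ i, (z i).2.2 := by
      by_contra h
      exact hne (hcov''.vanish _ (not_le.1 h) _ fun i => (h2 i _ (hz i)).2.1)
    have e3 : ∑ i, (x i).2 = (∑ i, (z i).2.1 + ∑ i, (z i).2.2) / 2 := by
      rw [← Finset.sum_add_distrib, Finset.sum_div]
      exact Finset.sum_congr rfl fun i _ => by rw [← hzx i]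
    linarith
  have hM := M_le hmid
  simp only [cost_mid, Finset.sum_sub_distrib, Finset.sum_add_distrib, ← Finset.sum_div] at hM
  have b1 : ∑ i, cost (fst3 (κ i)) ≤ ∑ i, cost (s i) := Finset.sum_le_sum fun i _ => h4 i
  have b2 : ∑ i, cost (snd3 (κ i)) ≤ ∑ i, cost (s'' i) := Finset.sum_le_sum fun i _ => h5 i
  have hgap : ∑ i, gap3 (κ i) ≤ (1 / (4 * D)) ^ 2 := by
    have : (1 / (4 * D)) ^ 2 = 4 * (1 / (64 * D ^ 2)) := by ring
    nlinarith [sq_nonneg y.2]
  have hclose : ∀ i, ∀ z ∈ κ i, z.2.2 ≤ z.2.1 + 1 / (4 * D) := by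
    intro i z hz
    have c1 := (le_gap3 hz).trans ((Finset.single_le_sum (fun i _ => gap3_nonneg (κ i))
      (Finset.mem_univ i)).trans hgap)
    have c2 := abs_le_of_sq_le_sq' c1 (by positivity)
    linarith [c2.1]
  have hyU : y.1 ∈ U i0 ⊔ F ∙ e := hall ▸ mem_all hy
  obtain ⟨w, hw, z, hz, hwz⟩ := mem_sup.1 hyU
  obtain ⟨c, rfl⟩ := mem_span_singleton.1 hz
  have hc0 : c ≠ 0 := by
    rintro rfl
    rw [zero_smul, add_zero] at hwz
    exact hy0 (hwz ▸ hker hw)
  obtain ⟨v, hv, hne⟩ := good (c⁻¹ • w) (smul_mem _ _ hw)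
  have e5 : e + c⁻¹ • w = c⁻¹ • y.1 := by
    rw [← hwz, smul_add, smul_smul, inv_mul_cancel₀ hc0, one_smul, add_comm]
  rw [e5, μ.map_update_smul] at hne
  refine hne ?_
  rw [hs'.vanish (update (fun _ => 1 / (2 * D)) i0 y.2) ?_ _ fun i => ?_, smul_zero]
  · rw [Finset.sum_update_of_mem (Finset.mem_univ _), Finset.sum_const, nsmul_eq_mul]
    have c1 : ((Finset.univ \ {i0}).card : ℝ) ≤ D :=
      (Nat.cast_le.2 (Finset.card_le_univ _)).trans hD
    have c2 : ((Finset.univ \ {i0}).card : ℝ) * (1 / (2 * D)) ≤ D * (1 / (2 * D)) :=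
      mul_le_mul_of_nonneg_right c1 (by positivity)
    have c3 : D * (1 / (2 * D)) = 1 / 2 := by field_simp
    linarith
  · by_cases hi : i = i0
    · subst hi
      rw [update_self, update_self]
      exact mem_low hy le_rfl
    · rw [update_of_ne hi, update_of_ne hi]
      refine hlow'' i _ ?_
      have : low F (fst3 (κ i)) (1 / (4 * D)) ≤ low F (s'' i) (1 / (2 * D)) := by
        refine low_le fun x hx hxt => ?_
        obtain ⟨z, hz, rfl⟩ := Multiset.mem_map.1 hx
        refine low_mono _ ?_ (h2 i z hz).2.1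
        have c1 := hclose i z hz
        have c2 : 1 / (2 * D) = 1 / (4 * D) + 1 / (4 * D) := by ring
        simp only at hxt
        linarith
      exact this (h3 i _ (hv i hi))

/-- replace the weights by `0` or `1` -/
noncomputable def cut (s : Multiset (V × ℝ)) (ε : ℝ) : Multiset (V × ℝ) :=
  s.map fun x => (x.1, if x.2 ≤ ε then 0 else 1)

lemma all_cut (s : Multiset (V × ℝ)) (ε : ℝ) : all F (cut s ε) = all F s := by
  refine le_antisymm (all_le fun y hy => ?_) (all_le fun y hy => ?_)
  · obtain ⟨z, hz, rfl⟩ := Multiset.mem_map.1 hy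
    exact mem_all (x := z) hz
  · exact mem_all (x := (y.1, if y.2 ≤ ε then 0 else 1)) (Multiset.mem_map_of_mem _ hy)

omit [AddCommGroup V] in
lemma cost_cut (s : Multiset (V × ℝ)) {ε : ℝ} (hε : 0 < ε) : cost (cut s ε) ≤ cost s / ε ^ 2 := by
  induction s using Multiset.induction_on with
  | empty => simp [cut]
  | cons x s ih =>
    simp only [cut, Multiset.map_cons, cost_cons] at ih ⊢
    rw [add_div]
    refine add_le_add ?_ ih
    split_ifs with h
    · rw [zero_pow two_ne_zero]
      positivity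
    · rw [one_pow, one_le_div (by positivity)]
      exact pow_le_pow_left₀ hε.le (not_le.1 h).le 2

lemma bad_case {α : Type*} (e : α → V) (U : ι → Submodule F V) (i0 : ι) (J J0 : Finset α)
    (hJ : J ⊆ J0) (hU : U i0 = span F (e '' J)) (s : ι → Multiset (V × ℝ)) (hs : Cover μ U s)
    {ε : ℝ} (hε : 0 < ε)
    (bad : ∀ j ∈ J0, ∃ u ∈ U i0, ∀ v : ι → V, (∀ i, i ≠ i0 → v i ∈ low F (s i) ε) →
      μ (update v i0 (e j + u)) = 0) :
    M μ (update U i0 (span F (e '' J0))) ≤ J.card + (∑ i, cost (s i)) / ε ^ 2 := by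
  choose! u hu hbad using bad
  let r : Multiset (V × ℝ) := J0.val.map (fun j => (e j + u j, 0)) + J.val.map fun j => (e j, 1)
  have hUr : U i0 ≤ all F r := by
    rw [hU]
    refine span_le.2 ?_
    rintro _ ⟨j, hj, rfl⟩
    exact mem_all (x := (e j, 1)) (Multiset.mem_add.2 (Or.inr (Multiset.mem_map_of_mem _ hj)))
  have hU0 : U i0 ≤ span F (e '' J0) := by
    rw [hU]
    exact span_mono (Set.image_mono hJ)
  have hr : all F r = span F (e '' J0) := by
    refine le_antisymm (all_le fun x hx => ?_) (span_le.2 ?_)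
    · rcases Multiset.mem_add.1 hx with hx | hx
      · obtain ⟨j, hj, rfl⟩ := Multiset.mem_map.1 hx
        exact add_mem (subset_span ⟨j, hj, rfl⟩) (hU0 (hu j hj))
      · obtain ⟨j, hj, rfl⟩ := Multiset.mem_map.1 hx
        exact subset_span ⟨j, hJ hj, rfl⟩
    · rintro _ ⟨j, hj, rfl⟩
      have h1 : e j + u j ∈ all F r :=
        mem_all (x := (e j + u j, 0)) (Multiset.mem_add.2 (Or.inl (Multiset.mem_map_of_mem _ hj)))
      simpa using sub_mem h1 (hUr (hu j hj))
  have hcr : cost r = J.card := by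
    simp [r, cost_add, cost]
  have hcov : Cover μ (update U i0 (span F (e '' J0))) (update (fun i => cut (s i) ε) i0 r) := by
    refine ⟨fun i => ?_, fun x hx hne => ?_⟩
    · by_cases hi : i = i0
      · subst hi
        rw [update_self, update_self, hr]
      · rw [update_of_ne hi, update_of_ne hi, all_cut, hs.1]
    · have hw : ∀ i, (x i).2 = 0 ∨ (x i).2 = 1 := by
        intro i
        have := hx i
        by_cases hi : i = i0
        · subst hi
          rw [update_self] at this
          rcases Multiset.mem_add.1 this with h | h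
          · obtain ⟨j, -, hj⟩ := Multiset.mem_map.1 h
            exact Or.inl (by rw [← hj])
          · obtain ⟨j, -, hj⟩ := Multiset.mem_map.1 h
            exact Or.inr (by rw [← hj])
        · rw [update_of_ne hi] at this
          obtain ⟨z, -, hz⟩ := Multiset.mem_map.1 this
          rw [← hz]
          simp only
          split_ifs <;> simp
      by_contra hlt
      have h0 : ∀ i, (x i).2 = 0 := by
        intro i
        refine (hw i).resolve_right fun h1 => hlt ?_
        rw [← h1]
        exact Finset.single_le_sum (f := fun i => (x i).2)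
          (fun i _ => by rcases hw i with h | h <;> simp [h]) (Finset.mem_univ i)
      have hx0 := hx i0
      rw [update_self] at hx0
      rcases Multiset.mem_add.1 hx0 with h | h
      · obtain ⟨j, hj, hj'⟩ := Multiset.mem_map.1 h
        have := hbad j hj (fun i => (x i).1) fun i hi => by
          have h1 := hx i
          rw [update_of_ne hi] at h1
          obtain ⟨z, hz, hz'⟩ := Multiset.mem_map.1 h1
          have h2 := h0 i
          rw [← hz'] at h2 ⊢
          refine mem_low (x := z) hz ?_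
          by_contra h3
          simp [h3] at h2
        have e1 : e j + u j = (fun i => (x i).1) i0 := by simp only [← hj']
        rw [e1, update_eq_self] at this
        exact hne this
      · obtain ⟨j, -, hj'⟩ := Multiset.mem_map.1 h
        have := h0 i0
        rw [← hj'] at this
        simp at this
  refine (M_le hcov).trans ?_
  rw [← Finset.add_sum_erase _ _ (Finset.mem_univ i0), update_self, hcr, Finset.sum_div]
  refine add_le_add le_rfl ((Finset.sum_le_sum fun i hi => ?_).trans
    (Finset.sum_le_sum_of_subset_of_nonneg (Finset.erase_subset i0 _) fun i _ _ =>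
      div_nonneg (cost_nonneg _) (by positivity)))
  rw [update_of_ne (Finset.ne_of_mem_erase hi)]
  exact cost_cut _ hε

variable (μ) in
/-- the cover number of a coordinate restriction -/
noncomputable def mJ {α : Type*} (e : α → V) (J : ι → Finset α) : ℝ :=
  M μ fun i => span F (e '' J i)

omit [DecidableEq ι] in
lemma costSet_nonempty [Nonempty ι] {α : Type*} (e : α → V) (J : ι → Finset α) :
    (costSet μ fun i => span F (e '' J i)).Nonempty := by
  refine ⟨_, fun i => (J i).val.map fun j => (e j, 1), ⟨fun i => ?_, fun x hx _ => ?_⟩, rfl⟩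
  · refine le_antisymm (all_le fun x hx => ?_) (span_le.2 ?_)
    · obtain ⟨j, hj, rfl⟩ := Multiset.mem_map.1 hx
      exact subset_span ⟨j, hj, rfl⟩
    · rintro _ ⟨j, hj, rfl⟩
      exact mem_all (x := (e j, 1)) (Multiset.mem_map_of_mem _ hj)
  · have : ∀ i, (x i).2 = 1 := fun i => by
      obtain ⟨j, -, hj⟩ := Multiset.mem_map.1 (hx i)
      rw [← hj]
    simp only [this, Finset.sum_const, Finset.card_univ, nsmul_eq_mul, mul_one]
    exact_mod_cast Fintype.card_pos

lemma span_update {α : Type*} (e : α → V) (J : ι → Finset α) (i0 : ι) (K : Finset α) :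
    (fun i => span F (e '' (update J i0 K i : Finset α))) =
      update (fun i => span F (e '' J i)) i0 (span F (e '' K)) := by
  funext i
  by_cases hi : i = i0
  · subst hi
    simp
  · simp [update_of_ne hi]

lemma greedy_step {α : Type*} [DecidableEq α] (e : α → V) (J0 : ι → Finset α) (i0 : ι) (D : ℝ)
    (hD : (Fintype.card ι : ℝ) ≤ D) (hD1 : 1 ≤ D) (K : Finset α) (hK : K ⊆ J0 i0)
    (h : K.card + mJ μ e (update J0 i0 K) / (1 / (4 * D)) ^ 2 < mJ μ e J0) :
    ∃ j ∈ J0 i0, mJ μ e (update J0 i0 K) + 1 / (64 * D ^ 2) ≤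
      mJ μ e (update J0 i0 (insert j K)) := by
  have : Nonempty ι := ⟨i0⟩
  have hDpos : 0 < D := by linarith
  set ε := 1 / (4 * D) with hε
  have hε0 : 0 < ε := by positivity
  set m := mJ μ e (update J0 i0 K) with hm
  set η := min (1 / (64 * D ^ 2)) ((mJ μ e J0 - K.card - m / ε ^ 2) * ε ^ 2) with hη
  have hη0 : 0 < η := lt_min (by positivity) (mul_pos (by linarith) (by positivity))
  obtain ⟨s, hs, hc⟩ := exists_cover_lt (costSet_nonempty (μ := μ) e (update J0 i0 K)) hη0
  set U : ι → Submodule F V := fun i => span F (e '' (update J0 i0 K i : Finset α)) with hU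
  have hU0 : U i0 = span F (e '' K) := by simp [hU]
  by_cases hbad : ∀ j ∈ J0 i0, ∃ u ∈ U i0, ∀ v : ι → V, (∀ i, i ≠ i0 → v i ∈ low F (s i) ε) →
      μ (update v i0 (e j + u)) = 0
  · exfalso
    have h1 := bad_case e U i0 K (J0 i0) hK hU0 s hs hε0 hbad
    have e1 : update U i0 (span F (e '' J0 i0)) = fun i => span F (e '' J0 i) := by
      rw [hU, span_update, update_idem, update_eq_self]
    rw [e1] at h1
    have h2 : (∑ i, cost (s i)) / ε ^ 2 < (m + (mJ μ e J0 - K.card - m / ε ^ 2) * ε ^ 2) / ε ^ 2 :=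
      div_lt_div_of_pos_right (hc.trans_le (add_le_add le_rfl (min_le_right _ _))) (by positivity)
    rw [add_div, mul_div_cancel_right₀ _ (by positivity)] at h2
    have h3 : mJ μ e J0 = M μ fun i => span F (e '' J0 i) := rfl
    linarith
  · push Not at hbad
    obtain ⟨j, hj, good⟩ := hbad
    refine ⟨j, hj, le_csInf (costSet_nonempty e _) ?_⟩
    rintro _ ⟨s', hs', rfl⟩
    refine grow U i0 (e j) D hD hD1 s hs (hc.le.trans (add_le_add le_rfl (min_le_left _ _))) good
      s' ?_
    have e1 : update U i0 (U i0 ⊔ F ∙ e j) =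
        fun i => span F (e '' (update J0 i0 (insert j K) i : Finset α)) := by
      rw [hU0, hU, span_update, span_update, update_idem, Finset.coe_insert, Set.image_insert_eq,
        span_insert, sup_comm]
    rw [e1]
    exact hs'

lemma greedy {α : Type*} [DecidableEq α] (e : α → V) (J0 : ι → Finset α) (i0 : ι) (D : ℝ)
    (hD : (Fintype.card ι : ℝ) ≤ D) (hD1 : 1 ≤ D) :
    ∃ K ⊆ J0 i0, K.card ≤ ⌈mJ μ e J0 / 2⌉₊ ∧
      1 / (128 * D ^ 2) * mJ μ e J0 ≤ mJ μ e (update J0 i0 K) := by
  have hDpos : 0 < D := by linarith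
  set m := mJ μ e J0 with hm
  have hm0 : 0 ≤ m := M_nonneg _
  have key : ∀ k : ℕ, k ≤ ⌈m / 2⌉₊ → ∃ K ⊆ J0 i0, K.card ≤ k ∧
      (1 / (64 * D ^ 2) * k ≤ mJ μ e (update J0 i0 K) ∨
        (1 / (4 * D)) ^ 2 * (m / 2) ≤ mJ μ e (update J0 i0 K)) := by
    intro k
    induction k with
    | zero => exact fun _ => ⟨∅, by simp, by simp, Or.inl (by rw [Nat.cast_zero, mul_zero]; exact M_nonneg _)⟩
    | succ k ih =>
      intro hk
      obtain ⟨K, hK, hKc, h⟩ := ih (by omega)
      by_cases h2 : (1 / (4 * D)) ^ 2 * (m / 2) ≤ mJ μ e (update J0 i0 K)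
      · exact ⟨K, hK, by omega, Or.inr h2⟩
      · have h1 := h.resolve_right h2
        have hk' : (k : ℝ) < m / 2 := Nat.lt_ceil.1 (by omega)
        have hKc' : (K.card : ℝ) ≤ k := by exact_mod_cast hKc
        obtain ⟨j, hj, h3⟩ := greedy_step (μ := μ) e J0 i0 D hD hD1 K hK (by
          have : mJ μ e (update J0 i0 K) / (1 / (4 * D)) ^ 2 < m / 2 := by
            rw [div_lt_iff₀ (by positivity), mul_comm]
            exact not_le.1 h2
          linarith)
        refine ⟨insert j K, Finset.insert_subset hj hK,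
          (Finset.card_insert_le _ _).trans (by omega), Or.inl ?_⟩
        push_cast
        linarith
  obtain ⟨K, hK, hKc, h⟩ := key _ le_rfl
  refine ⟨K, hK, hKc, ?_⟩
  rcases h with h | h
  · refine le_trans ?_ h
    have := Nat.le_ceil (m / 2)
    calc 1 / (128 * D ^ 2) * m = 1 / (64 * D ^ 2) * (m / 2) := by ring
      _ ≤ _ := mul_le_mul_of_nonneg_left this (by positivity)
  · refine le_trans ?_ h
    calc 1 / (128 * D ^ 2) * m = 1 / (64 * D ^ 2) * (m / 2) := by ring
      _ ≤ (1 / (4 * D)) ^ 2 * (m / 2) := by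
        refine mul_le_mul_of_nonneg_right ?_ (by positivity)
        rw [div_pow, one_pow, div_le_div_iff₀ (by positivity) (by positivity)]
        nlinarith

theorem core {α : Type*} [DecidableEq α] (e : α → V) (J0 : ι → Finset α) (D : ℝ)
    (hD : (Fintype.card ι : ℝ) ≤ D) (hD1 : 1 ≤ D) (R : ℕ) (hR : ∀ J, mJ μ e J ≤ R) :
    ∃ J : ι → Finset α, (∀ i, (J i).card ≤ R) ∧
      (1 / (128 * D ^ 2)) ^ Fintype.card ι * mJ μ e J0 ≤ mJ μ e J := by
  have hDpos : 0 < D := by linarith
  have key : ∀ A : Finset ι, ∃ J : ι → Finset α, (∀ i ∈ A, (J i).card ≤ R) ∧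
      (1 / (128 * D ^ 2)) ^ A.card * mJ μ e J0 ≤ mJ μ e J := by
    intro A
    induction A using Finset.induction_on with
    | empty => exact ⟨J0, by simp, by simp⟩
    | insert i0 A hi ih =>
      obtain ⟨J, hJ, h⟩ := ih
      obtain ⟨K, -, hK, h2⟩ := greedy (μ := μ) e J i0 D hD hD1
      refine ⟨update J i0 K, fun i hi' => ?_, ?_⟩
      · by_cases h3 : i = i0
        · subst h3
          rw [update_self]
          refine hK.trans (Nat.ceil_le.2 ?_)
          have h4 : 0 ≤ mJ μ e J := M_nonneg _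
          linarith [hR J]
        · rw [update_of_ne h3]
          exact hJ i (by simpa [h3] using hi')
      · rw [Finset.card_insert_of_notMem hi, pow_succ', mul_assoc]
        exact (mul_le_mul_of_nonneg_left h (by positivity)).trans h2
  obtain ⟨J, hJ, h⟩ := key Finset.univ
  exact ⟨J, fun i => hJ i (Finset.mem_univ i), h⟩

end Pool.Agent.H181Z.SR
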