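import Mathlib
import Pool.Agent.H181Z.SRGrow
import Pool.Agent.H181Z.SRDefs

/-!
# The quadratic cover number is comparable with the slice rank
-/

set_option autoImplicit false

namespace Pool.Agent.H181Z.SR

open Submodule Function

section general

variable {F : Type*} [Field F] {V : Type*} [AddCommGroup V] [Module F V]

lemma decomp (s : Multiset (V × ℝ)) {t : ℝ} (ht : 0 < t) :
    ∃ (n : ℕ) (h : Fin n → V), n * t ^ 2 ≤ cost s ∧
      ∀ u ∈ all F s, ∃ l ∈ low F s t, ∃ c : Fin n → F, u = l + ∑ k, c k • h k := by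
  induction s using Multiset.induction_on with
  | empty =>
    refine ⟨0, Fin.elim0, by simp, fun u hu => ⟨0, zero_mem _, Fin.elim0, ?_⟩⟩
    have : all F (0 : Multiset (V × ℝ)) ≤ ⊥ := all_le (by simp)
    simpa using this hu
  | cons x s ih =>
    obtain ⟨n, h, hn, hu⟩ := ih
    have hl : low F s t ≤ low F (x ::ₘ s) t :=
      low_le fun y hy h => mem_low (Multiset.mem_cons_of_mem hy) h
    by_cases hx : x.2 ≤ t
    · refine ⟨n, h, by rw [cost_cons]; nlinarith [sq_nonneg x.2], fun u hu' => ?_⟩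
      rw [all_cons] at hu'
      obtain ⟨w, hw, z, hz, rfl⟩ := mem_sup.1 hu'
      obtain ⟨a, rfl⟩ := mem_span_singleton.1 hz
      obtain ⟨l, hl', c, rfl⟩ := hu w hw
      refine ⟨l + a • x.1, add_mem (hl hl')
        (smul_mem _ _ (mem_low (Multiset.mem_cons_self x s) hx)), c, by abel⟩
    · refine ⟨n + 1, Fin.cons x.1 h, ?_, fun u hu' => ?_⟩
      · rw [cost_cons]
        push_cast
        nlinarith [not_le.1 hx]
      · rw [all_cons] at hu'
        obtain ⟨w, hw, z, hz, rfl⟩ := mem_sup.1 hu'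
        obtain ⟨a, rfl⟩ := mem_span_singleton.1 hz
        obtain ⟨l, hl', c, rfl⟩ := hu w hw
        refine ⟨l, hl hl', Fin.cons a c, ?_⟩
        rw [Fin.sum_univ_succ]
        simp only [Fin.cons_zero, Fin.cons_succ]
        abel

lemma split_ker {κ : Type*} [DecidableEq κ] (φ : κ → V →ₗ[F] F) (z0 : Multiset (V × ℝ))
    (K : Finset κ) : ∃ z o : Multiset (V × ℝ), all F z ⊔ all F o = all F z0 ∧
      Multiset.card o ≤ K.card ∧ ∀ k ∈ K, all F z ≤ LinearMap.ker (φ k) := by
  induction K using Finset.induction_on with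
  | empty =>
    refine ⟨z0, 0, ?_, by simp, by simp⟩
    rw [sup_eq_left]
    exact all_le (by simp)
  | insert k K hk ih =>
    obtain ⟨z, o, h1, h2, h3⟩ := ih
    rw [Finset.card_insert_of_notMem hk]
    by_cases h : all F z ≤ LinearMap.ker (φ k)
    · refine ⟨z, o, h1, by omega, fun k' hk' => ?_⟩
      rcases Finset.mem_insert.1 hk' with rfl | hk'
      · exact h
      · exact h3 k' hk'
    · obtain ⟨x, z', -, -, e1, e2, -, -⟩ := hyperplane z (φ k) h
      refine ⟨z', x ::ₘ o, ?_, by simpa using h2, fun k' hk' => ?_⟩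
      · rw [all_cons, ← h1, e2]
        ac_rfl
      · rcases Finset.mem_insert.1 hk' with rfl | hk'
        · rw [e1]
          exact inf_le_right
        · rw [e1]
          exact inf_le_left.trans (h3 k' hk')

variable {ι : Type*} [Fintype ι] [DecidableEq ι]

lemma M_le_of_ker {κ : Type*} [Fintype κ] [DecidableEq κ]
    (μ : MultilinearMap F (fun _ : ι => V) F) (z0 : ι → Multiset (V × ℝ))
    (φ : κ → V →ₗ[F] F) (a : κ → ι)
    (h : ∀ v : ι → V, (∀ i, v i ∈ all F (z0 i)) → (∀ k, φ k (v (a k)) = 0) → μ v = 0) :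
    M μ (fun i => all F (z0 i)) ≤ Fintype.card κ := by
  choose z o h1 h2 h3 using fun i =>
    split_ker φ (z0 i) (Finset.univ.filter fun k => a k = i)
  let s : ι → Multiset (V × ℝ) := fun i =>
    (z i).map (fun x => (x.1, 0)) + (o i).map fun x => (x.1, 1)
  have hcov : Cover μ (fun i => all F (z0 i)) s := by
    refine ⟨fun i => ?_, fun x hx hne => ?_⟩
    · show _ = all F (z0 i)
      rw [← h1 i]
      refine le_antisymm (all_le fun y hy => ?_) (sup_le (all_le fun y hy => ?_)
        (all_le fun y hy => ?_))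
      · rcases Multiset.mem_add.1 hy with hy | hy
        · obtain ⟨w, hw, rfl⟩ := Multiset.mem_map.1 hy
          exact mem_sup_left (mem_all (x := w) hw)
        · obtain ⟨w, hw, rfl⟩ := Multiset.mem_map.1 hy
          exact mem_sup_right (mem_all (x := w) hw)
      · exact mem_all (x := (y.1, 0)) (Multiset.mem_add.2 (Or.inl (Multiset.mem_map_of_mem _ hy)))
      · exact mem_all (x := (y.1, 1)) (Multiset.mem_add.2 (Or.inr (Multiset.mem_map_of_mem _ hy)))
    · have hw : ∀ i, ((x i).2 = 0 ∧ (x i).1 ∈ all F (z i)) ∨ (x i).2 = 1 := by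
        intro i
        rcases Multiset.mem_add.1 (hx i) with hy | hy
        · obtain ⟨w, hw, hw'⟩ := Multiset.mem_map.1 hy
          rw [← hw']
          exact Or.inl ⟨rfl, mem_all (x := w) hw⟩
        · obtain ⟨w, hw, hw'⟩ := Multiset.mem_map.1 hy
          rw [← hw']
          exact Or.inr rfl
      by_contra hlt
      have h0 : ∀ i, (x i).1 ∈ all F (z i) := by
        intro i
        refine ((hw i).resolve_right fun h1 => hlt ?_).2
        rw [← h1]
        exact Finset.single_le_sum (f := fun i => (x i).2)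
          (fun i _ => by rcases hw i with h | h <;> simp [h]) (Finset.mem_univ i)
      refine hne (h _ (fun i => ?_) fun k => ?_)
      · rw [← h1 i]
        exact mem_sup_left (h0 i)
      · exact h3 (a k) k (by simp) (h0 _)
  refine (M_le hcov).trans ?_
  have hc : ∀ i, cost (s i) = Multiset.card (o i) := fun i => by
    simp [s, cost]
  rw [Finset.sum_congr rfl fun i _ => hc i, ← Finset.card_univ,
    Finset.card_eq_sum_card_fiberwise (f := a) (t := Finset.univ) (by simp)]
  push_cast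
  exact Finset.sum_le_sum fun i _ => by exact_mod_cast h2 i

end general

section slices

variable {F : Type*} [Field F] {d : ℕ} {X : Fin d → Type}

/-- sums of at most `r` slices -/
def Has (T : (∀ i, X i) → F) (r : ℕ) : Prop :=
  ∃ l : List ((∀ i, X i) → F), l.length ≤ r ∧ (∀ S ∈ l, IsSlice S) ∧ T = l.sum

lemma Has.add {T T' : (∀ i, X i) → F} {r r' : ℕ} (h : Has T r) (h' : Has T' r') :
    Has (T + T') (r + r') := by
  obtain ⟨l, h1, h2, rfl⟩ := h
  obtain ⟨l', h1', h2', rfl⟩ := h'
  refine ⟨l ++ l', by rw [List.length_append]; omega, fun S hS => ?_, by rw [List.sum_append]⟩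
  rcases List.mem_append.1 hS with h | h
  · exact h2 S h
  · exact h2' S h

lemma has_sum {n : ℕ} (S : Fin n → (∀ i, X i) → F) (h : ∀ k, IsSlice (S k)) :
    Has (∑ k, S k) n :=
  ⟨List.ofFn S, by simp, fun T hT => by
    obtain ⟨k, rfl⟩ := (List.mem_ofFn' _ _).1 hT
    exact h k, List.sum_ofFn.symm⟩

lemma Has.exists_fin {T : (∀ i, X i) → F} {r : ℕ} (h : Has T r) :
    ∃ n ≤ r, ∃ S : Fin n → (∀ i, X i) → F, (∀ k, IsSlice (S k)) ∧ T = ∑ k, S k := by
  obtain ⟨l, h1, h2, rfl⟩ := h
  refine ⟨l.length, h1, l.get, fun k => h2 _ (List.get_mem _ _), ?_⟩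
  rw [← List.sum_ofFn, List.ofFn_get]

lemma Has.rank_le {T : (∀ i, X i) → F} {r : ℕ} (h : Has T r) : sliceRank T ≤ r := by
  obtain ⟨n, hn, hS⟩ := h.exists_fin
  exact (Nat.sInf_le hS).trans hn

lemma Has.exists_rank {T : (∀ i, X i) → F} {r : ℕ} (h : Has T r) :
    ∃ S : Fin (sliceRank T) → (∀ i, X i) → F, (∀ k, IsSlice (S k)) ∧ T = ∑ k, S k := by
  obtain ⟨n, -, hS⟩ := h.exists_fin
  exact Nat.sInf_mem (s := {r | ∃ S : Fin r → (∀ i, X i) → F,
    (∀ k, IsSlice (S k)) ∧ T = ∑ k, S k}) ⟨n, hS⟩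

variable {V : Type*} [AddCommGroup V] [Module F V]

lemma has_of_cover [∀ i, Finite (X i)] (hd : 1 ≤ d) (μ : MultilinearMap F (fun _ : Fin d => V) F)
    (U : Fin d → Submodule F V) (s : Fin d → Multiset (V × ℝ)) (hs : Cover μ U s)
    (E : ∀ i, X i → V) (hE : ∀ i a, E i a ∈ U i) :
    ∃ r : ℕ, (r : ℝ) ≤ 4 * d ^ 2 * ∑ i, cost (s i) ∧ Has (fun x => μ fun i => E i (x i)) r := by
  have hd' : (0 : ℝ) < d := by exact_mod_cast hd
  choose n h hn hu using fun i => decomp (F := F) (s i) (t := 1 / (2 * d)) (by positivity)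
  choose l hl c hc using fun i a => hu i (E i a) (by rw [hs.1]; exact hE i a)
  let w : Finset (Fin d) → (∀ i, X i) → Fin d → V := fun A x i =>
    if i ∈ A then l i (x i) else E i (x i)
  have key : ∀ A : Finset (Fin d),
      Has (fun x : ∀ i, X i => μ (fun i => E i (x i)) - μ (w A x)) (∑ i ∈ A, n i) := by
    intro A
    induction A using Finset.induction_on with
    | empty => exact ⟨[], by simp, by simp, by ext x; simp [w]⟩
    | insert j A hj ih =>
      let S : Fin (n j) → (∀ i, X i) → F := fun k x => c j (x j) k * μ (update (w A x) j (h j k))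
      have hS : ∀ k, IsSlice (S k) := fun k => ⟨Set.toFinite _, j, fun a => c j a k, fun y =>
        μ fun i => if hi : i = j then h j k else
          if i ∈ A then l i (y ⟨i, hi⟩) else E i (y ⟨i, hi⟩), fun x => by
        simp only [S]
        congr 2
        ext1 i
        by_cases hi : i = j
        · subst hi
          simp
        · simp [hi, w]⟩
      have h1 := (has_sum S hS).add ih
      rw [Finset.sum_insert hj]
      convert h1 using 1
      ext x
      have e1 : w A x = update (w A x) j (l j (x j) + ∑ k, c j (x j) k • h j k) := by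
        rw [← hc]
        ext1 i
        by_cases hi : i = j
        · subst hi
          simp [w, hj]
        · simp [hi]
      have e2 : w (insert j A) x = update (w A x) j (l j (x j)) := by
        ext1 i
        by_cases hi : i = j
        · subst hi
          simp [w]
        · simp [hi, w]
      have e3 : μ (w A x) = μ (w (insert j A) x) + ∑ k, S k x := by
        rw [e1, e2, μ.map_update_add, μ.map_update_sum]
        simp only [S, μ.map_update_smul, smul_eq_mul]
      simp only [Pi.add_apply, Finset.sum_apply]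
      rw [e3]
      ring
  refine ⟨∑ i, n i, ?_, ?_⟩
  · push_cast
    rw [Finset.mul_sum]
    refine Finset.sum_le_sum fun i _ => ?_
    have := hn i
    rw [div_pow, one_pow, mul_one_div, div_le_iff₀ (by positivity)] at this
    nlinarith
  · convert key Finset.univ using 1
    ext x
    rw [hs.vanish (fun _ => 1 / (2 * d)) ?_ (w Finset.univ x) fun i => by simpa [w] using hl i _,
      sub_zero]
    rw [Finset.sum_const, Finset.card_univ, Fintype.card_fin, nsmul_eq_mul]
    rw [mul_one_div, div_lt_one (by positivity)]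
    linarith

end slices

section tensors

variable {F : Type*} [Field F] {d : ℕ}

/-- the multilinear form of a tensor, summed over the box `J0` -/
noncomputable def form (T : (Fin d → ℕ) → F) (J0 : Fin d → Finset ℕ) :
    MultilinearMap F (fun _ : Fin d => ℕ → F) F :=
  ∑ x ∈ Fintype.piFinset J0, T x • (MultilinearMap.mkPiAlgebra F (Fin d) F).compLinearMap
    fun i => LinearMap.proj (x i)

lemma form_apply (T : (Fin d → ℕ) → F) (J0 : Fin d → Finset ℕ) (v : Fin d → ℕ → F) :
    form T J0 v = ∑ x ∈ Fintype.piFinset J0, T x * ∏ i, v i (x i) := by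
  simp [form, MultilinearMap.sum_apply]

/-- basis vectors -/
noncomputable def ee (j : ℕ) : ℕ → F := Pi.single j 1

lemma form_eq {T : (Fin d → ℕ) → F} {J0 : Fin d → Finset ℕ}
    (hT : ∀ x, T x ≠ 0 → ∀ i, x i ∈ J0 i) (J : Fin d → Finset ℕ) (v : Fin d → ℕ → F)
    (hv : ∀ i, v i ∈ span F (ee '' J i)) :
    form T J0 v = ∑ x : ∀ i, J i, restrict T J x * ∏ i, v i (x i) := by
  have hv0 : ∀ i a, a ∉ J i → v i a = 0 := fun i a ha => by
    have : span F (ee '' J i) ≤ LinearMap.ker (LinearMap.proj (R := F) (φ := fun _ : ℕ => F) a) :=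
      span_le.2 (by
        rintro _ ⟨b, hb, rfl⟩
        have : a ≠ b := by
          rintro rfl
          exact ha hb
        simp [ee, this])
    exact this (hv i)
  rw [form_apply]
  have e1 : ∑ x : ∀ i, J i, restrict T J x * ∏ i, v i (x i) =
      ∑ x ∈ Fintype.piFinset J, T x * ∏ i, v i (x i) := by
    refine Finset.sum_bij (fun x _ i => (x i : ℕ)) (fun x _ => by simp) (fun x _ y _ h => ?_)
      (fun y hy => ⟨fun i => ⟨y i, Fintype.mem_piFinset.1 hy i⟩, Finset.mem_univ _, rfl⟩)
      fun x _ => rfl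
    ext i
    exact congrFun h i
  rw [e1]
  have e2 : ∀ A B : Finset (Fin d → ℕ), (∀ x ∈ A, x ∉ B → T x * ∏ i, v i (x i) = 0) →
      ∑ x ∈ A, T x * ∏ i, v i (x i) = ∑ x ∈ A ∩ B, T x * ∏ i, v i (x i) := fun A B h =>
    (Finset.sum_subset Finset.inter_subset_left fun x hx hx' =>
      h x hx fun hB => hx' (Finset.mem_inter.2 ⟨hx, hB⟩)).symm
  rw [e2 _ (Fintype.piFinset J), e2 (Fintype.piFinset J) (Fintype.piFinset J0), Finset.inter_comm]
  · intro x _ hx
    have : T x = 0 := by
      by_contra h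
      exact hx (Fintype.mem_piFinset.2 (hT x h))
    rw [this, zero_mul]
  · intro x _ hx
    rw [Fintype.mem_piFinset] at hx
    push Not at hx
    obtain ⟨i, hi⟩ := hx
    rw [Finset.prod_eq_zero (Finset.mem_univ i) (hv0 i _ hi), mul_zero]

lemma form_ee {T : (Fin d → ℕ) → F} {J0 : Fin d → Finset ℕ}
    (hT : ∀ x, T x ≠ 0 → ∀ i, x i ∈ J0 i) (J : Fin d → Finset ℕ) :
    restrict T J = fun x => form T J0 fun i => ee (x i : ℕ) := by
  ext x
  rw [form_eq hT J _ fun i => subset_span ⟨_, (x i).2, rfl⟩, Finset.sum_eq_single x]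
  · simp [ee]
  · intro y _ hy
    obtain ⟨i, hi⟩ := Function.ne_iff.1 hy
    have : ((y i : ℕ)) ≠ x i := fun h => hi (Subtype.ext h)
    rw [Finset.prod_eq_zero (Finset.mem_univ i) (by simp [ee, this]), mul_zero]
  · simp

lemma has_restrict (hd : 1 ≤ d) {T : (Fin d → ℕ) → F} {J0 : Fin d → Finset ℕ}
    (hT : ∀ x, T x ≠ 0 → ∀ i, x i ∈ J0 i) (J : Fin d → Finset ℕ)
    (s : Fin d → Multiset ((ℕ → F) × ℝ))
    (hs : Cover (form T J0) (fun i => span F (ee '' J i)) s) :
    ∃ r : ℕ, (r : ℝ) ≤ 4 * d ^ 2 * ∑ i, cost (s i) ∧ Has (restrict T J) r := by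
  rw [form_ee hT J]
  exact has_of_cover hd _ _ s hs (fun i (a : J i) => ee (a : ℕ))
    fun i a => subset_span ⟨_, a.2, rfl⟩

lemma rank_le_mJ (hd : 1 ≤ d) {T : (Fin d → ℕ) → F} {J0 : Fin d → Finset ℕ}
    (hT : ∀ x, T x ≠ 0 → ∀ i, x i ∈ J0 i) (J : Fin d → Finset ℕ) :
    (sliceRank (restrict T J) : ℝ) ≤ 4 * d ^ 2 * mJ (form T J0) ee J := by
  have hd' : (0 : ℝ) < d := by exact_mod_cast hd
  have : Nonempty (Fin d) := ⟨⟨0, hd⟩⟩
  rw [← div_le_iff₀' (by positivity)]
  refine le_csInf (costSet_nonempty _ _) ?_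
  rintro _ ⟨s, hs, rfl⟩
  obtain ⟨r, hr, h⟩ := has_restrict hd hT J s hs
  rw [div_le_iff₀' (by positivity)]
  exact le_trans (by exact_mod_cast h.rank_le) hr

lemma exists_has (hd : 1 ≤ d) {T : (Fin d → ℕ) → F} {J0 : Fin d → Finset ℕ}
    (hT : ∀ x, T x ≠ 0 → ∀ i, x i ∈ J0 i) (J : Fin d → Finset ℕ) :
    ∃ r, Has (restrict T J) r := by
  have : Nonempty (Fin d) := ⟨⟨0, hd⟩⟩
  obtain ⟨_, s, hs, rfl⟩ := costSet_nonempty (μ := form T J0) ee J
  obtain ⟨r, -, h⟩ := has_restrict hd hT J s hs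
  exact ⟨r, h⟩

lemma mJ_le_rank (hd : 1 ≤ d) {T : (Fin d → ℕ) → F} {J0 : Fin d → Finset ℕ}
    (hT : ∀ x, T x ≠ 0 → ∀ i, x i ∈ J0 i) (J : Fin d → Finset ℕ) :
    mJ (form T J0) ee J ≤ sliceRank (restrict T J) := by
  obtain ⟨r, hr⟩ := exists_has hd hT J
  obtain ⟨S, hS, hsum⟩ := hr.exists_rank
  choose a f g hfg using fun k => (hS k).2
  let z0 : Fin d → Multiset ((ℕ → F) × ℝ) := fun i => (J i).val.map fun j => (ee j, 0)
  have hz : ∀ i, all F (z0 i) = span F (ee '' J i) := fun i => by
    refine le_antisymm (all_le fun x hx => ?_) (span_le.2 ?_)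
    · obtain ⟨j, hj, rfl⟩ := Multiset.mem_map.1 hx
      exact subset_span ⟨j, hj, rfl⟩
    · rintro _ ⟨j, hj, rfl⟩
      exact mem_all (x := (ee j, 0)) (Multiset.mem_map_of_mem _ hj)
  have := M_le_of_ker (form T J0) z0
    (fun k => ∑ b : J (a k), f k b • LinearMap.proj (b : ℕ)) a fun v hv hk => by
      rw [form_eq hT J v fun i => hz i ▸ hv i]
      conv_lhs => rw [hsum]
      simp only [Finset.sum_apply, Finset.sum_mul]
      rw [Finset.sum_comm]
      refine Finset.sum_eq_zero fun k _ => ?_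
      have h1 := hk k
      simp only [LinearMap.sum_apply, LinearMap.smul_apply, LinearMap.proj_apply,
        smul_eq_mul] at h1
      rw [← (Equiv.piSplitAt (a k) fun i => J i).symm.sum_comp, Fintype.sum_prod_type_right]
      refine Finset.sum_eq_zero fun y _ => ?_
      have h2 : ∀ b : J (a k), S k ((Equiv.piSplitAt (a k) fun i => J i).symm (b, y)) *
          ∏ i, v i ((Equiv.piSplitAt (a k) fun i => J i).symm (b, y) i) =
          (f k b * v (a k) b) * (g k y * ∏ i : {i // i ≠ a k}, v i (y i)) := fun b => by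
        rw [hfg, Fintype.prod_eq_mul_prod_subtype_ne _ (a k)]
        have e1 : (Equiv.piSplitAt (a k) fun i => J i).symm (b, y) (a k) = b := by simp
        have e2 : ∀ j : {i // i ≠ a k},
            (Equiv.piSplitAt (a k) fun i => J i).symm (b, y) j = y j := fun j => by
          simp [j.2]
        simp only [e1, e2]
        ring
      rw [Finset.sum_congr rfl fun b _ => h2 b, ← Finset.sum_mul, h1, zero_mul]
  simpa [mJ, hz] using this

lemma has_of_restrict {T : (Fin d → ℕ) → F} {J0 : Fin d → Finset ℕ}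
    (hT : ∀ x, T x ≠ 0 → ∀ i, x i ∈ J0 i) {r : ℕ} (S : Fin r → (∀ i, J0 i) → F)
    (hS : ∀ k, IsSlice (S k)) (hsum : restrict T J0 = ∑ k, S k) : Has T r := by
  classical
  let S' : Fin r → (Fin d → ℕ) → F := fun k x =>
    if h : ∀ i, x i ∈ J0 i then S k fun i => ⟨x i, h i⟩ else 0
  have e : T = ∑ k, S' k := by
    ext x
    rw [Finset.sum_apply]
    by_cases h : ∀ i, x i ∈ J0 i
    · have := congrFun hsum fun i => ⟨x i, h i⟩
      rw [Finset.sum_apply] at this
      simp only [S', dif_pos h]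
      exact this
    · simp only [S', dif_neg h, Finset.sum_const_zero]
      by_contra h0
      exact h (hT x h0)
  rw [e]
  refine has_sum S' fun k => ⟨(Fintype.piFinset J0).finite_toSet.subset fun x hx => ?_, ?_⟩
  · by_contra h
    rw [Finset.mem_coe, Fintype.mem_piFinset] at h
    exact hx (dif_neg h)
  · obtain ⟨-, i, f, g, h⟩ := hS k
    refine ⟨i, fun a => if h : a ∈ J0 i then f ⟨a, h⟩ else 0,
      fun y => if h : ∀ j : {j // j ≠ i}, y j ∈ J0 j then g fun j => ⟨y j, h j⟩ else 0, fun x => ?_⟩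
    by_cases hx : ∀ i, x i ∈ J0 i
    · simp only [S', dif_pos hx, h]
      rw [dif_pos (hx i), dif_pos fun j : {j // j ≠ i} => hx j]
    · simp only [S', dif_neg hx]
      by_cases h1 : x i ∈ J0 i
      · rw [dif_neg (c := ∀ j : {j // j ≠ i}, x j ∈ J0 j), mul_zero]
        refine fun h2 => hx fun j => ?_
        by_cases hj : j = i
        · rwa [hj]
        · exact h2 ⟨j, hj⟩
      · rw [dif_neg h1, zero_mul]

lemma rank_restrict_le {T : (Fin d → ℕ) → F} {r : ℕ} (h : Has T r) (J : Fin d → Finset ℕ) :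
    sliceRank (restrict T J) ≤ sliceRank T := by
  obtain ⟨S, hS, hsum⟩ := h.exists_rank
  have e : restrict T J = ∑ k, restrict (S k) J := by
    ext x
    have := congrFun hsum fun i => x i
    rw [Finset.sum_apply] at this ⊢
    exact this
  rw [e]
  refine (has_sum _ fun k => ⟨Set.toFinite _, ?_⟩).rank_le
  obtain ⟨-, i, f, g, h⟩ := hS k
  exact ⟨i, fun a => f a, fun y => g fun j => y j, fun x => h _⟩

theorem slice_core (hd : 1 ≤ d) (T : (Fin d → ℕ) → F) (hfin : (support T).Finite) :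
    ∃ J : Fin d → Finset ℕ, (∀ i, (J i).card ≤ sliceRank T) ∧
      (1 / (128 * (d : ℝ) ^ 2)) ^ d / (4 * d ^ 2) * sliceRank T ≤ sliceRank (restrict T J) := by
  classical
  have hd' : (0 : ℝ) < d := by exact_mod_cast hd
  let J0 : Fin d → Finset ℕ := fun i => hfin.toFinset.image fun x => x i
  have hT : ∀ x, T x ≠ 0 → ∀ i, x i ∈ J0 i := fun x hx i =>
    Finset.mem_image_of_mem _ (hfin.mem_toFinset.2 hx)
  obtain ⟨r, hr⟩ := exists_has hd hT J0
  obtain ⟨S, hS, hsum⟩ := hr.exists_rank
  have h0 := has_of_restrict hT S hS hsum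
  obtain ⟨J, hJ, hm⟩ := core (μ := form T J0) ee J0 d (by simp) (by exact_mod_cast hd)
    (sliceRank T) fun J => (mJ_le_rank hd hT J).trans (by exact_mod_cast rank_restrict_le h0 J)
  refine ⟨J, hJ, le_trans ?_ (hm.trans (mJ_le_rank hd hT J))⟩
  rw [Fintype.card_fin, div_mul_eq_mul_div, mul_div_assoc]
  refine mul_le_mul_of_nonneg_left ?_ (by positivity)
  rw [div_le_iff₀' (by positivity)]
  exact le_trans (by exact_mod_cast h0.rank_le) (rank_le_mJ hd hT J0)

end tensors

section small

variable {F : Type*} [Field F] {d : ℕ} {X : Fin d → Type}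

lemma isPart_iff (h2 : 2 ≤ d) (h3 : d ≤ 3) (T : (∀ i, X i) → F) : IsPart T ↔ IsSlice T := by
  refine and_congr_right fun _ => ⟨?_, ?_⟩
  · rintro ⟨S, h0, h1, f, g, h⟩
    have c0 : 0 < S.card := Finset.card_pos.2 (Finset.nonempty_iff_ne_empty.2 h0)
    have c1 : 0 < Sᶜ.card := Finset.card_pos.2 (Finset.nonempty_iff_ne_empty.2 (by simpa using h1))
    have c2 : S.card + Sᶜ.card = d := by simp
    rcases (by omega : S.card = 1 ∨ Sᶜ.card = 1) with c | c
    · obtain ⟨i, rfl⟩ := Finset.card_eq_one.1 c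
      refine ⟨i, fun a => f fun j => (Finset.mem_singleton.1 j.2).symm ▸ a,
        fun y => g fun j => y ⟨j, fun e => j.2 (Finset.mem_singleton.2 e)⟩, fun x => ?_⟩
      rw [h]
      congr 2
      ext ⟨j, hj⟩
      obtain rfl := Finset.mem_singleton.1 hj
      rfl
    · obtain ⟨i, hi⟩ := Finset.card_eq_one.1 c
      have hi' : ∀ j, j ∉ S ↔ j = i := fun j => by
        rw [← Finset.mem_compl, hi, Finset.mem_singleton]
      refine ⟨i, fun a => g fun j => ((hi' j).1 j.2).symm ▸ a,
        fun y => f fun j => y ⟨j, fun e => (hi' j).2 e j.2⟩, fun x => ?_⟩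
      rw [h, mul_comm]
      congr 2
      ext ⟨j, hj⟩
      obtain rfl := (hi' j).1 hj
      rfl
  · rintro ⟨i, f, g, h⟩
    refine ⟨{i}, by simp, fun e => ?_, fun y => f (y ⟨i, by simp⟩),
      fun y => g fun j => y ⟨j, by simpa using j.2⟩, fun x => h x⟩
    have := congrArg Finset.card e
    simp at this
    omega

lemma partRank_eq (h2 : 2 ≤ d) (h3 : d ≤ 3) (T : (∀ i, X i) → F) : partRank T = sliceRank T := by
  simp only [partRank, sliceRank, isPart_iff h2 h3]

end small

end Pool.Agent.H181Z.SR
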